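import Pool.Agent.Lib_helper61.FG.Defs
import Pool.Agent.Lib_helper35.Var.Elem

set_option autoImplicit false

namespace Pool.Agent.FG61

open Finset Filter Topology
open Pool.Agent.Var35 (e)

theorem CE_flip (r n : ℕ) (hr : 1 ≤ r) (F : ℕ → ℂ) :
    ∑ d ∈ r.divisors, F d * (if ((r / d : ℕ) : ℤ) ∣ (n : ℤ) then ((r / d : ℕ) : ℂ) else 0) =
      ∑ c ∈ r.divisors, F (r / c) * (if c ∣ n then (c : ℂ) else 0) := by
  rw [← Nat.sum_div_divisors r (fun c => F (r / c) * (if c ∣ n then (c : ℂ) else 0))]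
  refine sum_congr rfl fun d hd => ?_
  have h1 : r / (r / d) = d := Nat.div_div_self (Nat.dvd_of_mem_divisors hd) (by omega)
  rw [h1]
  have h2 : (((r / d : ℕ) : ℤ) ∣ (n : ℤ)) ↔ (r / d ∣ n) := Int.natCast_dvd_natCast
  simp only [h2]

/-- CE -/
theorem cc_exp (r n : ℕ) (hr : 1 ≤ r) :
    ((cc r n : ℝ) : ℂ) = ∑ a ∈ (range r).filter (fun a => Nat.Coprime a r), e ((a : ℝ) * n / r) := by
  have h1 : ∑ a ∈ (range r).filter (fun a => Nat.Coprime a r), e ((a : ℝ) * n / r) =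
      Pool.Agent.Var35.ram r (n : ℤ) := by
    unfold Pool.Agent.Var35.ram
    refine sum_congr rfl fun a _ => ?_
    rw [mul_div_assoc, Int.cast_natCast]
  rw [h1, Pool.Agent.Var35.ram_eq r hr, CE_flip r n hr (fun d => ((ArithmeticFunction.moebius d : ℤ) : ℂ))]
  have h2 : ∑ c ∈ r.divisors, ((ArithmeticFunction.moebius (r / c) : ℤ) : ℂ) * (if c ∣ n then (c : ℂ) else 0)
      = ∑ c ∈ r.divisors.filter (fun c => c ∣ n), ((ArithmeticFunction.moebius (r / c) : ℤ) : ℂ) * (c : ℂ) := by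
    rw [sum_filter]
    refine sum_congr rfl fun c _ => ?_
    split_ifs <;> simp
  have h3 : r.divisors.filter (fun c => c ∣ n) = (Nat.gcd r n).divisors := by
    ext c
    rw [mem_filter, Nat.mem_divisors, Nat.mem_divisors, Nat.dvd_gcd_iff]
    constructor
    · rintro ⟨⟨h4, h5⟩, h6⟩
      exact ⟨⟨h4, h6⟩, fun h => h5 (Nat.eq_zero_of_gcd_eq_zero_left h)⟩
    · rintro ⟨⟨h4, h6⟩, h5⟩
      exact ⟨⟨h4, by omega⟩, h6⟩
  rw [h2, h3]
  unfold cc
  push_cast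
  refine sum_congr rfl fun c _ => ?_
  rw [mul_comm]

end Pool.Agent.FG61
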