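import Pool.Agent.Lib_helper61.FG.Defs

set_option autoImplicit false

namespace Pool.Agent.FG61

open Finset Filter Topology

theorem FL_rad_ne (n : ℕ) : rad n ≠ 0 := by
  unfold rad
  exact Finset.prod_ne_zero_iff.2 (fun p hp => (Nat.prime_of_mem_primeFactors hp).ne_zero)

theorem FL_sqf (n : ℕ) : Squarefree (rad n) := by
  unfold rad
  refine Finset.squarefree_prod_of_pairwise_isCoprime ?_ ?_
  · intro p hp q hq hpq
    have hp' := Nat.prime_of_mem_primeFactors (Finset.mem_coe.1 hp)
    have hq' := Nat.prime_of_mem_primeFactors (Finset.mem_coe.1 hq)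
    exact Nat.coprime_iff_isRelPrime.1 ((Nat.coprime_primes hp' hq').2 hpq)
  · intro p hp
    exact (Nat.prime_of_mem_primeFactors hp).squarefree

theorem FL_dvd (n : ℕ) : rad n ∣ n := Nat.prod_primeFactors_dvd n

theorem FL_pf (n : ℕ) : (rad n).primeFactors = n.primeFactors := by
  unfold rad
  exact Nat.primeFactors_prod (fun p hp => Nat.prime_of_mem_primeFactors hp)

theorem FL_dvd_iff (n d : ℕ) (hn : n ≠ 0) (hd : Squarefree d) : d ∣ n ↔ d ∣ rad n := by
  constructor
  · intro h
    rw [← Nat.prod_primeFactors_of_squarefree hd]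
    unfold rad
    exact Finset.prod_dvd_prod_of_subset _ _ _ (Nat.primeFactors_mono h hn)
  · intro h
    exact h.trans (FL_dvd n)

theorem FL_Lam (n : ℕ) (hn : 2 ≤ n) : Lam (rad n) = Lam n := by
  have hpf := FL_pf n
  have hne : n.primeFactors.Nonempty := Nat.nonempty_primeFactors.2 (by omega)
  by_cases h : IsPrimePow n
  · have h1 : n.primeFactors.card = 1 := isPrimePow_iff_card_primeFactors_eq_one.1 h
    have h2 : IsPrimePow (rad n) := by
      rw [isPrimePow_iff_card_primeFactors_eq_one, hpf, h1]
    obtain ⟨p, hp⟩ := Finset.card_eq_one.1 h1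
    have h3 : n.minFac = p := by
      have : n.minFac ∈ n.primeFactors :=
        Nat.mem_primeFactors.2 ⟨Nat.minFac_prime (by omega), Nat.minFac_dvd n, by omega⟩
      rw [hp] at this
      exact Finset.mem_singleton.1 this
    have h4 : (rad n).minFac = p := by
      have h5 : rad n ≠ 1 := by
        intro h6
        rw [h6] at h2
        exact not_isPrimePow_one h2
      have : (rad n).minFac ∈ (rad n).primeFactors :=
        Nat.mem_primeFactors.2 ⟨Nat.minFac_prime h5, Nat.minFac_dvd _, FL_rad_ne n⟩
      rw [hpf, hp] at this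
      exact Finset.mem_singleton.1 this
    simp only [Lam, ArithmeticFunction.vonMangoldt_apply, if_pos h, if_pos h2, h3, h4]
  · have h2 : ¬ IsPrimePow (rad n) := by
      rw [isPrimePow_iff_card_primeFactors_eq_one, hpf, ← isPrimePow_iff_card_primeFactors_eq_one]
      exact h
    simp only [Lam, ArithmeticFunction.vonMangoldt_apply, if_neg h, if_neg h2]

theorem FL_ff (R : ℝ) (n : ℕ) (hn : n ≠ 0) :
    ff R n = ∑ d ∈ (rad n).divisors, if (d : ℝ) ≤ R then mu d * Real.log (R / d) else 0 := by
  unfold ff
  rw [Finset.sum_filter]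
  symm
  apply Finset.sum_subset
  · intro d hd
    rw [Nat.mem_divisors] at hd ⊢
    exact ⟨hd.1.trans (FL_dvd n), hn⟩
  · intro d hd hd'
    have h1 : ¬ Squarefree d := by
      intro h
      apply hd'
      rw [Nat.mem_divisors] at hd ⊢
      exact ⟨(FL_dvd_iff n d hn h).1 hd.1, FL_rad_ne n⟩
    have h2 : mu d = 0 := by
      simp [mu, ArithmeticFunction.moebius_eq_zero_of_not_squarefree h1]
    rw [h2]
    simp

theorem flip (R : ℝ) (hR : 1 ≤ R) (n : ℕ) (hn : 2 ≤ n) :
    ff R n - Lam n = mu (rad n) * ff ((rad n : ℕ) / R) (rad n) := by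
  have hn0 : n ≠ 0 := by omega
  have hR0 : 0 < R := by linarith
  have hs0 := FL_rad_ne n
  have hsq := FL_sqf n
  set s := rad n with hs
  have hrs : rad s = s := by
    have := Nat.prod_primeFactors_of_squarefree hsq
    exact this
  have hs2 : s ≠ 1 := by
    intro h
    have h1 := FL_pf n
    rw [← hs, h] at h1
    have hne : n.primeFactors.Nonempty := Nat.nonempty_primeFactors.2 (by omega)
    rw [← h1] at hne
    simp at hne
  -- the full sum
  have hfull : ∑ d ∈ s.divisors, mu d * Real.log (R / d) = Lam n := by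
    have h1 : ∀ d ∈ s.divisors, mu d * Real.log (R / d)
        = Real.log R * mu d - mu d * Real.log d := by
      intro d hd
      have hd0 : (d : ℝ) ≠ 0 := by
        have := Nat.pos_of_mem_divisors hd
        positivity
      rw [Real.log_div hR0.ne' hd0]
      ring
    rw [Finset.sum_congr rfl h1, Finset.sum_sub_distrib, ← Finset.mul_sum]
    have h2 : ∑ d ∈ s.divisors, mu d = 0 := by
      have h3 : ∑ d ∈ s.divisors, ArithmeticFunction.moebius d = 0 := by
        have h4 := congrArg (fun f : ArithmeticFunction ℤ => f s)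
          ArithmeticFunction.moebius_mul_coe_zeta
        rw [ArithmeticFunction.coe_mul_zeta_apply, ArithmeticFunction.one_apply, if_neg hs2] at h4
        exact h4
      have h5 : ((∑ d ∈ s.divisors, ArithmeticFunction.moebius d : ℤ) : ℝ) = 0 := by
        rw [h3]; simp
      rw [Int.cast_sum] at h5
      exact h5
    have h3 : ∑ d ∈ s.divisors, mu d * Real.log d = - Lam s := by
      have := ArithmeticFunction.sum_moebius_mul_log_eq (n := s)
      simpa [ArithmeticFunction.log_apply] using this
    rw [h2, h3, FL_Lam n hn]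
    ring
  -- left side
  have hL := FL_ff R n hn0
  rw [← hs] at hL
  have hRt := FL_ff ((s : ℝ) / R) s hs0
  rw [hrs] at hRt
  rw [hL, hRt, ← hfull, ← Nat.sum_div_divisors s (fun d : ℕ => if (d : ℝ) ≤ (s : ℝ) / R then
    mu d * Real.log ((s : ℝ) / R / d) else 0), Finset.mul_sum, ← Finset.sum_sub_distrib]
  apply Finset.sum_congr rfl
  intro d hd
  have hd1 : d ∣ s := Nat.dvd_of_mem_divisors hd
  have hdpos := Nat.pos_of_mem_divisors hd
  have hd0 : (0 : ℝ) < d := by exact_mod_cast hdpos
  have hs' : (0 : ℝ) < s := by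
    have := Nat.pos_of_ne_zero hs0
    exact_mod_cast this
  have hcast : ((s / d : ℕ) : ℝ) = (s : ℝ) / d := Nat.cast_div hd1 hd0.ne'
  have hmu : mu s * mu (s / d) = mu d := by
    obtain ⟨e, he⟩ := hd1
    have hsd : s / d = e := by
      rw [he]; exact Nat.mul_div_cancel_left e hdpos
    have hcop : Nat.Coprime d e := by
      rw [he] at hsq
      exact Nat.coprime_of_squarefree_mul hsq
    have h1 : mu s = mu d * mu e := by
      rw [he]
      simp only [mu]
      rw [ArithmeticFunction.isMultiplicative_moebius.map_mul_of_coprime hcop]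
      push_cast
      ring
    have he2 : Squarefree e := by
      rw [he] at hsq
      exact hsq.of_mul_right
    have h2 : mu e * mu e = 1 := by
      have := ArithmeticFunction.moebius_sq_eq_one_of_squarefree he2
      have h3 : ((ArithmeticFunction.moebius e : ℤ) : ℝ) ^ 2 = 1 := by exact_mod_cast this
      simp only [mu]
      nlinarith [h3]
    rw [hsd, h1, mul_assoc, h2, mul_one]
  have hc : ((s : ℝ) / d ≤ (s : ℝ) / R) ↔ R ≤ d := by
    rw [div_le_div_iff_of_pos_left hs' hd0 hR0]
  rw [hcast]
  have hq : (s : ℝ) / R / (s / d) = (R / d)⁻¹ := by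
    field_simp
  rw [hq, Real.log_inv]
  by_cases h1 : (d : ℝ) ≤ R
  · rw [if_pos h1]
    by_cases h2 : R ≤ d
    · have h3 : R = d := le_antisymm h2 h1
      rw [if_pos (hc.2 h2), h3, div_self hd0.ne']
      simp
    · rw [if_neg (fun h => h2 (hc.1 h))]
      ring
  · have h2 : R ≤ d := by
      push Not at h1
      exact h1.le
    rw [if_neg h1, if_pos (hc.2 h2), ← mul_assoc, hmu]
    ring


end Pool.Agent.FG61
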