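import Pool.Agent.Lib_helper61.FG.Defs
import Pool.Agent.Lib_helper90.PNT.WienerIkehara

/-! Block MU (helper8): `M(x) = o(x)` from the Wiener-Ikehara theorem. -/

set_option autoImplicit false

namespace Pool.Agent.FG61

open Finset Filter Topology

theorem MU_abs (n : ℕ) : |mu n| ≤ 1 := by
  have := ArithmeticFunction.abs_moebius_le_one (n := n)
  rw [← Int.cast_abs]
  exact_mod_cast this

/-- the function `ζ(s) - 1/(s-1)`, continued to `s = 1` -/
noncomputable def MU_G : ℂ → ℂ :=
  Function.update (fun s => riemannZeta s - 1 / (s - 1)) 1 (Real.eulerMascheroniConstant : ℂ)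

/-- the function `1/ζ(s)`, continued to `s = 1` -/
noncomputable def MU_H : ℂ → ℂ := Function.update (fun s => 1 / riemannZeta s) 1 0

theorem MU_G_cont : ContinuousOn MU_G {s | 1 ≤ s.re} := by
  intro s hs
  apply ContinuousAt.continuousWithinAt
  by_cases h : s = 1
  · subst h
    rw [MU_G, continuousAt_update_same]
    exact tendsto_riemannZeta_sub_one_div
  · rw [MU_G, continuousAt_update_of_ne h]
    have h1 : s - 1 ≠ 0 := sub_ne_zero.2 h
    refine (differentiableAt_riemannZeta h).continuousAt.sub ?_
    exact continuousAt_const.div (continuousAt_id.sub continuousAt_const) h1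

theorem MU_H_cont : ContinuousOn MU_H {s | 1 ≤ s.re} := by
  intro s hs
  apply ContinuousAt.continuousWithinAt
  by_cases h : s = 1
  · subst h
    rw [MU_H, continuousAt_update_same]
    have h1 : Tendsto (fun s : ℂ => (s - 1) / ((s - 1) * riemannZeta s)) (𝓝[≠] 1) (𝓝 (0 / 1)) := by
      apply Tendsto.div _ riemannZeta_residue_one one_ne_zero
      have h2 : Tendsto (fun s : ℂ => s - 1) (𝓝 1) (𝓝 (1 - 1)) :=
        tendsto_id.sub_const 1
      rw [sub_self] at h2
      exact h2.mono_left nhdsWithin_le_nhds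
    rw [zero_div] at h1
    refine h1.congr' ?_
    filter_upwards [self_mem_nhdsWithin] with s hs1
    have h3 : s - 1 ≠ 0 := sub_ne_zero.2 hs1
    rw [div_mul_eq_div_div, div_self h3]
  · rw [MU_H, continuousAt_update_of_ne h]
    exact continuousAt_const.div (differentiableAt_riemannZeta h).continuousAt
      (riemannZeta_ne_zero_of_one_le_re hs)

/-- MU -/
theorem mu_lim : Tendsto (fun x : ℝ => (∑ m ∈ Icc 1 ⌊x⌋₊, mu m) / x) atTop (𝓝 0) := by
  have hwi : Tendsto (fun x : ℝ => (∑ k ∈ Finset.Icc 1 ⌊x⌋₊, (1 + mu k)) / x) atTop (𝓝 1) := by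
    refine Pool.Agent.Lib_helper90.PNT.wiener_ikehara (f := fun n => 1 + mu n) (C := 2)
      (F := fun s => MU_G s + MU_H s) ?_ ?_ (MU_G_cont.add MU_H_cont) ?_
    · intro n
      have := (abs_le.1 (MU_abs n)).1
      linarith
    · intro n
      calc ∑ k ∈ Finset.Icc 1 n, (1 + mu k) ≤ ∑ k ∈ Finset.Icc 1 n, (2 : ℝ) :=
            Finset.sum_le_sum fun k _ => by
              have := (abs_le.1 (MU_abs k)).2
              linarith
        _ = 2 * n := by
          rw [Finset.sum_const, Nat.card_Icc, nsmul_eq_mul, Nat.add_sub_cancel]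
          ring
    · intro s hs
      have hs1 : s ≠ 1 := by
        rintro rfl
        simp at hs
      have h1 : MU_G s = riemannZeta s - 1 / (s - 1) := Function.update_of_ne hs1 _ _
      have h2 : MU_H s = 1 / riemannZeta s := Function.update_of_ne hs1 _ _
      have h3 : LSeries (fun n => (((1 + mu n : ℝ)) : ℂ)) s =
          riemannZeta s + LSeries (fun n => ((ArithmeticFunction.moebius n : ℤ) : ℂ)) s := by
        have h4 : (fun n : ℕ => (((1 + mu n : ℝ)) : ℂ)) =
            (1 : ℕ → ℂ) + (fun n => ((ArithmeticFunction.moebius n : ℤ) : ℂ)) := by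
          funext n
          simp
        rw [h4, LSeries_add (LSeriesSummable_one_iff.2 hs)
          (ArithmeticFunction.LSeriesSummable_moebius_iff.2 hs), LSeries_one_eq_riemannZeta hs]
      have h5 : riemannZeta s * LSeries (fun n => ((ArithmeticFunction.moebius n : ℤ) : ℂ)) s = 1 := by
        have h6 := ArithmeticFunction.LSeries_zeta_mul_Lseries_moebius hs
        rwa [ArithmeticFunction.LSeries_zeta_eq_riemannZeta hs] at h6
      have h7 : riemannZeta s ≠ 0 := riemannZeta_ne_zero_of_one_lt_re hs
      have h8 : LSeries (fun n => ((ArithmeticFunction.moebius n : ℤ) : ℂ)) s = 1 / riemannZeta s := by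
        rw [eq_div_iff h7, mul_comm]
        exact h5
      simp only [h1, h2, h3, h8]
      push_cast
      ring
  have hfl : Tendsto (fun x : ℝ => (⌊x⌋₊ : ℝ) / x) atTop (𝓝 1) := tendsto_nat_floor_div_atTop
  have h := hwi.sub hfl
  rw [sub_self] at h
  refine h.congr fun x => ?_
  rw [← sub_div, Finset.sum_add_distrib, Finset.sum_const, Nat.card_Icc, nsmul_eq_mul,
    Nat.add_sub_cancel, mul_one, add_sub_cancel_left]

end Pool.Agent.FG61
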