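import Pool.Agent.Lib_helper61.FG.Defs
import Pool.Agent.Lib_helper61.FG.P.MU

/-! Block AL (helper8): `A_1(x) → 1`, by Axer's method from `M(x) = o(x)` and the harmonic sum. -/

set_option autoImplicit false

namespace Pool.Agent.FG61

open Finset Filter Topology

/-- the summatory function of `μ` -/
noncomputable def AL_M (n : ℕ) : ℝ := ∑ m ∈ Icc 1 n, mu m

theorem AL_abs (n : ℕ) : |mu n| ≤ 1 := by
  have := ArithmeticFunction.abs_moebius_le_one (n := n)
  rw [← Int.cast_abs]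
  exact_mod_cast this

/-- `|M(n)| ≤ η n + C` -/
theorem AL_Mle {η : ℝ} (hη : 0 < η) : ∃ C : ℝ, 0 ≤ C ∧ ∀ n : ℕ, |AL_M n| ≤ η * n + C := by
  have h1 : Tendsto (fun n : ℕ => AL_M n / n) atTop (𝓝 0) := by
    have := mu_lim.comp tendsto_natCast_atTop_atTop
    refine this.congr fun n => ?_
    simp only [Function.comp_apply, Nat.floor_natCast, AL_M]
  have h2 : ∀ᶠ n : ℕ in atTop, |AL_M n / n| < η := by
    have := (Metric.tendsto_nhds.1 h1) η hη
    simpa only [Real.dist_eq, sub_zero] using this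
  obtain ⟨n0, hn0⟩ := eventually_atTop.1 h2
  refine ⟨n0, Nat.cast_nonneg _, fun n => ?_⟩
  rcases le_or_gt n0 n with h | h
  · rcases Nat.eq_zero_or_pos n with h0 | h0
    · subst h0
      simp [AL_M]
    · have h3 := hn0 n h
      have h4 : (0 : ℝ) < n := by exact_mod_cast h0
      rw [abs_div, abs_of_pos h4, div_lt_iff₀ h4] at h3
      have : (0 : ℝ) ≤ n0 := Nat.cast_nonneg _
      linarith
  · have h3 : |AL_M n| ≤ n := by
      rw [AL_M]
      refine (Finset.abs_sum_le_sum_abs _ _).trans ?_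
      calc ∑ m ∈ Icc 1 n, |mu m| ≤ ∑ m ∈ Icc 1 n, (1 : ℝ) :=
            Finset.sum_le_sum fun m _ => AL_abs m
        _ = n := by simp
    have h4 : (n : ℝ) ≤ n0 := by exact_mod_cast h.le
    have h5 : 0 ≤ η * n := by positivity
    linarith

/-- partial summation against an antitone function -/
theorem AL_abel (a : ℕ) (g : ℕ → ℝ) (S : ℝ) (b : ℕ) (hab : a + 1 ≤ b)
    (hS : ∀ n, n ≤ b → |AL_M n| ≤ S) (hg : ∀ m, a < m → m < b → g (m + 1) ≤ g m) :
    |∑ m ∈ Ioc a b, mu m * g m - AL_M b * g b| ≤ S * (|g (a + 1)| + g (a + 1) - g b) := by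
  induction b, hab using Nat.le_induction with
  | base =>
    have h1 : Ioc a (a + 1) = {a + 1} := by
      ext m; rw [Finset.mem_Ioc, Finset.mem_singleton]; omega
    have h2 : AL_M (a + 1) = AL_M a + mu (a + 1) := by
      rw [AL_M, AL_M, Finset.sum_Icc_succ_top (by omega)]
    rw [h1, Finset.sum_singleton, h2]
    have h3 : mu (a + 1) * g (a + 1) - (AL_M a + mu (a + 1)) * g (a + 1) = -(AL_M a * g (a + 1)) := by
      ring
    rw [h3, abs_neg, abs_mul, add_sub_cancel_right]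
    exact mul_le_mul_of_nonneg_right (hS a (by omega)) (abs_nonneg _)
  | succ b hb ih =>
    have ih' := ih (fun n hn => hS n (by omega)) (fun m h1 h2 => hg m h1 (by omega))
    have h2 : AL_M (b + 1) = AL_M b + mu (b + 1) := by
      rw [AL_M, AL_M, Finset.sum_Icc_succ_top (by omega)]
    have h1 : ∑ m ∈ Ioc a (b + 1), mu m * g m =
        ∑ m ∈ Ioc a b, mu m * g m + mu (b + 1) * g (b + 1) := by
      rw [Finset.sum_Ioc_succ_top (by omega)]
    have h3 : ∑ m ∈ Ioc a (b + 1), mu m * g m - AL_M (b + 1) * g (b + 1) =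
        (∑ m ∈ Ioc a b, mu m * g m - AL_M b * g b) + AL_M b * (g b - g (b + 1)) := by
      rw [h1, h2]; ring
    have h4 : 0 ≤ g b - g (b + 1) := by
      have := hg b (by omega) (by omega)
      linarith
    have h5 : |AL_M b * (g b - g (b + 1))| ≤ S * (g b - g (b + 1)) := by
      rw [abs_mul, abs_of_nonneg h4]
      exact mul_le_mul_of_nonneg_right (hS b (by omega)) h4
    rw [h3]
    refine (abs_add_le _ _).trans ?_
    linarith

theorem AL_abel' (a b : ℕ) (g : ℕ → ℝ) (S K : ℝ) (hS0 : 0 ≤ S)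
    (hS : ∀ n, n ≤ b → |AL_M n| ≤ S) (hg : ∀ m, a < m → m < b → g (m + 1) ≤ g m)
    (hK0 : 0 ≤ K) (hK : ∀ m, a < m → m ≤ b → |g m| ≤ K) :
    |∑ m ∈ Ioc a b, mu m * g m| ≤ 4 * S * K := by
  rcases le_or_gt (a + 1) b with hab | hab
  · have h1 := AL_abel a g S b hab hS hg
    have h2 := hK (a + 1) (by omega) (by omega)
    have h3 := hK b (by omega) le_rfl
    have h4 : |AL_M b * g b| ≤ S * K := by
      rw [abs_mul]
      exact mul_le_mul (hS b le_rfl) h3 (abs_nonneg _) hS0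
    have h5 : S * (|g (a + 1)| + g (a + 1) - g b) ≤ S * (3 * K) := by
      apply mul_le_mul_of_nonneg_left _ hS0
      have := le_abs_self (g (a + 1))
      have := neg_abs_le (g b)
      linarith
    calc |∑ m ∈ Ioc a b, mu m * g m| =
        |(∑ m ∈ Ioc a b, mu m * g m - AL_M b * g b) + AL_M b * g b| := by ring_nf
      _ ≤ _ := abs_add_le _ _
      _ ≤ 4 * S * K := by linarith
  · have : Ioc a b = ∅ := Finset.Ioc_eq_empty (by omega)
    rw [this]
    simp
    positivity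

/-- Axer's theorem for bounded remainders -/
theorem AL_axer (H P Q : ℝ → ℝ) (C : ℝ) (hC : ∀ u, 1 ≤ u → |H u| ≤ C)
    (hH : ∀ u, 1 ≤ u → H u = P u - Q u)
    (hP : ∀ u v, 1 ≤ u → u ≤ v → P u ≤ P v) (hQ : ∀ u v, 1 ≤ u → u ≤ v → Q u ≤ Q v) :
    Tendsto (fun x : ℝ => (∑ m ∈ Icc 1 ⌊x⌋₊, mu m * H (x / m)) / x) atTop (𝓝 0) := by
  have hC0 : 0 ≤ C := (abs_nonneg _).trans (hC 1 le_rfl)
  rw [Metric.tendsto_nhds]
  intro ε hε
  -- the cut
  set δ : ℝ := min (ε / (4 * (C + 1))) (1 / 2) with hδ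
  have hδ0 : 0 < δ := lt_min (by positivity) (by norm_num)
  have hδ1 : δ < 1 := lt_of_le_of_lt (min_le_right _ _) (by norm_num)
  have hCδ : C * δ ≤ ε / 4 := by
    have h1 : δ ≤ ε / (4 * (C + 1)) := min_le_left _ _
    calc C * δ ≤ (C + 1) * (ε / (4 * (C + 1))) :=
          mul_le_mul (by linarith) h1 hδ0.le (by linarith)
      _ = ε / 4 := by field_simp
  set K : ℝ := |P 1| + |P (1 / δ)| + |Q 1| + |Q (1 / δ)| with hK
  have hK0 : 0 ≤ K := by positivity
  have h1δ : 1 ≤ 1 / δ := by rw [le_div_iff₀ hδ0]; linarith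
  have hPK : ∀ u, 1 ≤ u → u ≤ 1 / δ → |P u| ≤ K := by
    intro u h1 h2
    have h3 := hP 1 u le_rfl h1
    have h4 := hP u (1 / δ) h1 h2
    rw [abs_le]
    constructor
    · have := neg_abs_le (P 1)
      have := abs_nonneg (P (1 / δ))
      have := abs_nonneg (Q (1 / δ))
      have := abs_nonneg (Q 1)
      linarith
    · have := le_abs_self (P (1 / δ))
      have := abs_nonneg (P 1)
      have := abs_nonneg (Q (1 / δ))
      have := abs_nonneg (Q 1)
      linarith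
  have hQK : ∀ u, 1 ≤ u → u ≤ 1 / δ → |Q u| ≤ K := by
    intro u h1 h2
    have h3 := hQ 1 u le_rfl h1
    have h4 := hQ u (1 / δ) h1 h2
    rw [abs_le]
    constructor
    · have := neg_abs_le (Q 1)
      have := abs_nonneg (P (1 / δ))
      have := abs_nonneg (Q (1 / δ))
      have := abs_nonneg (P 1)
      linarith
    · have := le_abs_self (Q (1 / δ))
      have := abs_nonneg (P 1)
      have := abs_nonneg (P (1 / δ))
      have := abs_nonneg (Q 1)
      linarith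
  obtain ⟨C1, hC10, hM⟩ := AL_Mle (η := ε / (32 * (K + 1))) (by positivity)
  filter_upwards [eventually_ge_atTop (1 : ℝ), eventually_gt_atTop (32 * C1 * (K + 1) / ε)]
    with x hx1 hx2
  have hx0 : 0 < x := by linarith
  rw [Real.dist_eq, sub_zero, abs_div, abs_of_pos hx0, div_lt_iff₀ hx0]
  -- split
  set a := ⌊δ * x⌋₊ with ha
  set b := ⌊x⌋₊ with hb
  have hab : a ≤ b := Nat.floor_le_floor (by nlinarith)
  have hsplit : ∑ m ∈ Icc 1 b, mu m * H (x / m) =
      ∑ m ∈ Icc 1 a, mu m * H (x / m) + ∑ m ∈ Ioc a b, mu m * H (x / m) := by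
    have h1 : Icc 1 b = Ioc 0 b := by ext m; simp; omega
    have h2 : Icc 1 a = Ioc 0 a := by ext m; simp; omega
    rw [h1, h2, Finset.sum_Ioc_consecutive _ (Nat.zero_le _) hab]
  have hrange : ∀ m : ℕ, a < m → m ≤ b → 1 ≤ x / m ∧ x / m ≤ 1 / δ := by
    intro m h1 h2
    have hm0 : (0 : ℝ) < m := by
      have : 0 < m := by omega
      exact_mod_cast this
    have h3 : (m : ℝ) ≤ x := (Nat.le_floor_iff hx0.le).1 h2
    have h4 : δ * x < m := (Nat.floor_lt (by positivity)).1 h1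
    constructor
    · rwa [le_div_iff₀ hm0, one_mul]
    · rw [div_le_div_iff₀ hm0 hδ0]
      linarith
  have hfirst : |∑ m ∈ Icc 1 a, mu m * H (x / m)| ≤ C * δ * x := by
    refine (Finset.abs_sum_le_sum_abs _ _).trans ?_
    calc ∑ m ∈ Icc 1 a, |mu m * H (x / m)| ≤ ∑ m ∈ Icc 1 a, C := by
          refine Finset.sum_le_sum fun m hm => ?_
          rw [Finset.mem_Icc] at hm
          have hm0 : (0 : ℝ) < m := by exact_mod_cast hm.1
          have h3 : (m : ℝ) ≤ δ * x := (Nat.le_floor_iff (by positivity)).1 hm.2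
          have h4 : 1 ≤ x / m := by
            rw [le_div_iff₀ hm0, one_mul]
            nlinarith
          rw [abs_mul]
          calc |mu m| * |H (x / m)| ≤ 1 * C :=
                mul_le_mul (AL_abs m) (hC _ h4) (abs_nonneg _) zero_le_one
            _ = C := one_mul _
      _ = a * C := by rw [Finset.sum_const, Nat.card_Icc, nsmul_eq_mul, Nat.add_sub_cancel]
      _ ≤ (δ * x) * C := mul_le_mul_of_nonneg_right (Nat.floor_le (by positivity)) hC0
      _ = C * δ * x := by ring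
  set S : ℝ := ε / (32 * (K + 1)) * x + C1 with hSd
  have hS0 : 0 ≤ S := by positivity
  have hS : ∀ n, n ≤ b → |AL_M n| ≤ S := by
    intro n hn
    refine (hM n).trans ?_
    have h3 : (n : ℝ) ≤ x := (Nat.le_floor_iff hx0.le).1 hn
    have h4 : ε / (32 * (K + 1)) * n ≤ ε / (32 * (K + 1)) * x :=
      mul_le_mul_of_nonneg_left h3 (by positivity)
    linarith
  have hmono : ∀ m : ℕ, a < m → m < b → x / ((m + 1 : ℕ) : ℝ) ≤ x / m ∧ 1 ≤ x / ((m + 1 : ℕ) : ℝ) := by
    intro m h1 h2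
    have hm0 : (0 : ℝ) < m := by
      have : 0 < m := by omega
      exact_mod_cast this
    refine ⟨?_, (hrange (m + 1) (by omega) (by omega)).1⟩
    apply div_le_div_of_nonneg_left hx0.le hm0
    push_cast
    linarith
  have hPs := AL_abel' a b (fun m => P (x / m)) S K hS0 hS
    (fun m h1 h2 => hP _ _ (hmono m h1 h2).2 (hmono m h1 h2).1) hK0
    (fun m h1 h2 => hPK _ (hrange m h1 h2).1 (hrange m h1 h2).2)
  have hQs := AL_abel' a b (fun m => Q (x / m)) S K hS0 hS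
    (fun m h1 h2 => hQ _ _ (hmono m h1 h2).2 (hmono m h1 h2).1) hK0
    (fun m h1 h2 => hQK _ (hrange m h1 h2).1 (hrange m h1 h2).2)
  have hsecond : |∑ m ∈ Ioc a b, mu m * H (x / m)| ≤ 8 * S * K := by
    have h1 : ∑ m ∈ Ioc a b, mu m * H (x / m) =
        ∑ m ∈ Ioc a b, mu m * P (x / m) - ∑ m ∈ Ioc a b, mu m * Q (x / m) := by
      rw [← Finset.sum_sub_distrib]
      refine Finset.sum_congr rfl fun m hm => ?_
      rw [Finset.mem_Ioc] at hm
      rw [hH _ (hrange m hm.1 hm.2).1]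
      ring
    rw [h1]
    refine (abs_sub _ _).trans ?_
    linarith
  have hfin : 8 * S * K ≤ ε / 4 * x + ε / 4 * x := by
    have h1 : S * K ≤ S * (K + 1) := by nlinarith
    have h2 : S * (K + 1) = ε / 32 * x + C1 * (K + 1) := by
      rw [hSd]
      field_simp
    rw [div_lt_iff₀ hε] at hx2
    nlinarith
  rw [hsplit]
  calc |∑ m ∈ Icc 1 a, mu m * H (x / m) + ∑ m ∈ Ioc a b, mu m * H (x / m)| ≤
      |∑ m ∈ Icc 1 a, mu m * H (x / m)| + |∑ m ∈ Ioc a b, mu m * H (x / m)| := abs_add_le _ _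
    _ ≤ C * δ * x + (ε / 4 * x + ε / 4 * x) := add_le_add hfirst (hsecond.trans hfin)
    _ ≤ ε / 4 * x + (ε / 4 * x + ε / 4 * x) := by
      have := mul_le_mul_of_nonneg_right hCδ hx0.le
      linarith
    _ < ε * x := by nlinarith

/-- `∑_{d ∣ n} μ(d) = [n = 1]` -/
theorem AL_delta {n : ℕ} (hn : 0 < n) : ∑ d ∈ n.divisors, mu d = if n = 1 then 1 else 0 := by
  have h1 : (∑ d ∈ n.divisors, ArithmeticFunction.moebius d : ℤ) = if n = 1 then 1 else 0 := by
    have h2 := congrArg (fun f : ArithmeticFunction ℤ => f n) ArithmeticFunction.coe_zeta_mul_moebius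
    simp only [ArithmeticFunction.coe_zeta_mul_apply, ArithmeticFunction.one_apply] at h2
    exact h2
  have h3 := congrArg (fun z : ℤ => (z : ℝ)) h1
  simp only [Int.cast_sum] at h3
  rw [h3]
  split_ifs <;> simp

/-- sum over the multiples of `m` -/
theorem AL_mult (N m : ℕ) (hm : 0 < m) (F : ℕ → ℝ) :
    ∑ k ∈ (Icc 1 N).filter (fun k => m ∣ k), F k = ∑ n ∈ Icc 1 (N / m), F (m * n) := by
  have h1 : (Icc 1 N).filter (fun k => m ∣ k) = (Icc 1 (N / m)).image (fun n => m * n) := by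
    ext k
    rw [Finset.mem_filter, Finset.mem_Icc, Finset.mem_image]
    constructor
    · rintro ⟨⟨h1, h2⟩, ⟨n, rfl⟩⟩
      refine ⟨n, ?_, rfl⟩
      rw [Finset.mem_Icc]
      refine ⟨Nat.pos_of_ne_zero ?_, ?_⟩
      · rintro rfl
        simp at h1
      · rw [Nat.le_div_iff_mul_le hm, mul_comm]
        exact h2
    · rintro ⟨n, hn, rfl⟩
      rw [Finset.mem_Icc, Nat.le_div_iff_mul_le hm] at hn
      refine ⟨⟨?_, ?_⟩, dvd_mul_right _ _⟩
      · exact Nat.mul_pos hm hn.1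
      · rw [mul_comm]; exact hn.2
  rw [h1, Finset.sum_image]
  intro x _ y _ hxy
  exact Nat.eq_of_mul_eq_mul_left hm hxy

/-- Moebius inversion -/
theorem AL_inv (g : ℝ → ℝ) {x : ℝ} (hx : 1 ≤ x) :
    ∑ m ∈ Icc 1 ⌊x⌋₊, mu m * ∑ n ∈ Icc 1 ⌊x / m⌋₊, g (x / m / n) = g x := by
  set N := ⌊x⌋₊ with hN
  have hN1 : 1 ≤ N := Nat.le_floor (by exact_mod_cast hx)
  have h1 : ∑ m ∈ Icc 1 N, mu m * ∑ n ∈ Icc 1 ⌊x / m⌋₊, g (x / m / n) =
      ∑ m ∈ Icc 1 N, ∑ k ∈ (Icc 1 N).filter (fun k => m ∣ k), mu m * g (x / k) := by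
    refine Finset.sum_congr rfl fun m hm => ?_
    rw [Finset.mem_Icc] at hm
    rw [AL_mult N m hm.1 (fun k => mu m * g (x / k)), Finset.mul_sum, Nat.floor_div_natCast]
    refine Finset.sum_congr rfl fun n _ => ?_
    congr 2
    push_cast
    rw [div_div]
  have h2 : ∑ m ∈ Icc 1 N, ∑ k ∈ (Icc 1 N).filter (fun k => m ∣ k), mu m * g (x / k) =
      ∑ k ∈ Icc 1 N, ∑ m ∈ k.divisors, mu m * g (x / k) := by
    apply Finset.sum_comm'
    intro m k
    rw [Finset.mem_filter, Finset.mem_Icc, Finset.mem_Icc, Nat.mem_divisors]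
    constructor
    · rintro ⟨h3, h4, h5⟩
      exact ⟨⟨h5, by omega⟩, h4⟩
    · rintro ⟨⟨h3, h4⟩, h5⟩
      have h6 := Nat.pos_of_dvd_of_pos h3 (by omega)
      have h7 := Nat.le_of_dvd (by omega) h3
      exact ⟨⟨h6, by omega⟩, h5, h3⟩
  rw [h1, h2]
  have h3 : ∀ k ∈ Icc 1 N, ∑ m ∈ k.divisors, mu m * g (x / k) = if k = 1 then g x else 0 := by
    intro k hk
    rw [Finset.mem_Icc] at hk
    rw [← Finset.sum_mul, AL_delta hk.1]
    split_ifs with h4
    · subst h4; simp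
    · rw [zero_mul]
  rw [Finset.sum_congr rfl h3, Finset.sum_ite_eq']
  rw [if_pos (Finset.mem_Icc.2 ⟨le_rfl, hN1⟩)]

/-- `∑_{m ≤ x} μ(m)/m → 0` -/
theorem AL_M0 : Tendsto (fun x : ℝ => ∑ m ∈ Icc 1 ⌊x⌋₊, mu m / m) atTop (𝓝 0) := by
  have h1 := AL_axer (fun u => u - ⌊u⌋₊) (fun u => u) (fun u => (⌊u⌋₊ : ℝ)) 1
    (fun u hu => by
      have h2 := Nat.floor_le (by linarith : (0 : ℝ) ≤ u)
      have h3 := Nat.lt_floor_add_one u
      rw [abs_le]
      constructor <;> linarith)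
    (fun u _ => rfl) (fun u v _ h => h)
    (fun u v _ h => by exact_mod_cast Nat.floor_le_floor h)
  have h2 : Tendsto (fun x : ℝ => 1 / x) atTop (𝓝 0) := by
    simpa using tendsto_inv_atTop_zero (𝕜 := ℝ)
  have h3 := h1.add h2
  rw [add_zero] at h3
  refine h3.congr' ?_
  filter_upwards [eventually_ge_atTop (1 : ℝ)] with x hx
  have hx0 : x ≠ 0 := by linarith
  have h4 := AL_inv (fun _ => 1) hx
  simp only [Finset.sum_const, Nat.card_Icc, Nat.add_sub_cancel, nsmul_eq_mul, mul_one] at h4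
  rw [← add_div, div_eq_iff hx0]
  calc ∑ m ∈ Icc 1 ⌊x⌋₊, mu m * (x / m - (⌊x / m⌋₊ : ℝ)) + 1 =
      ∑ m ∈ Icc 1 ⌊x⌋₊, mu m * (x / m - (⌊x / m⌋₊ : ℝ)) +
        ∑ m ∈ Icc 1 ⌊x⌋₊, mu m * (⌊x / m⌋₊ : ℝ) := by rw [h4]
    _ = (∑ m ∈ Icc 1 ⌊x⌋₊, mu m / m) * x := by
      rw [← Finset.sum_add_distrib, Finset.sum_mul]
      refine Finset.sum_congr rfl fun m _ => ?_
      ring

/-- the harmonic sum -/
theorem AL_harm {u : ℝ} (hu : 1 ≤ u) :
    |u * ∑ n ∈ Icc 1 ⌊u⌋₊, (1 : ℝ) / n -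
      (u * Real.log u + Real.eulerMascheroniConstant * u)| ≤ 2 := by
  have hn1 : 1 ≤ ⌊u⌋₊ := Nat.le_floor (by exact_mod_cast hu)
  set n := ⌊u⌋₊ with hn
  have hu0 : 0 < u := by linarith
  have hn0 : (0 : ℝ) < n := by exact_mod_cast hn1
  have hnu : (n : ℝ) ≤ u := Nat.floor_le hu0.le
  have hun : u < n + 1 := Nat.lt_floor_add_one u
  have hharm : ∑ k ∈ Icc 1 n, (1 : ℝ) / k = (harmonic n : ℝ) := by
    rw [harmonic_eq_sum_Icc]
    push_cast
    simp only [one_div]
  have h1 := Real.eulerMascheroniSeq_lt_eulerMascheroniConstant n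
  have h2 := Real.eulerMascheroniConstant_lt_eulerMascheroniSeq' n
  rw [Real.eulerMascheroniSeq] at h1
  rw [Real.eulerMascheroniSeq', if_neg (by omega)] at h2
  have h3 : Real.log n ≤ Real.log u := Real.log_le_log hn0 hnu
  have h4 : Real.log u ≤ Real.log (n + 1) := Real.log_le_log hu0 hun.le
  have h5 : Real.log (n + 1) - Real.log n ≤ 1 / n := by
    rw [← Real.log_div (by positivity) (by positivity)]
    have h6 := Real.log_le_sub_one_of_pos (x := ((n : ℝ) + 1) / n) (by positivity)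
    have h7 : ((n : ℝ) + 1) / n - 1 = 1 / n := by field_simp; ring
    linarith
  rw [hharm]
  have h6 : u * (harmonic n : ℝ) - (u * Real.log u + Real.eulerMascheroniConstant * u) =
      u * ((harmonic n : ℝ) - Real.log u - Real.eulerMascheroniConstant) := by ring
  rw [h6, abs_mul, abs_of_pos hu0]
  have h7 : |(harmonic n : ℝ) - Real.log u - Real.eulerMascheroniConstant| ≤ 1 / n := by
    rw [abs_le]
    constructor <;> linarith
  calc u * |(harmonic n : ℝ) - Real.log u - Real.eulerMascheroniConstant| ≤ u * (1 / n) :=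
        mul_le_mul_of_nonneg_left h7 hu0.le
    _ ≤ (2 * n) * (1 / n) := by
        apply mul_le_mul_of_nonneg_right _ (by positivity)
        have : (1 : ℝ) ≤ n := by exact_mod_cast hn1
        linarith
    _ = 2 := by field_simp

/-- AL -/
theorem aa_lim : Tendsto (fun x : ℝ => AA 1 x) atTop (𝓝 1) := by
  set γ := Real.eulerMascheroniConstant with hγ
  have hγ0 : 0 < γ := by
    have := Real.one_half_lt_eulerMascheroniConstant
    linarith
  -- the remainder
  have hax := AL_axer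
    (fun u => u * ∑ n ∈ Icc 1 ⌊u⌋₊, (1 : ℝ) / n - (u * Real.log u + γ * u))
    (fun u => u * ∑ n ∈ Icc 1 ⌊u⌋₊, (1 : ℝ) / n) (fun u => u * Real.log u + γ * u) 2
    (fun u hu => AL_harm hu) (fun u _ => rfl)
    (fun u v hu huv => by
      have h1 : ∑ n ∈ Icc 1 ⌊u⌋₊, (1 : ℝ) / n ≤ ∑ n ∈ Icc 1 ⌊v⌋₊, (1 : ℝ) / n :=
        Finset.sum_le_sum_of_subset_of_nonneg
          (Finset.Icc_subset_Icc_right (Nat.floor_le_floor huv)) (fun _ _ _ => by positivity)
      have h2 : 0 ≤ ∑ n ∈ Icc 1 ⌊u⌋₊, (1 : ℝ) / n := Finset.sum_nonneg fun _ _ => by positivity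
      exact mul_le_mul huv h1 h2 (by linarith))
    (fun u v hu huv => by
      have h1 : Real.log u ≤ Real.log v := Real.log_le_log (by linarith) huv
      have h2 : 0 ≤ Real.log u := Real.log_nonneg hu
      have h3 : u * Real.log u ≤ v * Real.log v := mul_le_mul huv h1 h2 (by linarith)
      have h4 : γ * u ≤ γ * v := mul_le_mul_of_nonneg_left huv hγ0.le
      linarith)
  have hlim := ((tendsto_const_nhds (x := (1 : ℝ))).sub (AL_M0.const_mul γ)).sub hax
  simp only [mul_zero, sub_zero] at hlim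
  refine hlim.congr' ?_
  filter_upwards [eventually_ge_atTop (1 : ℝ)] with x hx
  have hx0 : 0 < x := by linarith
  have hinv := AL_inv (fun u => u) hx
  have hAA : AA 1 x = ∑ m ∈ Icc 1 ⌊x⌋₊, mu m / m * Real.log (x / m) := by
    rw [AA]
    congr 1
    rw [Finset.filter_true_of_mem]
    intro m _
    exact Nat.coprime_one_right m
  rw [hAA]
  have h1 : ∀ m ∈ Icc 1 ⌊x⌋₊, mu m * ∑ n ∈ Icc 1 ⌊x / m⌋₊, (x / m / n) =
      mu m * (x / m * ∑ n ∈ Icc 1 ⌊x / m⌋₊, (1 : ℝ) / n -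
        (x / m * Real.log (x / m) + γ * (x / m))) +
      x * (mu m / m * Real.log (x / m)) + γ * x * (mu m / m) := by
    intro m _
    have h2 : ∑ n ∈ Icc 1 ⌊x / m⌋₊, (x / m / n) = x / m * ∑ n ∈ Icc 1 ⌊x / m⌋₊, (1 : ℝ) / n := by
      rw [Finset.mul_sum]
      refine Finset.sum_congr rfl fun n _ => ?_
      ring
    rw [h2]
    ring
  rw [Finset.sum_congr rfl h1, Finset.sum_add_distrib, Finset.sum_add_distrib,
    ← Finset.mul_sum, ← Finset.mul_sum] at hinv
  generalize ∑ m ∈ Icc 1 ⌊x⌋₊, mu m * (x / m * ∑ n ∈ Icc 1 ⌊x / m⌋₊, (1 : ℝ) / n -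
        (x / m * Real.log (x / m) + γ * (x / m))) = T1 at *
  generalize ∑ m ∈ Icc 1 ⌊x⌋₊, mu m / m * Real.log (x / m) = T2 at *
  generalize ∑ m ∈ Icc 1 ⌊x⌋₊, mu m / m = T3 at *
  have h5 : T2 = 1 - γ * T3 - T1 / x := by
    field_simp
    linarith
  exact h5.symm

end Pool.Agent.FG61
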