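import Pool.Agent.Lib_helper61.FG.Defs
import Pool.Agent.Lib_helper61.FG.P.AL

set_option autoImplicit false

namespace Pool.Agent.FG61

open Finset Filter Topology

theorem AK_zero (K : ℕ) (x : ℝ) (hx : x < 1) : AA K x = 0 := by
  unfold AA
  have : ⌊x⌋₊ = 0 := by
    rw [Nat.floor_eq_zero]; exact hx
  rw [this]
  simp

/-- bound for small `x` -/
theorem AK_crude (x T : ℝ) (hx : 1 ≤ x) (hxT : x ≤ T) : |AA 1 x| ≤ T * Real.log T := by
  have hT : 1 ≤ T := hx.trans hxT
  have hlogT : 0 ≤ Real.log T := Real.log_nonneg hT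
  unfold AA
  calc |∑ m ∈ (Icc 1 ⌊x⌋₊).filter (fun m => Nat.Coprime m 1), mu m / m * Real.log (x / m)|
      ≤ ∑ m ∈ (Icc 1 ⌊x⌋₊).filter (fun m => Nat.Coprime m 1), |mu m / m * Real.log (x / m)| :=
        Finset.abs_sum_le_sum_abs _ _
    _ ≤ ∑ m ∈ (Icc 1 ⌊x⌋₊).filter (fun m => Nat.Coprime m 1), Real.log T := by
        refine Finset.sum_le_sum fun m hm => ?_
        rw [mem_filter, mem_Icc] at hm
        have hm1 : (1 : ℝ) ≤ m := by exact_mod_cast hm.1.1
        have hm2 : (m : ℝ) ≤ x := (Nat.cast_le.2 hm.1.2).trans (Nat.floor_le (by linarith))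
        have h1 : |mu m / m| ≤ 1 := by
          rw [abs_div, abs_of_nonneg (by linarith : (0 : ℝ) ≤ m)]
          have h2 : |mu m| ≤ 1 := by
            have := ArithmeticFunction.abs_moebius_le_one (n := m)
            unfold mu
            exact_mod_cast this
          rw [div_le_one (by linarith)]
          linarith
        have h3 : 0 ≤ Real.log (x / m) := Real.log_nonneg (by rw [le_div_iff₀ (by linarith)]; linarith)
        have h4 : Real.log (x / m) ≤ Real.log T := by
          apply Real.log_le_log (by positivity)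
          rw [div_le_iff₀ (by linarith)]
          nlinarith
        rw [abs_mul, abs_of_nonneg h3]
        calc |mu m / m| * Real.log (x / m) ≤ 1 * Real.log (x / m) :=
              mul_le_mul_of_nonneg_right h1 h3
          _ = Real.log (x / m) := one_mul _
          _ ≤ _ := h4
    _ = (((Icc 1 ⌊x⌋₊).filter (fun m => Nat.Coprime m 1)).card : ℝ) * Real.log T := by
        rw [Finset.sum_const, nsmul_eq_mul]
    _ ≤ T * Real.log T := by
        refine mul_le_mul_of_nonneg_right ?_ hlogT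
        have h1 : (((Icc 1 ⌊x⌋₊).filter (fun m => Nat.Coprime m 1)).card : ℝ) ≤ (⌊x⌋₊ : ℝ) := by
          have := Finset.card_filter_le (Icc 1 ⌊x⌋₊) (fun m => Nat.Coprime m 1)
          rw [Nat.card_Icc, Nat.add_sub_cancel] at this
          exact_mod_cast this
        exact h1.trans ((Nat.floor_le (by linarith)).trans hxT)

theorem AK_one (ε : ℝ) (hε : 0 < ε) : ∃ C : ℝ, 1 ≤ C ∧ ∀ x : ℝ, 0 < x →
    |AA 1 x - 1| ≤ ε + C * x ^ (-(1 / 4 : ℝ)) := by
  have h := aa_lim
  rw [Metric.tendsto_atTop] at h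
  obtain ⟨T0, hT0⟩ := h ε hε
  set T : ℝ := max T0 1 with hT
  have hT1 : 1 ≤ T := le_max_right _ _
  have hTT : T0 ≤ T := le_max_left _ _
  have hlogT : 0 ≤ Real.log T := Real.log_nonneg hT1
  refine ⟨(T * Real.log T + 1) * T ^ (1 / 4 : ℝ), ?_, ?_⟩
  · have h1 : (1 : ℝ) ≤ T ^ (1 / 4 : ℝ) := Real.one_le_rpow hT1 (by norm_num)
    nlinarith [mul_nonneg (by linarith : (0:ℝ) ≤ T) hlogT]
  intro x hx
  have hxp : 0 < x ^ (-(1 / 4 : ℝ)) := Real.rpow_pos_of_pos hx _
  have hTp : 0 < T ^ (1 / 4 : ℝ) := Real.rpow_pos_of_pos (by linarith) _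
  have hA : 0 ≤ T * Real.log T := mul_nonneg (by linarith) hlogT
  by_cases h1 : T ≤ x
  · have h2 := hT0 x (hTT.trans h1)
    rw [Real.dist_eq] at h2
    have : 0 ≤ (T * Real.log T + 1) * T ^ (1 / 4 : ℝ) * x ^ (-(1 / 4 : ℝ)) := by positivity
    linarith
  · push Not at h1
    have h3 : 1 ≤ T ^ (1 / 4 : ℝ) * x ^ (-(1 / 4 : ℝ)) := by
      rw [Real.rpow_neg hx.le, ← div_eq_mul_inv, one_le_div (Real.rpow_pos_of_pos hx _)]
      exact Real.rpow_le_rpow hx.le h1.le (by norm_num)
    have h4 : |AA 1 x - 1| ≤ T * Real.log T + 1 := by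
      by_cases h5 : x < 1
      · rw [AK_zero 1 x h5]
        norm_num
        exact hA
      · push Not at h5
        have h6 := AK_crude x T h5 h1.le
        calc |AA 1 x - 1| ≤ |AA 1 x| + |(1 : ℝ)| := abs_sub _ _
          _ ≤ _ := by rw [abs_one]; linarith
    calc |AA 1 x - 1| ≤ (T * Real.log T + 1) * 1 := by linarith
      _ ≤ (T * Real.log T + 1) * (T ^ (1 / 4 : ℝ) * x ^ (-(1 / 4 : ℝ))) :=
          mul_le_mul_of_nonneg_left h3 (by linarith)
      _ ≤ ε + (T * Real.log T + 1) * T ^ (1 / 4 : ℝ) * x ^ (-(1 / 4 : ℝ)) := by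
          rw [mul_assoc]; linarith

/-- the recursion for a new prime -/
theorem AK_rec (K p : ℕ) (hp : p.Prime) (hpK : ¬ p ∣ K) (x : ℝ) (hx : 0 < x) :
    AA K x = AA (p * K) x - (1 / (p : ℝ)) * AA (p * K) (x / p) := by
  have hp0 : (0 : ℝ) < p := by exact_mod_cast hp.pos
  unfold AA
  have hsplit : (Icc 1 ⌊x⌋₊).filter (fun m => Nat.Coprime m K) =
      ((Icc 1 ⌊x⌋₊).filter (fun m => Nat.Coprime m (p * K))) ∪
      ((Icc 1 ⌊x⌋₊).filter (fun m => Nat.Coprime m K ∧ p ∣ m)) := by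
    ext m
    simp only [mem_union, mem_filter]
    constructor
    · rintro ⟨h1, h2⟩
      by_cases h : p ∣ m
      · exact Or.inr ⟨h1, h2, h⟩
      · refine Or.inl ⟨h1, ?_⟩
        exact Nat.Coprime.mul_right ((hp.coprime_iff_not_dvd.2 h).symm) h2
    · rintro (⟨h1, h2⟩ | ⟨h1, h2, _⟩)
      · exact ⟨h1, Nat.Coprime.coprime_mul_left_right h2⟩
      · exact ⟨h1, h2⟩
  have hdisj : Disjoint ((Icc 1 ⌊x⌋₊).filter (fun m => Nat.Coprime m (p * K)))
      ((Icc 1 ⌊x⌋₊).filter (fun m => Nat.Coprime m K ∧ p ∣ m)) := by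
    rw [Finset.disjoint_left]
    intro m h1 h2
    rw [mem_filter] at h1 h2
    have h3 : Nat.Coprime m p := Nat.Coprime.coprime_mul_right_right h1.2
    exact (hp.coprime_iff_not_dvd.1 h3.symm) h2.2.2
  rw [hsplit, Finset.sum_union hdisj, sub_eq_add_neg]
  congr 1
  rw [Finset.mul_sum, ← Finset.sum_neg_distrib]
  symm
  -- map m' ↦ p * m'
  have hfl : ∀ m : ℕ, m ≤ ⌊x / p⌋₊ ↔ p * m ≤ ⌊x⌋₊ := by
    intro m
    rw [Nat.le_floor_iff (by positivity), Nat.le_floor_iff hx.le, le_div_iff₀ hp0]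
    push_cast
    rw [mul_comm]
  rw [← Finset.sum_filter_add_sum_filter_not
    ((Icc 1 ⌊x⌋₊).filter (fun m => Nat.Coprime m K ∧ p ∣ m)) (fun m => p ^ 2 ∣ m)]
  have hz : ∑ m ∈ ((Icc 1 ⌊x⌋₊).filter (fun m => Nat.Coprime m K ∧ p ∣ m)).filter
      (fun m => p ^ 2 ∣ m), mu m / m * Real.log (x / m) = 0 := by
    refine Finset.sum_eq_zero fun m hm => ?_
    have h1 := (mem_filter.1 hm).2
    have h2 : ¬ Squarefree m := by
      intro h
      have := h p (by rw [← sq]; exact h1)
      exact hp.one_lt.ne' (Nat.isUnit_iff.1 this)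
    unfold mu
    rw [ArithmeticFunction.moebius_eq_zero_of_not_squarefree h2]
    simp
  rw [hz, zero_add]
  refine Finset.sum_bij (fun m _ => p * m) ?_ ?_ ?_ ?_
  · intro m hm
    rw [mem_filter, mem_Icc] at hm
    obtain ⟨⟨h1, h2⟩, h3⟩ := hm
    have h4 : Nat.Coprime m p := Nat.Coprime.coprime_mul_right_right h3
    have h5 : Nat.Coprime m K := Nat.Coprime.coprime_mul_left_right h3
    rw [mem_filter, mem_filter, mem_Icc]
    refine ⟨⟨⟨?_, (hfl m).1 h2⟩, ?_, Dvd.intro _ rfl⟩, ?_⟩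
    · have := hp.pos; nlinarith
    · exact Nat.Coprime.mul_left (hp.coprime_iff_not_dvd.2 hpK) h5
    · intro h
      rw [sq, Nat.mul_dvd_mul_iff_left hp.pos] at h
      exact (hp.coprime_iff_not_dvd.1 h4.symm) h
  · intro a _ b _ hab
    exact Nat.eq_of_mul_eq_mul_left hp.pos hab
  · intro m hm
    rw [mem_filter, mem_filter, mem_Icc] at hm
    obtain ⟨⟨⟨h1, h2⟩, h3, h4⟩, h5⟩ := hm
    obtain ⟨m', rfl⟩ := h4
    refine ⟨m', ?_, rfl⟩
    rw [mem_filter, mem_Icc]
    refine ⟨⟨?_, (hfl m').2 h2⟩, ?_⟩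
    · rcases Nat.eq_zero_or_pos m' with h | h
      · subst h; simp at h1
      · exact h
    · have h6 : ¬ p ∣ m' := by
        intro h
        apply h5
        rw [sq]
        exact Nat.mul_dvd_mul_left p h
      exact Nat.Coprime.mul_right ((hp.coprime_iff_not_dvd.2 h6).symm)
        (Nat.Coprime.coprime_mul_left h3)
  · intro m hm
    rw [mem_filter, mem_Icc] at hm
    obtain ⟨⟨h1, h2⟩, h3⟩ := hm
    have h4 : Nat.Coprime m p := Nat.Coprime.coprime_mul_right_right h3
    have hmu : mu (p * m) = - mu m := by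
      unfold mu
      rw [ArithmeticFunction.isMultiplicative_moebius.map_mul_of_coprime h4.symm,
        ArithmeticFunction.moebius_apply_prime hp]
      push_cast; ring
    rw [hmu]
    have hm0 : (0 : ℝ) < m := by exact_mod_cast h1
    push_cast
    have : x / (p * m) = x / p / m := by rw [div_div]
    rw [this]
    field_simp

theorem AK_c_le (K : ℕ) (hK : 1 ≤ K) : (K : ℝ) / phi K ≤ kap K := by
  have h1 : (K : ℝ) / phi K = ∏ p ∈ K.primeFactors, (1 - (p : ℝ)⁻¹)⁻¹ := by
    have h2 := Nat.totient_eq_mul_prod_factors K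
    have h3 : ((Nat.totient K : ℕ) : ℝ) = K * ∏ p ∈ K.primeFactors, (1 - (p : ℝ)⁻¹) := by
      have : (((Nat.totient K : ℕ) : ℚ) : ℝ) = ((K * ∏ p ∈ K.primeFactors, (1 - (p : ℚ)⁻¹) : ℚ) : ℝ) := by
        rw [h2]
      push_cast at this
      exact this
    unfold phi
    rw [h3, Finset.prod_inv_distrib]
    have hK0 : (K : ℝ) ≠ 0 := by positivity
    field_simp
  rw [h1]
  unfold kap
  refine Finset.prod_le_prod ?_ ?_
  · intro p hp
    have h2 : (2 : ℝ) ≤ p := by exact_mod_cast (Nat.prime_of_mem_primeFactors hp).two_le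
    have : (p : ℝ)⁻¹ ≤ 1 := inv_le_one_of_one_le₀ (by linarith)
    apply inv_nonneg.2; linarith
  · intro p hp
    have h2 : (2 : ℝ) ≤ p := by exact_mod_cast (Nat.prime_of_mem_primeFactors hp).two_le
    have h3 : (p : ℝ)⁻¹ ≤ (p : ℝ) ^ (-(3 / 4 : ℝ)) := by
      rw [← Real.rpow_neg_one]
      exact Real.rpow_le_rpow_of_exponent_le (by linarith) (by norm_num)
    have h4 : (p : ℝ) ^ (-(3 / 4 : ℝ)) < 1 :=
      Real.rpow_lt_one_of_one_lt_of_neg (by linarith) (by norm_num)
    exact inv_anti₀ (by linarith) (by linarith)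

theorem AK_kap_nonneg (K : ℕ) : 0 ≤ kap K := by
  unfold kap
  refine Finset.prod_nonneg fun p hp => ?_
  have h2 : (2 : ℝ) ≤ p := by exact_mod_cast (Nat.prime_of_mem_primeFactors hp).two_le
  have h4 : (p : ℝ) ^ (-(3 / 4 : ℝ)) < 1 :=
    Real.rpow_lt_one_of_one_lt_of_neg (by linarith) (by norm_num)
  apply inv_nonneg.2; linarith

/-- one more prime -/
theorem AK_step (ε C : ℝ) (hε : 0 < ε) (hC : 1 ≤ C) (K p : ℕ) (hK : 1 ≤ K) (hp : p.Prime)
    (hpK : ¬ p ∣ K)
    (h : ∀ x : ℝ, 0 < x → |AA K x - K / phi K| ≤ ε * (K / phi K) + C * kap K * x ^ (-(1 / 4 : ℝ))) :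
    ∀ n : ℕ, ∀ x : ℝ, 0 < x → x < 2 ^ n →
      |AA (p * K) x - ((p * K : ℕ) : ℝ) / phi (p * K)| ≤
        ε * (((p * K : ℕ) : ℝ) / phi (p * K)) + C * kap (p * K) * x ^ (-(1 / 4 : ℝ)) := by
  have hp0 : (0 : ℝ) < p := by exact_mod_cast hp.pos
  have hp2 : (2 : ℝ) ≤ p := by exact_mod_cast hp.two_le
  have hphiK : (0 : ℝ) < phi K := by
    unfold phi; exact_mod_cast Nat.totient_pos.2 hK
  have hphi : phi (p * K) = (p - 1) * phi K := by
    unfold phi
    rw [Nat.totient_mul_of_prime_of_not_dvd hp hpK]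
    push_cast [Nat.cast_sub hp.one_le]
    ring
  have hc : ((p * K : ℕ) : ℝ) / phi (p * K) =
      (K : ℝ) / phi K + ((p * K : ℕ) : ℝ) / phi (p * K) / p := by
    rw [hphi]
    have : (p : ℝ) - 1 ≠ 0 := by linarith
    push_cast
    field_simp
    ring
  have hcnn : 0 ≤ ((p * K : ℕ) : ℝ) / phi (p * K) := by
    unfold phi; positivity
  have hpt : (p : ℝ) ^ (-(3 / 4 : ℝ)) < 1 :=
    Real.rpow_lt_one_of_one_lt_of_neg (by linarith) (by norm_num)
  have hkap : kap (p * K) = kap K + (p : ℝ) ^ (-(3 / 4 : ℝ)) * kap (p * K) := by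
    have h1 : kap (p * K) = (1 - (p : ℝ) ^ (-(3 / 4 : ℝ)))⁻¹ * kap K := by
      unfold kap
      have h2 : (p * K).primeFactors = insert p K.primeFactors := by
        rw [Nat.primeFactors_mul hp.ne_zero (by omega), hp.primeFactors]
        rfl
      rw [h2, Finset.prod_insert (by simp [Nat.mem_primeFactors, hpK])]
    have h3 : (1 - (p : ℝ) ^ (-(3 / 4 : ℝ))) ≠ 0 := by linarith
    have h4 : (1 - (p : ℝ) ^ (-(3 / 4 : ℝ))) * kap (p * K) = kap K := by
      rw [h1, ← mul_assoc, mul_inv_cancel₀ h3, one_mul]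
    linarith
  have hkn := AK_kap_nonneg (p * K)
  intro n
  induction n with
  | zero =>
      intro x hx hx1
      rw [pow_zero] at hx1
      rw [AK_zero _ x hx1, zero_sub, abs_neg, abs_of_nonneg hcnn]
      have h1 := AK_c_le (p * K) (Nat.mul_pos hp.pos hK)
      have h2 : 1 ≤ x ^ (-(1 / 4 : ℝ)) :=
        Real.one_le_rpow_of_pos_of_le_one_of_nonpos hx hx1.le (by norm_num)
      have h3 : kap (p * K) ≤ C * kap (p * K) * x ^ (-(1 / 4 : ℝ)) := by
        have h5 : 1 ≤ C * x ^ (-(1 / 4 : ℝ)) := by nlinarith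
        nlinarith
      have h4 : 0 ≤ ε * (((p * K : ℕ) : ℝ) / phi (p * K)) := mul_nonneg hε.le hcnn
      linarith
  | succ n ih =>
      intro x hx hxn
      by_cases hx1 : x < 1
      · exact ih x hx (hx1.trans_le (one_le_pow₀ (by norm_num)))
      · push Not at hx1
        have hr := AK_rec K p hp hpK x hx
        have h1 := h x hx
        have h2 := ih (x / p) (by positivity) (by
          rw [div_lt_iff₀ hp0]
          have : (2 : ℝ) ^ (n + 1) = 2 ^ n * 2 := pow_succ _ _
          nlinarith [pow_pos (two_pos : (0 : ℝ) < 2) n])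
        have e1 : AA (p * K) x - ((p * K : ℕ) : ℝ) / phi (p * K) =
            (AA K x - K / phi K) +
              (1 / (p : ℝ)) * (AA (p * K) (x / p) - ((p * K : ℕ) : ℝ) / phi (p * K)) := by
          rw [hr]
          linear_combination (-1 : ℝ) * hc
        have h3 : |AA (p * K) x - ((p * K : ℕ) : ℝ) / phi (p * K)| ≤
            |AA K x - K / phi K| +
              (1 / (p : ℝ)) * |AA (p * K) (x / p) - ((p * K : ℕ) : ℝ) / phi (p * K)| := by
          rw [e1]
          refine (abs_add_le _ _).trans ?_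
          rw [abs_mul, abs_of_nonneg (by positivity : (0 : ℝ) ≤ 1 / p)]
        have e2 : (x / p) ^ (-(1 / 4 : ℝ)) = x ^ (-(1 / 4 : ℝ)) * (p : ℝ) ^ (1 / 4 : ℝ) := by
          rw [Real.div_rpow hx.le hp0.le, Real.rpow_neg hp0.le (1 / 4), div_inv_eq_mul]
        have e3 : (1 / (p : ℝ)) * (p : ℝ) ^ (1 / 4 : ℝ) = (p : ℝ) ^ (-(3 / 4 : ℝ)) := by
          rw [one_div, ← Real.rpow_neg_one, ← Real.rpow_add hp0]
          norm_num
        have h4 : (1 / (p : ℝ)) * |AA (p * K) (x / p) - ((p * K : ℕ) : ℝ) / phi (p * K)| ≤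
            ε * (((p * K : ℕ) : ℝ) / phi (p * K) / p) +
              C * ((p : ℝ) ^ (-(3 / 4 : ℝ)) * kap (p * K)) * x ^ (-(1 / 4 : ℝ)) := by
          calc (1 / (p : ℝ)) * |AA (p * K) (x / p) - ((p * K : ℕ) : ℝ) / phi (p * K)|
              ≤ (1 / (p : ℝ)) * (ε * (((p * K : ℕ) : ℝ) / phi (p * K)) +
                  C * kap (p * K) * (x / p) ^ (-(1 / 4 : ℝ))) :=
                mul_le_mul_of_nonneg_left h2 (by positivity)
            _ = ε * (((p * K : ℕ) : ℝ) / phi (p * K) / p) +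
                C * (((1 / (p : ℝ)) * (p : ℝ) ^ (1 / 4 : ℝ)) * kap (p * K)) *
                  x ^ (-(1 / 4 : ℝ)) := by rw [e2]; ring
            _ = _ := by rw [e3]
        have e4 : ε * (((p * K : ℕ) : ℝ) / phi (p * K)) =
            ε * (K / phi K) + ε * (((p * K : ℕ) : ℝ) / phi (p * K) / p) := by
          rw [← mul_add, ← hc]
        have e5 : C * kap (p * K) * x ^ (-(1 / 4 : ℝ)) =
            C * kap K * x ^ (-(1 / 4 : ℝ)) +
              C * ((p : ℝ) ^ (-(3 / 4 : ℝ)) * kap (p * K)) * x ^ (-(1 / 4 : ℝ)) := by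
          rw [← add_mul, ← mul_add, ← hkap]
        rw [e4, e5]
        linarith

/-- AK -/
theorem aa_gen (ε : ℝ) (hε : 0 < ε) : ∃ C : ℝ, 1 ≤ C ∧ ∀ K : ℕ, 1 ≤ K → ∀ x : ℝ, 0 < x →
    |AA K x - K / phi K| ≤ ε * (K / phi K) + C * kap K * x ^ (-(1 / 4 : ℝ)) := by
  obtain ⟨C, hC, h1⟩ := AK_one ε hε
  refine ⟨C, hC, ?_⟩
  intro K
  induction K using induction_on_primes with
  | zero => intro h; omega
  | one =>
      intro _ x hx
      have := h1 x hx
      simp only [Nat.cast_one, phi, Nat.totient_one, div_one, mul_one, kap,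
        Nat.primeFactors_one, Finset.prod_empty]
      exact this
  | prime_mul p a hp ih =>
      intro hK x hx
      have ha : 1 ≤ a := by
        rcases Nat.eq_zero_or_pos a with h | h
        · subst h; simp at hK
        · exact h
      by_cases hpa : p ∣ a
      · have e1 : AA (p * a) x = AA a x := by
          unfold AA
          refine Finset.sum_congr (Finset.filter_congr fun m _ => ?_) fun _ _ => rfl
          constructor
          · intro h; exact Nat.Coprime.coprime_mul_left_right h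
          · intro h; exact Nat.Coprime.mul_right (Nat.Coprime.coprime_dvd_right hpa h) h
        have e2 : ((p * a : ℕ) : ℝ) / phi (p * a) = a / phi a := by
          unfold phi
          rw [Nat.totient_mul_of_prime_of_dvd hp hpa]
          have hp0 : (0 : ℝ) < p := by exact_mod_cast hp.pos
          push_cast
          rw [mul_div_mul_left _ _ hp0.ne']
        have e3 : kap (p * a) = kap a := by
          unfold kap
          have : (p * a).primeFactors = a.primeFactors := by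
            rw [Nat.primeFactors_mul hp.ne_zero (by omega), hp.primeFactors]
            apply Finset.union_eq_right.2
            intro q hq
            rw [mem_singleton] at hq
            subst hq
            exact Nat.mem_primeFactors.2 ⟨hp, hpa, by omega⟩
          rw [this]
        rw [e1, e2, e3]
        exact ih ha x hx
      · obtain ⟨n, hn⟩ := pow_unbounded_of_one_lt x (one_lt_two : (1 : ℝ) < 2)
        exact AK_step ε C hε hC a p ha hp hpa (ih ha) n x hx hn

end Pool.Agent.FG61
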