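import Pool.Agent.Lib_helper61.FG.Defs

set_option autoImplicit false

namespace Pool.Agent.FG61

open Finset Filter Topology

/-- the part of `e` prime to `q` -/
private def GD_co (q e : ℕ) : ℕ := e / Nat.gcd e q

theorem GD_mul (q e : ℕ) : Nat.gcd e q * GD_co q e = e := Nat.mul_div_cancel' (Nat.gcd_dvd_left e q)

theorem GD_cop (q e : ℕ) (he : Squarefree e) : Nat.Coprime (GD_co q e) q := by
  rw [Nat.coprime_iff_gcd_eq_one, Nat.eq_one_iff_not_exists_prime_dvd]
  intro p hp h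
  have h1 : p ∣ GD_co q e := h.trans (Nat.gcd_dvd_left _ _)
  have h2 : p ∣ q := h.trans (Nat.gcd_dvd_right _ _)
  have h3 : p ∣ e := by
    rw [← GD_mul q e]; exact h1.mul_left _
  have h4 : p ∣ Nat.gcd e q := Nat.dvd_gcd h3 h2
  have h5 : p * p ∣ e := by
    conv_rhs => rw [← GD_mul q e]
    exact Nat.mul_dvd_mul h4 h1
  exact hp.one_lt.ne' (Nat.isUnit_iff.1 (he p h5))

theorem GD_lcm (q e₁ e₂ : ℕ) (h₁ : Squarefree e₁) (h₂ : Squarefree e₂) :
    Nat.lcm q (Nat.lcm e₁ e₂) = q * Nat.lcm (GD_co q e₁) (GD_co q e₂) := by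
  set a := GD_co q e₁ with ha
  set b := GD_co q e₂ with hb
  have hca : Nat.Coprime a q := GD_cop q e₁ h₁
  have hcb : Nat.Coprime b q := GD_cop q e₂ h₂
  have hcl : Nat.Coprime q (Nat.lcm a b) := by
    have : Nat.Coprime (Nat.lcm a b) q := by
      refine Nat.Coprime.coprime_dvd_left (Nat.lcm_dvd_mul a b) ?_
      exact Nat.Coprime.mul_left hca hcb
    exact this.symm
  rw [← hcl.lcm_eq_mul]
  apply Nat.dvd_antisymm
  · refine Nat.lcm_dvd (Nat.dvd_lcm_left _ _) (Nat.lcm_dvd ?_ ?_)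
    · have e1 := GD_mul q e₁
      rw [← ha] at e1
      rw [← e1]
      have hc : Nat.Coprime (Nat.gcd e₁ q) a :=
        Nat.Coprime.coprime_dvd_left (Nat.gcd_dvd_right _ _) hca.symm
      exact hc.mul_dvd_of_dvd_of_dvd ((Nat.gcd_dvd_right _ _).trans (Nat.dvd_lcm_left _ _))
        ((Nat.dvd_lcm_left a b).trans (Nat.dvd_lcm_right _ _))
    · have e1 := GD_mul q e₂
      rw [← hb] at e1
      rw [← e1]
      have hc : Nat.Coprime (Nat.gcd e₂ q) b :=
        Nat.Coprime.coprime_dvd_left (Nat.gcd_dvd_right _ _) hcb.symm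
      exact hc.mul_dvd_of_dvd_of_dvd ((Nat.gcd_dvd_right _ _).trans (Nat.dvd_lcm_left _ _))
        ((Nat.dvd_lcm_right a b).trans (Nat.dvd_lcm_right _ _))
  · refine Nat.lcm_dvd (Nat.dvd_lcm_left _ _) (Nat.lcm_dvd ?_ ?_)
    · have : a ∣ e₁ := by
        have e1 := GD_mul q e₁
        rw [← ha] at e1
        exact ⟨_, by rw [mul_comm]; exact e1.symm⟩
      exact this.trans ((Nat.dvd_lcm_left e₁ e₂).trans (Nat.dvd_lcm_right _ _))
    · have : b ∣ e₂ := by
        have e1 := GD_mul q e₂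
        rw [← hb] at e1
        exact ⟨_, by rw [mul_comm]; exact e1.symm⟩
      exact this.trans ((Nat.dvd_lcm_right e₁ e₂).trans (Nat.dvd_lcm_right _ _))

/-- `gcd(a,b) = ∑ φ(k)` over common divisors in the range -/
theorem GD_gcd (q Y a b : ℕ) (ha : 0 < a) (haY : a ≤ Y) (hc : Nat.Coprime a q) :
    (Nat.gcd a b : ℝ) = ∑ k ∈ (Icc 1 Y).filter (fun k => Nat.Coprime k q),
      if k ∣ a ∧ k ∣ b then phi k else 0 := by
  have h1 := Nat.sum_totient (Nat.gcd a b)
  have h2 : ((∑ m ∈ (Nat.gcd a b).divisors, Nat.totient m : ℕ) : ℝ) = (Nat.gcd a b : ℝ) := by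
    rw [h1]
  rw [← h2, ← Finset.sum_filter, Finset.filter_filter]
  push_cast
  refine Finset.sum_congr ?_ fun _ _ => rfl
  ext k
  rw [mem_filter, Nat.mem_divisors, mem_Icc, Nat.dvd_gcd_iff]
  constructor
  · rintro ⟨⟨h3, h4⟩, _⟩
    refine ⟨⟨Nat.pos_of_dvd_of_pos h3 ha, (Nat.le_of_dvd ha h3).trans haY⟩, ?_, h3, h4⟩
    exact Nat.Coprime.coprime_dvd_left h3 hc
  · rintro ⟨_, _, h3, h4⟩
    exact ⟨⟨h3, h4⟩, by
      have := Nat.gcd_pos_of_pos_left b ha
      omega⟩

/-- the inner sum -/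
theorem GD_inner (q : ℕ) (hq : Squarefree q) (y : ℝ) (k : ℕ) (hk : 1 ≤ k) (hkq : Nat.Coprime k q) :
    ∑ e ∈ Icc 1 ⌊y⌋₊, (if k ∣ GD_co q e then mu e * Real.log (y / e) / (GD_co q e : ℝ) else 0) =
      mu k / k * ∑ c ∈ q.divisors, mu c * AA (k * q) (y / (k * c)) := by
  classical
  have hq0 : q ≠ 0 := hq.ne_zero
  have hk0 : (0 : ℝ) < k := by exact_mod_cast hk
  by_cases hmk : Squarefree k
  swap
  · -- both sides vanish
    have h1 : mu k = 0 := by
      unfold mu; rw [ArithmeticFunction.moebius_eq_zero_of_not_squarefree hmk]; simp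
    rw [h1]
    simp only [zero_div, zero_mul]
    refine Finset.sum_eq_zero fun e he => ?_
    split_ifs with h
    · have h2 : ¬ Squarefree e := by
        intro h3
        apply hmk
        refine Squarefree.squarefree_of_dvd ?_ h3
        refine h.trans ?_
        exact ⟨Nat.gcd e q, by rw [mul_comm]; exact (GD_mul q e).symm⟩
      unfold mu
      rw [ArithmeticFunction.moebius_eq_zero_of_not_squarefree h2]
      simp
    · rfl
  -- index set of the right side
  have hfl : ∀ c m : ℕ, 1 ≤ c → (m ≤ ⌊y / (k * c)⌋₊ ↔ c * (k * m) ≤ ⌊y⌋₊) ∨ y < 1 := by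
    intro c m hc
    by_cases hy : y < 1
    · exact Or.inr hy
    · push Not at hy
      left
      have hc0 : (0 : ℝ) < c := by exact_mod_cast hc
      rw [Nat.le_floor_iff (by positivity), Nat.le_floor_iff (by linarith),
        le_div_iff₀ (by positivity)]
      push_cast
      constructor <;> intro h <;> nlinarith [h]
  by_cases hy : y < 1
  · have h1 : ⌊y⌋₊ = 0 := Nat.floor_eq_zero.2 hy
    rw [h1]
    have h2 : ∀ c ∈ q.divisors, mu c * AA (k * q) (y / (k * c)) = 0 := by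
      intro c hc
      have hc1 : 1 ≤ c := Nat.pos_of_mem_divisors hc
      have hc0 : (1 : ℝ) ≤ c := by exact_mod_cast hc1
      have hk1 : (1 : ℝ) ≤ k := by exact_mod_cast hk
      have : y / (k * c) < 1 := by
        rw [div_lt_one (by positivity)]
        nlinarith
      unfold AA
      rw [Nat.floor_eq_zero.2 this]
      simp
    rw [Finset.sum_eq_zero h2]
    simp
  have hfl' : ∀ c m : ℕ, 1 ≤ c → (m ≤ ⌊y / (k * c)⌋₊ ↔ c * (k * m) ≤ ⌊y⌋₊) := by
    intro c m hc
    rcases hfl c m hc with h | h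
    · exact h
    · exact absurd h hy
  -- rewrite the left side as a sum over good e
  rw [← Finset.sum_filter]
  have hL : ∑ e ∈ (Icc 1 ⌊y⌋₊).filter (fun e => k ∣ GD_co q e),
      mu e * Real.log (y / e) / (GD_co q e : ℝ) =
      ∑ e ∈ ((Icc 1 ⌊y⌋₊).filter (fun e => k ∣ GD_co q e)).filter (fun e => Squarefree e),
        mu e * Real.log (y / e) / (GD_co q e : ℝ) := by
    symm
    refine Finset.sum_subset (Finset.filter_subset _ _) fun e he1 he2 => ?_
    have : ¬ Squarefree e := fun h => he2 (mem_filter.2 ⟨he1, h⟩)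
    unfold mu
    rw [ArithmeticFunction.moebius_eq_zero_of_not_squarefree this]
    simp
  rw [hL]
  -- rewrite the right side
  have hR : mu k / k * ∑ c ∈ q.divisors, mu c * AA (k * q) (y / (k * c)) =
      ∑ c ∈ q.divisors, ∑ m ∈ ((Icc 1 ⌊y / (k * c)⌋₊).filter
        (fun m => Nat.Coprime m (k * q))).filter (fun m => Squarefree m),
        mu k / k * (mu c * (mu m / m * Real.log (y / (k * c) / m))) := by
    rw [Finset.mul_sum]
    refine Finset.sum_congr rfl fun c _ => ?_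
    unfold AA
    rw [Finset.mul_sum, Finset.mul_sum]
    symm
    refine Finset.sum_subset (Finset.filter_subset _ _) fun m hm1 hm2 => ?_
    have : ¬ Squarefree m := fun h => hm2 (mem_filter.2 ⟨hm1, h⟩)
    unfold mu
    rw [ArithmeticFunction.moebius_eq_zero_of_not_squarefree this]
    simp
  rw [hR, Finset.sum_sigma']
  -- facts about the map
  have key : ∀ c m : ℕ, c ∣ q → Nat.Coprime m (k * q) → 1 ≤ m →
      Nat.gcd (c * (k * m)) q = c := by
    intro c m hc hm _
    have h1 : Nat.Coprime (k * m) q :=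
      Nat.Coprime.mul_left hkq (Nat.Coprime.coprime_mul_left_right hm)
    obtain ⟨d, hd⟩ := hc
    conv_lhs => rw [hd]
    rw [Nat.gcd_mul_left]
    have h2 : Nat.Coprime (k * m) d := by
      refine Nat.Coprime.coprime_dvd_right ?_ h1
      exact ⟨c, by rw [hd, mul_comm]⟩
    rw [Nat.coprime_iff_gcd_eq_one.1 h2, mul_one]
  symm
  refine Finset.sum_bij (fun (x : (_ : ℕ) × ℕ) _ => x.1 * (k * x.2)) ?_ ?_ ?_ ?_
  · rintro ⟨c, m⟩ hx
    simp only [mem_sigma, mem_filter, mem_Icc, Nat.mem_divisors] at hx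
    obtain ⟨⟨hc, _⟩, ⟨⟨hm1, hm2⟩, hm3⟩, hm4⟩ := hx
    have hc1 : 1 ≤ c := Nat.pos_of_dvd_of_pos hc (Nat.pos_of_ne_zero hq0)
    have hg := key c m hc hm3 hm1
    have hco : GD_co q (c * (k * m)) = k * m := by
      unfold GD_co
      rw [hg, Nat.mul_div_cancel_left _ hc1]
    simp only [mem_filter, mem_Icc]
    refine ⟨⟨⟨?_, (hfl' c m hc1).1 hm2⟩, ?_⟩, ?_⟩
    · have : 0 < c * (k * m) := by positivity
      omega
    · rw [hco]; exact Dvd.intro _ rfl
    · have h1 : Nat.Coprime k m := (Nat.Coprime.coprime_mul_right_right hm3).symm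
      have h2 : Nat.Coprime c (k * m) := by
        have h3 : Nat.Coprime (k * m) q :=
          Nat.Coprime.mul_left hkq (Nat.Coprime.coprime_mul_left_right hm3)
        exact (Nat.Coprime.coprime_dvd_right hc h3).symm
      rw [Nat.squarefree_mul h2, Nat.squarefree_mul h1]
      exact ⟨Squarefree.squarefree_of_dvd hc hq, hmk, hm4⟩
  · rintro ⟨c, m⟩ hx ⟨c', m'⟩ hx' hxx
    simp only [mem_sigma, mem_filter, mem_Icc, Nat.mem_divisors] at hx hx'
    obtain ⟨⟨hc, _⟩, ⟨⟨hm1, hm2⟩, hm3⟩, hm4⟩ := hx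
    obtain ⟨⟨hc', _⟩, ⟨⟨hm1', hm2'⟩, hm3'⟩, hm4'⟩ := hx'
    simp only at hxx
    have hg := key c m hc hm3 hm1
    have hg' := key c' m' hc' hm3' hm1'
    have hcc : c = c' := by rw [← hg, ← hg', hxx]
    subst hcc
    have hc1 : 0 < c := Nat.pos_of_dvd_of_pos hc (Nat.pos_of_ne_zero hq0)
    have hmm : m = m' := Nat.eq_of_mul_eq_mul_left (by omega : 0 < k)
      (Nat.eq_of_mul_eq_mul_left hc1 hxx)
    rw [hmm]
  · intro e he
    simp only [mem_filter, mem_Icc] at he
    obtain ⟨⟨⟨he1, he2⟩, he3⟩, he4⟩ := he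
    obtain ⟨m, hm⟩ := he3
    have hge := GD_mul q e
    have hgpos : 1 ≤ Nat.gcd e q := Nat.gcd_pos_of_pos_left q (by omega)
    have hcop := GD_cop q e he4
    rw [hm] at hge hcop
    have hm1 : 1 ≤ m := by
      rcases Nat.eq_zero_or_pos m with h | h
      · subst h; simp at hge; omega
      · exact h
    have hsq : Squarefree (k * m) := by
      refine Squarefree.squarefree_of_dvd ?_ he4
      exact ⟨Nat.gcd e q, by rw [mul_comm]; exact hge.symm⟩
    have hkm : Nat.Coprime k m := Nat.coprime_of_squarefree_mul hsq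
    refine ⟨⟨Nat.gcd e q, m⟩, ?_, hge⟩
    simp only [mem_sigma, mem_filter, mem_Icc, Nat.mem_divisors]
    refine ⟨⟨Nat.gcd_dvd_right _ _, hq0⟩, ⟨⟨hm1, ?_⟩, ?_⟩, ?_⟩
    · rw [hfl' _ _ hgpos, hge]; exact he2
    · exact Nat.Coprime.mul_right hkm.symm (Nat.Coprime.coprime_mul_left hcop)
    · exact Squarefree.squarefree_of_dvd (Dvd.intro_left _ rfl) hsq
  · rintro ⟨c, m⟩ hx
    simp only [mem_sigma, mem_filter, mem_Icc, Nat.mem_divisors] at hx
    obtain ⟨⟨hc, _⟩, ⟨⟨hm1, hm2⟩, hm3⟩, hm4⟩ := hx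
    have hc1 : 1 ≤ c := Nat.pos_of_dvd_of_pos hc (Nat.pos_of_ne_zero hq0)
    have hg := key c m hc hm3 hm1
    have hco : GD_co q (c * (k * m)) = k * m := by
      unfold GD_co
      rw [hg, Nat.mul_div_cancel_left _ hc1]
    simp only
    rw [hco]
    have h1 : Nat.Coprime k m := (Nat.Coprime.coprime_mul_right_right hm3).symm
    have h2 : Nat.Coprime c (k * m) := by
      have h3 : Nat.Coprime (k * m) q :=
        Nat.Coprime.mul_left hkq (Nat.Coprime.coprime_mul_left_right hm3)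
      exact (Nat.Coprime.coprime_dvd_right hc h3).symm
    have hmu : mu (c * (k * m)) = mu c * (mu k * mu m) := by
      unfold mu
      rw [ArithmeticFunction.isMultiplicative_moebius.map_mul_of_coprime h2,
        ArithmeticFunction.isMultiplicative_moebius.map_mul_of_coprime h1]
      push_cast; ring
    have hc0 : (0 : ℝ) < c := by exact_mod_cast hc1
    have hm0 : (0 : ℝ) < m := by exact_mod_cast hm1
    rw [hmu]
    push_cast
    have e1 : y / (k * c) / m = y / (c * (k * m)) := by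
      rw [div_div]; congr 1; ring
    rw [e1]
    field_simp

/-- GD -/
theorem gg_diag (q : ℕ) (hq : Squarefree q) (y : ℝ) :
    GG q y = (1 / (q : ℝ)) * ∑ k ∈ (Icc 1 ⌊y⌋₊).filter (fun k => Nat.Coprime k q),
      mu k ^ 2 * phi k / (k : ℝ) ^ 2 *
        (∑ c ∈ q.divisors, mu c * AA (k * q) (y / (k * c))) ^ 2 := by
  classical
  have hq0 : (q : ℝ) ≠ 0 := by exact_mod_cast hq.ne_zero
  set Y := ⌊y⌋₊ with hY
  set T : ℕ → ℕ → ℝ := fun k e =>
    if k ∣ GD_co q e then mu e * Real.log (y / e) / (GD_co q e : ℝ) else 0 with hT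
  set P : Finset ℕ := (Icc 1 Y).filter (fun k => Nat.Coprime k q) with hP
  have hterm : ∀ e₁ ∈ Icc 1 Y, ∀ e₂ ∈ Icc 1 Y,
      mu e₁ * mu e₂ * Real.log (y / e₁) * Real.log (y / e₂) /
        ((Nat.lcm q (Nat.lcm e₁ e₂) : ℕ) : ℝ) =
      (1 / (q : ℝ)) * ∑ k ∈ P, phi k * (T k e₁ * T k e₂) := by
    intro e₁ he₁ e₂ he₂
    rw [mem_Icc] at he₁ he₂
    by_cases h₁ : Squarefree e₁
    swap
    · have hz : mu e₁ = 0 := by
        unfold mu; rw [ArithmeticFunction.moebius_eq_zero_of_not_squarefree h₁]; simp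
      have hz2 : ∀ k ∈ P, phi k * (T k e₁ * T k e₂) = 0 := by
        intro k _
        simp [hT, hz]
      rw [Finset.sum_eq_zero hz2, hz]; simp
    by_cases h₂ : Squarefree e₂
    swap
    · have hz : mu e₂ = 0 := by
        unfold mu; rw [ArithmeticFunction.moebius_eq_zero_of_not_squarefree h₂]; simp
      have hz2 : ∀ k ∈ P, phi k * (T k e₁ * T k e₂) = 0 := by
        intro k _
        simp [hT, hz]
      rw [Finset.sum_eq_zero hz2, hz]; simp
    rw [GD_lcm q e₁ e₂ h₁ h₂]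
    set a := GD_co q e₁ with ha
    set b := GD_co q e₂ with hb
    have hdva : a ∣ e₁ := by
      have e1 := GD_mul q e₁
      rw [← ha] at e1
      exact ⟨_, by rw [mul_comm]; exact e1.symm⟩
    have hdvb : b ∣ e₂ := by
      have e1 := GD_mul q e₂
      rw [← hb] at e1
      exact ⟨_, by rw [mul_comm]; exact e1.symm⟩
    have ha0 : 0 < a := Nat.pos_of_dvd_of_pos hdva (by omega)
    have hb0 : 0 < b := Nat.pos_of_dvd_of_pos hdvb (by omega)
    have haY : a ≤ Y := (Nat.le_of_dvd (by omega) hdva).trans he₁.2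
    have hg := GD_gcd q Y a b ha0 haY (GD_cop q e₁ h₁)
    have hlcm : ((q * Nat.lcm a b : ℕ) : ℝ) = q * ((a : ℝ) * b / (Nat.gcd a b : ℝ)) := by
      have h3 : (Nat.gcd a b : ℝ) * (Nat.lcm a b : ℝ) = a * b := by
        exact_mod_cast Nat.gcd_mul_lcm a b
      have h4 : (Nat.gcd a b : ℝ) ≠ 0 := by
        have := Nat.gcd_pos_of_pos_left b ha0
        positivity
      push_cast
      congr 1
      field_simp
      linarith
    rw [hlcm]
    have har : (0 : ℝ) < a := by exact_mod_cast ha0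
    have hbr : (0 : ℝ) < b := by exact_mod_cast hb0
    have hsum : ∑ k ∈ P, phi k * (T k e₁ * T k e₂) =
        (mu e₁ * Real.log (y / e₁) / a) * (mu e₂ * Real.log (y / e₂) / b) * (Nat.gcd a b : ℝ) := by
      rw [hg, Finset.mul_sum]
      refine Finset.sum_congr rfl fun k _ => ?_
      simp only [hT, ← ha, ← hb]
      by_cases h5 : k ∣ a
      · by_cases h6 : k ∣ b
        · simp only [h5, h6, and_self, if_true]; ring
        · simp only [h5, h6, and_false, if_true, if_false]; ring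
      · simp only [h5, false_and, if_false]; ring
    rw [hsum]
    have h4 : (Nat.gcd a b : ℝ) ≠ 0 := by
      have := Nat.gcd_pos_of_pos_left b ha0
      positivity
    field_simp
  unfold GG
  rw [← hY]
  rw [Finset.sum_congr rfl fun e₁ he₁ => Finset.sum_congr rfl fun e₂ he₂ => hterm e₁ he₁ e₂ he₂]
  simp only [← Finset.mul_sum]
  congr 1
  -- exchange sums
  have hex : ∑ e₁ ∈ Icc 1 Y, ∑ e₂ ∈ Icc 1 Y, ∑ k ∈ P, phi k * (T k e₁ * T k e₂) =
      ∑ k ∈ P, phi k * (∑ e ∈ Icc 1 Y, T k e) ^ 2 := by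
    have h1 : ∀ e₁ ∈ Icc 1 Y, ∑ e₂ ∈ Icc 1 Y, ∑ k ∈ P, phi k * (T k e₁ * T k e₂) =
        ∑ k ∈ P, ∑ e₂ ∈ Icc 1 Y, phi k * (T k e₁ * T k e₂) := fun _ _ => Finset.sum_comm
    rw [Finset.sum_congr rfl h1, Finset.sum_comm]
    refine Finset.sum_congr rfl fun k _ => ?_
    rw [sq, Finset.sum_mul_sum, Finset.mul_sum]
    refine Finset.sum_congr rfl fun e₁ _ => ?_
    rw [Finset.mul_sum]
  rw [hex]
  refine Finset.sum_congr rfl fun k hk => ?_
  rw [hP, mem_filter, mem_Icc] at hk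
  have hin := GD_inner q hq y k hk.1.1 hk.2
  rw [← hY] at hin
  rw [hin]
  have hk0 : (k : ℝ) ≠ 0 := by
    have := hk.1.1
    positivity
  field_simp

end Pool.Agent.FG61
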