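import Pool.Agent.Lib_helper61.FG.Defs

set_option autoImplicit false

namespace Pool.Agent.FG61

open Finset Filter Topology
open Pool.Agent.Var35 (e)

theorem KS_sum_sqrt (M : ℕ) : ∑ m ∈ Icc 1 M, 1 / Real.sqrt m ≤ 2 * Real.sqrt M := by
  induction M with
  | zero => simp
  | succ M ih =>
    rw [Finset.sum_Icc_succ_top (by omega)]
    have h0 : (0 : ℝ) ≤ M := Nat.cast_nonneg M
    have h1 : 0 < Real.sqrt ((M + 1 : ℕ) : ℝ) := by
      apply Real.sqrt_pos.2
      positivity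
    have h2 : 0 ≤ Real.sqrt (M : ℝ) := Real.sqrt_nonneg _
    have h3 : Real.sqrt ((M + 1 : ℕ) : ℝ) ^ 2 = M + 1 := by
      rw [Real.sq_sqrt (by positivity)]
      push_cast
      ring
    have h4 : Real.sqrt (M : ℝ) ^ 2 = M := Real.sq_sqrt h0
    have h5 : Real.sqrt (M : ℝ) ≤ Real.sqrt ((M + 1 : ℕ) : ℝ) := by
      apply Real.sqrt_le_sqrt
      push_cast
      linarith
    have h6 : 1 / Real.sqrt ((M + 1 : ℕ) : ℝ) ≤
        2 * Real.sqrt ((M + 1 : ℕ) : ℝ) - 2 * Real.sqrt (M : ℝ) := by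
      rw [div_le_iff₀ h1]
      nlinarith
    linarith

theorem KS_mult (N d : ℕ) (hd : 1 ≤ d) :
    ∑ k ∈ (Icc 1 N).filter (fun k => d ∣ k), 1 / Real.sqrt k ≤ 2 * Real.sqrt N / d := by
  have hd0 : (0 : ℝ) < d := by exact_mod_cast hd
  have himg : (Icc 1 N).filter (fun k => d ∣ k) = (Icc 1 (N / d)).image (fun m => d * m) := by
    ext k
    simp only [Finset.mem_filter, Finset.mem_Icc, Finset.mem_image]
    constructor
    · rintro ⟨⟨h1, h2⟩, m, rfl⟩
      refine ⟨m, ⟨?_, ?_⟩, rfl⟩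
      · rcases Nat.eq_zero_or_pos m with h | h
        · subst h
          simp at h1
        · exact h
      · rw [Nat.le_div_iff_mul_le (by omega)]
        rw [mul_comm]
        exact h2
    · rintro ⟨m, ⟨h1, h2⟩, rfl⟩
      rw [Nat.le_div_iff_mul_le (by omega)] at h2
      refine ⟨⟨?_, ?_⟩, Dvd.intro m rfl⟩
      · exact Nat.mul_pos hd h1
      · rw [mul_comm]
        exact h2
  rw [himg, Finset.sum_image]
  · have h1 : ∀ m ∈ Icc 1 (N / d), 1 / Real.sqrt ((d * m : ℕ) : ℝ) =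
        1 / Real.sqrt d * (1 / Real.sqrt m) := by
      intro m _
      rw [Nat.cast_mul, Real.sqrt_mul hd0.le]
      rw [one_div_mul_one_div]
    rw [Finset.sum_congr rfl h1, ← Finset.mul_sum]
    have h2 := KS_sum_sqrt (N / d)
    have h3 : Real.sqrt ((N / d : ℕ) : ℝ) ≤ Real.sqrt N / Real.sqrt d := by
      rw [← Real.sqrt_div (Nat.cast_nonneg N)]
      exact Real.sqrt_le_sqrt Nat.cast_div_le
    have hs : 0 < Real.sqrt (d : ℝ) := Real.sqrt_pos.2 hd0
    calc 1 / Real.sqrt (d : ℝ) * ∑ m ∈ Icc 1 (N / d), 1 / Real.sqrt (m : ℝ)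
        ≤ 1 / Real.sqrt (d : ℝ) * (2 * (Real.sqrt N / Real.sqrt d)) := by
          apply mul_le_mul_of_nonneg_left _ (by positivity)
          linarith
      _ = 2 * Real.sqrt N / (Real.sqrt d * Real.sqrt d) := by
          field_simp
      _ = 2 * Real.sqrt N / d := by rw [Real.mul_self_sqrt hd0.le]
  · intro a _ b _ h
    exact Nat.eq_of_mul_eq_mul_left (by omega) h

/-- the prime weight -/
noncomputable def KS_g (p : ℕ) : ℝ := ((1 - (p : ℝ) ^ (-(3 / 4 : ℝ)))⁻¹) ^ 2 - 1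

theorem KS_rpow_le (p : ℕ) (hp : 2 ≤ p) : (p : ℝ) ^ (-(3 / 4 : ℝ)) ≤ 3 / 5 := by
  have h2 : (2 : ℝ) ≤ p := by exact_mod_cast hp
  have h1 : (p : ℝ) ^ (-(3 / 4 : ℝ)) ≤ (2 : ℝ) ^ (-(3 / 4 : ℝ)) := by
    apply Real.rpow_le_rpow_of_nonpos (by norm_num) h2 (by norm_num)
  have h3 : (2 : ℝ) ^ (-(3 / 4 : ℝ)) ≤ 3 / 5 := by
    have h4 : 0 < (2 : ℝ) ^ (-(3 / 4 : ℝ)) := by positivity
    have h5 : ((2 : ℝ) ^ (-(3 / 4 : ℝ))) ^ 4 = 1 / 8 := by
      rw [← Real.rpow_natCast, ← Real.rpow_mul (by norm_num)]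
      have : (-(3 / 4 : ℝ)) * ((4 : ℕ) : ℝ) = -(3 : ℕ) := by norm_num
      rw [this, Real.rpow_neg (by norm_num), Real.rpow_natCast]
      norm_num
    by_contra hcon
    push Not at hcon
    have h6 : (3 / 5 : ℝ) ^ 4 < ((2 : ℝ) ^ (-(3 / 4 : ℝ))) ^ 4 := by
      apply pow_lt_pow_left₀ hcon (by norm_num) (by norm_num)
    rw [h5] at h6
    norm_num at h6
  exact h1.trans h3

theorem KS_g_bounds (p : ℕ) (hp : 2 ≤ p) :
    0 ≤ KS_g p ∧ KS_g p ≤ 10 * (p : ℝ) ^ (-(3 / 4 : ℝ)) := by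
  have h1 := KS_rpow_le p hp
  have hp0 : (0 : ℝ) < p := by
    have : 0 < p := by omega
    exact_mod_cast this
  have h2 : 0 < (p : ℝ) ^ (-(3 / 4 : ℝ)) := by positivity
  set t := (p : ℝ) ^ (-(3 / 4 : ℝ)) with ht
  have h3 : KS_g p = ((1 - t)⁻¹) ^ 2 - 1 := rfl
  have h4 : 0 < 1 - t := by linarith
  have h5 : ((1 - t)⁻¹) ^ 2 = 1 / (1 - t) ^ 2 := by
    rw [inv_pow, one_div]
  rw [h3, h5]
  have h6 : 0 < (1 - t) ^ 2 := by positivity
  constructor
  · rw [sub_nonneg, le_div_iff₀ h6]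
    nlinarith
  · rw [sub_le_iff_le_add, div_le_iff₀ h6]
    -- (1+10 t)(1-t)^2 ≥ 1
    nlinarith [mul_pos h2 h2, mul_pos (mul_pos h2 h2) h2]

theorem KS_kap_sq (k : ℕ) : kap k ^ 2 = ∑ S ∈ k.primeFactors.powerset, ∏ p ∈ S, KS_g p := by
  rw [← Finset.prod_one_add]
  unfold kap
  rw [← Finset.prod_pow]
  apply Finset.prod_congr rfl
  intro p _
  unfold KS_g
  ring

theorem KS_summable : Summable (fun n : ℕ => 10 * ((n : ℝ) ^ (-(7 / 4 : ℝ)))) := by
  apply Summable.mul_left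
  rw [Real.summable_nat_rpow]
  norm_num

theorem kap_sum : ∃ C : ℝ, 0 ≤ C ∧ ∀ y : ℝ, 1 ≤ y →
    ∑ k ∈ Icc 1 ⌊y⌋₊, kap k ^ 2 * (k : ℝ) ^ (-(1 / 2 : ℝ)) ≤ C * y ^ (1 / 2 : ℝ) := by
  set T : ℝ := ∑' n : ℕ, 10 * ((n : ℝ) ^ (-(7 / 4 : ℝ))) with hT
  refine ⟨2 * Real.exp T, by positivity, ?_⟩
  intro y hy
  have hy0 : 0 < y := by linarith
  set N := ⌊y⌋₊ with hN
  set P := (Icc 1 N).filter Nat.Prime with hP
  have hPp : ∀ p ∈ P, Nat.Prime p := fun p hp => (Finset.mem_filter.1 hp).2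
  have hsub : ∀ k ∈ Icc 1 N, k.primeFactors ⊆ P := by
    intro k hk p hp
    rw [Finset.mem_Icc] at hk
    have h1 := Nat.prime_of_mem_primeFactors hp
    have h2 := Nat.le_of_mem_primeFactors hp
    rw [hP, Finset.mem_filter, Finset.mem_Icc]
    exact ⟨⟨h1.one_le, h2.trans hk.2⟩, h1⟩
  have hg0 : ∀ p ∈ P, 0 ≤ KS_g p := fun p hp => (KS_g_bounds p (hPp p hp).two_le).1
  have e1 : ∑ k ∈ Icc 1 N, kap k ^ 2 * (k : ℝ) ^ (-(1 / 2 : ℝ)) =
      ∑ S ∈ P.powerset, (∏ p ∈ S, KS_g p) *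
        ∑ k ∈ (Icc 1 N).filter (fun k => S ⊆ k.primeFactors), 1 / Real.sqrt k := by
    have e2 : ∀ k ∈ Icc 1 N, kap k ^ 2 * (k : ℝ) ^ (-(1 / 2 : ℝ)) =
        ∑ S ∈ P.powerset, if S ⊆ k.primeFactors then (∏ p ∈ S, KS_g p) * (1 / Real.sqrt k)
          else 0 := by
      intro k hk
      rw [KS_kap_sq k, Finset.sum_mul]
      rw [← Finset.sum_filter]
      have e3 : P.powerset.filter (fun S => S ⊆ k.primeFactors) = k.primeFactors.powerset := by
        ext S
        simp only [Finset.mem_filter, Finset.mem_powerset]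
        exact ⟨fun h => h.2, fun h => ⟨h.trans (hsub k hk), h⟩⟩
      rw [e3]
      apply Finset.sum_congr rfl
      intro S _
      congr 1
      rw [Real.rpow_neg (Nat.cast_nonneg k), Real.sqrt_eq_rpow, ← one_div]
    rw [Finset.sum_congr rfl e2, Finset.sum_comm]
    apply Finset.sum_congr rfl
    intro S _
    rw [Finset.mul_sum, Finset.sum_filter]
  rw [e1]
  have e4 : ∀ S ∈ P.powerset, (∏ p ∈ S, KS_g p) *
        ∑ k ∈ (Icc 1 N).filter (fun k => S ⊆ k.primeFactors), 1 / Real.sqrt k ≤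
        2 * Real.sqrt N * ∏ p ∈ S, (KS_g p / p) := by
    intro S hS
    rw [Finset.mem_powerset] at hS
    have hS1 : ∀ p ∈ S, Nat.Prime p := fun p hp => hPp p (hS hp)
    have hS0 : 0 ≤ ∏ p ∈ S, KS_g p := Finset.prod_nonneg (fun p hp => hg0 p (hS hp))
    have hd : 1 ≤ ∏ p ∈ S, p := Finset.prod_pos (fun p hp => (hS1 p hp).pos)
    have h1 : (Icc 1 N).filter (fun k => S ⊆ k.primeFactors) ⊆
        (Icc 1 N).filter (fun k => (∏ p ∈ S, p) ∣ k) := by
      intro k hk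
      rw [Finset.mem_filter] at hk ⊢
      refine ⟨hk.1, ?_⟩
      apply Finset.prod_primes_dvd
      · intro p hp
        exact (hS1 p hp).prime
      · intro p hp
        exact Nat.dvd_of_mem_primeFactors (hk.2 hp)
    have h2 : ∑ k ∈ (Icc 1 N).filter (fun k => S ⊆ k.primeFactors), 1 / Real.sqrt k ≤
        2 * Real.sqrt N / ((∏ p ∈ S, p : ℕ) : ℝ) := by
      refine le_trans ?_ (KS_mult N _ hd)
      apply Finset.sum_le_sum_of_subset_of_nonneg h1
      intro k _ _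
      positivity
    calc _ ≤ (∏ p ∈ S, KS_g p) * (2 * Real.sqrt N / ((∏ p ∈ S, p : ℕ) : ℝ)) :=
          mul_le_mul_of_nonneg_left h2 hS0
      _ = _ := by
          rw [Finset.prod_div_distrib, Nat.cast_prod]
          ring
  refine (Finset.sum_le_sum e4).trans ?_
  rw [← Finset.mul_sum, ← Finset.prod_one_add]
  have e5 : ∏ p ∈ P, (1 + KS_g p / p) ≤ Real.exp T := by
    calc ∏ p ∈ P, (1 + KS_g p / p) ≤ ∏ p ∈ P, Real.exp (KS_g p / p) := by
          apply Finset.prod_le_prod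
          · intro p hp
            have := hg0 p hp
            positivity
          · intro p _
            have := Real.add_one_le_exp (KS_g p / p)
            linarith
      _ = Real.exp (∑ p ∈ P, KS_g p / p) := (Real.exp_sum _ _).symm
      _ ≤ Real.exp T := by
          apply Real.exp_le_exp.2
          calc ∑ p ∈ P, KS_g p / p ≤ ∑ p ∈ P, 10 * ((p : ℝ) ^ (-(7 / 4 : ℝ))) := by
                apply Finset.sum_le_sum
                intro p hp
                have hp0 : (0 : ℝ) < p := by exact_mod_cast (hPp p hp).pos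
                have h1 := (KS_g_bounds p (hPp p hp).two_le).2
                rw [div_le_iff₀ hp0]
                have h2 : (p : ℝ) ^ (-(7 / 4 : ℝ)) * p = (p : ℝ) ^ (-(3 / 4 : ℝ)) := by
                  nth_rewrite 2 [← Real.rpow_one (p : ℝ)]
                  rw [← Real.rpow_add hp0]
                  norm_num
                rw [mul_assoc, h2]
                exact h1
            _ ≤ T := by
                apply KS_summable.sum_le_tsum
                intro n _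
                positivity
  have e6 : Real.sqrt (N : ℝ) ≤ y ^ (1 / 2 : ℝ) := by
    rw [← Real.sqrt_eq_rpow]
    exact Real.sqrt_le_sqrt (Nat.floor_le hy0.le)
  have e7 : 0 ≤ ∏ p ∈ P, (1 + KS_g p / p) := by
    apply Finset.prod_nonneg
    intro p hp
    have := hg0 p hp
    positivity
  calc 2 * Real.sqrt N * ∏ p ∈ P, (1 + KS_g p / p) ≤
        2 * y ^ (1 / 2 : ℝ) * Real.exp T := by
        apply mul_le_mul _ e5 e7 (by positivity)
        linarith
    _ = 2 * Real.exp T * y ^ (1 / 2 : ℝ) := by ring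

end Pool.Agent.FG61
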