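import Pool.Agent.Lib_helper61.FG.Defs
import Pool.Agent.Lib_helper61.FG.P.AK
import Pool.Agent.Lib_helper61.FG.P.GD
import Pool.Agent.Lib_helper61.FG.P.KS
import Pool.Agent.Lib_helper61.FG.P.PS

set_option autoImplicit false

namespace Pool.Agent.FG61

open Finset Filter Topology
open Pool.Agent.Var35 (e)

theorem G1_mu_sq_le (k : ℕ) : mu k ^ 2 ≤ 1 := by
  have h : |((ArithmeticFunction.moebius k : ℤ) : ℝ)| ≤ 1 := by
    have h1 := ArithmeticFunction.abs_moebius_le_one (n := k)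
    exact_mod_cast h1
  have h2 : |mu k| ≤ 1 := h
  calc mu k ^ 2 = |mu k| ^ 2 := (sq_abs _).symm
    _ ≤ 1 ^ 2 := by gcongr
    _ = 1 := one_pow 2

theorem G1_diag (y : ℝ) :
    GG 1 y = ∑ k ∈ Icc 1 ⌊y⌋₊, mu k ^ 2 * phi k / (k : ℝ) ^ 2 * (AA k (y / k)) ^ 2 := by
  rw [gg_diag 1 squarefree_one y]
  simp only [Nat.cast_one, div_one, one_mul, Nat.coprime_one_right_eq_true, Finset.filter_true,
    Nat.divisors_one, Finset.sum_singleton, mul_one]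
  have : mu 1 = 1 := by simp [mu]
  simp [this]

theorem G1_term (δ C y : ℝ) (hδ : 0 < δ) (hC : 0 ≤ C) (hy : 1 ≤ y) (k : ℕ) (hk : 1 ≤ k)
    (hA : |AA k (y / k) - k / phi k| ≤ δ * (k / phi k) + C * kap k * (y / k) ^ (-(1 / 4 : ℝ))) :
    mu k ^ 2 * phi k / (k : ℝ) ^ 2 * (AA k (y / k)) ^ 2 ≤
      (1 + δ) ^ 3 * (mu k ^ 2 / phi k) +
      (1 + 1 / δ) * C ^ 2 * y ^ (-(1 / 2 : ℝ)) * (kap k ^ 2 * (k : ℝ) ^ (-(1 / 2 : ℝ))) := by
  have hk0 : (0 : ℝ) < k := by exact_mod_cast hk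
  have hy0 : 0 < y := by linarith
  have hphi : 0 < phi k := by
    have := Nat.totient_pos.2 hk
    exact_mod_cast this
  have hphik : phi k ≤ k := by
    have := Nat.totient_le k
    exact_mod_cast this
  set a : ℝ := (1 + δ) * (k / phi k) with ha
  set b : ℝ := C * kap k * (y / k) ^ (-(1 / 4 : ℝ)) with hb
  have hab : |AA k (y / k)| ≤ a + b := by
    have h1 : |AA k (y / k)| ≤ |AA k (y / k) - k / phi k| + |k / phi k| := by
      have := abs_add_le (AA k (y / k) - k / phi k) (k / phi k)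
      simpa using this
    have h2 : |(k : ℝ) / phi k| = k / phi k := abs_of_pos (by positivity)
    rw [h2] at h1
    have : a = k / phi k + δ * (k / phi k) := by rw [ha]; ring
    linarith
  have hsq : AA k (y / k) ^ 2 ≤ (a + b) ^ 2 := by
    rw [← sq_abs]
    have h0 : 0 ≤ |AA k (y / k)| := abs_nonneg _
    exact pow_le_pow_left₀ h0 hab 2
  have hsq2 : (a + b) ^ 2 ≤ (1 + δ) * a ^ 2 + (1 + 1 / δ) * b ^ 2 := by
    have h3 : 0 ≤ (δ * a - b) ^ 2 / δ := by positivity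
    have h4 : (δ * a - b) ^ 2 / δ = δ * a ^ 2 - 2 * a * b + 1 / δ * b ^ 2 := by
      field_simp
      ring
    nlinarith
  have hb2 : b ^ 2 = C ^ 2 * kap k ^ 2 * (y ^ (-(1 / 2 : ℝ)) * (k : ℝ) ^ (1 / 2 : ℝ)) := by
    rw [hb, mul_pow, mul_pow]
    congr 1
    rw [← Real.rpow_natCast, ← Real.rpow_mul (by positivity), Real.div_rpow hy0.le hk0.le]
    have e1 : (-(1 / 4 : ℝ)) * ((2 : ℕ) : ℝ) = -(1 / 2 : ℝ) := by norm_num
    rw [e1, Real.rpow_neg hk0.le, div_inv_eq_mul]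
  have hmu0 : 0 ≤ mu k ^ 2 := sq_nonneg _
  have hmu1 := G1_mu_sq_le k
  have hw : 0 ≤ mu k ^ 2 * phi k / (k : ℝ) ^ 2 := by positivity
  have hkk : (k : ℝ) ^ (1 / 2 : ℝ) = k * (k : ℝ) ^ (-(1 / 2 : ℝ)) := by
    nth_rewrite 2 [← Real.rpow_one (k : ℝ)]
    rw [← Real.rpow_add hk0]
    norm_num
  calc mu k ^ 2 * phi k / (k : ℝ) ^ 2 * (AA k (y / k)) ^ 2
      ≤ mu k ^ 2 * phi k / (k : ℝ) ^ 2 * ((1 + δ) * a ^ 2 + (1 + 1 / δ) * b ^ 2) :=
        mul_le_mul_of_nonneg_left (hsq.trans hsq2) hw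
    _ = (1 + δ) ^ 3 * (mu k ^ 2 / phi k) +
        (mu k ^ 2 * (phi k / k)) * ((1 + 1 / δ) * C ^ 2 * y ^ (-(1 / 2 : ℝ)) *
          (kap k ^ 2 * (k : ℝ) ^ (-(1 / 2 : ℝ)))) := by
        rw [hb2, ha, hkk]
        field_simp
    _ ≤ (1 + δ) ^ 3 * (mu k ^ 2 / phi k) +
        1 * ((1 + 1 / δ) * C ^ 2 * y ^ (-(1 / 2 : ℝ)) *
          (kap k ^ 2 * (k : ℝ) ^ (-(1 / 2 : ℝ)))) := by
        have h5 : mu k ^ 2 * (phi k / k) ≤ 1 := by
          have h6 : phi k / k ≤ 1 := by rw [div_le_one hk0]; exact hphik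
          have h7 : 0 ≤ phi k / k := by positivity
          nlinarith
        have h8 : 0 ≤ (1 + 1 / δ) * C ^ 2 * y ^ (-(1 / 2 : ℝ)) *
          (kap k ^ 2 * (k : ℝ) ^ (-(1 / 2 : ℝ))) := by positivity
        have := mul_le_mul_of_nonneg_right h5 h8
        linarith
    _ = _ := by ring

theorem g_one (ε : ℝ) (hε : 0 < ε) : ∃ C : ℝ, 0 ≤ C ∧ ∀ y : ℝ, 1 ≤ y →
    GG 1 y ≤ (1 + ε) * Real.log y + C := by
  set δ : ℝ := min (ε / 7) 1 with hδdef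
  have hδ : 0 < δ := lt_min (by positivity) one_pos
  have hδ1 : δ ≤ 1 := min_le_right _ _
  have hδ2 : 7 * δ ≤ ε := by
    have := min_le_left (ε / 7) 1
    linarith
  have hcube : (1 + δ) ^ 3 ≤ 1 + ε := by nlinarith [mul_nonneg hδ.le hδ.le]
  obtain ⟨C, hC1, hC⟩ := aa_gen δ hδ
  obtain ⟨C0, hC0, hphi⟩ := phi_sum
  obtain ⟨C1, hC10, hkap⟩ := kap_sum
  refine ⟨(1 + ε) * C0 + (1 + 1 / δ) * C ^ 2 * C1, by positivity, ?_⟩
  intro y hy
  have hy0 : 0 < y := by linarith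
  have hfl : 1 ≤ ⌊y⌋₊ := by
    rw [Nat.le_floor_iff hy0.le]
    simpa using hy
  rw [G1_diag y]
  have hlogy : 0 ≤ Real.log y := Real.log_nonneg hy
  calc ∑ k ∈ Icc 1 ⌊y⌋₊, mu k ^ 2 * phi k / (k : ℝ) ^ 2 * (AA k (y / k)) ^ 2
      ≤ ∑ k ∈ Icc 1 ⌊y⌋₊, ((1 + δ) ^ 3 * (mu k ^ 2 / phi k) +
      (1 + 1 / δ) * C ^ 2 * y ^ (-(1 / 2 : ℝ)) * (kap k ^ 2 * (k : ℝ) ^ (-(1 / 2 : ℝ)))) := by
        apply Finset.sum_le_sum
        intro k hk
        rw [Finset.mem_Icc] at hk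
        have hk0 : (0 : ℝ) < k := by exact_mod_cast hk.1
        exact G1_term δ C y hδ (by linarith) hy k hk.1 (hC k hk.1 (y / k) (by positivity))
    _ = (1 + δ) ^ 3 * (∑ k ∈ Icc 1 ⌊y⌋₊, mu k ^ 2 / phi k) +
        (1 + 1 / δ) * C ^ 2 * y ^ (-(1 / 2 : ℝ)) *
          (∑ k ∈ Icc 1 ⌊y⌋₊, kap k ^ 2 * (k : ℝ) ^ (-(1 / 2 : ℝ))) := by
        rw [Finset.sum_add_distrib, Finset.mul_sum, Finset.mul_sum]
    _ ≤ (1 + ε) * (Real.log y + C0) +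
        (1 + 1 / δ) * C ^ 2 * y ^ (-(1 / 2 : ℝ)) * (C1 * y ^ (1 / 2 : ℝ)) := by
        have h1 := hphi ⌊y⌋₊ hfl
        have h2 : Real.log ((⌊y⌋₊ : ℕ) : ℝ) ≤ Real.log y := by
          apply Real.log_le_log
          · exact_mod_cast hfl
          · exact Nat.floor_le hy0.le
        have h3 := hkap y hy
        have h4 : 0 ≤ (1 + 1 / δ) * C ^ 2 * y ^ (-(1 / 2 : ℝ)) := by positivity
        have h5 : 0 ≤ ∑ k ∈ Icc 1 ⌊y⌋₊, mu k ^ 2 / phi k :=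
          Finset.sum_nonneg (fun k _ => by positivity)
        have h6 : (1 + δ) ^ 3 * (∑ k ∈ Icc 1 ⌊y⌋₊, mu k ^ 2 / phi k) ≤
            (1 + ε) * (Real.log y + C0) := by
          apply mul_le_mul hcube (by linarith) h5 (by positivity)
        have h7 := mul_le_mul_of_nonneg_left h3 h4
        linarith
    _ = (1 + ε) * Real.log y + ((1 + ε) * C0 + (1 + 1 / δ) * C ^ 2 * C1) := by
        have : y ^ (-(1 / 2 : ℝ)) * y ^ (1 / 2 : ℝ) = 1 := by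
          rw [← Real.rpow_add hy0]
          norm_num
        linear_combination ((1 + 1 / δ) * C ^ 2 * C1) * this

end Pool.Agent.FG61
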