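import Pool.Agent.Lib_helper61.FG.Defs

set_option autoImplicit false

namespace Pool.Agent.FG61

open Finset Filter Topology

theorem DQ_mu_abs (n : ℕ) : |mu n| ≤ 1 := by
  have h := ArithmeticFunction.abs_moebius_le_one (n := n)
  have h2 : (|((ArithmeticFunction.moebius n : ℤ) : ℝ)|) = ((|ArithmeticFunction.moebius n| : ℤ) : ℝ) := by
    push_cast; rfl
  show |((ArithmeticFunction.moebius n : ℤ) : ℝ)| ≤ 1
  rw [h2]
  exact_mod_cast h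

/-- fractional counting error for multiples of `E` -/
theorem DQ_C_bounds (E M : ℕ) (hE : 1 ≤ E) :
    -1 ≤ ((M / E : ℕ) : ℝ) - (M : ℝ) / E ∧ ((M / E : ℕ) : ℝ) - (M : ℝ) / E ≤ 0 := by
  have hE0 : (0 : ℝ) < E := by exact_mod_cast hE
  constructor
  · have h := Nat.lt_div_mul_add (a := M) (b := E) (by omega)
    have h2 : (M : ℝ) < ((M / E : ℕ) : ℝ) * E + E := by exact_mod_cast h
    have h3 : (M : ℝ) / E ≤ ((M / E : ℕ) : ℝ) + 1 := by
      rw [div_le_iff₀ hE0]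
      nlinarith
    linarith
  · have h := @Nat.cast_div_le ℝ _ _ _ M E
    linarith

theorem DQ_mono_aux (w : ℕ → ℝ) (hw : Monotone w) (E : ℕ) (hE : 1 ≤ E) (M : ℕ) :
    0 ≤ (∑ s ∈ (Icc 1 M).filter (fun s => E ∣ s), w s - (1 / (E : ℝ)) * ∑ s ∈ Icc 1 M, w s)
        - (((M / E : ℕ) : ℝ) - (M : ℝ) / E) * w M ∧
    (∑ s ∈ (Icc 1 M).filter (fun s => E ∣ s), w s - (1 / (E : ℝ)) * ∑ s ∈ Icc 1 M, w s)
        - (((M / E : ℕ) : ℝ) - (M : ℝ) / E) * w M ≤ w M - w 0 := by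
  induction M with
  | zero => simp
  | succ M ih =>
    obtain ⟨ih1, ih2⟩ := ih
    obtain ⟨hC1, hC2⟩ := DQ_C_bounds E M hE
    have hwM : w M ≤ w (M + 1) := hw (Nat.le_succ M)
    have hs1 : ∑ s ∈ (Icc 1 (M + 1)).filter (fun s => E ∣ s), w s
        = ∑ s ∈ (Icc 1 M).filter (fun s => E ∣ s), w s + (if E ∣ M + 1 then w (M + 1) else 0) := by
      rw [Finset.sum_filter, Finset.sum_filter, Finset.sum_Icc_succ_top (by omega)]
    have hs2 : ∑ s ∈ Icc 1 (M + 1), w s = ∑ s ∈ Icc 1 M, w s + w (M + 1) := by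
      rw [Finset.sum_Icc_succ_top (by omega)]
    have hd : (((M + 1) / E : ℕ) : ℝ) = ((M / E : ℕ) : ℝ) + (if E ∣ M + 1 then 1 else 0) := by
      rw [Nat.succ_div]
      push_cast
      split_ifs <;> simp
    have key : (∑ s ∈ (Icc 1 (M + 1)).filter (fun s => E ∣ s), w s
          - (1 / (E : ℝ)) * ∑ s ∈ Icc 1 (M + 1), w s)
          - ((((M + 1) / E : ℕ) : ℝ) - ((M + 1 : ℕ) : ℝ) / E) * w (M + 1)
        = ((∑ s ∈ (Icc 1 M).filter (fun s => E ∣ s), w s - (1 / (E : ℝ)) * ∑ s ∈ Icc 1 M, w s)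
          - (((M / E : ℕ) : ℝ) - (M : ℝ) / E) * w M)
          - (((M / E : ℕ) : ℝ) - (M : ℝ) / E) * (w (M + 1) - w M) := by
      rw [hs1, hs2, hd]
      push_cast
      split_ifs <;> ring
    rw [key]
    constructor
    · nlinarith
    · nlinarith

theorem DQ_mono (w : ℕ → ℝ) (hw : Monotone w) (hw0 : 0 ≤ w 0) (E : ℕ) (hE : 1 ≤ E) (M : ℕ) :
    |∑ s ∈ (Icc 1 M).filter (fun s => E ∣ s), w s - (1 / (E : ℝ)) * ∑ s ∈ Icc 1 M, w s| ≤ w M := by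
  obtain ⟨h1, h2⟩ := DQ_mono_aux w hw E hE M
  obtain ⟨hC1, hC2⟩ := DQ_C_bounds E M hE
  have hwM : 0 ≤ w M := hw0.trans (hw (Nat.zero_le M))
  rw [abs_le]
  constructor
  · nlinarith
  · nlinarith

noncomputable def DQlp (R : ℝ) (s e : ℕ) : ℝ := max 0 (Real.log ((s : ℝ) / R / e))

theorem DQ_lp_nonneg (R : ℝ) (s e : ℕ) : 0 ≤ DQlp R s e := le_max_left _ _

theorem DQ_lp_mono (R : ℝ) (hR : 1 ≤ R) (e : ℕ) (he : 1 ≤ e) : Monotone (fun s => DQlp R s e) := by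
  intro a b hab
  show max 0 (Real.log ((a : ℝ) / R / e)) ≤ max 0 (Real.log ((b : ℝ) / R / e))
  have he0 : (0 : ℝ) < e := by exact_mod_cast he
  have hR0 : 0 < R := by linarith
  rcases Nat.eq_zero_or_pos a with h | h
  · subst h
    simp
  · have ha0 : (0 : ℝ) < a := by exact_mod_cast h
    apply max_le_max le_rfl
    apply Real.log_le_log
    · positivity
    · gcongr

theorem DQ_lp_of_le (R : ℝ) (hR : 1 ≤ R) (s e : ℕ) (he : 1 ≤ e) (h : (e : ℝ) ≤ (s : ℝ) / R) :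
    DQlp R s e = Real.log ((s : ℝ) / R / e) := by
  unfold DQlp
  apply max_eq_right
  have he0 : (0 : ℝ) < e := by exact_mod_cast he
  apply Real.log_nonneg
  rw [le_div_iff₀ he0]
  linarith

theorem DQ_lp_of_gt (R : ℝ) (hR : 1 ≤ R) (s e : ℕ) (he : 1 ≤ e) (h : (s : ℝ) / R < e) :
    DQlp R s e = 0 := by
  unfold DQlp
  apply max_eq_left
  have he0 : (0 : ℝ) < e := by exact_mod_cast he
  have hR0 : 0 < R := by linarith
  apply Real.log_nonpos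
  · positivity
  · rw [div_le_iff₀ he0]
    linarith

theorem DQ_ff (R : ℝ) (hR : 1 ≤ R) (M s : ℕ) (hs1 : 1 ≤ s) (hsM : s ≤ M) :
    ff ((s : ℝ) / R) s = ∑ e ∈ Icc 1 ⌊(M : ℝ) / R⌋₊, mu e * (if e ∣ s then DQlp R s e else 0) := by
  have hR0 : 0 < R := by linarith
  unfold ff
  have h1 : ∑ d ∈ s.divisors.filter (fun d : ℕ => (d : ℝ) ≤ (s : ℝ) / R),
        mu d * Real.log ((s : ℝ) / R / d)
      = ∑ d ∈ s.divisors.filter (fun d : ℕ => (d : ℝ) ≤ (s : ℝ) / R), mu d * (if d ∣ s then DQlp R s d else 0) := by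
    refine Finset.sum_congr rfl ?_
    intro d hd
    rw [mem_filter, Nat.mem_divisors] at hd
    rw [if_pos hd.1.1, DQ_lp_of_le R hR s d (Nat.pos_of_dvd_of_pos hd.1.1 hs1) hd.2]
  rw [h1]
  apply Finset.sum_subset_zero_on_sdiff
  · intro d hd
    rw [mem_filter, Nat.mem_divisors] at hd
    rw [mem_Icc]
    refine ⟨Nat.pos_of_dvd_of_pos hd.1.1 hs1, ?_⟩
    apply Nat.le_floor
    refine hd.2.trans ?_
    have : (s : ℝ) ≤ M := by exact_mod_cast hsM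
    gcongr
  · intro d hd
    rw [Finset.mem_sdiff, mem_Icc, mem_filter, Nat.mem_divisors] at hd
    obtain ⟨⟨hd1, hd2⟩, hd3⟩ := hd
    by_cases hds : d ∣ s
    · rw [if_pos hds]
      have h : (s : ℝ) / R < d := by
        by_contra hc
        push Not at hc
        exact hd3 ⟨⟨hds, by omega⟩, hc⟩
      rw [DQ_lp_of_gt R hR s d hd1 h, mul_zero]
    · rw [if_neg hds, mul_zero]
  · intro d _
    rfl

theorem DQ_GG (q : ℕ) (R : ℝ) (hR : 1 ≤ R) (M s : ℕ) (hsM : s ≤ M) :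
    GG q ((s : ℝ) / R) = ∑ e₁ ∈ Icc 1 ⌊(M : ℝ) / R⌋₊, ∑ e₂ ∈ Icc 1 ⌊(M : ℝ) / R⌋₊,
      mu e₁ * mu e₂ * ((1 / ((Nat.lcm q (Nat.lcm e₁ e₂) : ℕ) : ℝ)) * (DQlp R s e₁ * DQlp R s e₂)) := by
  have hR0 : 0 < R := by linarith
  have hs0 : 0 ≤ (s : ℝ) / R := by positivity
  have hsub : Icc 1 ⌊(s : ℝ) / R⌋₊ ⊆ Icc 1 ⌊(M : ℝ) / R⌋₊ := by
    apply Finset.Icc_subset_Icc le_rfl
    apply Nat.floor_mono
    have : (s : ℝ) ≤ M := by exact_mod_cast hsM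
    gcongr
  have hout : ∀ e ∈ Icc 1 ⌊(M : ℝ) / R⌋₊, e ∉ Icc 1 ⌊(s : ℝ) / R⌋₊ → DQlp R s e = 0 := by
    intro e he hn
    rw [mem_Icc] at he
    apply DQ_lp_of_gt R hR s e he.1
    by_contra hc
    push Not at hc
    apply hn
    rw [mem_Icc]
    exact ⟨he.1, Nat.le_floor hc⟩
  have hin : ∀ e ∈ Icc 1 ⌊(s : ℝ) / R⌋₊, DQlp R s e = Real.log ((s : ℝ) / R / e) := by
    intro e he
    rw [mem_Icc] at he
    apply DQ_lp_of_le R hR s e he.1
    exact (Nat.le_floor_iff hs0).mp he.2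
  unfold GG
  apply Finset.sum_subset_zero_on_sdiff hsub
  · intro e₁ he₁
    rw [Finset.mem_sdiff] at he₁
    apply Finset.sum_eq_zero
    intro e₂ _
    rw [hout e₁ he₁.1 he₁.2]
    simp
  · intro e₁ he₁
    apply Finset.sum_subset_zero_on_sdiff hsub
    · intro e₂ he₂
      rw [Finset.mem_sdiff] at he₂
      rw [hout e₂ he₂.1 he₂.2]
      simp
    · intro e₂ he₂
      rw [hin e₁ he₁, hin e₂ he₂]
      ring

theorem dq_bound (q M : ℕ) (hq : 1 ≤ q) (R : ℝ) (hR : 1 ≤ R) (hM : R ≤ M) :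
    ∑ s ∈ (Icc 1 M).filter (fun s => q ∣ s), ff ((s : ℝ) / R) s ^ 2
      ≤ ∑ s ∈ Icc 1 M, GG q ((s : ℝ) / R) + (M / R) ^ 2 * Real.log (M / R) ^ 2 := by
  have hR0 : 0 < R := by linarith
  set W : ℕ := ⌊(M : ℝ) / R⌋₊ with hW
  have hMR : 1 ≤ (M : ℝ) / R := by rw [le_div_iff₀ hR0]; linarith
  have hWle : (W : ℝ) ≤ (M : ℝ) / R := Nat.floor_le (by linarith)
  have hL0 : 0 ≤ Real.log ((M : ℝ) / R) := Real.log_nonneg hMR
  -- left side
  have hleft : ∑ s ∈ (Icc 1 M).filter (fun s => q ∣ s), ff ((s : ℝ) / R) s ^ 2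
      = ∑ e₁ ∈ Icc 1 W, ∑ e₂ ∈ Icc 1 W, mu e₁ * mu e₂ *
        ∑ s ∈ (Icc 1 M).filter (fun s => Nat.lcm q (Nat.lcm e₁ e₂) ∣ s), DQlp R s e₁ * DQlp R s e₂ := by
    have h1 : ∀ s ∈ (Icc 1 M).filter (fun s => q ∣ s), ff ((s : ℝ) / R) s ^ 2
        = ∑ e₁ ∈ Icc 1 W, ∑ e₂ ∈ Icc 1 W, mu e₁ * mu e₂ *
          (if Nat.lcm e₁ e₂ ∣ s then DQlp R s e₁ * DQlp R s e₂ else 0) := by
      intro s hs
      rw [mem_filter, mem_Icc] at hs
      rw [DQ_ff R hR M s hs.1.1 hs.1.2, sq, Finset.sum_mul_sum]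
      refine Finset.sum_congr rfl ?_
      intro e₁ _
      refine Finset.sum_congr rfl ?_
      intro e₂ _
      by_cases h1 : e₁ ∣ s
      · by_cases h2 : e₂ ∣ s
        · rw [if_pos h1, if_pos h2, if_pos (Nat.lcm_dvd h1 h2)]
          ring
        · rw [if_neg h2, if_neg (fun h => h2 ((Nat.dvd_lcm_right e₁ e₂).trans h))]
          ring
      · rw [if_neg h1, if_neg (fun h => h1 ((Nat.dvd_lcm_left e₁ e₂).trans h))]
        ring
    rw [Finset.sum_congr rfl h1, Finset.sum_comm]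
    refine Finset.sum_congr rfl ?_
    intro e₁ _
    rw [Finset.sum_comm]
    refine Finset.sum_congr rfl ?_
    intro e₂ _
    rw [← Finset.mul_sum]
    congr 1
    rw [Finset.sum_filter, Finset.sum_filter]
    refine Finset.sum_congr rfl ?_
    intro s _
    by_cases h1 : q ∣ s
    · by_cases h2 : Nat.lcm e₁ e₂ ∣ s
      · rw [if_pos h1, if_pos h2, if_pos (Nat.lcm_dvd h1 h2)]
      · rw [if_pos h1, if_neg h2, if_neg (fun h => h2 ((Nat.dvd_lcm_right q _).trans h))]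
    · rw [if_neg h1, if_neg (fun h => h1 ((Nat.dvd_lcm_left q _).trans h))]
  -- right side
  have hright : ∑ s ∈ Icc 1 M, GG q ((s : ℝ) / R)
      = ∑ e₁ ∈ Icc 1 W, ∑ e₂ ∈ Icc 1 W, mu e₁ * mu e₂ *
        ((1 / ((Nat.lcm q (Nat.lcm e₁ e₂) : ℕ) : ℝ)) * ∑ s ∈ Icc 1 M, DQlp R s e₁ * DQlp R s e₂) := by
    have h1 : ∀ s ∈ Icc 1 M, GG q ((s : ℝ) / R) = ∑ e₁ ∈ Icc 1 W, ∑ e₂ ∈ Icc 1 W,
      mu e₁ * mu e₂ * ((1 / ((Nat.lcm q (Nat.lcm e₁ e₂) : ℕ) : ℝ)) * (DQlp R s e₁ * DQlp R s e₂)) := by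
      intro s hs
      rw [mem_Icc] at hs
      exact DQ_GG q R hR M s hs.2
    rw [Finset.sum_congr rfl h1, Finset.sum_comm]
    refine Finset.sum_congr rfl ?_
    intro e₁ _
    rw [Finset.sum_comm]
    refine Finset.sum_congr rfl ?_
    intro e₂ _
    rw [← Finset.mul_sum, ← Finset.mul_sum]
  rw [hleft, hright]
  have hdiff : ∑ e₁ ∈ Icc 1 W, ∑ e₂ ∈ Icc 1 W, mu e₁ * mu e₂ *
        ∑ s ∈ (Icc 1 M).filter (fun s => Nat.lcm q (Nat.lcm e₁ e₂) ∣ s), DQlp R s e₁ * DQlp R s e₂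
      ≤ ∑ e₁ ∈ Icc 1 W, ∑ e₂ ∈ Icc 1 W, (mu e₁ * mu e₂ *
        ((1 / ((Nat.lcm q (Nat.lcm e₁ e₂) : ℕ) : ℝ)) * ∑ s ∈ Icc 1 M, DQlp R s e₁ * DQlp R s e₂)
        + Real.log ((M : ℝ) / R) ^ 2) := by
    refine Finset.sum_le_sum ?_
    intro e₁ he₁
    refine Finset.sum_le_sum ?_
    intro e₂ he₂
    rw [mem_Icc] at he₁ he₂
    have hE : 1 ≤ Nat.lcm q (Nat.lcm e₁ e₂) :=
      Nat.lcm_pos hq (Nat.lcm_pos he₁.1 he₂.1)
    have hm1 := DQ_lp_mono R hR e₁ he₁.1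
    have hm2 := DQ_lp_mono R hR e₂ he₂.1
    have hmono : Monotone (fun s => DQlp R s e₁ * DQlp R s e₂) := by
      intro a b hab
      exact mul_le_mul (hm1 hab) (hm2 hab) (DQ_lp_nonneg _ _ _) (DQ_lp_nonneg _ _ _)
    have h := DQ_mono (fun s => DQlp R s e₁ * DQlp R s e₂) hmono
      (mul_nonneg (DQ_lp_nonneg _ _ _) (DQ_lp_nonneg _ _ _)) _ hE M
    have hb : ∀ e : ℕ, 1 ≤ e → DQlp R M e ≤ Real.log ((M : ℝ) / R) := by
      intro e he
      unfold DQlp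
      apply max_le hL0
      have he1 : (1 : ℝ) ≤ e := by exact_mod_cast he
      apply Real.log_le_log
      · positivity
      · exact div_le_self (by linarith) he1
    have hwM : DQlp R M e₁ * DQlp R M e₂ ≤ Real.log ((M : ℝ) / R) ^ 2 := by
      rw [sq]
      exact mul_le_mul (hb e₁ he₁.1) (hb e₂ he₂.1) (DQ_lp_nonneg _ _ _) hL0
    have hmu : |mu e₁ * mu e₂| ≤ 1 := by
      rw [abs_mul]
      calc |mu e₁| * |mu e₂| ≤ 1 * 1 :=
            mul_le_mul (DQ_mu_abs e₁) (DQ_mu_abs e₂) (abs_nonneg _) (by norm_num)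
        _ = 1 := by norm_num
    have h5 := (abs_le.mp (show |mu e₁ * mu e₂ *
        (∑ s ∈ (Icc 1 M).filter (fun s => Nat.lcm q (Nat.lcm e₁ e₂) ∣ s), DQlp R s e₁ * DQlp R s e₂
          - (1 / ((Nat.lcm q (Nat.lcm e₁ e₂) : ℕ) : ℝ)) * ∑ s ∈ Icc 1 M, DQlp R s e₁ * DQlp R s e₂)|
        ≤ Real.log ((M : ℝ) / R) ^ 2 by
      rw [abs_mul]
      calc _ ≤ 1 * (DQlp R M e₁ * DQlp R M e₂) :=
            mul_le_mul hmu h (abs_nonneg _) (by norm_num)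
        _ ≤ _ := by rw [one_mul]; exact hwM)).2
    rw [mul_sub] at h5
    linarith
  refine hdiff.trans ?_
  simp_rw [Finset.sum_add_distrib]
  refine add_le_add le_rfl ?_
  rw [Finset.sum_const, Finset.sum_const, Nat.card_Icc, nsmul_eq_mul, nsmul_eq_mul]
  rw [Nat.add_sub_cancel, ← mul_assoc]
  apply mul_le_mul_of_nonneg_right _ (by positivity)
  rw [sq]
  exact mul_le_mul hWle hWle (Nat.cast_nonneg _) (by linarith)

end Pool.Agent.FG61
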