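import Pool.Agent.Lib_helper61.FG.Defs
import Pool.Agent.Lib_helper61.FG.P.AK
import Pool.Agent.Lib_helper61.FG.P.GD
import Pool.Agent.Lib_helper61.FG.P.KS
import Pool.Agent.Lib_helper61.FG.P.PS

set_option autoImplicit false

namespace Pool.Agent.FG61

open Finset Filter Topology

theorem GQ_mu_abs (n : ℕ) : |mu n| ≤ 1 := by
  have h := ArithmeticFunction.abs_moebius_le_one (n := n)
  have h2 : (|((ArithmeticFunction.moebius n : ℤ) : ℝ)|) = ((|ArithmeticFunction.moebius n| : ℤ) : ℝ) := by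
    push_cast; rfl
  show |((ArithmeticFunction.moebius n : ℤ) : ℝ)| ≤ 1
  rw [h2]
  exact_mod_cast h

theorem GQ_sum_mu (q : ℕ) (hq : 2 ≤ q) : ∑ c ∈ q.divisors, mu c = 0 := by
  have h := ArithmeticFunction.coe_mul_zeta_apply (f := ArithmeticFunction.moebius) (x := q)
  rw [ArithmeticFunction.moebius_mul_coe_zeta, ArithmeticFunction.one_apply_ne (by omega)] at h
  have h2 : ∑ c ∈ q.divisors, mu c = ((∑ c ∈ q.divisors, ArithmeticFunction.moebius c : ℤ) : ℝ) := by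
    push_cast; rfl
  rw [h2, ← h]
  simp

theorem GQ_card (q : ℕ) (hq : Squarefree q) : q.divisors.card = 2 ^ q.primeFactors.card := by
  rw [Nat.card_divisors hq.ne_zero]
  rw [← Finset.prod_const]
  refine Finset.prod_congr rfl ?_
  intro p hp
  have hp1 := Nat.prime_of_mem_primeFactors hp
  have hp2 := Nat.dvd_of_mem_primeFactors hp
  have h1 : q.factorization p ≤ 1 := hq.natFactorization_le_one p
  have h2 : 0 < q.factorization p := hp1.factorization_pos_of_dvd hq.ne_zero hp2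
  omega

theorem GQ_kapfac_pos (p : ℕ) (hp : p.Prime) : 0 < 1 - (p : ℝ) ^ (-(3 / 4 : ℝ)) := by
  have h1 : (1 : ℝ) < p := by exact_mod_cast hp.one_lt
  have h2 : (p : ℝ) ^ (-(3 / 4 : ℝ)) < 1 :=
    Real.rpow_lt_one_of_one_lt_of_neg h1 (by norm_num)
  linarith

theorem GQ_kap_nonneg (K : ℕ) : 0 ≤ kap K := by
  unfold kap
  apply Finset.prod_nonneg
  intro p hp
  exact (inv_pos.mpr (GQ_kapfac_pos p (Nat.prime_of_mem_primeFactors hp))).le

theorem GQ_kap_mul (a b : ℕ) (h : Nat.Coprime a b) : kap (a * b) = kap a * kap b := by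
  unfold kap
  rw [h.primeFactors_mul, Finset.prod_union h.disjoint_primeFactors]

theorem GQ_phi (q : ℕ) (hq : Squarefree q) : phi q = ∏ p ∈ q.primeFactors, ((p : ℝ) - 1) := by
  have h := Nat.totient_mul_prod_primeFactors q
  rw [Nat.prod_primeFactors_of_squarefree hq] at h
  have hq0 : 0 < q := Nat.pos_of_ne_zero hq.ne_zero
  have h2 : q.totient = ∏ p ∈ q.primeFactors, (p - 1) := by
    apply Nat.eq_of_mul_eq_mul_right hq0
    rw [h, mul_comm]
  show ((q.totient : ℕ) : ℝ) = _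
  rw [h2]
  push_cast
  refine Finset.prod_congr rfl ?_
  intro p hp
  have hp1 := (Nat.prime_of_mem_primeFactors hp).one_lt
  push_cast [Nat.cast_sub hp1.le]
  ring

theorem GQ_rpow (q : ℕ) (hq : Squarefree q) (a : ℝ) :
    (q : ℝ) ^ a = ∏ p ∈ q.primeFactors, (p : ℝ) ^ a := by
  rw [Real.finsetProd_rpow]
  · congr 1
    have h := Nat.prod_primeFactors_of_squarefree hq
    conv_lhs => rw [← h]
    push_cast
    rfl
  · intro p _
    exact Nat.cast_nonneg p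

/-- `q^(3/4) ≤ κ(q) φ(q)` for squarefree `q` -/
theorem GQ_key (q : ℕ) (hq : Squarefree q) : (q : ℝ) ^ (3 / 4 : ℝ) ≤ kap q * phi q := by
  rw [GQ_rpow q hq, GQ_phi q hq]
  unfold kap
  rw [← Finset.prod_mul_distrib]
  apply Finset.prod_le_prod
  · intro p _
    exact Real.rpow_nonneg (Nat.cast_nonneg p) _
  · intro p hp
    have hp1 := Nat.prime_of_mem_primeFactors hp
    have hpos := GQ_kapfac_pos p hp1
    have hp0 : (0 : ℝ) < p := by exact_mod_cast hp1.pos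
    have hp2 : (1 : ℝ) ≤ p := by exact_mod_cast hp1.one_lt.le
    rw [inv_mul_eq_div, le_div_iff₀ hpos, mul_sub, mul_one, ← Real.rpow_add hp0]
    have h1 : (3 / 4 : ℝ) + -(3 / 4) = 0 := by norm_num
    rw [h1, Real.rpow_zero]
    have h2 : (p : ℝ) ^ (3 / 4 : ℝ) ≤ (p : ℝ) ^ (1 : ℝ) :=
      Real.rpow_le_rpow_of_exponent_le hp2 (by norm_num)
    rw [Real.rpow_one] at h2
    linarith

/-- `(1/q) (q/φ q)^2 ≤ κ(q)^2/√q` -/
theorem GQ_key2 (q : ℕ) (hq : Squarefree q) :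
    (1 / (q : ℝ)) * ((q : ℝ) / phi q) ^ 2 ≤ kap q ^ 2 / Real.sqrt q := by
  have hq0 : 0 < q := Nat.pos_of_ne_zero hq.ne_zero
  have hqr : (0 : ℝ) < q := by exact_mod_cast hq0
  have hphi : (0 : ℝ) < phi q := by
    show (0 : ℝ) < ((q.totient : ℕ) : ℝ)
    exact_mod_cast Nat.totient_pos.mpr hq0
  have h := GQ_key q hq
  have hs : 0 < Real.sqrt q := Real.sqrt_pos.mpr hqr
  have h2 : ((q : ℝ) ^ (3 / 4 : ℝ)) ^ 2 = q * Real.sqrt q := by
    rw [← Real.rpow_natCast, ← Real.rpow_mul hqr.le, Real.sqrt_eq_rpow]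
    nth_rewrite 2 [← Real.rpow_one (q : ℝ)]
    rw [← Real.rpow_add hqr]
    norm_num
  have h3 : (q : ℝ) * Real.sqrt q ≤ (kap q * phi q) ^ 2 := by
    rw [← h2]
    exact pow_le_pow_left₀ (Real.rpow_nonneg hqr.le _) h 2
  rw [le_div_iff₀ hs]
  have h4 : (1 / (q : ℝ)) * ((q : ℝ) / phi q) ^ 2 * Real.sqrt q
      = (q * Real.sqrt q) / (phi q) ^ 2 := by
    field_simp
  rw [h4, div_le_iff₀ (by positivity)]
  calc _ ≤ _ := h3
    _ = _ := by ring

theorem g_gen (ε : ℝ) (hε : 0 < ε) : ∃ C : ℝ, 0 ≤ C ∧ ∀ q : ℕ, Squarefree q → 2 ≤ q → ∀ y : ℝ,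
    1 ≤ y → GG q y ≤ wt q * (ε * Real.log y + C) := by
  set δ : ℝ := min 1 (ε / 2) with hδ
  have hδ0 : 0 < δ := lt_min (by norm_num) (by linarith)
  have hδ1 : δ ≤ 1 := min_le_left _ _
  have hδ2 : δ ≤ ε / 2 := min_le_right _ _
  have hδε : 2 * δ ^ 2 ≤ ε := by nlinarith
  obtain ⟨C, hC1, hC⟩ := aa_gen δ hδ0
  obtain ⟨C0, hC00, hC0⟩ := phi_sum
  obtain ⟨C1, hC10, hC1'⟩ := kap_sum
  refine ⟨2 * δ ^ 2 * C0 + 2 * C ^ 2 * C1, by positivity, ?_⟩
  intro q hqs hq2 y hy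
  have hq0 : 0 < q := by omega
  have hqr : (0 : ℝ) < q := by exact_mod_cast hq0
  have hy0 : 0 < y := by linarith
  have hphiq : (0 : ℝ) < phi q := by
    show (0 : ℝ) < ((q.totient : ℕ) : ℝ)
    exact_mod_cast Nat.totient_pos.mpr hq0
  rw [gg_diag q hqs y]
  set ω : ℕ := q.primeFactors.card with hω
  have hkq := GQ_kap_nonneg q
  -- bound of the inner sum
  have hinner : ∀ k ∈ (Icc 1 ⌊y⌋₊).filter (fun k => Nat.Coprime k q),
      (∑ c ∈ q.divisors, mu c * AA (k * q) (y / (k * c))) ^ 2 ≤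
        2 * 4 ^ ω * (δ ^ 2 * ((k : ℝ) / phi k) ^ 2 * ((q : ℝ) / phi q) ^ 2
          + C ^ 2 * kap k ^ 2 * kap q ^ 2 * ((k : ℝ) ^ (1 / 2 : ℝ) * Real.sqrt q * y ^ (-(1 / 2 : ℝ)))) := by
    intro k hk
    rw [mem_filter, mem_Icc] at hk
    obtain ⟨⟨hk1, _⟩, hkc⟩ := hk
    have hk0 : (0 : ℝ) < k := by exact_mod_cast hk1
    have hphik : (0 : ℝ) < phi k := by
      show (0 : ℝ) < ((k.totient : ℕ) : ℝ)
      exact_mod_cast Nat.totient_pos.mpr hk1
    have hkap := GQ_kap_nonneg k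
    have hkk : kap (k * q) = kap k * kap q := GQ_kap_mul k q hkc
    have hphim : phi (k * q) = phi k * phi q := by
      show (((k * q).totient : ℕ) : ℝ) = ((k.totient : ℕ) : ℝ) * ((q.totient : ℕ) : ℝ)
      rw [Nat.totient_mul hkc]
      push_cast; rfl
    have hsplit : ∑ c ∈ q.divisors, mu c * AA (k * q) (y / (k * c))
        = ∑ c ∈ q.divisors, mu c * (AA (k * q) (y / (k * c)) - ((k * q : ℕ) : ℝ) / phi (k * q)) := by
      simp_rw [mul_sub]
      rw [Finset.sum_sub_distrib, ← Finset.sum_mul, GQ_sum_mu q hq2, zero_mul, sub_zero]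
    set B : ℝ := δ * (((k : ℝ) / phi k) * ((q : ℝ) / phi q))
        + C * (kap k * kap q) * ((k * q / y) ^ (1 / 4 : ℝ)) with hB
    have hB0 : 0 ≤ B := by positivity
    have hterm : ∀ c ∈ q.divisors,
        |mu c * (AA (k * q) (y / (k * c)) - ((k * q : ℕ) : ℝ) / phi (k * q))| ≤ B := by
      intro c hc
      have hc1 : 1 ≤ c := Nat.pos_of_mem_divisors hc
      have hcq : c ≤ q := Nat.divisor_le hc
      have hc0 : (0 : ℝ) < c := by exact_mod_cast hc1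
      have hcqr : (c : ℝ) ≤ q := by exact_mod_cast hcq
      rw [abs_mul]
      have hkq1 : 1 ≤ k * q := Nat.mul_pos hk1 hq0
      have hx : 0 < y / ((k : ℝ) * c) := by positivity
      have h1 := hC (k * q) hkq1 (y / (k * c)) hx
      rw [hkk] at h1
      have h2 : (y / ((k : ℝ) * c)) ^ (-(1 / 4 : ℝ)) ≤ (k * q / y) ^ (1 / 4 : ℝ) := by
        rw [Real.rpow_neg hx.le, ← Real.inv_rpow hx.le, inv_div]
        apply Real.rpow_le_rpow (by positivity) _ (by norm_num)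
        gcongr
      have h3 : ((k * q : ℕ) : ℝ) / phi (k * q) = ((k : ℝ) / phi k) * ((q : ℝ) / phi q) := by
        rw [hphim]
        push_cast
        rw [div_mul_div_comm]
      rw [h3] at h1 ⊢
      have h4 : C * (kap k * kap q) * (y / ((k : ℝ) * c)) ^ (-(1 / 4 : ℝ))
          ≤ C * (kap k * kap q) * ((k * q / y) ^ (1 / 4 : ℝ)) := by
        apply mul_le_mul_of_nonneg_left h2 (by positivity)
      calc |mu c| * |AA (k * q) (y / (k * c)) - ((k : ℝ) / phi k) * ((q : ℝ) / phi q)|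
          ≤ 1 * B := by
            apply mul_le_mul (GQ_mu_abs c) _ (abs_nonneg _) (by norm_num)
            exact h1.trans (by rw [hB]; linarith)
        _ = B := one_mul _
    have habs : |∑ c ∈ q.divisors, mu c * AA (k * q) (y / (k * c))| ≤ 2 ^ ω * B := by
      rw [hsplit]
      refine (Finset.abs_sum_le_sum_abs _ _).trans ?_
      refine (Finset.sum_le_sum hterm).trans ?_
      rw [Finset.sum_const, nsmul_eq_mul, GQ_card q hqs]
      push_cast
      exact le_rfl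
    have hsq : (∑ c ∈ q.divisors, mu c * AA (k * q) (y / (k * c))) ^ 2 ≤ (2 ^ ω * B) ^ 2 := by
      rw [← sq_abs]
      exact pow_le_pow_left₀ (abs_nonneg _) habs 2
    refine hsq.trans ?_
    have h4 : (2 ^ ω * B) ^ 2 = 4 ^ ω * B ^ 2 := by
      rw [mul_pow, ← pow_mul, mul_comm ω 2, pow_mul]
      norm_num
    rw [h4]
    have h5 : B ^ 2 ≤ 2 * (δ * (((k : ℝ) / phi k) * ((q : ℝ) / phi q))) ^ 2
        + 2 * (C * (kap k * kap q) * ((k * q / y) ^ (1 / 4 : ℝ))) ^ 2 := by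
      rw [hB]
      nlinarith [sq_nonneg (δ * (((k : ℝ) / phi k) * ((q : ℝ) / phi q))
        - C * (kap k * kap q) * ((k * q / y) ^ (1 / 4 : ℝ)))]
    have h6 : (((k : ℝ) * q / y) ^ (1 / 4 : ℝ)) ^ 2 = (k : ℝ) ^ (1 / 2 : ℝ) * Real.sqrt q * y ^ (-(1 / 2 : ℝ)) := by
      rw [← Real.rpow_natCast, ← Real.rpow_mul (by positivity)]
      have h7 : (1 / 4 : ℝ) * ((2 : ℕ) : ℝ) = 1 / 2 := by norm_num
      rw [h7, Real.div_rpow (by positivity) hy0.le, Real.mul_rpow hk0.le hqr.le, Real.sqrt_eq_rpow,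
        Real.rpow_neg hy0.le]
      ring
    have h7 : 2 * (C * (kap k * kap q) * ((k * q / y) ^ (1 / 4 : ℝ))) ^ 2
        = 2 * (C ^ 2 * kap k ^ 2 * kap q ^ 2 * ((k : ℝ) ^ (1 / 2 : ℝ) * Real.sqrt q * y ^ (-(1 / 2 : ℝ)))) := by
      rw [← h6]
      ring
    rw [h7] at h5
    calc (4 : ℝ) ^ ω * B ^ 2 ≤ 4 ^ ω * _ := mul_le_mul_of_nonneg_left h5 (by positivity)
      _ = _ := by ring
  -- sum up
  have hsum : ∑ k ∈ (Icc 1 ⌊y⌋₊).filter (fun k => Nat.Coprime k q),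
      mu k ^ 2 * phi k / (k : ℝ) ^ 2 * (∑ c ∈ q.divisors, mu c * AA (k * q) (y / (k * c))) ^ 2
      ≤ ∑ k ∈ Icc 1 ⌊y⌋₊, (2 * 4 ^ ω * (δ ^ 2 * ((q : ℝ) / phi q) ^ 2) * (mu k ^ 2 / phi k)
        + 2 * 4 ^ ω * (C ^ 2 * kap q ^ 2 * Real.sqrt q * y ^ (-(1 / 2 : ℝ))) *
          (kap k ^ 2 * (k : ℝ) ^ (-(1 / 2 : ℝ)))) := by
    refine (Finset.sum_le_sum (fun k hk => ?_)).trans
      (Finset.sum_le_sum_of_subset_of_nonneg (Finset.filter_subset _ _) (fun k hk _ => ?_))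
    · have hin := hinner k hk
      rw [mem_filter, mem_Icc] at hk
      obtain ⟨⟨hk1, _⟩, _⟩ := hk
      have hk0 : (0 : ℝ) < k := by exact_mod_cast hk1
      have hphik : (0 : ℝ) < phi k := by
        show (0 : ℝ) < ((k.totient : ℕ) : ℝ)
        exact_mod_cast Nat.totient_pos.mpr hk1
      have hphile : phi k ≤ k := by
        show ((k.totient : ℕ) : ℝ) ≤ k
        exact_mod_cast Nat.totient_le k
      have hmu1 : mu k ^ 2 ≤ 1 := by
        have := GQ_mu_abs k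
        rw [← sq_abs]
        nlinarith [abs_nonneg (mu k)]
      have hmu0 : 0 ≤ mu k ^ 2 := sq_nonneg _
      have hkap := GQ_kap_nonneg k
      have hcoef : 0 ≤ mu k ^ 2 * phi k / (k : ℝ) ^ 2 := by positivity
      refine (mul_le_mul_of_nonneg_left hin hcoef).trans ?_
      have e1 : mu k ^ 2 * phi k / (k : ℝ) ^ 2 * (2 * 4 ^ ω * (δ ^ 2 * ((k : ℝ) / phi k) ^ 2 * ((q : ℝ) / phi q) ^ 2))
          = 2 * 4 ^ ω * (δ ^ 2 * ((q : ℝ) / phi q) ^ 2) * (mu k ^ 2 / phi k) := by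
        field_simp
      have e2 : mu k ^ 2 * phi k / (k : ℝ) ^ 2 * (k : ℝ) ^ (1 / 2 : ℝ) ≤ (k : ℝ) ^ (-(1 / 2 : ℝ)) := by
        have e3 : mu k ^ 2 * phi k / (k : ℝ) ^ 2 ≤ (k : ℝ) ^ (-1 : ℝ) := by
          rw [Real.rpow_neg_one, div_le_iff₀ (by positivity)]
          have e4 : (k : ℝ)⁻¹ * (k : ℝ) ^ 2 = k := by field_simp
          rw [e4]
          calc mu k ^ 2 * phi k ≤ 1 * k := mul_le_mul hmu1 hphile hphik.le (by norm_num)
            _ = k := one_mul _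
        calc _ ≤ (k : ℝ) ^ (-1 : ℝ) * (k : ℝ) ^ (1 / 2 : ℝ) :=
              mul_le_mul_of_nonneg_right e3 (by positivity)
          _ = (k : ℝ) ^ (-(1 / 2 : ℝ)) := by
              rw [← Real.rpow_add hk0]
              norm_num
      have e5 : mu k ^ 2 * phi k / (k : ℝ) ^ 2 * (2 * 4 ^ ω * (C ^ 2 * kap k ^ 2 * kap q ^ 2 *
            ((k : ℝ) ^ (1 / 2 : ℝ) * Real.sqrt q * y ^ (-(1 / 2 : ℝ)))))
          = 2 * 4 ^ ω * (C ^ 2 * kap q ^ 2 * Real.sqrt q * y ^ (-(1 / 2 : ℝ))) * (kap k ^ 2 *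
            (mu k ^ 2 * phi k / (k : ℝ) ^ 2 * (k : ℝ) ^ (1 / 2 : ℝ))) := by ring
      calc _ = mu k ^ 2 * phi k / (k : ℝ) ^ 2 * (2 * 4 ^ ω * (δ ^ 2 * ((k : ℝ) / phi k) ^ 2 * ((q : ℝ) / phi q) ^ 2))
            + mu k ^ 2 * phi k / (k : ℝ) ^ 2 * (2 * 4 ^ ω * (C ^ 2 * kap k ^ 2 * kap q ^ 2 *
            ((k : ℝ) ^ (1 / 2 : ℝ) * Real.sqrt q * y ^ (-(1 / 2 : ℝ))))) := by ring
        _ ≤ _ := by
          rw [e1, e5]
          refine add_le_add le_rfl ?_
          apply mul_le_mul_of_nonneg_left _ (by positivity)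
          apply mul_le_mul_of_nonneg_left e2 (by positivity)
    · rw [mem_Icc] at hk
      have hk0 : (0 : ℝ) < k := by exact_mod_cast hk.1
      have hphik : (0 : ℝ) < phi k := by
        show (0 : ℝ) < ((k.totient : ℕ) : ℝ)
        exact_mod_cast Nat.totient_pos.mpr hk.1
      positivity
  rw [Finset.sum_add_distrib, ← Finset.mul_sum, ← Finset.mul_sum] at hsum
  have hfl : 1 ≤ ⌊y⌋₊ := Nat.le_floor (by simpa using hy)
  have hs1 : ∑ k ∈ Icc 1 ⌊y⌋₊, mu k ^ 2 / phi k ≤ Real.log y + C0 := by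
    refine (hC0 ⌊y⌋₊ hfl).trans ?_
    have : Real.log (⌊y⌋₊ : ℝ) ≤ Real.log y := by
      apply Real.log_le_log
      · exact_mod_cast hfl
      · exact Nat.floor_le hy0.le
    linarith
  have hs2 := hC1' y hy
  have hylog : 0 ≤ Real.log y := Real.log_nonneg hy
  have hkey2 := GQ_key2 q hqs
  have hsq0 : 0 < Real.sqrt q := Real.sqrt_pos.mpr hqr
  calc (1 / (q : ℝ)) * _ ≤ (1 / (q : ℝ)) *
        (2 * 4 ^ ω * (δ ^ 2 * ((q : ℝ) / phi q) ^ 2) * (Real.log y + C0)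
        + 2 * 4 ^ ω * (C ^ 2 * kap q ^ 2 * Real.sqrt q * y ^ (-(1 / 2 : ℝ))) * (C1 * y ^ (1 / 2 : ℝ))) := by
          apply mul_le_mul_of_nonneg_left _ (by positivity)
          refine hsum.trans (add_le_add ?_ ?_)
          · exact mul_le_mul_of_nonneg_left hs1 (by positivity)
          · exact mul_le_mul_of_nonneg_left hs2 (by positivity)
    _ = 4 ^ ω * ((1 / (q : ℝ)) * ((q : ℝ) / phi q) ^ 2) * (2 * δ ^ 2 * (Real.log y + C0))
        + 4 ^ ω * (kap q ^ 2 * (Real.sqrt q / q)) * (2 * C ^ 2 * C1) * (y ^ (-(1 / 2 : ℝ)) * y ^ (1 / 2 : ℝ)) := by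
          ring
    _ = 4 ^ ω * ((1 / (q : ℝ)) * ((q : ℝ) / phi q) ^ 2) * (2 * δ ^ 2 * (Real.log y + C0))
        + 4 ^ ω * (kap q ^ 2 / Real.sqrt q) * (2 * C ^ 2 * C1) := by
          have h1 : y ^ (-(1 / 2 : ℝ)) * y ^ (1 / 2 : ℝ) = 1 := by
            rw [← Real.rpow_add hy0]
            norm_num
          have h2 : Real.sqrt q / q = 1 / Real.sqrt q := by
            rw [div_eq_div_iff hqr.ne' hsq0.ne', one_mul]
            exact Real.mul_self_sqrt hqr.le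
          rw [h1, h2]
          ring
    _ ≤ 4 ^ ω * (kap q ^ 2 / Real.sqrt q) * (2 * δ ^ 2 * (Real.log y + C0))
        + 4 ^ ω * (kap q ^ 2 / Real.sqrt q) * (2 * C ^ 2 * C1) := by
          refine add_le_add ?_ le_rfl
          apply mul_le_mul_of_nonneg_right _ (by positivity)
          apply mul_le_mul_of_nonneg_left hkey2 (by positivity)
    _ = wt q * (2 * δ ^ 2 * Real.log y + (2 * δ ^ 2 * C0 + 2 * C ^ 2 * C1)) := by
          unfold wt
          rw [← hω]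
          ring
    _ ≤ wt q * (ε * Real.log y + (2 * δ ^ 2 * C0 + 2 * C ^ 2 * C1)) := by
          apply mul_le_mul_of_nonneg_left
          · have := mul_le_mul_of_nonneg_right hδε hylog
            linarith
          · unfold wt
            positivity

end Pool.Agent.FG61
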