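import Pool.Agent.Lib_helper61.FG.Defs

set_option autoImplicit false

namespace Pool.Agent.FG61

open Finset Filter Topology
open Pool.Agent.Var35 (e)

/-- RS -/
theorem rad_split (F : ℕ → ℝ) (hF : ∀ s, 0 ≤ F s) (N : ℕ) :
    ∑ n ∈ Icc 1 N, F (rad n) ≤
      ∑ k ∈ Icc 1 N, ∑ s ∈ (Icc 1 (N / k)).filter (fun s => rad k ∣ s), F s := by
  have hdvd : ∀ n : ℕ, rad n ∣ n := fun n => Nat.prod_primeFactors_dvd n
  have hpos : ∀ n : ℕ, 0 < rad n := fun n =>
    Finset.prod_pos fun p hp => (Nat.prime_of_mem_primeFactors hp).pos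
  have hmul : ∀ n : ℕ, n / rad n * rad n = n := fun n => Nat.div_mul_cancel (hdvd n)
  rw [Finset.sum_sigma']
  have h1 : ∑ n ∈ Icc 1 N, F (rad n) = ∑ x ∈ (Icc 1 N).image
      (fun n => (⟨n / rad n, rad n⟩ : Σ _ : ℕ, ℕ)), F x.2 := by
    rw [Finset.sum_image]
    intro a _ b _ hab
    simp only [Sigma.mk.injEq, heq_eq_eq] at hab
    rw [← hmul a, ← hmul b, hab.1, hab.2]
  rw [h1]
  refine Finset.sum_le_sum_of_subset_of_nonneg ?_ fun x _ _ => hF x.2
  intro x hx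
  rw [Finset.mem_image] at hx
  obtain ⟨n, hn, rfl⟩ := hx
  rw [mem_Icc] at hn
  have hk1 : 1 ≤ n / rad n := by
    rcases Nat.eq_zero_or_pos (n / rad n) with h0 | h0
    · have := hmul n
      rw [h0] at this
      omega
    · exact h0
  have hkn : n / rad n ≤ n := Nat.div_le_self _ _
  rw [Finset.mem_sigma, Finset.mem_filter, mem_Icc, mem_Icc]
  refine ⟨⟨hk1, hkn.trans hn.2⟩, ⟨hpos n, ?_⟩, ?_⟩
  · show rad n ≤ N / (n / rad n)
    rw [Nat.le_div_iff_mul_le hk1, mul_comm, hmul n]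
    exact hn.2
  · show rad (n / rad n) ∣ rad n
    refine Finset.prod_dvd_prod_of_subset _ _ _ ?_
    exact Nat.primeFactors_mono ⟨rad n, (hmul n).symm⟩ (by omega)

end Pool.Agent.FG61
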