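import Pool.Agent.Lib_helper61.FG.P.WS
import Pool.Agent.Lib_helper61.FG.P.G1
import Pool.Agent.Lib_helper61.FG.P.GQ
import Pool.Agent.Lib_helper61.FG.P.DQ
import Pool.Agent.Lib_helper61.FG.P.FL
import Pool.Agent.Lib_helper61.FG.P.RS

set_option autoImplicit false

namespace Pool.Agent.FG61

open Finset Filter Topology

lemma GR_ff_zero (R : ℝ) (s : ℕ) (hR : 1 ≤ R) (hs : (s : ℝ) < R) : ff ((s : ℝ) / R) s = 0 := by
  unfold ff
  apply Finset.sum_eq_zero
  intro d hd
  rw [mem_filter, Nat.mem_divisors] at hd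
  obtain ⟨⟨h1, h2⟩, h3⟩ := hd
  have h4 : 1 ≤ d := Nat.pos_of_dvd_of_pos h1 (Nat.pos_of_ne_zero h2)
  have h5 : (1:ℝ) ≤ d := by exact_mod_cast h4
  have h6 : (s : ℝ) / R < 1 := by rw [div_lt_one (by linarith)]; exact hs
  linarith

lemma GR_GG_zero (q : ℕ) (y : ℝ) (hy : y < 1) : GG q y = 0 := by
  unfold GG
  have : ⌊y⌋₊ = 0 := by
    rw [Nat.floor_eq_zero]; exact hy
  rw [this]; simp

lemma GR_rad_pos (k : ℕ) : 1 ≤ rad k := by
  unfold rad
  exact Finset.prod_pos fun p hp => (Nat.prime_of_mem_primeFactors hp).pos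

lemma GR_rad_one : rad 1 = 1 := by simp [rad]

lemma GR_rad_sqfree (k : ℕ) : Squarefree (rad k) := by
  unfold rad
  exact Finset.squarefree_prod_of_pairwise_isCoprime
    (fun p hp q hq hpq => by
      rw [Function.onFun, ← Nat.coprime_iff_isRelPrime]
      exact (Nat.coprime_primes (Nat.prime_of_mem_primeFactors hp) (Nat.prime_of_mem_primeFactors hq)).2 hpq)
    (fun p hp => (Nat.prime_of_mem_primeFactors hp).squarefree)

lemma GR_rad_two (k : ℕ) (hk : 2 ≤ k) : 2 ≤ rad k := by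
  have h : k.minFac ∈ k.primeFactors := by
    rw [Nat.mem_primeFactors]
    exact ⟨Nat.minFac_prime (by omega), Nat.minFac_dvd k, by omega⟩
  unfold rad
  have h2 : k.minFac ∣ ∏ p ∈ k.primeFactors, p := Finset.dvd_prod_of_mem _ h
  have h3 : 0 < ∏ p ∈ k.primeFactors, p :=
    Finset.prod_pos fun p hp => (Nat.prime_of_mem_primeFactors hp).pos
  exact (Nat.minFac_prime (by omega)).two_le.trans (Nat.le_of_dvd h3 h2)

lemma GR_kap_nonneg (q : ℕ) : 0 ≤ kap q := by
  unfold kap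
  apply Finset.prod_nonneg
  intro p hp
  have hp2 : (2:ℝ) ≤ p := by exact_mod_cast (Nat.prime_of_mem_primeFactors hp).two_le
  apply inv_nonneg.2
  have : (p:ℝ) ^ (-(3 / 4 : ℝ)) ≤ 1 := by
    apply Real.rpow_le_one_of_one_le_of_nonpos (by linarith) (by norm_num)
  linarith

lemma GR_wt_nonneg (q : ℕ) : 0 ≤ wt q := by
  unfold wt
  have := GR_kap_nonneg q
  positivity

/-- bound for one `k` -/
lemma GR_D (q M : ℕ) (hq : 1 ≤ q) (R : ℝ) (hR : 1 ≤ R) (g : ℝ) (hg : 0 ≤ g)
    (hG : ∀ y : ℝ, 1 ≤ y → y ≤ M / R → GG q y ≤ g) :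
    ∑ s ∈ (Icc 1 M).filter (fun s => q ∣ s), ff ((s : ℝ) / R) s ^ 2
      ≤ M * g + (M / R) ^ 2 * Real.log (max 1 (M / R)) ^ 2 := by
  have hR0 : 0 < R := by linarith
  by_cases hM : R ≤ M
  · have h1 := dq_bound q M hq R hR hM
    have h2 : ∑ s ∈ Icc 1 M, GG q ((s : ℝ) / R) ≤ M * g := by
      calc ∑ s ∈ Icc 1 M, GG q ((s : ℝ) / R) ≤ ∑ s ∈ Icc 1 M, g := by
            apply Finset.sum_le_sum
            intro s hs
            rw [mem_Icc] at hs
            by_cases hy : 1 ≤ (s : ℝ) / R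
            · apply hG _ hy
              apply div_le_div_of_nonneg_right _ hR0.le
              exact_mod_cast hs.2
            · rw [GR_GG_zero q _ (not_le.1 hy)]; exact hg
        _ = M * g := by simp
    have h3 : max 1 ((M : ℝ) / R) = M / R := max_eq_right (by rw [one_le_div hR0]; exact hM)
    rw [h3]
    linarith
  · rw [not_le] at hM
    have h1 : ∑ s ∈ (Icc 1 M).filter (fun s => q ∣ s), ff ((s : ℝ) / R) s ^ 2 = 0 := by
      apply Finset.sum_eq_zero
      intro s hs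
      rw [mem_filter, mem_Icc] at hs
      rw [GR_ff_zero R s hR]
      · ring
      · have : (s : ℝ) ≤ M := by exact_mod_cast hs.1.2
        linarith
    rw [h1]
    positivity

lemma GR_sum_inv_sq (N : ℕ) : ∑ k ∈ Icc 1 N, 1 / (k : ℝ) ^ 2 ≤ 2 := by
  have h := sum_Ioo_inv_sq_le (α := ℝ) 0 (N + 1)
  have h2 : Ioo 0 (N + 1) = Icc 1 N := by
    ext k; simp only [mem_Ioo, mem_Icc]; omega
  rw [h2] at h
  simpa using h

lemma GR_log_sq_le (x : ℝ) (hx : 1 ≤ x) : Real.log x ^ 2 ≤ 4 * x := by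
  have h0 : 0 < x := by linarith
  have h1 : Real.log x = 2 * Real.log (Real.sqrt x) := by
    rw [Real.log_sqrt h0.le]; ring
  have h2 : Real.log (Real.sqrt x) ≤ Real.sqrt x := by
    have := Real.log_le_sub_one_of_pos (Real.sqrt_pos.2 h0)
    linarith
  have h3 : 0 ≤ Real.log x := Real.log_nonneg hx
  have h4 : Real.log x ≤ 2 * Real.sqrt x := by rw [h1]; linarith
  calc Real.log x ^ 2 ≤ (2 * Real.sqrt x) ^ 2 := pow_le_pow_left₀ h3 h4 2
    _ = 4 * x := by rw [mul_pow, Real.sq_sqrt h0.le]; ring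

theorem graham (ε : ℝ) (hε : 0 < ε) : ∃ C : ℝ, 0 ≤ C ∧ ∀ N : ℕ, ∀ R : ℝ, 1 ≤ R → R ≤ N →
    ∑ n ∈ Icc 1 N, (ff R n - Lam n) ^ 2
      ≤ (1 + ε) * N * Real.log (N / R) + C * N + C * (N / R) ^ 2 * Real.log (N / R) ^ 2 := by
  obtain ⟨C1, hC1, h1⟩ := g_one (ε / 2) (by positivity)
  obtain ⟨Cw, hCw, hw⟩ := wt_sum
  obtain ⟨C2, hC2, h2⟩ := g_gen (ε / (2 * (Cw + 1))) (by positivity)
  refine ⟨4 + C1 + C2 * Cw + 2, by positivity, ?_⟩
  intro N R hR hRN
  have hR0 : 0 < R := by linarith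
  have hN1 : (1:ℝ) ≤ N := hR.trans hRN
  set z : ℝ := N / R with hz
  have hz1 : 1 ≤ z := by rw [hz, one_le_div hR0]; exact hRN
  have hlz : 0 ≤ Real.log z := Real.log_nonneg hz1
  set δ : ℝ := ε / (2 * (Cw + 1)) with hδ
  have hδ0 : 0 < δ := by positivity
  set F : ℕ → ℝ := fun s => ff ((s : ℝ) / R) s ^ 2 with hF
  have hF0 : ∀ s, 0 ≤ F s := fun s => sq_nonneg _
  have hstep : ∀ n ∈ Icc 1 N, (ff R n - Lam n) ^ 2 ≤ (if n = 1 then Real.log R ^ 2 else 0) + F (rad n) := by
    intro n hn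
    rw [mem_Icc] at hn
    by_cases hn1 : n = 1
    · subst hn1
      rw [if_pos rfl]
      have : ff R 1 = Real.log R := by
        unfold ff
        have : (Nat.divisors 1).filter (fun d : ℕ => (d:ℝ) ≤ R) = {1} := by
          rw [Nat.divisors_one, Finset.filter_singleton]
          simp [hR]
        rw [this]; simp [mu]
      rw [this]
      have h4 := hF0 (rad 1)
      simp only [Lam, ArithmeticFunction.vonMangoldt_apply_one, sub_zero]
      linarith
    · rw [if_neg hn1, zero_add, flip R hR n (by omega), mul_pow]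
      have h4 : mu (rad n) ^ 2 ≤ 1 := by
        have h5 : |ArithmeticFunction.moebius (rad n)| ≤ 1 := ArithmeticFunction.abs_moebius_le_one
        have h6 : |mu (rad n)| ≤ 1 := by
          unfold mu; rw [← Int.cast_abs]; exact_mod_cast h5
        rw [← sq_abs]
        exact pow_le_one₀ (abs_nonneg _) h6
      calc mu (rad n) ^ 2 * ff ((rad n : ℕ) / R) (rad n) ^ 2 ≤ 1 * ff ((rad n : ℕ) / R) (rad n) ^ 2 :=
            mul_le_mul_of_nonneg_right h4 (sq_nonneg _)
        _ = F (rad n) := by rw [one_mul]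
  have hsum1 : ∑ n ∈ Icc 1 N, (ff R n - Lam n) ^ 2 ≤ Real.log R ^ 2 + ∑ n ∈ Icc 1 N, F (rad n) := by
    refine (Finset.sum_le_sum hstep).trans ?_
    rw [Finset.sum_add_distrib]
    apply add_le_add_left
    rw [Finset.sum_ite_eq' (Icc 1 N) 1]
    split_ifs
    · exact le_rfl
    · positivity
  have hlR : Real.log R ^ 2 ≤ 4 * N := by
    have h5 := GR_log_sq_le R hR
    linarith
  have hgk : ∀ k ∈ Icc 1 N, ∑ s ∈ (Icc 1 (N / k)).filter (fun s => rad k ∣ s), F s
      ≤ (if k = 1 then N * ((1 + ε / 2) * Real.log z + C1) else 0)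
        + N * (δ * Real.log z + C2) * (wt (rad k) / k) + z ^ 2 * Real.log z ^ 2 * (1 / (k:ℝ) ^ 2) := by
    intro k hk
    rw [mem_Icc] at hk
    have hk0 : (0:ℝ) < k := by exact_mod_cast hk.1
    have hMk : ((N / k : ℕ) : ℝ) ≤ N / k := Nat.cast_div_le
    have hMR : ((N / k : ℕ) : ℝ) / R ≤ z / k := by
      rw [hz, div_div, mul_comm R, ← div_div]
      exact div_le_div_of_nonneg_right hMk hR0.le
    have hzk : z / k ≤ z := by
      apply div_le_self (by linarith); exact_mod_cast hk.1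
    have hlogy : ∀ y : ℝ, 1 ≤ y → y ≤ ((N / k : ℕ) : ℝ) / R → Real.log y ≤ Real.log z := by
      intro y hy hy2
      exact Real.log_le_log (by linarith) (by linarith)
    have hmax : Real.log (max 1 (((N / k : ℕ) : ℝ) / R)) ≤ Real.log z := by
      apply Real.log_le_log (by positivity)
      apply max_le hz1; linarith
    have hmax0 : 0 ≤ Real.log (max 1 (((N / k : ℕ) : ℝ) / R)) := Real.log_nonneg (le_max_left _ _)
    have herr : (((N / k : ℕ) : ℝ) / R) ^ 2 * Real.log (max 1 (((N / k : ℕ) : ℝ) / R)) ^ 2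
        ≤ z ^ 2 * Real.log z ^ 2 * (1 / (k:ℝ) ^ 2) := by
      have h5 : (((N / k : ℕ) : ℝ) / R) ^ 2 ≤ (z / k) ^ 2 := pow_le_pow_left₀ (by positivity) hMR 2
      have h6 : Real.log (max 1 (((N / k : ℕ) : ℝ) / R)) ^ 2 ≤ Real.log z ^ 2 := pow_le_pow_left₀ hmax0 hmax 2
      calc _ ≤ (z / k) ^ 2 * Real.log z ^ 2 := mul_le_mul h5 h6 (by positivity) (by positivity)
        _ = _ := by rw [div_pow]; ring
    by_cases hk1 : k = 1
    · subst hk1
      have h7 := GR_D (rad 1) (N / 1) (GR_rad_pos 1) R hR ((1 + ε / 2) * Real.log z + C1) (by positivity) (by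
        intro y hy hy2
        rw [GR_rad_one]
        refine (h1 y hy).trans ?_
        have := hlogy y hy hy2
        nlinarith)
      rw [if_pos rfl]
      have h8 : 0 ≤ N * (δ * Real.log z + C2) * (wt (rad 1) / (1:ℕ)) := by
        have := GR_wt_nonneg (rad 1)
        positivity
      rw [Nat.div_one] at h7 herr ⊢
      have h9 : (N : ℝ) * ((1 + ε / 2) * Real.log z + C1) ≤ N * ((1 + ε / 2) * Real.log z + C1) := le_rfl
      linarith
    · have hk2 : 2 ≤ k := by omega
      have h7 := GR_D (rad k) (N / k) (GR_rad_pos k) R hR (wt (rad k) * (δ * Real.log z + C2))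
        (by have := GR_wt_nonneg (rad k); positivity) (by
        intro y hy hy2
        refine (h2 (rad k) (GR_rad_sqfree k) (GR_rad_two k hk2) y hy).trans ?_
        apply mul_le_mul_of_nonneg_left _ (GR_wt_nonneg _)
        have := hlogy y hy hy2
        have : δ * Real.log y ≤ δ * Real.log z := mul_le_mul_of_nonneg_left this hδ0.le
        linarith)
      rw [if_neg hk1, zero_add]
      have h8 : ((N / k : ℕ) : ℝ) * (wt (rad k) * (δ * Real.log z + C2)) ≤ N * (δ * Real.log z + C2) * (wt (rad k) / k) := by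
        have := GR_wt_nonneg (rad k)
        calc ((N / k : ℕ) : ℝ) * (wt (rad k) * (δ * Real.log z + C2)) ≤ (N / k) * (wt (rad k) * (δ * Real.log z + C2)) :=
              mul_le_mul_of_nonneg_right hMk (by positivity)
          _ = _ := by ring
      linarith
  have hsum2 : ∑ n ∈ Icc 1 N, F (rad n) ≤ N * ((1 + ε / 2) * Real.log z + C1)
      + N * (δ * Real.log z + C2) * Cw + z ^ 2 * Real.log z ^ 2 * 2 := by
    refine (rad_split F hF0 N).trans ((Finset.sum_le_sum hgk).trans ?_)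
    rw [Finset.sum_add_distrib, Finset.sum_add_distrib, ← Finset.mul_sum, ← Finset.mul_sum]
    apply add_le_add (add_le_add _ _) _
    · rw [Finset.sum_ite_eq' (Icc 1 N) 1]
      split_ifs
      · exact le_rfl
      · positivity
    · exact mul_le_mul_of_nonneg_left (hw N) (by positivity)
    · exact mul_le_mul_of_nonneg_left (GR_sum_inv_sq N) (by positivity)
  have hδC : δ * Cw ≤ ε / 2 := by
    rw [hδ, div_mul_eq_mul_div, div_le_iff₀ (by positivity)]
    nlinarith
  have hN0 : (0:ℝ) ≤ N := by linarith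
  have h9 : N * (δ * Real.log z + C2) * Cw ≤ N * (ε / 2 * Real.log z) + N * (C2 * Cw) := by
    have : δ * Cw * Real.log z ≤ ε / 2 * Real.log z := mul_le_mul_of_nonneg_right hδC hlz
    calc N * (δ * Real.log z + C2) * Cw = N * (δ * Cw * Real.log z) + N * (C2 * Cw) := by ring
      _ ≤ _ := by
        have := mul_le_mul_of_nonneg_left this hN0
        linarith
  have h10 : 0 ≤ (4 + C1 + C2 * Cw) * (z ^ 2 * Real.log z ^ 2) := by positivity
  have h11 : 0 ≤ (N:ℝ) * 2 := by positivity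
  have : (1 + ε) * N * Real.log z + (4 + C1 + C2 * Cw + 2) * N + (4 + C1 + C2 * Cw + 2) * z ^ 2 * Real.log z ^ 2
      = 4 * N + (N * ((1 + ε / 2) * Real.log z + C1) + (N * (ε / 2 * Real.log z) + N * (C2 * Cw)) + z ^ 2 * Real.log z ^ 2 * 2)
        + ((4 + C1 + C2 * Cw) * (z ^ 2 * Real.log z ^ 2) + N * 2) := by ring
  rw [this]
  linarith

end Pool.Agent.FG61
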