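import Pool.Agent.Lib_helper61.FG.Defs

set_option autoImplicit false

namespace Pool.Agent.FG61

open Finset Filter Topology

theorem GB_harm (n : ℕ) : ∑ m ∈ Icc 1 n, (1 : ℝ) / m ≤ 1 + Real.log n := by
  have h := harmonic_le_one_add_log n
  have h2 : ((harmonic n : ℚ) : ℝ) = ∑ m ∈ Icc 1 n, (1 : ℝ) / m := by
    rw [harmonic_eq_sum_Icc]
    push_cast
    refine Finset.sum_congr rfl ?_
    intro i _
    rw [one_div]
  rw [← h2]
  exact h

theorem GB_mult (R r : ℕ) (hr : 1 ≤ r) :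
    ∑ d ∈ (Icc 1 R).filter (fun d => r ∣ d), (1 : ℝ) / d ≤ (1 + Real.log R) / r := by
  have himg : (Icc 1 R).filter (fun d => r ∣ d) = (Icc 1 (R / r)).image (fun m => r * m) := by
    ext d
    simp only [mem_filter, mem_Icc, mem_image]
    constructor
    · rintro ⟨⟨h1, h2⟩, m, rfl⟩
      refine ⟨m, ⟨?_, ?_⟩, rfl⟩
      · rcases Nat.eq_zero_or_pos m with h | h
        · subst h; simp at h1
        · exact h
      · rw [Nat.le_div_iff_mul_le (by omega)]
        rw [mul_comm]; exact h2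
    · rintro ⟨m, ⟨h1, h2⟩, rfl⟩
      refine ⟨⟨?_, ?_⟩, Dvd.intro m rfl⟩
      · exact Nat.mul_pos hr h1
      · rw [Nat.le_div_iff_mul_le (by omega)] at h2
        rw [mul_comm]; exact h2
  rw [himg, Finset.sum_image]
  · have hr0 : (0 : ℝ) < r := by exact_mod_cast hr
    have h1 : ∑ m ∈ Icc 1 (R / r), (1 : ℝ) / ((r * m : ℕ) : ℝ)
        = (∑ m ∈ Icc 1 (R / r), (1 : ℝ) / m) / r := by
      rw [Finset.sum_div]
      refine Finset.sum_congr rfl ?_
      intro m _
      push_cast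
      rw [div_div, mul_comm]
    rw [h1]
    refine div_le_div_of_nonneg_right ?_ hr0.le
    refine (GB_harm _).trans ?_
    rcases Nat.eq_zero_or_pos (R / r) with h | h
    · rw [h]
      simp only [Nat.cast_zero, Real.log_zero]
      have := Real.log_natCast_nonneg R
      linarith
    · have h2 : Real.log ((R / r : ℕ) : ℝ) ≤ Real.log R := by
        apply Real.log_le_log
        · exact_mod_cast h
        · exact_mod_cast Nat.div_le_self R r
      linarith
  · intro a _ b _ hab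
    exact Nat.eq_of_mul_eq_mul_left hr hab

theorem GB_mu_abs (n : ℕ) : |mu n| ≤ 1 := by
  have h := ArithmeticFunction.abs_moebius_le_one (n := n)
  have h2 : (|((ArithmeticFunction.moebius n : ℤ) : ℝ)|) = ((|ArithmeticFunction.moebius n| : ℤ) : ℝ) := by
    push_cast; rfl
  show |((ArithmeticFunction.moebius n : ℤ) : ℝ)| ≤ 1
  rw [h2]
  exact_mod_cast h

theorem gam_zero (R r : ℕ) (hr : ¬ Squarefree r) : gam R r = 0 := by
  unfold gam
  refine Finset.sum_eq_zero ?_
  intro d hd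
  rw [mem_filter] at hd
  have h : ¬ Squarefree d := fun hs => hr (hs.squarefree_of_dvd hd.2)
  have h2 : mu d = 0 := by
    show ((ArithmeticFunction.moebius d : ℤ) : ℝ) = 0
    rw [ArithmeticFunction.moebius_eq_zero_of_not_squarefree h]
    simp
  rw [h2]
  simp

theorem gam_le (R r : ℕ) (hR : 1 ≤ R) (hr : 1 ≤ r) :
    |gam R r| ≤ (1 + Real.log R) ^ 2 / r := by
  have hL := Real.log_natCast_nonneg R
  have hr0 : (0 : ℝ) < r := by exact_mod_cast hr
  unfold gam
  refine (Finset.abs_sum_le_sum_abs _ _).trans ?_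
  have h1 : ∀ d ∈ (Icc 1 R).filter (fun d => r ∣ d),
      |mu d * Real.log ((R : ℝ) / d) / d| ≤ Real.log R * (1 / (d : ℝ)) := by
    intro d hd
    rw [mem_filter, mem_Icc] at hd
    have hd1 : (1 : ℝ) ≤ d := by exact_mod_cast hd.1.1
    have hdR : (d : ℝ) ≤ R := by exact_mod_cast hd.1.2
    have hd0 : (0 : ℝ) < d := by linarith
    have hlog0 : 0 ≤ Real.log ((R : ℝ) / d) := Real.log_nonneg (by rw [le_div_iff₀ hd0]; linarith)
    have hlog1 : Real.log ((R : ℝ) / d) ≤ Real.log R := by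
      apply Real.log_le_log
      · apply div_pos _ hd0
        linarith
      · exact div_le_self (by linarith) hd1
    rw [abs_div, abs_mul, abs_of_nonneg hlog0, abs_of_pos hd0]
    have h2 : |mu d| * Real.log ((R : ℝ) / d) ≤ 1 * Real.log R :=
      mul_le_mul (GB_mu_abs d) hlog1 hlog0 (by norm_num)
    rw [one_mul] at h2
    calc |mu d| * Real.log ((R : ℝ) / d) / d ≤ Real.log R / d :=
          div_le_div_of_nonneg_right h2 hd0.le
      _ = Real.log R * (1 / (d : ℝ)) := by ring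
  refine (Finset.sum_le_sum h1).trans ?_
  rw [← Finset.mul_sum]
  refine (mul_le_mul_of_nonneg_left (GB_mult R r hr) hL).trans ?_
  rw [← mul_div_assoc]
  refine div_le_div_of_nonneg_right ?_ hr0.le
  nlinarith

theorem GB_cc_abs (r n : ℕ) : |cc r n| ≤ ∑ d ∈ (Nat.gcd r n).divisors, (d : ℝ) := by
  unfold cc
  refine (Finset.abs_sum_le_sum_abs _ _).trans ?_
  refine Finset.sum_le_sum ?_
  intro d _
  rw [abs_mul, abs_of_nonneg (Nat.cast_nonneg d)]
  calc (d : ℝ) * |mu (r / d)| ≤ d * 1 := mul_le_mul_of_nonneg_left (GB_mu_abs _) (Nat.cast_nonneg d)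
    _ = d := mul_one _

theorem bb_le (K R n : ℕ) (hR : 1 ≤ R) (hn : 1 ≤ n) :
    |bb K R n| ≤ (n.divisors.card : ℝ) * (1 + Real.log R) ^ 3 := by
  have hL := Real.log_natCast_nonneg R
  unfold bb
  refine (Finset.abs_sum_le_sum_abs _ _).trans ?_
  have h1 : ∀ r ∈ Ioc K R, |gam R r * cc r n| ≤
      (1 + Real.log R) ^ 2 * ∑ d ∈ n.divisors.filter (fun d => d ∣ r), (d : ℝ) * (1 / r) := by
    intro r hr
    rw [mem_Ioc] at hr
    have hr1 : 1 ≤ r := by omega
    have hr0 : (0 : ℝ) < r := by exact_mod_cast hr1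
    rw [abs_mul]
    have hg := gam_le R r hR hr1
    have hc := GB_cc_abs r n
    have hdiv : (Nat.gcd r n).divisors = n.divisors.filter (fun d => d ∣ r) := by
      ext d
      simp only [Nat.mem_divisors, mem_filter, Nat.dvd_gcd_iff]
      constructor
      · rintro ⟨⟨h1, h2⟩, _⟩
        exact ⟨⟨h2, by omega⟩, h1⟩
      · rintro ⟨⟨h1, _⟩, h2⟩
        refine ⟨⟨h2, h1⟩, ?_⟩
        exact (Nat.gcd_pos_of_pos_left n hr1).ne'
    rw [hdiv] at hc
    calc |gam R r| * |cc r n| ≤ ((1 + Real.log R) ^ 2 / r)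
          * ∑ d ∈ n.divisors.filter (fun d => d ∣ r), (d : ℝ) := by
            apply mul_le_mul hg hc (abs_nonneg _)
            positivity
      _ = _ := by
            rw [← Finset.sum_mul]
            ring
  refine (Finset.sum_le_sum h1).trans ?_
  rw [← Finset.mul_sum]
  have h2 : ∑ r ∈ Ioc K R, ∑ d ∈ n.divisors.filter (fun d => d ∣ r), (d : ℝ) * (1 / r)
      ≤ ∑ r ∈ Icc 1 R, ∑ d ∈ n.divisors.filter (fun d => d ∣ r), (d : ℝ) * (1 / r) := by
    apply Finset.sum_le_sum_of_subset_of_nonneg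
    · intro r hr
      rw [mem_Ioc] at hr
      rw [mem_Icc]
      omega
    · intro r _ _
      apply Finset.sum_nonneg
      intro d _
      positivity
  have h3 : ∑ r ∈ Icc 1 R, ∑ d ∈ n.divisors.filter (fun d => d ∣ r), (d : ℝ) * (1 / r)
      = ∑ d ∈ n.divisors, (d : ℝ) * ∑ r ∈ (Icc 1 R).filter (fun r => d ∣ r), (1 : ℝ) / r := by
    simp_rw [Finset.sum_filter, Finset.mul_sum]
    rw [Finset.sum_comm]
    refine Finset.sum_congr rfl ?_
    intro d _
    refine Finset.sum_congr rfl ?_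
    intro r _
    split_ifs <;> simp
  have h4 : ∑ d ∈ n.divisors, (d : ℝ) * ∑ r ∈ (Icc 1 R).filter (fun r => d ∣ r), (1 : ℝ) / r
      ≤ ∑ _d ∈ n.divisors, (1 + Real.log R) := by
    refine Finset.sum_le_sum ?_
    intro d hd
    have hd1 : 1 ≤ d := Nat.pos_of_mem_divisors hd
    have hd0 : (0 : ℝ) < d := by exact_mod_cast hd1
    calc (d : ℝ) * ∑ r ∈ (Icc 1 R).filter (fun r => d ∣ r), (1 : ℝ) / r
        ≤ d * ((1 + Real.log R) / d) := mul_le_mul_of_nonneg_left (GB_mult R d hd1) hd0.le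
      _ = 1 + Real.log R := by field_simp
  rw [Finset.sum_const, nsmul_eq_mul] at h4
  calc (1 + Real.log R) ^ 2 * ∑ r ∈ Ioc K R, ∑ d ∈ n.divisors.filter (fun d => d ∣ r), (d : ℝ) * (1 / r)
      ≤ (1 + Real.log R) ^ 2 * ((n.divisors.card : ℝ) * (1 + Real.log R)) := by
        apply mul_le_mul_of_nonneg_left _ (by positivity)
        exact h2.trans (h3.le.trans h4)
    _ = _ := by ring

end Pool.Agent.FG61
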