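import Pool.Agent.Lib_helper61.FG.Defs

set_option autoImplicit false

namespace Pool.Agent.FG61

open Finset Filter Topology
open Pool.Agent.Var35 (e)

/-- multiples of `m` up to `N` -/
theorem CD_count (N m : ℕ) : (((Icc 1 N).filter (fun n => m ∣ n)).card : ℕ) = N / m := by
  have h : (Icc 1 N).filter (fun n => m ∣ n) = (Ioc 0 N).filter (fun n => m ∣ n) := by
    congr 1
  rw [h, Nat.Ioc_filter_dvd_card_eq_div]

theorem CD_cc (r n : ℕ) (hr : 1 ≤ r) :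
    cc r n = ∑ t ∈ r.divisors, if t ∣ n then (t : ℝ) * mu (r / t) else 0 := by
  have h3 : r.divisors.filter (fun c => c ∣ n) = (Nat.gcd r n).divisors := by
    ext c
    rw [mem_filter, Nat.mem_divisors, Nat.mem_divisors, Nat.dvd_gcd_iff]
    constructor
    · rintro ⟨⟨h4, h5⟩, h6⟩
      exact ⟨⟨h4, h6⟩, fun h => h5 (Nat.eq_zero_of_gcd_eq_zero_left h)⟩
    · rintro ⟨⟨h4, h6⟩, h5⟩
      exact ⟨⟨h4, by omega⟩, h6⟩
  unfold cc
  rw [← h3, sum_filter]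

theorem CD_sum (N d r : ℕ) (hr : 1 ≤ r) :
    ∑ n ∈ (Icc 1 N).filter (fun n => d ∣ n), cc r n =
      ∑ t ∈ r.divisors, (t : ℝ) * mu (r / t) * ((N / (Nat.lcm d t) : ℕ) : ℝ) := by
  rw [sum_congr rfl (fun n _ => CD_cc r n hr), sum_comm]
  refine sum_congr rfl fun t _ => ?_
  rw [← sum_filter, sum_const, nsmul_eq_mul, filter_filter, mul_comm]
  congr 2
  rw [← CD_count N (Nat.lcm d t)]
  congr 1
  ext n
  simp only [mem_filter, Nat.lcm_dvd_iff]

theorem CD_gcd (d r : ℕ) (hd : 1 ≤ d) (hr : 1 ≤ r) :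
    ∑ t ∈ r.divisors, mu (r / t) * ((Nat.gcd d t : ℕ) : ℝ) = if r ∣ d then phi r else 0 := by
  have h1 : ∀ n > 0, ∑ i ∈ n.divisors, (if i ∣ d then phi i else 0) = ((Nat.gcd d n : ℕ) : ℝ) := by
    intro n hn
    rw [← sum_filter]
    have h3 : n.divisors.filter (fun c => c ∣ d) = (Nat.gcd d n).divisors := by
      ext c
      rw [mem_filter, Nat.mem_divisors, Nat.mem_divisors, Nat.dvd_gcd_iff]
      constructor
      · rintro ⟨⟨h4, h5⟩, h6⟩
        exact ⟨⟨h6, h4⟩, fun h => h5 (Nat.eq_zero_of_gcd_eq_zero_right h)⟩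
      · rintro ⟨⟨h4, h6⟩, h5⟩
        exact ⟨⟨h6, by omega⟩, h4⟩
    rw [h3]
    have := Nat.sum_totient (Nat.gcd d n)
    unfold phi
    rw [← Nat.cast_sum, this]
  have h2 := (ArithmeticFunction.sum_eq_iff_sum_mul_moebius_eq (R := ℝ)
    (f := fun i => if i ∣ d then phi i else 0) (g := fun n => ((Nat.gcd d n : ℕ) : ℝ))).mp h1 r hr
  rw [← h2, Nat.sum_divisorsAntidiagonal' (fun a b => ((ArithmeticFunction.moebius a : ℤ) : ℝ) * ((Nat.gcd d b : ℕ) : ℝ))]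

/-- CD -/
theorem cc_count (N d r : ℕ) (hd : 1 ≤ d) (hr : 1 ≤ r) :
    |∑ n ∈ (Icc 1 N).filter (fun n => d ∣ n), cc r n
      - (if r ∣ d then (N : ℝ) / d * phi r else 0)| ≤ ∑ t ∈ r.divisors, (t : ℝ) := by
  have h1 : (if r ∣ d then (N : ℝ) / d * phi r else 0) =
      ∑ t ∈ r.divisors, (t : ℝ) * mu (r / t) * ((N : ℝ) / ((Nat.lcm d t : ℕ) : ℝ)) := by
    have h2 : (if r ∣ d then (N : ℝ) / d * phi r else 0) =
        (N : ℝ) / d * (if r ∣ d then phi r else 0) := by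
      split_ifs <;> simp
    rw [h2, ← CD_gcd d r hd hr, mul_sum]
    refine sum_congr rfl fun t ht => ?_
    have ht1 : 0 < t := Nat.pos_of_mem_divisors ht
    have h3 : (Nat.gcd d t : ℝ) * (Nat.lcm d t : ℝ) = (d : ℝ) * t := by
      exact_mod_cast Nat.gcd_mul_lcm d t
    have h4 : (0 : ℝ) < (Nat.lcm d t : ℝ) := by
      exact_mod_cast Nat.lcm_pos (by omega) ht1
    have h5 : (0 : ℝ) < d := by exact_mod_cast hd
    have h6 : (Nat.gcd d t : ℝ) = (d : ℝ) * t / (Nat.lcm d t : ℝ) := by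
      rw [eq_div_iff h4.ne', h3]
    rw [h6]
    field_simp
  rw [CD_sum N d r hr, h1, ← sum_sub_distrib]
  refine (abs_sum_le_sum_abs _ _).trans (sum_le_sum fun t ht => ?_)
  have ht1 : 0 < t := Nat.pos_of_mem_divisors ht
  rw [← mul_sub, abs_mul, abs_mul]
  have h7 : |mu (r / t)| ≤ 1 := by
    have := ArithmeticFunction.abs_moebius_le_one (n := r / t)
    unfold mu
    exact_mod_cast this
  have h8 : |((N / (Nat.lcm d t) : ℕ) : ℝ) - (N : ℝ) / ((Nat.lcm d t : ℕ) : ℝ)| ≤ 1 := by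
    have h9 : ((N / (Nat.lcm d t) : ℕ) : ℝ) ≤ (N : ℝ) / ((Nat.lcm d t : ℕ) : ℝ) := Nat.cast_div_le
    have h10 : (N : ℝ) / ((Nat.lcm d t : ℕ) : ℝ) < ((N / (Nat.lcm d t) : ℕ) : ℝ) + 1 := by
      have h4 : (0 : ℝ) < (Nat.lcm d t : ℝ) := by
        exact_mod_cast Nat.lcm_pos (by omega) ht1
      rw [div_lt_iff₀ h4]
      have := Nat.lt_mul_div_succ N (Nat.lcm_pos (show 0 < d by omega) ht1)
      have h11 : (N : ℝ) < (Nat.lcm d t : ℝ) * ((N / (Nat.lcm d t) : ℕ) + 1) := by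
        exact_mod_cast this
      linarith
    rw [abs_le]
    constructor <;> linarith
  have h12 : |(t : ℝ)| = t := abs_of_nonneg (Nat.cast_nonneg t)
  rw [h12]
  have h13 : (t : ℝ) * |mu (r / t)| ≤ t := by
    calc (t : ℝ) * |mu (r / t)| ≤ t * 1 := mul_le_mul_of_nonneg_left h7 (Nat.cast_nonneg t)
      _ = t := mul_one _
  calc (t : ℝ) * |mu (r / t)| * |((N / (Nat.lcm d t) : ℕ) : ℝ) - (N : ℝ) / ((Nat.lcm d t : ℕ) : ℝ)|
      ≤ t * 1 := mul_le_mul h13 h8 (abs_nonneg _) (Nat.cast_nonneg t)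
    _ = t := mul_one _

end Pool.Agent.FG61
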