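import Pool.Agent.Lib_helper61.FG.Defs

set_option autoImplicit false

namespace Pool.Agent.FG61

open Finset Filter Topology
open Pool.Agent.Var35 (e)

/-- the Ramanujan sums over the divisors of `d` -/
theorem fe_sum_cc (d n : ℕ) (hd : 1 ≤ d) (hn : 1 ≤ n) :
    ∑ r ∈ d.divisors, cc r n = if d ∣ n then (d : ℝ) else 0 := by
  set f : ArithmeticFunction ℝ := ⟨fun t => if t ∣ n then (t : ℝ) else 0, by simp⟩ with hf
  set m : ArithmeticFunction ℝ := ((ArithmeticFunction.moebius : ArithmeticFunction ℤ) :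
    ArithmeticFunction ℝ) with hm
  have hcc : ∀ r ∈ d.divisors, cc r n = (f * m) r := by
    intro r hr
    have hr0 : r ≠ 0 := Nat.ne_of_gt (Nat.pos_of_mem_divisors hr)
    rw [ArithmeticFunction.mul_apply, Nat.sum_divisorsAntidiagonal (fun a b => f a * m b)]
    unfold cc
    have hsub : (Nat.gcd r n).divisors = r.divisors.filter (fun t => t ∣ n) := by
      ext t
      rw [Finset.mem_filter, Nat.mem_divisors, Nat.mem_divisors]
      constructor
      · rintro ⟨h1, _⟩
        exact ⟨⟨h1.trans (Nat.gcd_dvd_left r n), hr0⟩, h1.trans (Nat.gcd_dvd_right r n)⟩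
      · rintro ⟨⟨h1, _⟩, h2⟩
        exact ⟨Nat.dvd_gcd h1 h2, Nat.gcd_ne_zero_left hr0⟩
    rw [hsub, Finset.sum_filter]
    refine Finset.sum_congr rfl fun t _ => ?_
    simp only [hf, hm, ArithmeticFunction.coe_mk, ArithmeticFunction.intCoe_apply]
    split_ifs <;> simp [mu]
  rw [Finset.sum_congr rfl hcc]
  have h1 : ∑ r ∈ d.divisors, (f * m) r = ((f * m) * (ArithmeticFunction.zeta : ArithmeticFunction ℝ)) d := by
    rw [ArithmeticFunction.coe_mul_zeta_apply]
  rw [h1, mul_assoc, hm, ArithmeticFunction.coe_moebius_mul_coe_zeta, mul_one]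
  simp [hf]

/-- FE -/
theorem ff_expand (R n : ℕ) (hn : 1 ≤ n) : ff (R : ℝ) n = ∑ r ∈ Icc 1 R, gam R r * cc r n := by
  have h1 : ∑ r ∈ Icc 1 R, gam R r * cc r n
      = ∑ d ∈ Icc 1 R, (mu d * Real.log ((R : ℝ) / d) / d) * ∑ r ∈ d.divisors, cc r n := by
    have h2 : ∀ r ∈ Icc 1 R, gam R r * cc r n = ∑ d ∈ Icc 1 R,
        if r ∣ d then (mu d * Real.log ((R : ℝ) / d) / d) * cc r n else 0 := by
      intro r _
      unfold gam
      rw [Finset.sum_mul, Finset.sum_filter]
    rw [Finset.sum_congr rfl h2, Finset.sum_comm]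
    refine Finset.sum_congr rfl fun d hd => ?_
    rw [mem_Icc] at hd
    rw [Finset.mul_sum, ← Finset.sum_filter]
    refine Finset.sum_congr ?_ fun _ _ => rfl
    ext r
    rw [Finset.mem_filter, mem_Icc, Nat.mem_divisors]
    constructor
    · rintro ⟨_, h⟩
      exact ⟨h, by omega⟩
    · rintro ⟨h, _⟩
      have := Nat.le_of_dvd (by omega) h
      have := Nat.pos_of_dvd_of_pos h (by omega)
      exact ⟨⟨by omega, by omega⟩, h⟩
  rw [h1]
  unfold ff
  have h3 : ∀ d ∈ Icc 1 R, (mu d * Real.log ((R : ℝ) / d) / d) * ∑ r ∈ d.divisors, cc r n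
      = if d ∣ n then mu d * Real.log ((R : ℝ) / d) else 0 := by
    intro d hd
    rw [mem_Icc] at hd
    have hd0 : (d : ℝ) ≠ 0 := by
      have : 0 < d := hd.1
      positivity
    rw [fe_sum_cc d n hd.1 hn]
    split_ifs
    · field_simp
    · simp
  rw [Finset.sum_congr rfl h3, ← Finset.sum_filter]
  refine Finset.sum_congr ?_ fun _ _ => rfl
  ext d
  rw [Finset.mem_filter, Finset.mem_filter, mem_Icc, Nat.mem_divisors]
  constructor
  · rintro ⟨⟨h4, _⟩, h5⟩
    exact ⟨⟨Nat.pos_of_dvd_of_pos h4 hn, by exact_mod_cast h5⟩, h4⟩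
  · rintro ⟨⟨h4, h5⟩, h6⟩
    exact ⟨⟨h6, by omega⟩, by exact_mod_cast h5⟩

end Pool.Agent.FG61
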