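import Pool.Agent.Lib_helper61.FG.Defs

set_option autoImplicit false

namespace Pool.Agent.FG61

open Finset Filter Topology
open Pool.Agent.Var35 (e)

/-- block sums over residues -/
theorem DU_sum_res (N Q : ℕ) (hQ : 1 ≤ Q) (F b : ℕ → ℝ) :
    ∑ n ∈ Icc 1 N, F n * ∑ m ∈ (Icc 1 N).filter (fun m => m % Q = n % Q), b m =
      ∑ n ∈ Icc 1 N, F n * b n + off N Q F b := by
  unfold off
  rw [← Finset.sum_add_distrib]
  refine Finset.sum_congr rfl fun n hn => ?_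
  have h1 : (Icc 1 N).filter (fun m => m % Q = n % Q) =
      insert n ((Icc 1 N).filter (fun m => m ≠ n ∧ m % Q = n % Q)) := by
    ext m
    simp only [mem_filter, mem_insert]
    constructor
    · rintro ⟨h1, h2⟩
      by_cases h : m = n
      · exact Or.inl h
      · exact Or.inr ⟨h1, h, h2⟩
    · rintro (h | ⟨h1, _, h2⟩)
      · subst h; exact ⟨hn, rfl⟩
      · exact ⟨h1, h2⟩
  rw [h1, Finset.sum_insert (by simp), mul_add, Finset.mul_sum]

theorem DU_fiber (N Q : ℕ) (F G : ℕ → ℝ) (s : Finset ℕ) :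
    ∑ a ∈ s, G a * ∑ n ∈ (Icc 1 N).filter (fun n => n % Q = a), F n =
      ∑ n ∈ (Icc 1 N).filter (fun n => n % Q ∈ s), F n * G (n % Q) := by
  have : ∀ a ∈ s, G a * ∑ n ∈ (Icc 1 N).filter (fun n => n % Q = a), F n =
      ∑ n ∈ ((Icc 1 N).filter (fun n => n % Q ∈ s)).filter (fun n => n % Q = a),
        F n * G (n % Q) := by
    intro a ha
    rw [Finset.mul_sum, Finset.filter_filter]
    have e1 : (Icc 1 N).filter (fun n => n % Q ∈ s ∧ n % Q = a) =
        (Icc 1 N).filter (fun n => n % Q = a) := by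
      refine Finset.filter_congr fun n _ => ?_
      constructor
      · exact fun h => h.2
      · exact fun h => ⟨by rw [h]; exact ha, h⟩
    rw [e1]
    refine Finset.sum_congr rfl fun n hn => ?_
    rw [(mem_filter.1 hn).2, mul_comm]
  rw [Finset.sum_congr rfl this]
  exact Finset.sum_fiberwise_of_maps_to (fun n hn => (mem_filter.1 hn).2) _

theorem DU_count (N Q a : ℕ) (hQ : 1 ≤ Q) :
    (((Icc 1 N).filter (fun m => m % Q = a % Q)).card : ℝ) ≤ (N : ℝ) / Q + 1 := by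
  have hQ' : (0 : ℝ) < Q := by exact_mod_cast hQ
  have h1 : (Icc 1 N).filter (fun m => m % Q = a % Q) =
      (Ioc 0 N).filter (fun m => m ≡ a [MOD Q]) := by
    ext m
    simp only [mem_filter, mem_Icc, mem_Ioc, Nat.ModEq]
    omega
  rw [h1]
  have h2 := Nat.Ioc_filter_modEq_card (a := 0) (b := N) (r := Q) (by omega) a
  have h3 : ((((Ioc 0 N).filter (fun m => m ≡ a [MOD Q])).card : ℤ) : ℝ) ≤ (N : ℝ) / Q + 1 := by
    rw [h2]
    push_cast
    refine max_le ?_ (by positivity)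
    have h4 : ((⌊((N : ℚ) - a) / Q⌋ : ℤ) : ℝ) ≤ ((N : ℝ) - a) / Q := by
      have := Int.floor_le (((N : ℚ) - a) / Q)
      have h5 : (((⌊((N : ℚ) - a) / Q⌋ : ℤ) : ℚ) : ℝ) ≤ (((((N : ℚ) - a) / Q : ℚ)) : ℝ) := by
        exact_mod_cast this
      push_cast at h5
      exact h5
    have h6 : (((0 : ℚ) - a) / Q : ℚ) < (⌊(((0 : ℕ) : ℚ) - a) / Q⌋ : ℤ) + 1 := by
      simpa using Int.lt_floor_add_one (((0 : ℚ) - a) / Q)
    have h7 : ((0 : ℝ) - a) / Q < ((⌊(((0 : ℕ) : ℚ) - a) / Q⌋ : ℤ) : ℝ) + 1 := by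
      have h5 : (((((0 : ℚ) - a) / Q : ℚ)) : ℝ) < ((((⌊(((0 : ℕ) : ℚ) - a) / Q⌋ : ℤ) : ℚ) + 1 : ℚ) : ℝ) := by
        exact_mod_cast h6
      push_cast at h5 ⊢
      exact h5
    have h8 : ((N : ℝ) - a) / Q - (0 - a) / Q = N / Q := by
      field_simp; ring
    push_cast at h7 ⊢
    linarith
  exact_mod_cast h3

theorem dual (X : ℝ) (N Q : ℕ) (hN : N = ⌊X⌋₊) (hX : 0 ≤ X) (hQ : 1 ≤ Q) (b : ℕ → ℝ) (B : ℝ)
    (hB : ∀ n ∈ Icc 1 N, |b n| ≤ B) (hB0 : 0 ≤ B) :
    2 * ∑ n ∈ Icc 1 N, Lam n * b n - ∑ n ∈ Icc 1 N, b n ^ 2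
      - 2 * |off N Q Lam b| - |off N Q b b|
      - 2 * (X / phi Q) * |∑ m ∈ (Icc 1 N).filter (fun m => Nat.Coprime m Q), b m|
      - 2 * (∑ n ∈ (Icc 1 N).filter (fun n => ¬ Nat.Coprime n Q), Lam n) * (((N : ℝ) / Q + 1) * B)
      ≤ GX X Q := by
  classical
  set S : Finset ℕ := (range Q).filter (fun a => Nat.Coprime a Q) with hS
  set psi : ℕ → ℝ := fun a => ∑ n ∈ (Icc 1 N).filter (fun n => n % Q = a), Lam n with hpsi
  set u : ℕ → ℝ := fun a => ∑ n ∈ (Icc 1 N).filter (fun n => n % Q = a), b n with hu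
  set M : ℝ := X / phi Q with hM
  have hMnn : 0 ≤ M := div_nonneg hX (by unfold phi; positivity)
  have hmodS : ∀ n : ℕ, n % Q ∈ S ↔ Nat.Coprime n Q := by
    intro n
    rw [hS, mem_filter, mem_range]
    have h1 : n % Q < Q := Nat.mod_lt _ (by omega)
    have h2 : Nat.Coprime (n % Q) Q ↔ Nat.Coprime n Q := by
      unfold Nat.Coprime
      rw [← Nat.gcd_rec, Nat.gcd_comm]
    rw [h2]
    exact ⟨fun h => h.2, fun h => ⟨h1, h⟩⟩
  have hGX : GX X Q = ∑ a ∈ S, (psi a - M) ^ 2 := by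
    unfold GX
    rw [← hN]
  have hpt : ∀ a ∈ S, 2 * (psi a * u a) - 2 * M * u a - u a ^ 2 ≤ (psi a - M) ^ 2 := by
    intro a _
    nlinarith [sq_nonneg (psi a - M - u a)]
  have h0 : ∑ a ∈ S, (2 * (psi a * u a) - 2 * M * u a - u a ^ 2) ≤ GX X Q := by
    rw [hGX]; exact Finset.sum_le_sum hpt
  -- the linear term
  have h1 : ∑ a ∈ S, u a = ∑ m ∈ (Icc 1 N).filter (fun m => Nat.Coprime m Q), b m := by
    have := DU_fiber N Q b (fun _ => 1) S
    simp only [one_mul, mul_one] at this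
    rw [hu]
    rw [this]
    refine Finset.sum_congr ?_ fun _ _ => rfl
    refine Finset.filter_congr fun n _ => hmodS n
  -- the quadratic term
  have h2 : ∑ a ∈ S, u a ^ 2 ≤ ∑ n ∈ Icc 1 N, b n ^ 2 + off N Q b b := by
    have e1 : ∑ a ∈ S, u a ^ 2 ≤ ∑ a ∈ range Q, u a ^ 2 :=
      Finset.sum_le_sum_of_subset_of_nonneg (Finset.filter_subset _ _) fun _ _ _ => sq_nonneg _
    have e2 : ∑ a ∈ range Q, u a ^ 2 = ∑ n ∈ Icc 1 N, b n * u (n % Q) := by
      have := DU_fiber N Q b u (range Q)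
      have e3 : (Icc 1 N).filter (fun n => n % Q ∈ range Q) = Icc 1 N := by
        refine Finset.filter_true_of_mem fun n _ => ?_
        exact mem_range.2 (Nat.mod_lt _ (by omega))
      rw [e3] at this
      rw [← this]
      refine Finset.sum_congr rfl fun a _ => ?_
      rw [sq]
    have e4 := DU_sum_res N Q hQ b b
    have e5 : ∑ n ∈ Icc 1 N, b n * b n = ∑ n ∈ Icc 1 N, b n ^ 2 :=
      Finset.sum_congr rfl fun n _ => (sq _).symm
    rw [e5] at e4
    rw [← e4]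
    rw [← e2]
    exact e1
  -- the main term
  have hub : ∀ n : ℕ, |u (n % Q)| ≤ ((N : ℝ) / Q + 1) * B := by
    intro n
    calc |u (n % Q)| ≤ ∑ m ∈ (Icc 1 N).filter (fun m => m % Q = n % Q), |b m| :=
          Finset.abs_sum_le_sum_abs _ _
      _ ≤ ∑ m ∈ (Icc 1 N).filter (fun m => m % Q = n % Q), B :=
          Finset.sum_le_sum fun m hm => hB m (mem_filter.1 hm).1
      _ = (((Icc 1 N).filter (fun m => m % Q = n % Q)).card : ℝ) * B := by
          rw [Finset.sum_const, nsmul_eq_mul]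
      _ ≤ ((N : ℝ) / Q + 1) * B := mul_le_mul_of_nonneg_right (DU_count N Q n hQ) hB0
  have h3 : ∑ n ∈ Icc 1 N, Lam n * b n + off N Q Lam b
      - (∑ n ∈ (Icc 1 N).filter (fun n => ¬ Nat.Coprime n Q), Lam n) * (((N : ℝ) / Q + 1) * B)
      ≤ ∑ a ∈ S, psi a * u a := by
    have e1 := DU_fiber N Q Lam u S
    have e1' : ∑ a ∈ S, psi a * u a =
        ∑ n ∈ (Icc 1 N).filter (fun n => Nat.Coprime n Q), Lam n * u (n % Q) := by
      have e2 : (Icc 1 N).filter (fun n => n % Q ∈ S) =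
          (Icc 1 N).filter (fun n => Nat.Coprime n Q) := Finset.filter_congr fun n _ => hmodS n
      rw [e2] at e1
      rw [← e1]
      refine Finset.sum_congr rfl fun a _ => mul_comm _ _
    have e3 := DU_sum_res N Q hQ Lam b
    have e4 : ∑ n ∈ Icc 1 N, Lam n * u (n % Q) =
        ∑ n ∈ (Icc 1 N).filter (fun n => Nat.Coprime n Q), Lam n * u (n % Q) +
        ∑ n ∈ (Icc 1 N).filter (fun n => ¬ Nat.Coprime n Q), Lam n * u (n % Q) :=
      (Finset.sum_filter_add_sum_filter_not _ _ _).symm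
    have e5 : ∑ n ∈ (Icc 1 N).filter (fun n => ¬ Nat.Coprime n Q), Lam n * u (n % Q) ≤
        (∑ n ∈ (Icc 1 N).filter (fun n => ¬ Nat.Coprime n Q), Lam n) * (((N : ℝ) / Q + 1) * B) := by
      rw [Finset.sum_mul]
      refine Finset.sum_le_sum fun n _ => ?_
      exact mul_le_mul_of_nonneg_left ((le_abs_self _).trans (hub n))
        ArithmeticFunction.vonMangoldt_nonneg
    have e6 : ∑ n ∈ Icc 1 N, Lam n * u (n % Q) =
        ∑ n ∈ Icc 1 N, Lam n * b n + off N Q Lam b := by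
      rw [← e3]
    rw [e1']
    linarith
  have h4 : ∑ a ∈ S, (2 * (psi a * u a) - 2 * M * u a - u a ^ 2) =
      2 * ∑ a ∈ S, psi a * u a - 2 * M * ∑ a ∈ S, u a - ∑ a ∈ S, u a ^ 2 := by
    rw [Finset.sum_sub_distrib, Finset.sum_sub_distrib, Finset.mul_sum, Finset.mul_sum]
  rw [h4, h1] at h0
  have h5 : 2 * M * ∑ m ∈ (Icc 1 N).filter (fun m => Nat.Coprime m Q), b m ≤
      2 * M * |∑ m ∈ (Icc 1 N).filter (fun m => Nat.Coprime m Q), b m| :=
    mul_le_mul_of_nonneg_left (le_abs_self _) (by positivity)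
  have h6 : off N Q b b ≤ |off N Q b b| := le_abs_self _
  have h7 : -|off N Q Lam b| ≤ off N Q Lam b := neg_abs_le _
  nlinarith [h0, h2, h3, h5, h6, h7]

end Pool.Agent.FG61
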