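import Pool.Agent.Lib_helper61.FG.Defs

/-!
# Geometric sums (block GS)
-/

set_option autoImplicit false

namespace Pool.Agent.FG61

open Finset Filter Topology
open Pool.Agent.Var35 (e)

theorem gs_icc (N : ℕ) (f : ℕ → ℂ) : ∑ n ∈ Icc 1 N, f n = ∑ j ∈ range N, f (j + 1) := by
  rw [Finset.range_eq_Ico, Finset.sum_Ico_add' f 0 N 1]
  rfl

/-- GS -/
theorem geom_bound (N : ℕ) (β : ℝ) (hβ : β ≠ round β) :
    ‖∑ n ∈ Icc 1 N, e (n * β)‖ ≤ 1 / (2 * |β - round β|) := by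
  set a : ℝ := β - round β with ha
  have ha0 : 0 < |a| := abs_pos.mpr (sub_ne_zero.mpr hβ)
  have ha1 : |a| ≤ 1 / 2 := abs_sub_round β
  have h1 : ∀ n : ℕ, e (n * β) = e (n * a) := by
    intro n
    have : (n : ℝ) * β = n * a + ((n * round β : ℤ) : ℝ) := by
      rw [ha]; push_cast; ring
    rw [this, Pool.Agent.Var35.e_add_int]
  have h2 : ∑ n ∈ Icc 1 N, e (n * β) = e a * ∑ j ∈ range N, e (j * a) := by
    rw [gs_icc N (fun n => e (n * β)), mul_sum]
    refine sum_congr rfl fun j _ => ?_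
    rw [h1, ← Pool.Agent.Var35.e_add]
    congr 1
    push_cast; ring
  rw [h2, norm_mul, Pool.Agent.Var35.norm_e, one_mul]
  exact Pool.Agent.Var35.geom_bound ha0 ha1 N

end Pool.Agent.FG61
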