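import Pool.Agent.Lib_helper61.FG.Defs
import Pool.Agent.Lib_helper61.FG.P.GS

/-!
# Sums over well spaced points (block SP)
-/

set_option autoImplicit false

namespace Pool.Agent.FG61

open Finset Filter Topology
open Pool.Agent.Var35 (e)

/-- the majorant in terms of the cell -/
noncomputable def spH (N : ℕ) (δ : ℝ) (j : ℕ) : ℝ := if j = 0 then N else 1 / (2 * (j * δ))

theorem sp_H_nonneg (N : ℕ) {δ : ℝ} (hδ : 0 < δ) (j : ℕ) : 0 ≤ spH N δ j := by
  unfold spH; split_ifs <;> positivity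

theorem sp_H_sum (N : ℕ) {δ : ℝ} (hδ : 0 < δ) (L : ℕ) :
    ∑ j ∈ range (L + 1), spH N δ j ≤ N + 1 / (2 * δ) * (1 + Real.log L) := by
  rw [sum_range_succ']
  have h0 : spH N δ 0 = N := by simp [spH]
  have h1 : ∑ j ∈ range L, spH N δ (j + 1) = 1 / (2 * δ) * (harmonic L : ℝ) := by
    unfold harmonic
    push_cast
    rw [mul_sum]
    refine sum_congr rfl fun j _ => ?_
    have : ((j : ℝ) + 1) ≠ 0 := by positivity
    simp only [spH, Nat.succ_ne_zero, if_false]
    push_cast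
    field_simp
  rw [h0, h1, add_comm]
  have h2 := harmonic_le_one_add_log L
  have h3 : 0 ≤ 1 / (2 * δ) := by positivity
  have := mul_le_mul_of_nonneg_left h2 h3
  linarith

theorem sp_trivial (N : ℕ) (x : ℝ) : ‖∑ n ∈ Icc 1 N, e (n * x)‖ ≤ N := by
  refine (norm_sum_le _ _).trans ?_
  simp [Pool.Agent.Var35.norm_e]

/-- each term is at most the majorant at its cell -/
theorem sp_term (N : ℕ) {δ : ℝ} (hδ : 0 < δ) (x : ℝ) :
    ‖∑ n ∈ Icc 1 N, e (n * x)‖ ≤ spH N δ ⌊|x - round x| / δ⌋₊ := by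
  unfold spH
  split_ifs with h
  · exact sp_trivial N x
  · have hj : (1 : ℕ) ≤ ⌊|x - round x| / δ⌋₊ := Nat.one_le_iff_ne_zero.mpr h
    have h1 : ((⌊|x - round x| / δ⌋₊ : ℕ) : ℝ) ≤ |x - round x| / δ :=
      Nat.floor_le (by positivity)
    have h2 : ((⌊|x - round x| / δ⌋₊ : ℕ) : ℝ) * δ ≤ |x - round x| := by
      rwa [le_div_iff₀ hδ] at h1
    have h3 : (0 : ℝ) < (⌊|x - round x| / δ⌋₊ : ℕ) := by exact_mod_cast hj
    have h4 : x ≠ round x := by
      intro h5
      rw [← sub_eq_zero] at h5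
      have h6 : |x - round x| = 0 := by rw [h5, abs_zero]
      have h7 := mul_pos h3 hδ
      linarith
    refine (geom_bound N x h4).trans ?_
    exact one_div_le_one_div_of_le (by positivity) (by linarith)

theorem sp_half (N : ℕ) {δ : ℝ} (hδ : 0 < δ) (S : Finset ℝ) (L : ℕ) (hL : L = ⌊1 / (2 * δ)⌋₊)
    (hinj : ∀ x ∈ S, ∀ y ∈ S, ⌊|x - round x| / δ⌋₊ = ⌊|y - round y| / δ⌋₊ → x = y) :
    ∑ x ∈ S, ‖∑ n ∈ Icc 1 N, e (n * x)‖ ≤ ∑ j ∈ range (L + 1), spH N δ j := by
  calc ∑ x ∈ S, ‖∑ n ∈ Icc 1 N, e (n * x)‖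
      ≤ ∑ x ∈ S, spH N δ ⌊|x - round x| / δ⌋₊ := sum_le_sum fun x _ => sp_term N hδ x
    _ = ∑ j ∈ S.image (fun x : ℝ => ⌊|x - round x| / δ⌋₊), spH N δ j := by
        rw [sum_image]
        intro x hx y hy h
        exact hinj x hx y hy h
    _ ≤ ∑ j ∈ range (L + 1), spH N δ j := by
        refine sum_le_sum_of_subset_of_nonneg ?_ fun j _ _ => sp_H_nonneg N hδ j
        intro j hj
        rw [mem_image] at hj
        obtain ⟨x, _, rfl⟩ := hj
        rw [mem_range, Nat.lt_succ_iff, hL]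
        refine Nat.floor_le_floor ?_
        have := abs_sub_round x
        rw [div_le_div_iff₀ hδ (by positivity)]
        nlinarith

/-- points of the same sign in the same cell coincide -/
theorem sp_inj {δ : ℝ} (hδ : 0 < δ) (S : Finset ℝ)
    (hS : ∀ x ∈ S, ∀ y ∈ S, x ≠ y → δ ≤ |x - y - round (x - y)|) (x y : ℝ) (hx : x ∈ S)
    (hy : y ∈ S) (hs : |(|x - round x|) - (|y - round y|)| = |(x - round x) - (y - round y)|)
    (h : ⌊|x - round x| / δ⌋₊ = ⌊|y - round y| / δ⌋₊) : x = y := by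
  by_contra hne
  have h1 := hS x hx y hy hne
  have h2 : |x - y - round (x - y)| ≤ |(x - round x) - (y - round y)| := by
    have := round_le (x - y) (round x - round y)
    refine this.trans (le_of_eq ?_)
    congr 1
    push_cast
    ring
  have a1 := Nat.floor_le (show 0 ≤ |x - round x| / δ by positivity)
  have a2 := Nat.lt_floor_add_one (|x - round x| / δ)
  have b1 := Nat.floor_le (show 0 ≤ |y - round y| / δ by positivity)
  have b2 := Nat.lt_floor_add_one (|y - round y| / δ)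
  rw [h] at a1 a2
  have h3 : |(|x - round x| / δ) - (|y - round y| / δ)| < 1 := by
    rw [abs_lt]; constructor <;> linarith
  rw [← sub_div, abs_div, abs_of_pos hδ, div_lt_one hδ, hs] at h3
  linarith

/-- SP : a family of points that are `δ`-separated modulo 1 -/
theorem spaced_sum (N : ℕ) (δ : ℝ) (hδ : 0 < δ) (hδ1 : δ ≤ 1) (S : Finset ℝ)
    (hS : ∀ x ∈ S, ∀ y ∈ S, x ≠ y → δ ≤ |x - y - round (x - y)|) :
    ∑ x ∈ S, ‖∑ n ∈ Icc 1 N, e (n * x)‖ ≤ 3 * N + 2 / δ * (1 + Real.log (1 / δ)) := by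
  classical
  set L : ℕ := ⌊1 / (2 * δ)⌋₊ with hL
  have hsplit := sum_filter_add_sum_filter_not S (fun x : ℝ => 0 ≤ x - round x)
    (fun x => ‖∑ n ∈ Icc 1 N, e (n * x)‖)
  have h1 := sp_half N hδ (S.filter (fun x : ℝ => 0 ≤ x - round x)) L hL (by
    intro x hx y hy h
    rw [mem_filter] at hx hy
    refine sp_inj hδ S hS x y hx.1 hy.1 ?_ h
    rw [abs_of_nonneg hx.2, abs_of_nonneg hy.2])
  have h2 := sp_half N hδ (S.filter (fun x : ℝ => ¬ 0 ≤ x - round x)) L hL (by
    intro x hx y hy h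
    rw [mem_filter] at hx hy
    refine sp_inj hδ S hS x y hx.1 hy.1 ?_ h
    rw [abs_of_neg (not_le.mp hx.2), abs_of_neg (not_le.mp hy.2), ← abs_neg]
    congr 1
    ring)
  have h3 := sp_H_sum N hδ L
  have hlog : Real.log L ≤ Real.log (1 / δ) := by
    rcases Nat.eq_zero_or_pos L with h0 | h0
    · rw [h0]
      simp only [CharP.cast_eq_zero, Real.log_zero]
      exact Real.log_nonneg (by rw [le_div_iff₀ hδ]; linarith)
    · refine Real.log_le_log (by exact_mod_cast h0) ?_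
      refine (Nat.floor_le (by positivity)).trans ?_
      rw [div_le_div_iff₀ (by positivity) hδ]
      nlinarith
  have h0log : 0 ≤ Real.log (1 / δ) := Real.log_nonneg (by rw [le_div_iff₀ hδ]; linarith)
  have h4 : 1 / (2 * δ) * (1 + Real.log L) ≤ 1 / δ * (1 + Real.log (1 / δ)) := by
    refine mul_le_mul ?_ (by linarith) ?_ (by positivity)
    · rw [div_le_div_iff₀ (by positivity) hδ]
      nlinarith
    · have : (0 : ℝ) ≤ Real.log L := Real.log_natCast_nonneg L
      linarith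
  have h5 : 2 / δ * (1 + Real.log (1 / δ)) = 2 * (1 / δ * (1 + Real.log (1 / δ))) := by ring
  have hN : (0 : ℝ) ≤ N := Nat.cast_nonneg N
  rw [← hsplit, h5]
  linarith

end Pool.Agent.FG61
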