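import Pool.Agent.Lib_helper61.FG.Defs
import Pool.Agent.Lib_helper61.FG.P.CE
import Pool.Agent.Lib_helper61.FG.P.GB
import Pool.Agent.Lib_helper61.FG.P.SP

/-!
# The exponential sum of the tail of the Ramanujan expansion (block SU)
-/

set_option autoImplicit false

namespace Pool.Agent.FG61

open Finset Filter Topology
open Pool.Agent.Var35 (e)

/-- distinct reduced fractions with denominators at most `2 P` are separated modulo 1 -/
theorem su_sep {P r r' a a' : ℕ} (hr : 0 < r) (hr' : 0 < r') (hrP : r ≤ 2 * P)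
    (hrP' : r' ≤ 2 * P) (ha : a < r) (ha' : a' < r') (hne : (a : ℝ) / r ≠ a' / r') (m : ℤ) :
    1 / (4 * (P : ℝ) ^ 2) ≤ |(a : ℝ) / r - a' / r' - m| := by
  have hr0 : (0 : ℝ) < r := by exact_mod_cast hr
  have hr0' : (0 : ℝ) < r' := by exact_mod_cast hr'
  have hP : (r : ℝ) ≤ 2 * P := by exact_mod_cast hrP
  have hP' : (r' : ℝ) ≤ 2 * P := by exact_mod_cast hrP'
  have hA : (a : ℝ) / r < 1 := by rw [div_lt_one hr0]; exact_mod_cast ha
  have hA' : (a' : ℝ) / r' < 1 := by rw [div_lt_one hr0']; exact_mod_cast ha'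
  have hA0 : (0 : ℝ) ≤ (a : ℝ) / r := by positivity
  have hA0' : (0 : ℝ) ≤ (a' : ℝ) / r' := by positivity
  have heq : (a : ℝ) / r - a' / r' - m =
      (((a : ℤ) * r' - a' * r - m * r * r' : ℤ) : ℝ) / (r * r') := by
    push_cast
    field_simp
  by_cases hz : ((a : ℤ) * r' - a' * r - m * r * r' : ℤ) = 0
  · exfalso
    rw [hz, Int.cast_zero, zero_div] at heq
    have h1 : (m : ℝ) = (a : ℝ) / r - a' / r' := by linarith
    have h2 : (m : ℝ) < 1 := by rw [h1]; linarith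
    have h3 : (-1 : ℝ) < m := by rw [h1]; linarith
    have h4 : m < 1 := by exact_mod_cast h2
    have h5 : -1 < m := by exact_mod_cast h3
    have h6 : m = 0 := by omega
    rw [h6, Int.cast_zero] at h1
    exact hne (by linarith)
  · rw [heq, abs_div, abs_of_pos (mul_pos hr0 hr0'), ← Int.cast_abs]
    have h1 : (1 : ℝ) ≤ ((|(a : ℤ) * r' - a' * r - m * r * r'| : ℤ) : ℝ) := by
      exact_mod_cast Int.one_le_abs hz
    have h2 : (r : ℝ) * r' ≤ 4 * (P : ℝ) ^ 2 := by nlinarith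
    calc 1 / (4 * (P : ℝ) ^ 2) ≤ 1 / (r * r') :=
          one_div_le_one_div_of_le (mul_pos hr0 hr0') h2
      _ ≤ _ := div_le_div_of_nonneg_right h1 (mul_pos hr0 hr0').le

theorem su_inj {r r' a a' : ℕ} (hr : 0 < r) (hr' : 0 < r') (hc : Nat.Coprime a r)
    (hc' : Nat.Coprime a' r') (h : (a : ℝ) / r = a' / r') : r = r' ∧ a = a' := by
  have hr0 : (r : ℝ) ≠ 0 := by exact_mod_cast hr.ne'
  have hr0' : (r' : ℝ) ≠ 0 := by exact_mod_cast hr'.ne'
  rw [div_eq_div_iff hr0 hr0'] at h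
  have h1 : a * r' = a' * r := by exact_mod_cast h
  have h2 : r ∣ r' := by
    have : r ∣ a * r' := by rw [h1]; exact dvd_mul_left _ _
    exact hc.symm.dvd_of_dvd_mul_left this
  have h3 : r' ∣ r := by
    have : r' ∣ a' * r := by rw [← h1]; exact dvd_mul_left _ _
    exact hc'.symm.dvd_of_dvd_mul_left this
  have h4 := Nat.dvd_antisymm h2 h3
  refine ⟨h4, ?_⟩
  subst h4
  exact Nat.eq_of_mul_eq_mul_right hr h1

/-- the sum over one dyadic block of denominators -/
theorem su_block (N P : ℕ) (hP : 1 ≤ P) (B : Finset ℕ) (hB : ∀ r ∈ B, P < r ∧ r ≤ 2 * P) (α : ℝ) :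
    ∑ r ∈ B, ∑ a ∈ (range r).filter (fun a => Nat.Coprime a r),
      ‖∑ n ∈ Icc 1 N, e (n * ((a : ℝ) / r + α))‖ ≤
        3 * N + 8 * (P : ℝ) ^ 2 * (1 + Real.log (4 * (P : ℝ) ^ 2)) := by
  classical
  set T : Finset (Σ _ : ℕ, ℕ) := B.sigma (fun r => (range r).filter (fun a => Nat.Coprime a r))
    with hT
  set f : (Σ _ : ℕ, ℕ) → ℝ := fun x => (x.2 : ℝ) / x.1 + α with hf
  have hmem : ∀ x ∈ T, 0 < x.1 ∧ x.1 ≤ 2 * P ∧ x.2 < x.1 ∧ Nat.Coprime x.2 x.1 := by
    intro x hx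
    rw [hT, mem_sigma, mem_filter, mem_range] at hx
    obtain ⟨h1, h2, h3⟩ := hx
    obtain ⟨h4, h5⟩ := hB _ h1
    exact ⟨by omega, h5, h2, h3⟩
  have hinj : Set.InjOn f T := by
    intro x hx y hy h
    obtain ⟨x1, x2, x3, x4⟩ := hmem x hx
    obtain ⟨y1, y2, y3, y4⟩ := hmem y hy
    simp only [hf, add_left_inj] at h
    obtain ⟨h1, h2⟩ := su_inj x1 y1 x4 y4 h
    rcases x with ⟨xr, xa⟩
    rcases y with ⟨yr, ya⟩
    simp only at h1 h2
    subst h1 h2
    rfl
  have hPr : (1 : ℝ) ≤ P := by exact_mod_cast hP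
  have hδ : (0 : ℝ) < 1 / (4 * (P : ℝ) ^ 2) := by positivity
  have hδ1 : 1 / (4 * (P : ℝ) ^ 2) ≤ 1 := by
    rw [div_le_one (by positivity)]
    nlinarith
  have h := spaced_sum N (1 / (4 * (P : ℝ) ^ 2)) hδ hδ1 (T.image f) (by
    intro x hx y hy hxy
    rw [mem_image] at hx hy
    obtain ⟨u, hu, rfl⟩ := hx
    obtain ⟨v, hv, rfl⟩ := hy
    obtain ⟨x1, x2, x3, x4⟩ := hmem u hu
    obtain ⟨y1, y2, y3, y4⟩ := hmem v hv
    have hne : (u.2 : ℝ) / u.1 ≠ v.2 / v.1 := by
      intro h2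
      exact hxy (by simp only [hf, h2])
    have hs := su_sep x1 y1 x2 y2 x3 y3 hne (round (f u - f v))
    have : f u - f v = (u.2 : ℝ) / u.1 - v.2 / v.1 := by simp only [hf]; ring
    rw [this] at hs ⊢
    exact hs)
  rw [sum_image hinj] at h
  have hsum : ∑ r ∈ B, ∑ a ∈ (range r).filter (fun a => Nat.Coprime a r),
      ‖∑ n ∈ Icc 1 N, e (n * ((a : ℝ) / r + α))‖ = ∑ x ∈ T, ‖∑ n ∈ Icc 1 N, e (n * f x)‖ := by
    rw [hT, sum_sigma]
  rw [hsum]
  refine h.trans (le_of_eq ?_)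
  rw [one_div_one_div]
  field_simp
  ring

/-- the exponential sum in terms of fractions -/
theorem su_expand (N K R : ℕ) (α : ℝ) :
    ∑ n ∈ Icc 1 N, ((bb K R n : ℝ) : ℂ) * e (n * α) =
      ∑ r ∈ Ioc K R, (gam R r : ℂ) * ∑ a ∈ (range r).filter (fun a => Nat.Coprime a r),
        ∑ n ∈ Icc 1 N, e (n * ((a : ℝ) / r + α)) := by
  unfold bb
  have h1 : ∀ n ∈ Icc 1 N, ((∑ r ∈ Ioc K R, gam R r * cc r n : ℝ) : ℂ) * e (n * α) =
      ∑ r ∈ Ioc K R, ∑ a ∈ (range r).filter (fun a => Nat.Coprime a r),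
        (gam R r : ℂ) * e (n * ((a : ℝ) / r + α)) := by
    intro n _
    rw [Complex.ofReal_sum, sum_mul]
    refine sum_congr rfl fun r hr => ?_
    rw [Finset.mem_Ioc] at hr
    rw [Complex.ofReal_mul, cc_exp r n (by omega), mul_sum, sum_mul]
    refine sum_congr rfl fun a _ => ?_
    rw [mul_assoc, ← Pool.Agent.Var35.e_add]
    congr 2
    ring
  rw [sum_congr rfl h1, sum_comm]
  refine sum_congr rfl fun r _ => ?_
  rw [sum_comm, mul_sum]
  refine sum_congr rfl fun a _ => ?_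
  rw [mul_sum]

theorem su_norm (N K R : ℕ) (hR : 1 ≤ R) (α : ℝ) :
    ‖∑ n ∈ Icc 1 N, ((bb K R n : ℝ) : ℂ) * e (n * α)‖ ≤
      ∑ r ∈ Ioc K R, (1 + Real.log R) ^ 2 / r *
        ∑ a ∈ (range r).filter (fun a => Nat.Coprime a r),
          ‖∑ n ∈ Icc 1 N, e (n * ((a : ℝ) / r + α))‖ := by
  rw [su_expand]
  refine (norm_sum_le _ _).trans (sum_le_sum fun r hr => ?_)
  rw [Finset.mem_Ioc] at hr
  rw [norm_mul, Complex.norm_real, Real.norm_eq_abs]
  exact mul_le_mul (gam_le R r hR (by omega)) (norm_sum_le _ _) (norm_nonneg _) (by positivity)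

theorem su_biUnion {f : ℕ → ℝ} (hf : ∀ r, 0 ≤ f r) (s : Finset ℕ) (t : ℕ → Finset ℕ) :
    ∑ r ∈ s.biUnion t, f r ≤ ∑ i ∈ s, ∑ r ∈ t i, f r := by
  classical
  induction s using Finset.induction_on with
  | empty => simp
  | insert a s ha ih =>
    rw [biUnion_insert, sum_insert ha]
    have h1 := sum_union_inter (s₁ := t a) (s₂ := s.biUnion t) (f := f)
    have h2 : 0 ≤ ∑ r ∈ t a ∩ s.biUnion t, f r := sum_nonneg fun r _ => hf r
    linarith

/-- SU -/
theorem sup_bb : ∃ C : ℝ, 0 ≤ C ∧ ∀ N K R : ℕ, 1 ≤ K → K ≤ R → R ≤ N → ∀ α : ℝ,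
    ‖∑ n ∈ Icc 1 N, ((bb K R n : ℝ) : ℂ) * e (n * α)‖
      ≤ C * ((N : ℝ) / K + R) * (1 + Real.log N) ^ 5 := by
  classical
  refine ⟨96, by norm_num, fun N K R hK hKR hRN α => ?_⟩
  have hR1 : 1 ≤ R := by omega
  have hN1 : 1 ≤ N := by omega
  have hKr : (1 : ℝ) ≤ K := by exact_mod_cast hK
  have hRr : (1 : ℝ) ≤ R := by exact_mod_cast hR1
  have hNr : (1 : ℝ) ≤ N := by exact_mod_cast hN1
  have hRNr : (R : ℝ) ≤ N := by exact_mod_cast hRN
  set L : ℝ := 1 + Real.log N with hL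
  have hL1 : 1 ≤ L := by
    have := Real.log_nonneg hNr
    linarith
  have hLR : 1 + Real.log R ≤ L := by
    have := Real.log_le_log (by linarith) hRNr
    linarith
  have hLR0 : 0 ≤ 1 + Real.log R := by
    have := Real.log_nonneg hRr
    linarith
  set g : ℕ → ℝ := fun r => ∑ a ∈ (range r).filter (fun a => Nat.Coprime a r),
    ‖∑ n ∈ Icc 1 N, e (n * ((a : ℝ) / r + α))‖ with hg
  have hg0 : ∀ r, 0 ≤ g r := fun r => sum_nonneg fun a _ => norm_nonneg _
  -- the dyadic blocks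
  set I : ℕ := Nat.log 2 R + 1 with hI
  set Bl : ℕ → Finset ℕ := fun i => (Ioc K R).filter (fun r => K * 2 ^ i < r ∧ r ≤ 2 * (K * 2 ^ i))
    with hBl
  have hcover : Ioc K R ⊆ (range I).biUnion Bl := by
    intro r hr
    have hr' := hr
    rw [Finset.mem_Ioc] at hr'
    obtain ⟨hr1, hr2⟩ := hr'
    -- the largest i with K * 2 ^ i < r
    have hex : ∃ i, r ≤ K * 2 ^ i := by
      refine ⟨r, ?_⟩
      have := Nat.lt_two_pow_self (n := r)
      nlinarith
    obtain ⟨hj1, hj2⟩ := And.intro (Nat.find_spec hex) (fun i hi => Nat.find_min hex (m := i) hi)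
    set j := Nat.find hex with hj
    have hj0 : j ≠ 0 := by
      intro h0
      rw [h0] at hj1
      simp at hj1
      omega
    obtain ⟨i, hi⟩ := Nat.exists_eq_succ_of_ne_zero hj0
    have hlt := hj2 i (by omega)
    rw [hi, Nat.succ_eq_add_one, pow_succ] at hj1
    push Not at hlt
    rw [mem_biUnion]
    refine ⟨i, ?_, ?_⟩
    · rw [mem_range, hI, Nat.lt_succ_iff]
      refine Nat.le_log_of_pow_le (by norm_num) ?_
      nlinarith [Nat.one_le_two_pow (n := i)]
    · rw [hBl, mem_filter]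
      exact ⟨hr, hlt, by linarith⟩
  have hIle : (I : ℝ) ≤ 4 * L := by
    have h1 : ((Nat.log 2 R : ℕ) : ℝ) ≤ Real.logb 2 R := by
      exact Real.natLog_le_logb R 2
    have h2 : Real.logb 2 R ≤ 2 * Real.log R := by
      rw [Real.logb, div_le_iff₀ (Real.log_pos one_lt_two)]
      have h3 := Real.log_two_gt_d9
      have h4 := Real.log_nonneg hRr
      nlinarith
    rw [hI]
    push_cast
    linarith
  -- the bound of one block
  have hblock : ∀ i ∈ range I, ∑ r ∈ Bl i, (1 + Real.log R) ^ 2 / r * g r ≤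
      24 * ((N : ℝ) / K + R) * L ^ 3 := by
    intro i _
    rcases (Bl i).eq_empty_or_nonempty with he | ⟨r₀, hr₀⟩
    · rw [he, sum_empty]
      positivity
    · set P : ℕ := K * 2 ^ i with hP
      have hPR : P < R := by
        rw [hBl, mem_filter, Finset.mem_Ioc] at hr₀
        omega
      have hP1 : K ≤ P := by
        rw [hP]; nlinarith [Nat.one_le_two_pow (n := i)]
      have hPr : (K : ℝ) ≤ P := by exact_mod_cast hP1
      have hP0 : (0 : ℝ) < P := by linarith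
      have hPRr : (P : ℝ) ≤ R := by exact_mod_cast hPR.le
      have hb := su_block N P (by omega) (Bl i) (fun r hr => by
        rw [hBl, mem_filter] at hr
        exact hr.2) α
      have hb' : ∑ r ∈ Bl i, g r ≤ 3 * N + 8 * (P : ℝ) ^ 2 * (1 + Real.log (4 * (P : ℝ) ^ 2)) := hb
      have hlog : 1 + Real.log (4 * (P : ℝ) ^ 2) ≤ 3 * L := by
        rw [Real.log_mul (by norm_num) (by positivity), Real.log_pow]
        have h1 : Real.log 4 ≤ 2 := by
          have : (4 : ℝ) = 2 ^ 2 := by norm_num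
          rw [this, Real.log_pow]
          have := Real.log_two_lt_d9
          push_cast
          linarith
        have h2 : Real.log P ≤ Real.log N := Real.log_le_log hP0 (hPRr.trans hRNr)
        push_cast
        linarith [Real.log_nonneg hNr]
      calc ∑ r ∈ Bl i, (1 + Real.log R) ^ 2 / r * g r
          ≤ ∑ r ∈ Bl i, L ^ 2 / P * g r := by
            refine sum_le_sum fun r hr => ?_
            rw [hBl, mem_filter] at hr
            refine mul_le_mul_of_nonneg_right ?_ (hg0 r)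
            refine div_le_div₀ (by positivity) ?_ hP0 ?_
            · exact pow_le_pow_left₀ hLR0 hLR 2
            · exact_mod_cast hr.2.1.le
        _ = L ^ 2 / P * ∑ r ∈ Bl i, g r := by rw [mul_sum]
        _ ≤ L ^ 2 / P * (3 * N + 8 * (P : ℝ) ^ 2 * (3 * L)) := by
            refine mul_le_mul_of_nonneg_left ?_ (by positivity)
            refine hb'.trans ?_
            gcongr
        _ = 3 * (N / P) * L ^ 2 + 24 * P * L ^ 3 := by
            field_simp
            ring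
        _ ≤ 24 * (N / K) * L ^ 3 + 24 * R * L ^ 3 := by
            have h1 : (N : ℝ) / P ≤ N / K := div_le_div_of_nonneg_left (by linarith) (by linarith) hPr
            have h2 : L ^ 2 ≤ L ^ 3 := pow_le_pow_right₀ hL1 (by norm_num)
            have h3 : (0 : ℝ) ≤ N / K := by positivity
            have h4 : (0 : ℝ) ≤ N / P := by positivity
            have h5 : 3 * ((N : ℝ) / P) * L ^ 2 ≤ 24 * (N / K) * L ^ 3 := by
              refine mul_le_mul (by linarith) h2 (by positivity) (by positivity)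
            have h6 : 24 * (P : ℝ) * L ^ 3 ≤ 24 * R * L ^ 3 := by gcongr
            linarith
        _ = _ := by ring
  calc ‖∑ n ∈ Icc 1 N, ((bb K R n : ℝ) : ℂ) * e (n * α)‖
      ≤ ∑ r ∈ Ioc K R, (1 + Real.log R) ^ 2 / r * g r := su_norm N K R hR1 α
    _ ≤ ∑ r ∈ (range I).biUnion Bl, (1 + Real.log R) ^ 2 / r * g r :=
        sum_le_sum_of_subset_of_nonneg hcover fun r _ _ =>
          mul_nonneg (by positivity) (hg0 r)
    _ ≤ ∑ i ∈ range I, ∑ r ∈ Bl i, (1 + Real.log R) ^ 2 / r * g r :=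
        su_biUnion (fun r => mul_nonneg (by positivity) (hg0 r)) _ _
    _ ≤ ∑ i ∈ range I, 24 * ((N : ℝ) / K + R) * L ^ 3 := sum_le_sum hblock
    _ = I * (24 * ((N : ℝ) / K + R) * L ^ 3) := by rw [sum_const, card_range, nsmul_eq_mul]
    _ ≤ (4 * L) * (24 * ((N : ℝ) / K + R) * L ^ 3) := by gcongr
    _ = 96 * ((N : ℝ) / K + R) * L ^ 4 := by ring
    _ ≤ 96 * ((N : ℝ) / K + R) * L ^ 5 := by
        refine mul_le_mul_of_nonneg_left (pow_le_pow_right₀ hL1 (by norm_num)) (by positivity)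

end Pool.Agent.FG61
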