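import Pool.Agent.Lib_helper61.FG.P.MainC

set_option autoImplicit false

namespace Pool.Agent.FG61

open Finset

/-- from dyadic blocks to initial segments -/
lemma cum_of_dyadic (P : ℕ → Prop) [DecidablePred P] (X V : ℝ) (hV : 0 < V)
    (h : ∀ Y : ℝ, 0 ≤ Y → Y ≤ X →
      (((Ioc ⌊Y⌋₊ ⌊2 * Y⌋₊).filter P).card : ℝ) ≤ Y / V) (k : ℕ) :
    ∀ Y : ℝ, 0 ≤ Y → Y ≤ 2 * X → Y < 2 ^ k → (((Icc 1 ⌊Y⌋₊).filter P).card : ℝ) ≤ Y / V := by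
  induction k with
  | zero =>
    intro Y hY _ hY1
    have h1 : ⌊Y⌋₊ = 0 := Nat.floor_eq_zero.2 (by simpa using hY1)
    rw [h1]
    simp only [Icc_eq_empty (by norm_num : ¬ (1:ℕ) ≤ 0), filter_empty, card_empty, Nat.cast_zero]
    positivity
  | succ k ih =>
    intro Y hY hYX hYk
    have h1 := ih (Y / 2) (by positivity) (by linarith) (by rw [pow_succ] at hYk; linarith)
    have h2 := h (Y / 2) (by positivity) (by linarith)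
    have h3 : 2 * (Y / 2) = Y := by ring
    rw [h3] at h2
    have hle : ⌊Y / 2⌋₊ ≤ ⌊Y⌋₊ := Nat.floor_mono (by linarith)
    have h4 : (Icc 1 ⌊Y⌋₊).filter P ⊆ (Icc 1 ⌊Y / 2⌋₊).filter P ∪ (Ioc ⌊Y / 2⌋₊ ⌊Y⌋₊).filter P := by
      intro Q hQ
      rw [mem_filter, mem_Icc] at hQ
      rw [mem_union, mem_filter, mem_filter, mem_Icc, mem_Ioc]
      by_cases hc : Q ≤ ⌊Y / 2⌋₊
      · exact Or.inl ⟨⟨hQ.1.1, hc⟩, hQ.2⟩
      · exact Or.inr ⟨⟨by omega, hQ.1.2⟩, hQ.2⟩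
    calc (((Icc 1 ⌊Y⌋₊).filter P).card : ℝ)
        ≤ (((Icc 1 ⌊Y / 2⌋₊).filter P ∪ (Ioc ⌊Y / 2⌋₊ ⌊Y⌋₊).filter P).card : ℝ) := by
          exact_mod_cast Finset.card_le_card h4
      _ ≤ (((Icc 1 ⌊Y / 2⌋₊).filter P).card : ℝ) + (((Ioc ⌊Y / 2⌋₊ ⌊Y⌋₊).filter P).card : ℝ) := by
          exact_mod_cast Finset.card_union_le _ _
      _ ≤ Y / 2 / V + Y / 2 / V := add_le_add h1 h2
      _ = Y / V := by field_simp; ring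

theorem main_cum (ε : ℝ) (hε : 0 < ε) : ∃ X₀ : ℝ, ∀ X : ℝ, X₀ ≤ X → ∀ Y V : ℝ,
    0 ≤ Y → Y ≤ 2 * X → 1 ≤ V →
    (((Icc 1 ⌊Y⌋₊).filter (fun Q : ℕ => GX X Q <
      X * (2 * Real.log Q - Real.log X - Real.log V - ε * Real.log X))).card : ℝ) ≤ Y / V := by
  obtain ⟨X₀, hX₀⟩ := main_thm ε hε
  refine ⟨X₀, fun X hX Y V hY hYX hV => ?_⟩
  obtain ⟨k, hk⟩ := pow_unbounded_of_one_lt Y (by norm_num : (1:ℝ) < 2)
  exact cum_of_dyadic _ X V (by linarith) (fun Z hZ hZX => hX₀ X hX Z V hZ hZX hV) k Y hY hYX hk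

end Pool.Agent.FG61
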