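import Pool.Agent.Lib_helper61.FG.Defs
import Pool.Agent.Lib_helper35.Var.Elem

set_option autoImplicit false

namespace Pool.Agent.FG61

open Finset Filter Topology
open Pool.Agent.Var35 (e)

/-- additive characters detect divisibility -/
theorem cs_roots (d : ℕ) (hd : 1 ≤ d) (m : ℕ) :
    ∑ a ∈ range d, e (m * ((a : ℝ) / d)) = if d ∣ m then (d : ℂ) else 0 := by
  have hd0 : (d : ℝ) ≠ 0 := by
    have : 0 < d := hd
    positivity
  have h1 : ∀ a ∈ range d, e (m * ((a : ℝ) / d)) = (e ((m : ℝ) / d)) ^ a := by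
    intro a _
    rw [← Pool.Agent.Var35.e_nat_mul]
    congr 1
    ring
  rw [Finset.sum_congr rfl h1]
  split_ifs with hdm
  · obtain ⟨c, rfl⟩ := hdm
    have h2 : ((d * c : ℕ) : ℝ) / d = (c : ℝ) := by
      push_cast
      field_simp
    rw [h2, Pool.Agent.Var35.e_nat]
    simp
  · have h3 : e ((m : ℝ) / d) ≠ 1 := by
      intro h
      unfold Pool.Agent.Var35.e at h
      rw [Complex.exp_eq_one_iff] at h
      obtain ⟨n, hn⟩ := h
      apply hdm
      have h4 : ((2 * Real.pi * ((m : ℝ) / d) : ℝ) : ℂ) = ((n * (2 * Real.pi) : ℝ) : ℂ) := by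
        have hI : Complex.I ≠ 0 := Complex.I_ne_zero
        apply mul_right_cancel₀ hI
        rw [hn]
        push_cast
        ring
      have h5 : 2 * Real.pi * ((m : ℝ) / d) = n * (2 * Real.pi) := by exact_mod_cast h4
      have h6 : (m : ℝ) / d = n := by
        have hpi : (2 * Real.pi) ≠ 0 := by positivity
        apply mul_left_cancel₀ hpi
        rw [h5]; ring
      have h7 : (m : ℝ) = n * d := by
        rw [← h6]
        field_simp
      have h8 : (m : ℤ) = n * d := by exact_mod_cast h7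
      exact Int.natCast_dvd_natCast.mp ⟨n, by rw [h8]; ring⟩
    rw [geom_sum_eq h3]
    have h9 : e ((m : ℝ) / d) ^ d = 1 := by
      rw [← Pool.Agent.Var35.e_nat_mul]
      have : (d : ℝ) * ((m : ℝ) / d) = (m : ℝ) := by field_simp
      rw [this, Pool.Agent.Var35.e_nat]
    rw [h9]
    simp

/-- sums over multiples of `d` -/
theorem cs_mult (N d : ℕ) (hd : 1 ≤ d) (b : ℕ → ℝ) (lam : ℝ)
    (hb : ∀ α : ℝ, ‖∑ n ∈ Icc 1 N, ((b n : ℝ) : ℂ) * e (n * α)‖ ≤ lam) :
    |∑ m ∈ (Icc 1 N).filter (fun m => d ∣ m), b m| ≤ lam := by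
  have hd0 : (0 : ℝ) < d := by
    have : 0 < d := hd
    positivity
  have h1 : (d : ℂ) * ((∑ m ∈ (Icc 1 N).filter (fun m => d ∣ m), b m : ℝ) : ℂ)
      = ∑ a ∈ range d, ∑ m ∈ Icc 1 N, ((b m : ℝ) : ℂ) * e (m * ((a : ℝ) / d)) := by
    rw [Finset.sum_comm, Complex.ofReal_sum, Finset.mul_sum, Finset.sum_filter]
    refine Finset.sum_congr rfl fun m _ => ?_
    rw [← Finset.mul_sum, cs_roots d hd m]
    split_ifs <;> ring
  have h2 : (d : ℝ) * |∑ m ∈ (Icc 1 N).filter (fun m => d ∣ m), b m| ≤ d * lam := by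
    have h3 : ‖(d : ℂ) * ((∑ m ∈ (Icc 1 N).filter (fun m => d ∣ m), b m : ℝ) : ℂ)‖
        = (d : ℝ) * |∑ m ∈ (Icc 1 N).filter (fun m => d ∣ m), b m| := by
      rw [norm_mul, Complex.norm_real, Real.norm_eq_abs, Complex.norm_natCast]
    rw [← h3, h1]
    refine (norm_sum_le _ _).trans ?_
    calc ∑ a ∈ range d, ‖∑ m ∈ Icc 1 N, ((b m : ℝ) : ℂ) * e (m * ((a : ℝ) / d))‖
        ≤ ∑ a ∈ range d, lam := Finset.sum_le_sum fun a _ => hb _
      _ = d * lam := by simp
  exact le_of_mul_le_mul_left h2 hd0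

/-- CS -/
theorem cop_sum (N Q : ℕ) (hQ : 1 ≤ Q) (b : ℕ → ℝ) (lam : ℝ)
    (hb : ∀ α : ℝ, ‖∑ n ∈ Icc 1 N, ((b n : ℝ) : ℂ) * e (n * α)‖ ≤ lam) :
    |∑ m ∈ (Icc 1 N).filter (fun m => Nat.Coprime m Q), b m| ≤ (Q.divisors.card : ℝ) * lam := by
  have hlam : 0 ≤ lam := (norm_nonneg _).trans (hb 0)
  have hcop : ∀ a : ℕ, (if Nat.Coprime a Q then (1:ℝ) else 0)
      = ∑ d ∈ Q.divisors, (if d ∣ a then mu d else 0) := by
    intro a
    have h := Pool.Agent.Var35.coprime_indicator a Q hQ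
    have h2 : (((if Nat.Coprime a Q then (1:ℝ) else 0) : ℝ) : ℂ)
        = ((∑ d ∈ Q.divisors, (if d ∣ a then mu d else 0) : ℝ) : ℂ) := by
      rw [Complex.ofReal_sum]
      have h3 : (((if Nat.Coprime a Q then (1:ℝ) else 0) : ℝ) : ℂ)
        = (if Nat.Coprime a Q then (1:ℂ) else 0) := by split_ifs <;> simp
      rw [h3, h]
      refine Finset.sum_congr rfl fun d _ => ?_
      split_ifs <;> simp [mu]
    exact_mod_cast h2
  have h1 : ∑ m ∈ (Icc 1 N).filter (fun m => Nat.Coprime m Q), b m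
      = ∑ d ∈ Q.divisors, mu d * ∑ m ∈ (Icc 1 N).filter (fun m => d ∣ m), b m := by
    rw [Finset.sum_filter]
    have h2 : ∀ m ∈ Icc 1 N, (if Nat.Coprime m Q then b m else 0)
        = ∑ d ∈ Q.divisors, (if d ∣ m then mu d * b m else 0) := by
      intro m _
      have h3 : (if Nat.Coprime m Q then b m else 0) = (if Nat.Coprime m Q then (1:ℝ) else 0) * b m := by
        split_ifs <;> simp
      rw [h3, hcop m, Finset.sum_mul]
      refine Finset.sum_congr rfl fun d _ => ?_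
      split_ifs <;> simp
    rw [Finset.sum_congr rfl h2, Finset.sum_comm]
    refine Finset.sum_congr rfl fun d _ => ?_
    rw [Finset.mul_sum, Finset.sum_filter]
  rw [h1]
  refine (Finset.abs_sum_le_sum_abs _ _).trans ?_
  calc ∑ d ∈ Q.divisors, |mu d * ∑ m ∈ (Icc 1 N).filter (fun m => d ∣ m), b m|
      ≤ ∑ d ∈ Q.divisors, lam := by
        refine Finset.sum_le_sum fun d hd => ?_
        rw [abs_mul]
        have h4 : |mu d| ≤ 1 := by
          have := ArithmeticFunction.abs_moebius_le_one (n := d)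
          unfold mu
          exact_mod_cast this
        have h5 := cs_mult N d (Nat.pos_of_mem_divisors hd) b lam hb
        calc |mu d| * |∑ m ∈ (Icc 1 N).filter (fun m => d ∣ m), b m| ≤ 1 * lam :=
              mul_le_mul h4 h5 (abs_nonneg _) zero_le_one
          _ = lam := one_mul _
    _ = (Q.divisors.card : ℝ) * lam := by simp

end Pool.Agent.FG61
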