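import Pool.Agent.Lib_helper61.FG.Defs
import Pool.Agent.Lib_helper61.FG.P.GB

/-! FG, block IL -/

set_option autoImplicit false

namespace Pool.Agent.FG61

open Finset Filter Topology
open Pool.Agent.Var35 (e)

theorem IL_sigma_le (r : ℕ) (hr : 1 ≤ r) :
    ∑ t ∈ r.divisors, (t : ℝ) ≤ r * (1 + Real.log r) := by
  rw [← Nat.sum_div_divisors r (fun t => (t : ℝ))]
  have h1 : ∀ t ∈ r.divisors, ((r / t : ℕ) : ℝ) ≤ r * (1 / (t : ℝ)) := by
    intro t _
    rw [mul_one_div]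
    exact Nat.cast_div_le
  refine (Finset.sum_le_sum h1).trans ?_
  rw [← Finset.mul_sum]
  refine mul_le_mul_of_nonneg_left ?_ (by positivity)
  have h2 : ∑ t ∈ r.divisors, 1 / (t : ℝ) ≤ ∑ t ∈ Icc 1 r, 1 / (t : ℝ) := by
    refine Finset.sum_le_sum_of_subset_of_nonneg ?_ fun _ _ _ => by positivity
    intro t ht
    rw [Nat.mem_divisors] at ht
    rw [mem_Icc]
    exact ⟨Nat.pos_of_dvd_of_pos ht.1 hr, Nat.le_of_dvd hr ht.1⟩
  refine h2.trans ?_
  have h3 := harmonic_le_one_add_log r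
  rw [harmonic_eq_sum_Icc] at h3
  push_cast at h3
  simpa [one_div] using h3

theorem IL_pp (N p : ℕ) (hN : 1 ≤ N) (hp : p.Prime) :
    ∑ n ∈ (Icc 1 N).filter (fun n => p ∣ n), Lam n ≤ Real.log N := by
  have hinj : Set.InjOn (fun j => p ^ j) (Icc 1 (Nat.log p N) : Set ℕ) := by
    intro a _ b _ h
    exact Nat.pow_right_injective hp.two_le h
  have h1 : ∑ n ∈ (Icc 1 N).filter (fun n => p ∣ n), Lam n ≤
      ∑ n ∈ (Icc 1 (Nat.log p N)).image (fun j => p ^ j), Lam n := by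
    rw [← Finset.sum_filter_ne_zero]
    refine Finset.sum_le_sum_of_subset_of_nonneg ?_ fun _ _ _ => ArithmeticFunction.vonMangoldt_nonneg
    intro n hn
    simp only [mem_filter, mem_Icc, Lam] at hn
    obtain ⟨⟨⟨h1, h2⟩, h3⟩, h4⟩ := hn
    rw [ArithmeticFunction.vonMangoldt_ne_zero_iff] at h4
    obtain ⟨q, k, hq, hk, rfl⟩ := h4
    have hqp : p = q := by
      have h5 := hp.dvd_of_dvd_pow h3
      exact (Nat.prime_dvd_prime_iff_eq hp hq.nat_prime).1 h5
    subst hqp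
    rw [mem_image]
    exact ⟨k, mem_Icc.2 ⟨hk, Nat.le_log_of_pow_le hp.one_lt h2⟩, rfl⟩
  refine h1.trans ?_
  rw [Finset.sum_image hinj]
  have h2 : ∀ j ∈ Icc 1 (Nat.log p N), Lam (p ^ j) = Real.log p := by
    intro j hj
    rw [mem_Icc] at hj
    rw [Lam, ArithmeticFunction.vonMangoldt_apply_pow (by omega),
      ArithmeticFunction.vonMangoldt_apply_prime hp]
  rw [Finset.sum_congr rfl h2, Finset.sum_const, Nat.card_Icc, nsmul_eq_mul]
  simp only [add_tsub_cancel_right]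
  rw [← Real.log_pow]
  refine Real.log_le_log (by have := hp.pos; positivity) ?_
  exact_mod_cast Nat.pow_log_le_self p (by omega)

theorem IL_dvd (N d : ℕ) (hN : 1 ≤ N) (hd : d ≠ 1) :
    0 ≤ ∑ n ∈ (Icc 1 N).filter (fun n => d ∣ n), Lam n ∧
    ∑ n ∈ (Icc 1 N).filter (fun n => d ∣ n), Lam n ≤ Real.log N := by
  refine ⟨Finset.sum_nonneg fun _ _ => ArithmeticFunction.vonMangoldt_nonneg, ?_⟩
  obtain ⟨p, hp, hpd⟩ := Nat.exists_prime_and_dvd hd
  refine le_trans ?_ (IL_pp N p hN hp)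
  refine Finset.sum_le_sum_of_subset_of_nonneg ?_ fun _ _ _ => ArithmeticFunction.vonMangoldt_nonneg
  intro n hn
  rw [mem_filter] at hn ⊢
  exact ⟨hn.1, hpd.trans hn.2⟩

theorem IL_cc (N r : ℕ) (hN : 1 ≤ N) (hr : 1 ≤ r) :
    |∑ n ∈ Icc 1 N, Lam n * cc r n - (∑ n ∈ Icc 1 N, Lam n) * mu r| ≤
      (∑ t ∈ r.divisors, (t : ℝ)) * Real.log N := by
  have hcc : ∀ n ∈ Icc 1 N, cc r n = ∑ d ∈ r.divisors, if d ∣ n then (d : ℝ) * mu (r / d) else 0 := by
    intro n hn
    rw [mem_Icc] at hn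
    rw [cc, ← Finset.sum_filter]
    refine Finset.sum_congr ?_ fun _ _ => rfl
    ext d
    simp only [mem_filter, Nat.mem_divisors]
    constructor
    · rintro ⟨h1, h2⟩
      exact ⟨⟨h1.trans (Nat.gcd_dvd_left _ _), by omega⟩, h1.trans (Nat.gcd_dvd_right _ _)⟩
    · rintro ⟨⟨h1, h2⟩, h3⟩
      exact ⟨Nat.dvd_gcd h1 h3, (Nat.gcd_pos_of_pos_left _ hr).ne'⟩
  have h1 : ∑ n ∈ Icc 1 N, Lam n * cc r n =
      ∑ d ∈ r.divisors, (d : ℝ) * mu (r / d) * ∑ n ∈ (Icc 1 N).filter (fun n => d ∣ n), Lam n := by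
    calc ∑ n ∈ Icc 1 N, Lam n * cc r n
        = ∑ n ∈ Icc 1 N, ∑ d ∈ r.divisors,
            (if d ∣ n then (d : ℝ) * mu (r / d) * Lam n else 0) := by
          refine Finset.sum_congr rfl fun n hn => ?_
          rw [hcc n hn, Finset.mul_sum]
          refine Finset.sum_congr rfl fun d _ => ?_
          split_ifs <;> ring
      _ = _ := by
          rw [Finset.sum_comm]
          refine Finset.sum_congr rfl fun d _ => ?_
          rw [← Finset.sum_filter, Finset.mul_sum]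
  have h1mem : 1 ∈ r.divisors := Nat.mem_divisors.2 ⟨one_dvd _, by omega⟩
  have h2 : (∑ n ∈ Icc 1 N, Lam n) * mu r =
      ((1 : ℕ) : ℝ) * mu (r / 1) * ∑ n ∈ (Icc 1 N).filter (fun n => 1 ∣ n), Lam n := by
    rw [Nat.div_one, Nat.cast_one, one_mul, mul_comm]
    congr 1
    refine Finset.sum_congr ?_ fun _ _ => rfl
    rw [Finset.filter_true_of_mem fun n _ => one_dvd n]
  rw [h1, h2, ← Finset.add_sum_erase _ _ h1mem, add_sub_cancel_left]
  refine (Finset.abs_sum_le_sum_abs _ _).trans ?_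
  have hlog : 0 ≤ Real.log N := Real.log_nonneg (by exact_mod_cast hN)
  have h3 : ∀ d ∈ r.divisors.erase 1, |(d : ℝ) * mu (r / d) *
      ∑ n ∈ (Icc 1 N).filter (fun n => d ∣ n), Lam n| ≤ d * Real.log N := by
    intro d hd
    rw [Finset.mem_erase] at hd
    obtain ⟨h4, h5⟩ := IL_dvd N d hN hd.1
    rw [abs_mul, abs_mul, Nat.abs_cast, abs_of_nonneg h4]
    have hmu : |mu (r / d)| ≤ 1 := by
      have : |ArithmeticFunction.moebius (r / d)| ≤ 1 := ArithmeticFunction.abs_moebius_le_one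
      exact_mod_cast this
    calc (d : ℝ) * |mu (r / d)| * ∑ n ∈ (Icc 1 N).filter (fun n => d ∣ n), Lam n
        ≤ (d : ℝ) * 1 * Real.log N :=
          mul_le_mul (mul_le_mul_of_nonneg_left hmu (by positivity)) h5 h4 (by positivity)
      _ = _ := by ring
  refine (Finset.sum_le_sum h3).trans ?_
  rw [Finset.sum_mul]
  refine Finset.sum_le_sum_of_subset_of_nonneg (Finset.erase_subset _ _) fun _ _ _ => by positivity

theorem ip_lg (N K R : ℕ) (hK : 1 ≤ K) (hKR : K ≤ R) (hRN : R ≤ N) :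
    |∑ n ∈ Icc 1 N, Lam n * gg K R n - (∑ n ∈ Icc 1 N, Lam n) * ∑ r ∈ Icc 1 K, gam R r * mu r|
      ≤ 3 * (K : ℝ) * (1 + Real.log N) ^ 6 := by
  have hN : 1 ≤ N := by omega
  have hR : 1 ≤ R := by omega
  have hR1 : (1 : ℝ) ≤ R := by exact_mod_cast hR
  have hRN' : (R : ℝ) ≤ N := by exact_mod_cast hRN
  have hlR : 0 ≤ Real.log R := Real.log_nonneg hR1
  have hlRN : Real.log R ≤ Real.log N := Real.log_le_log (by linarith) hRN'
  have hL : 0 ≤ Real.log N := by linarith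
  have h1 : ∑ n ∈ Icc 1 N, Lam n * gg K R n =
      ∑ r ∈ Icc 1 K, gam R r * ∑ n ∈ Icc 1 N, Lam n * cc r n := by
    calc ∑ n ∈ Icc 1 N, Lam n * gg K R n
        = ∑ n ∈ Icc 1 N, ∑ r ∈ Icc 1 K, gam R r * (Lam n * cc r n) := by
          refine Finset.sum_congr rfl fun n _ => ?_
          rw [gg, Finset.mul_sum]
          refine Finset.sum_congr rfl fun r _ => ?_
          ring
      _ = _ := by
          rw [Finset.sum_comm]
          refine Finset.sum_congr rfl fun r _ => ?_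
          rw [Finset.mul_sum]
  have h2 : (∑ n ∈ Icc 1 N, Lam n) * ∑ r ∈ Icc 1 K, gam R r * mu r =
      ∑ r ∈ Icc 1 K, gam R r * ((∑ n ∈ Icc 1 N, Lam n) * mu r) := by
    rw [Finset.mul_sum]
    refine Finset.sum_congr rfl fun r _ => ?_
    ring
  rw [h1, h2, ← Finset.sum_sub_distrib]
  refine (Finset.abs_sum_le_sum_abs _ _).trans ?_
  have h3 : ∀ r ∈ Icc 1 K, |gam R r * ∑ n ∈ Icc 1 N, Lam n * cc r n -
      gam R r * ((∑ n ∈ Icc 1 N, Lam n) * mu r)| ≤ (1 + Real.log N) ^ 6 := by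
    intro r hr
    rw [mem_Icc] at hr
    have hr1 : (1 : ℝ) ≤ r := by exact_mod_cast hr.1
    have hrN : (r : ℝ) ≤ N := by
      have : r ≤ N := by omega
      exact_mod_cast this
    have hlr : 0 ≤ Real.log r := Real.log_nonneg hr1
    have hlrN : Real.log r ≤ Real.log N := Real.log_le_log (by linarith) hrN
    rw [← mul_sub, abs_mul]
    calc |gam R r| * |∑ n ∈ Icc 1 N, Lam n * cc r n - (∑ n ∈ Icc 1 N, Lam n) * mu r|
        ≤ ((1 + Real.log R) ^ 2 / r) * ((r * (1 + Real.log r)) * Real.log N) := by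
          refine mul_le_mul (gam_le R r hR hr.1) ((IL_cc N r hN hr.1).trans ?_) (abs_nonneg _)
            (by positivity)
          exact mul_le_mul_of_nonneg_right (IL_sigma_le r hr.1) hL
      _ = (1 + Real.log R) ^ 2 * (1 + Real.log r) * Real.log N := by
          have : (r : ℝ) ≠ 0 := by linarith
          field_simp
      _ ≤ (1 + Real.log N) ^ 2 * (1 + Real.log N) * (1 + Real.log N) := by
          refine mul_le_mul (mul_le_mul (pow_le_pow_left₀ (by linarith) (by linarith) 2)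
            (by linarith) (by linarith) (by positivity)) (by linarith) hL (by positivity)
      _ = (1 + Real.log N) ^ 4 := by ring
      _ ≤ (1 + Real.log N) ^ 6 := pow_le_pow_right₀ (by linarith) (by norm_num)
  refine (Finset.sum_le_sum h3).trans ?_
  rw [Finset.sum_const, Nat.card_Icc, nsmul_eq_mul]
  simp only [add_tsub_cancel_right]
  have h4 : 0 ≤ (K : ℝ) * (1 + Real.log N) ^ 6 := by positivity
  nlinarith

end Pool.Agent.FG61
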