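import Pool.Agent.Lib_helper61.FG.Defs
import Pool.Agent.Lib_helper61.FG.P.CD
import Pool.Agent.Lib_helper61.FG.P.GB

/-! FG, block IP -/

set_option autoImplicit false

namespace Pool.Agent.FG61

open Finset Filter Topology
open Pool.Agent.Var35 (e)

theorem IP_sigma_le (r : ℕ) (hr : 1 ≤ r) :
    ∑ t ∈ r.divisors, (t : ℝ) ≤ r * (1 + Real.log r) := by
  rw [← Nat.sum_div_divisors r (fun t => (t : ℝ))]
  have h1 : ∀ t ∈ r.divisors, ((r / t : ℕ) : ℝ) ≤ r * (1 / (t : ℝ)) := by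
    intro t _
    rw [mul_one_div]
    exact Nat.cast_div_le
  refine (Finset.sum_le_sum h1).trans ?_
  rw [← Finset.mul_sum]
  refine mul_le_mul_of_nonneg_left ?_ (by positivity)
  have h2 : ∑ t ∈ r.divisors, 1 / (t : ℝ) ≤ ∑ t ∈ Icc 1 r, 1 / (t : ℝ) := by
    refine Finset.sum_le_sum_of_subset_of_nonneg ?_ fun _ _ _ => by positivity
    intro t ht
    rw [Nat.mem_divisors] at ht
    rw [mem_Icc]
    exact ⟨Nat.pos_of_dvd_of_pos ht.1 hr, Nat.le_of_dvd hr ht.1⟩
  refine h2.trans ?_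
  have h3 := harmonic_le_one_add_log r
  rw [harmonic_eq_sum_Icc] at h3
  push_cast at h3
  simpa [one_div] using h3

/-- weighted sum of the coefficients -/
theorem IP_coef (N K R : ℕ) (hK : 1 ≤ K) (hKR : K ≤ R) (hRN : R ≤ N) :
    ∑ r ∈ Icc 1 K, |gam R r| * ∑ t ∈ r.divisors, (t : ℝ) ≤ (K : ℝ) * (1 + Real.log N) ^ 3 := by
  have hN : 1 ≤ N := by omega
  have hR : 1 ≤ R := by omega
  have hR1 : (1 : ℝ) ≤ R := by exact_mod_cast hR
  have hRN' : (R : ℝ) ≤ N := by exact_mod_cast hRN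
  have hlR : 0 ≤ Real.log R := Real.log_nonneg hR1
  have hlRN : Real.log R ≤ Real.log N := Real.log_le_log (by linarith) hRN'
  have h1 : ∀ r ∈ Icc 1 K, |gam R r| * ∑ t ∈ r.divisors, (t : ℝ) ≤ (1 + Real.log N) ^ 3 := by
    intro r hr
    rw [mem_Icc] at hr
    have hr1 : (1 : ℝ) ≤ r := by exact_mod_cast hr.1
    have hrN : (r : ℝ) ≤ N := by
      have : r ≤ N := by omega
      exact_mod_cast this
    have hlr : 0 ≤ Real.log r := Real.log_nonneg hr1
    have hlrN : Real.log r ≤ Real.log N := Real.log_le_log (by linarith) hrN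
    calc |gam R r| * ∑ t ∈ r.divisors, (t : ℝ)
        ≤ ((1 + Real.log R) ^ 2 / r) * (r * (1 + Real.log r)) :=
          mul_le_mul (gam_le R r hR hr.1) (IP_sigma_le r hr.1)
            (Finset.sum_nonneg fun _ _ => by positivity) (by positivity)
      _ = (1 + Real.log R) ^ 2 * (1 + Real.log r) := by
          have : (r : ℝ) ≠ 0 := by linarith
          field_simp
      _ ≤ (1 + Real.log N) ^ 2 * (1 + Real.log N) := by
          refine mul_le_mul (pow_le_pow_left₀ (by linarith) (by linarith) 2) (by linarith)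
            (by linarith) (by positivity)
      _ = _ := by ring
  refine (Finset.sum_le_sum h1).trans ?_
  rw [Finset.sum_const, Nat.card_Icc, nsmul_eq_mul]
  simp

theorem ip_fg (N K R : ℕ) (hK : 1 ≤ K) (hKR : K ≤ R) (hRN : R ≤ N) :
    |∑ n ∈ Icc 1 N, ff (R : ℝ) n * gg K R n - N * ∑ r ∈ Icc 1 K, gam R r ^ 2 * phi r|
      ≤ (R : ℝ) * K * (1 + Real.log N) ^ 6 := by
  have hN : 1 ≤ N := by omega
  have hR : 1 ≤ R := by omega
  have hR1 : (1 : ℝ) ≤ R := by exact_mod_cast hR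
  have hRN' : (R : ℝ) ≤ N := by exact_mod_cast hRN
  have hlR : 0 ≤ Real.log R := Real.log_nonneg hR1
  have hlRN : Real.log R ≤ Real.log N := Real.log_le_log (by linarith) hRN'
  -- the function ff
  have hff : ∀ n ∈ Icc 1 N, ff (R : ℝ) n =
      ∑ d ∈ Icc 1 R, if d ∣ n then mu d * Real.log ((R : ℝ) / d) else 0 := by
    intro n hn
    rw [mem_Icc] at hn
    rw [ff, ← Finset.sum_filter]
    refine Finset.sum_congr ?_ fun _ _ => rfl
    ext d
    simp only [mem_filter, Nat.mem_divisors, mem_Icc, Nat.cast_le]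
    constructor
    · rintro ⟨⟨h1, h2⟩, h3⟩
      exact ⟨⟨Nat.pos_of_dvd_of_pos h1 hn.1, h3⟩, h1⟩
    · rintro ⟨⟨h1, h2⟩, h3⟩
      exact ⟨⟨h3, by omega⟩, h2⟩
  -- the sum
  have hsum : ∑ n ∈ Icc 1 N, ff (R : ℝ) n * gg K R n =
      ∑ r ∈ Icc 1 K, gam R r * ∑ d ∈ Icc 1 R, mu d * Real.log ((R : ℝ) / d) *
        ∑ n ∈ (Icc 1 N).filter (fun n => d ∣ n), cc r n := by
    calc ∑ n ∈ Icc 1 N, ff (R : ℝ) n * gg K R n
        = ∑ n ∈ Icc 1 N, ∑ r ∈ Icc 1 K, ∑ d ∈ Icc 1 R,
            (if d ∣ n then gam R r * (mu d * Real.log ((R : ℝ) / d)) * cc r n else 0) := by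
          refine Finset.sum_congr rfl fun n hn => ?_
          rw [hff n hn, gg, Finset.sum_mul_sum, Finset.sum_comm]
          refine Finset.sum_congr rfl fun r _ => Finset.sum_congr rfl fun d _ => ?_
          split_ifs
          · ring
          · ring
      _ = ∑ r ∈ Icc 1 K, ∑ d ∈ Icc 1 R, ∑ n ∈ Icc 1 N,
            (if d ∣ n then gam R r * (mu d * Real.log ((R : ℝ) / d)) * cc r n else 0) := by
          rw [Finset.sum_comm]
          refine Finset.sum_congr rfl fun r _ => ?_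
          rw [Finset.sum_comm]
      _ = _ := by
          refine Finset.sum_congr rfl fun r _ => ?_
          rw [Finset.mul_sum]
          refine Finset.sum_congr rfl fun d _ => ?_
          rw [← Finset.sum_filter, ← Finset.mul_sum]
          ring
  have hmain : (N : ℝ) * ∑ r ∈ Icc 1 K, gam R r ^ 2 * phi r =
      ∑ r ∈ Icc 1 K, gam R r * ∑ d ∈ Icc 1 R, mu d * Real.log ((R : ℝ) / d) *
        (if r ∣ d then (N : ℝ) / d * phi r else 0) := by
    rw [Finset.mul_sum]
    refine Finset.sum_congr rfl fun r _ => ?_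
    have h1 : ∑ d ∈ Icc 1 R, mu d * Real.log ((R : ℝ) / d) *
        (if r ∣ d then (N : ℝ) / d * phi r else 0) = gam R r * (N * phi r) := by
      rw [gam, Finset.sum_filter, Finset.sum_mul]
      refine Finset.sum_congr rfl fun d _ => ?_
      split_ifs
      · ring
      · ring
    rw [h1]
    ring
  rw [hsum, hmain, ← Finset.sum_sub_distrib]
  refine (Finset.abs_sum_le_sum_abs _ _).trans ?_
  have hterm : ∀ r ∈ Icc 1 K, |gam R r * ∑ d ∈ Icc 1 R, mu d * Real.log ((R : ℝ) / d) *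
        ∑ n ∈ (Icc 1 N).filter (fun n => d ∣ n), cc r n -
      gam R r * ∑ d ∈ Icc 1 R, mu d * Real.log ((R : ℝ) / d) *
        (if r ∣ d then (N : ℝ) / d * phi r else 0)| ≤
      (|gam R r| * ∑ t ∈ r.divisors, (t : ℝ)) * (R * Real.log N) := by
    intro r hr
    rw [mem_Icc] at hr
    rw [← mul_sub, ← Finset.sum_sub_distrib, abs_mul, mul_assoc]
    refine mul_le_mul_of_nonneg_left ?_ (abs_nonneg _)
    refine (Finset.abs_sum_le_sum_abs _ _).trans ?_
    have h2 : ∀ d ∈ Icc 1 R, |mu d * Real.log ((R : ℝ) / d) *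
        ∑ n ∈ (Icc 1 N).filter (fun n => d ∣ n), cc r n -
        mu d * Real.log ((R : ℝ) / d) * (if r ∣ d then (N : ℝ) / d * phi r else 0)| ≤
        Real.log N * ∑ t ∈ r.divisors, (t : ℝ) := by
      intro d hd
      rw [mem_Icc] at hd
      have hd1 : (1 : ℝ) ≤ d := by exact_mod_cast hd.1
      have hdR : (d : ℝ) ≤ R := by exact_mod_cast hd.2
      rw [← mul_sub, abs_mul]
      refine mul_le_mul ?_ (cc_count N d r hd.1 hr.1) (abs_nonneg _) (by linarith)
      rw [abs_mul]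
      have hmu : |mu d| ≤ 1 := by
        have : |ArithmeticFunction.moebius d| ≤ 1 := ArithmeticFunction.abs_moebius_le_one
        exact_mod_cast this
      have hl0 : 0 ≤ Real.log ((R : ℝ) / d) := Real.log_nonneg ((one_le_div (by linarith)).2 hdR)
      have hl1 : Real.log ((R : ℝ) / d) ≤ Real.log N := by
        refine Real.log_le_log (by positivity) ?_
        exact (div_le_self (by linarith) hd1).trans hRN'
      rw [abs_of_nonneg hl0]
      calc |mu d| * Real.log ((R : ℝ) / d) ≤ 1 * Real.log N :=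
            mul_le_mul hmu hl1 hl0 (by norm_num)
        _ = Real.log N := one_mul _
    refine (Finset.sum_le_sum h2).trans ?_
    rw [Finset.sum_const, Nat.card_Icc, nsmul_eq_mul]
    simp only [add_tsub_cancel_right]
    exact le_of_eq (by ring)
  refine (Finset.sum_le_sum hterm).trans ?_
  rw [← Finset.sum_mul]
  have hL : 0 ≤ Real.log N := by linarith
  have h3 := IP_coef N K R hK hKR hRN
  calc (∑ r ∈ Icc 1 K, |gam R r| * ∑ t ∈ r.divisors, (t : ℝ)) * (R * Real.log N)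
      ≤ ((K : ℝ) * (1 + Real.log N) ^ 3) * (R * (1 + Real.log N) ^ 3) := by
        refine mul_le_mul h3 ?_ (by positivity) (by positivity)
        refine mul_le_mul_of_nonneg_left ?_ (by positivity)
        calc Real.log N ≤ 1 + Real.log N := by linarith
          _ = (1 + Real.log N) ^ 1 := (pow_one _).symm
          _ ≤ (1 + Real.log N) ^ 3 := pow_le_pow_right₀ (by linarith) (by norm_num)
    _ = _ := by ring

theorem IP_mu_sum (l : ℕ) :
    ∑ d ∈ l.divisors, mu (l / d) = if l = 1 then 1 else 0 := by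
  rw [Nat.sum_div_divisors l (fun d => mu d)]
  have h : (∑ d ∈ l.divisors, (ArithmeticFunction.moebius d : ℤ)) = if l = 1 then 1 else 0 := by
    rw [← ArithmeticFunction.coe_mul_zeta_apply, ArithmeticFunction.moebius_mul_coe_zeta,
      ArithmeticFunction.one_apply]
  have h2 := congrArg (fun x : ℤ => (x : ℝ)) h
  push_cast at h2
  exact h2

theorem IP_mu_sum2 (r s : ℕ) (hr : 1 ≤ r) (hs : 1 ≤ s) :
    ∑ d ∈ s.divisors, (if r ∣ d then mu (s / d) else 0) = if r = s then 1 else 0 := by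
  by_cases h : r ∣ s
  · obtain ⟨l, rfl⟩ := h
    have hl : 0 < l := Nat.pos_of_ne_zero (by rintro rfl; simp at hs)
    rw [← Finset.sum_filter]
    have himg : (r * l).divisors.filter (fun d => r ∣ d) = l.divisors.image (fun d => r * d) := by
      ext d
      simp only [mem_filter, Nat.mem_divisors, mem_image]
      constructor
      · rintro ⟨⟨h1, h2⟩, k, rfl⟩
        exact ⟨k, ⟨Nat.dvd_of_mul_dvd_mul_left hr h1, hl.ne'⟩, rfl⟩
      · rintro ⟨k, ⟨h1, h2⟩, rfl⟩
        exact ⟨⟨Nat.mul_dvd_mul_left r h1, by positivity⟩, Dvd.intro k rfl⟩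
    rw [himg, Finset.sum_image fun a _ b _ hab => Nat.eq_of_mul_eq_mul_left hr hab]
    have h3 : ∀ d ∈ l.divisors, mu (r * l / (r * d)) = mu (l / d) := by
      intro d _
      rw [Nat.mul_div_mul_left _ _ hr]
    rw [Finset.sum_congr rfl h3, IP_mu_sum]
    by_cases hl1 : l = 1
    · simp [hl1]
    · rw [if_neg hl1, if_neg]
      intro h4
      apply hl1
      exact Nat.eq_of_mul_eq_mul_left hr (by omega)
  · have h1 : r ≠ s := by rintro rfl; exact h dvd_rfl
    rw [if_neg h1]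
    refine Finset.sum_eq_zero fun d hd => ?_
    rw [Nat.mem_divisors] at hd
    rw [if_neg fun h2 => h (h2.trans hd.1)]

/-- inner products of Ramanujan sums -/
theorem IP_cc (N r s : ℕ) (hr : 1 ≤ r) (hs : 1 ≤ s) :
    |∑ n ∈ Icc 1 N, cc r n * cc s n - (if r = s then (N : ℝ) * phi r else 0)| ≤
      (∑ t ∈ r.divisors, (t : ℝ)) * ∑ t ∈ s.divisors, (t : ℝ) := by
  have hcc : ∀ n ∈ Icc 1 N, cc s n = ∑ d ∈ s.divisors, if d ∣ n then (d : ℝ) * mu (s / d) else 0 := by
    intro n hn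
    rw [mem_Icc] at hn
    rw [cc, ← Finset.sum_filter]
    refine Finset.sum_congr ?_ fun _ _ => rfl
    ext d
    simp only [mem_filter, Nat.mem_divisors]
    constructor
    · rintro ⟨h1, h2⟩
      exact ⟨⟨h1.trans (Nat.gcd_dvd_left _ _), by omega⟩, h1.trans (Nat.gcd_dvd_right _ _)⟩
    · rintro ⟨⟨h1, h2⟩, h3⟩
      exact ⟨Nat.dvd_gcd h1 h3, (Nat.gcd_pos_of_pos_left _ hs).ne'⟩
  have h1 : ∑ n ∈ Icc 1 N, cc r n * cc s n =
      ∑ d ∈ s.divisors, (d : ℝ) * mu (s / d) * ∑ n ∈ (Icc 1 N).filter (fun n => d ∣ n), cc r n := by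
    calc ∑ n ∈ Icc 1 N, cc r n * cc s n
        = ∑ n ∈ Icc 1 N, ∑ d ∈ s.divisors,
            (if d ∣ n then (d : ℝ) * mu (s / d) * cc r n else 0) := by
          refine Finset.sum_congr rfl fun n hn => ?_
          rw [hcc n hn, Finset.mul_sum]
          refine Finset.sum_congr rfl fun d _ => ?_
          split_ifs <;> ring
      _ = _ := by
          rw [Finset.sum_comm]
          refine Finset.sum_congr rfl fun d _ => ?_
          rw [← Finset.sum_filter, Finset.mul_sum]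
  have h2 : (if r = s then (N : ℝ) * phi r else 0) =
      ∑ d ∈ s.divisors, (d : ℝ) * mu (s / d) * (if r ∣ d then (N : ℝ) / d * phi r else 0) := by
    have h3 : ∀ d ∈ s.divisors, (d : ℝ) * mu (s / d) * (if r ∣ d then (N : ℝ) / d * phi r else 0) =
        ((N : ℝ) * phi r) * (if r ∣ d then mu (s / d) else 0) := by
      intro d hd
      have hd0 : (d : ℝ) ≠ 0 := by
        have := Nat.pos_of_mem_divisors hd
        exact_mod_cast this.ne'
      split_ifs
      · field_simp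
      · ring
    rw [Finset.sum_congr rfl h3, ← Finset.mul_sum, IP_mu_sum2 r s hr hs]
    split_ifs <;> ring
  rw [h1, h2, ← Finset.sum_sub_distrib]
  refine (Finset.abs_sum_le_sum_abs _ _).trans ?_
  rw [mul_comm (∑ t ∈ r.divisors, (t : ℝ)), Finset.sum_mul]
  refine Finset.sum_le_sum fun d hd => ?_
  rw [← mul_sub, abs_mul]
  refine mul_le_mul ?_ (cc_count N d r (Nat.pos_of_mem_divisors hd) hr) (abs_nonneg _)
    (by positivity)
  rw [abs_mul, Nat.abs_cast]
  have hmu : |mu (s / d)| ≤ 1 := by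
    have : |ArithmeticFunction.moebius (s / d)| ≤ 1 := ArithmeticFunction.abs_moebius_le_one
    exact_mod_cast this
  calc (d : ℝ) * |mu (s / d)| ≤ d * 1 := mul_le_mul_of_nonneg_left hmu (by positivity)
    _ = d := mul_one _

theorem ip_gg (N K R : ℕ) (hK : 1 ≤ K) (hKR : K ≤ R) (hRN : R ≤ N) :
    |∑ n ∈ Icc 1 N, gg K R n ^ 2 - N * ∑ r ∈ Icc 1 K, gam R r ^ 2 * phi r|
      ≤ (K : ℝ) * K * (1 + Real.log N) ^ 6 := by
  have hsum : ∑ n ∈ Icc 1 N, gg K R n ^ 2 =
      ∑ r ∈ Icc 1 K, ∑ s ∈ Icc 1 K, gam R r * gam R s * ∑ n ∈ Icc 1 N, cc r n * cc s n := by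
    calc ∑ n ∈ Icc 1 N, gg K R n ^ 2
        = ∑ n ∈ Icc 1 N, ∑ r ∈ Icc 1 K, ∑ s ∈ Icc 1 K,
            gam R r * gam R s * (cc r n * cc s n) := by
          refine Finset.sum_congr rfl fun n _ => ?_
          rw [sq, gg, Finset.sum_mul_sum]
          refine Finset.sum_congr rfl fun r _ => Finset.sum_congr rfl fun s _ => ?_
          ring
      _ = _ := by
          rw [Finset.sum_comm]
          refine Finset.sum_congr rfl fun r _ => ?_
          rw [Finset.sum_comm]
          refine Finset.sum_congr rfl fun s _ => ?_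
          rw [Finset.mul_sum]
  have hmain : (N : ℝ) * ∑ r ∈ Icc 1 K, gam R r ^ 2 * phi r =
      ∑ r ∈ Icc 1 K, ∑ s ∈ Icc 1 K, gam R r * gam R s *
        (if r = s then (N : ℝ) * phi r else 0) := by
    rw [Finset.mul_sum]
    refine Finset.sum_congr rfl fun r hr => ?_
    simp only [mul_ite, mul_zero]
    rw [Finset.sum_ite_eq, if_pos hr]
    ring
  rw [hsum, hmain, ← Finset.sum_sub_distrib]
  refine (Finset.abs_sum_le_sum_abs _ _).trans ?_
  have h1 : ∀ r ∈ Icc 1 K, |∑ s ∈ Icc 1 K, gam R r * gam R s * ∑ n ∈ Icc 1 N, cc r n * cc s n -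
      ∑ s ∈ Icc 1 K, gam R r * gam R s * (if r = s then (N : ℝ) * phi r else 0)| ≤
      (|gam R r| * ∑ t ∈ r.divisors, (t : ℝ)) *
        ∑ s ∈ Icc 1 K, |gam R s| * ∑ t ∈ s.divisors, (t : ℝ) := by
    intro r hr
    rw [mem_Icc] at hr
    rw [← Finset.sum_sub_distrib, Finset.mul_sum]
    refine (Finset.abs_sum_le_sum_abs _ _).trans (Finset.sum_le_sum fun s hs => ?_)
    rw [mem_Icc] at hs
    rw [← mul_sub, abs_mul, abs_mul]
    calc |gam R r| * |gam R s| *
          |∑ n ∈ Icc 1 N, cc r n * cc s n - (if r = s then (N : ℝ) * phi r else 0)|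
        ≤ |gam R r| * |gam R s| *
          ((∑ t ∈ r.divisors, (t : ℝ)) * ∑ t ∈ s.divisors, (t : ℝ)) :=
          mul_le_mul_of_nonneg_left (IP_cc N r s hr.1 hs.1) (by positivity)
      _ = _ := by ring
  refine (Finset.sum_le_sum h1).trans ?_
  rw [← Finset.sum_mul]
  have h3 := IP_coef N K R hK hKR hRN
  have h0 : 0 ≤ ∑ r ∈ Icc 1 K, |gam R r| * ∑ t ∈ r.divisors, (t : ℝ) :=
    Finset.sum_nonneg fun _ _ => by positivity
  calc _ ≤ ((K : ℝ) * (1 + Real.log N) ^ 3) * ((K : ℝ) * (1 + Real.log N) ^ 3) :=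
        mul_le_mul h3 h3 h0 (h0.trans h3)
    _ = _ := by ring

end Pool.Agent.FG61
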