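import Pool.Agent.Lib_helper61.FG.Defs
import Pool.Agent.Lib_helper73.Var.Pnt

set_option autoImplicit false

namespace Pool.Agent.FG61

open Finset Filter Topology
open Pool.Agent.Var35 (e)

/-- LQ -/
theorem lam_sq (ε : ℝ) (hε : 0 < ε) : ∀ᶠ N : ℕ in atTop,
    (1 - ε) * (N * Real.log N) ≤ ∑ n ∈ Icc 1 N, Lam n ^ 2 := by
  by_cases hε1 : 1 ≤ ε
  · filter_upwards [eventually_ge_atTop 1] with N hN
    have h1 : 0 ≤ (N : ℝ) * Real.log N :=
      mul_nonneg (Nat.cast_nonneg _) (Real.log_nonneg (by exact_mod_cast hN))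
    have h2 : 0 ≤ ∑ n ∈ Icc 1 N, Lam n ^ 2 := Finset.sum_nonneg fun _ _ => sq_nonneg _
    nlinarith
  push Not at hε1
  set δ : ℝ := ε / 6 with hδ
  have hδ0 : 0 < δ := by positivity
  have hδ1 : δ < 1 / 6 := by rw [hδ]; linarith
  have h1 := Pool.Agent.Lib_helper90.PNT.tendsto_psi_div
  rw [Metric.tendsto_atTop] at h1
  obtain ⟨x0, hx0⟩ := h1 δ hδ0
  have e1 : ∀ᶠ N : ℕ in atTop, (2 / δ) * (Real.log N) ^ 1 ≤ (N : ℝ) ^ (1 / 2 : ℝ) :=
    Pool.Agent.Var73.ev_nat 1 (1 / 2) (2 / δ) (by norm_num) (by positivity)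
  have e2 : ∀ᶠ N : ℕ in atTop, (2 / δ) * (Real.log N) ^ 0 ≤ (N : ℝ) ^ δ :=
    Pool.Agent.Var73.ev_nat 0 δ (2 / δ) hδ0 (by positivity)
  filter_upwards [e1, e2, eventually_ge_atTop 2, eventually_ge_atTop (⌈x0⌉₊)] with N h2 h3 hN2 hN0
  have hNpos : (0 : ℝ) < N := by
    have : 0 < N := by omega
    positivity
  have hN1 : (1 : ℝ) ≤ N := by exact_mod_cast (by omega : 1 ≤ N)
  have hlog : 0 ≤ Real.log N := Real.log_nonneg hN1
  -- psi
  have hpsi : (1 - δ) * N ≤ Chebyshev.psi (N : ℝ) := by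
    have h4 := hx0 (N : ℝ) ((Nat.le_ceil x0).trans (by exact_mod_cast hN0))
    rw [Real.dist_eq] at h4
    have h5 := (abs_lt.mp h4).1
    have h6 : 1 - δ ≤ Chebyshev.psi (N : ℝ) / N := by linarith
    rwa [le_div_iff₀ hNpos] at h6
  -- theta
  have hth : (1 - 2 * δ) * N ≤ Chebyshev.theta (N : ℝ) := by
    have h4 := Chebyshev.abs_psi_sub_theta_le_sqrt_mul_log (x := (N : ℝ)) hN1
    have h5 : 2 * Real.sqrt N * Real.log N ≤ δ * N := by
      rw [pow_one, ← Real.sqrt_eq_rpow] at h2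
      have h6 : 2 * Real.log N ≤ δ * Real.sqrt N := by
        have : 2 * Real.log N = δ * (2 / δ * Real.log N) := by field_simp
        rw [this]
        exact mul_le_mul_of_nonneg_left h2 hδ0.le
      calc 2 * Real.sqrt N * Real.log N = Real.sqrt N * (2 * Real.log N) := by ring
        _ ≤ Real.sqrt N * (δ * Real.sqrt N) := mul_le_mul_of_nonneg_left h6 (Real.sqrt_nonneg _)
        _ = δ * (Real.sqrt N * Real.sqrt N) := by ring
        _ = δ * N := by rw [Real.mul_self_sqrt hNpos.le]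
    have h7 := (abs_le.mp h4).2
    linarith
  set y : ℝ := (N : ℝ) ^ (1 - δ) with hy
  have hy0 : 0 < y := Real.rpow_pos_of_pos hNpos _
  have hthy : Chebyshev.theta y ≤ δ * N := by
    have h4 := Chebyshev.theta_le_log4_mul_x hy0.le
    have h5 : Real.log 4 ≤ 2 := by
      have h6 : Real.log 4 = 2 * Real.log 2 := by
        rw [show (4 : ℝ) = 2 ^ 2 by norm_num, Real.log_pow]; norm_num
      have := Real.log_two_lt_d9
      rw [h6]; linarith
    rw [pow_zero, mul_one] at h3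
    have h7 : y * (N : ℝ) ^ δ = N := by
      rw [hy, ← Real.rpow_add hNpos]; simp
    have h8 : 2 * y ≤ δ * N := by
      have h9 : y * (2 / δ) ≤ N := by
        rw [← h7]
        exact mul_le_mul_of_nonneg_left h3 hy0.le
      have h10 : y * (2 / δ) = 2 * y / δ := by ring
      rw [h10, div_le_iff₀ hδ0] at h9
      linarith
    nlinarith
  -- primes
  have hstep : (1 - δ) * Real.log N * (Chebyshev.theta (N : ℝ) - Chebyshev.theta y)
      ≤ ∑ n ∈ Icc 1 N, Lam n ^ 2 := by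
    have hyN : y ≤ N := by
      rw [hy]
      calc (N : ℝ) ^ (1 - δ) ≤ (N : ℝ) ^ (1 : ℝ) :=
            Real.rpow_le_rpow_of_exponent_le hN1 (by linarith)
        _ = N := Real.rpow_one _
    have hsplit : Chebyshev.theta (N : ℝ) - Chebyshev.theta y
        = ∑ p ∈ (Ioc 0 N).filter (fun p : ℕ => p.Prime ∧ y < (p : ℝ)), Real.log p := by
      unfold Chebyshev.theta
      rw [Nat.floor_natCast, sub_eq_iff_eq_add]
      have hfl : ⌊y⌋₊ ≤ N := by
        rw [← Nat.floor_natCast (R := ℝ) N]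
        exact Nat.floor_mono hyN
      have h5 : (Ioc 0 ⌊y⌋₊).filter Nat.Prime = (Ioc 0 N).filter (fun p : ℕ => p.Prime ∧ ¬ y < (p : ℝ)) := by
        ext p
        simp only [mem_filter, mem_Ioc, not_lt]
        constructor
        · rintro ⟨⟨h6, h7⟩, h8⟩
          exact ⟨⟨h6, h7.trans hfl⟩, h8, (Nat.le_floor_iff hy0.le).mp h7⟩
        · rintro ⟨⟨h6, h7⟩, h8, h9⟩
          exact ⟨⟨h6, (Nat.le_floor_iff hy0.le).mpr h9⟩, h8⟩
      rw [h5, ← Finset.filter_filter, ← Finset.filter_filter,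
        Finset.sum_filter_add_sum_filter_not]
    rw [hsplit, Finset.mul_sum]
    have h4 : ∀ p ∈ (Ioc 0 N).filter (fun p : ℕ => p.Prime ∧ y < (p : ℝ)),
        (1 - δ) * Real.log N * Real.log p ≤ Lam p ^ 2 := by
      intro p hp
      rw [mem_filter] at hp
      obtain ⟨_, hpp, hyp⟩ := hp
      have h6 : Lam p = Real.log p := ArithmeticFunction.vonMangoldt_apply_prime hpp
      rw [h6, sq]
      have h7 : (1 - δ) * Real.log N ≤ Real.log p := by
        rw [← Real.log_rpow hNpos]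
        exact Real.log_le_log hy0 hyp.le
      exact mul_le_mul_of_nonneg_right h7 (Real.log_nonneg (by exact_mod_cast hpp.one_lt.le))
    refine (Finset.sum_le_sum h4).trans ?_
    refine Finset.sum_le_sum_of_subset_of_nonneg ?_ fun _ _ _ => sq_nonneg _
    intro p hp
    rw [mem_filter, mem_Ioc] at hp
    rw [mem_Icc]
    exact ⟨hp.1.1, hp.1.2⟩
  refine le_trans ?_ hstep
  have h8 : (1 - 3 * δ) * N ≤ Chebyshev.theta (N : ℝ) - Chebyshev.theta y := by linarith
  have h9 : 0 ≤ (1 - δ) * Real.log N := mul_nonneg (by linarith) hlog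
  calc (1 - ε) * (N * Real.log N) ≤ (1 - δ) * (1 - 3 * δ) * (N * Real.log N) := by
        refine mul_le_mul_of_nonneg_right ?_ (mul_nonneg hNpos.le hlog)
        have : ε = 6 * δ := by rw [hδ]; ring
        rw [this]
        nlinarith
    _ = (1 - δ) * Real.log N * ((1 - 3 * δ) * N) := by ring
    _ ≤ _ := mul_le_mul_of_nonneg_left h8 h9

end Pool.Agent.FG61
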