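import Pool.Agent.Lib_helper61.FG.Defs

/-!
# Parseval for the correlations over all shifts (block PV)
-/

set_option autoImplicit false

namespace Pool.Agent.FG61

open Finset Filter Topology
open Pool.Agent.Var35 (e)

theorem pv_sum_roots (T : ℕ) (hT : 0 < T) (d : ℤ) :
    ∑ j ∈ range T, e (j * (d / T)) = if (T : ℤ) ∣ d then (T : ℂ) else 0 := by
  have hT0 : (T : ℝ) ≠ 0 := by positivity
  split_ifs with h
  · obtain ⟨c, rfl⟩ := h
    have : ∀ j ∈ range T, e (j * (((T * c : ℤ) : ℝ) / T)) = 1 := by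
      intro j _
      have : (j : ℝ) * (((T * c : ℤ) : ℝ) / T) = ((j * c : ℤ) : ℝ) := by
        push_cast; field_simp
      rw [this, Pool.Agent.Var35.e_int]
    rw [sum_congr rfl this]; simp
  · have h1 : (∑ j ∈ range T, e (j * (d / T))) * (e (d / T) - 1) = 0 := by
      have := geom_sum_mul (e ((d : ℝ) / T)) T
      rw [sum_congr rfl fun j _ => Pool.Agent.Var35.e_nat_mul j ((d : ℝ) / T), this,
        ← Pool.Agent.Var35.e_nat_mul]
      have : (T : ℝ) * (d / T) = (d : ℤ) := by field_simp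
      rw [this, Pool.Agent.Var35.e_int, sub_self]
    rcases mul_eq_zero.mp h1 with h2 | h2
    · exact h2
    · exfalso
      apply h
      rw [sub_eq_zero] at h2
      unfold Pool.Agent.Var35.e at h2
      rw [Complex.exp_eq_one_iff] at h2
      obtain ⟨n, hn⟩ := h2
      refine ⟨n, ?_⟩
      have hpi : (2 * (Real.pi : ℂ) * Complex.I) ≠ 0 := by
        simp [Real.pi_ne_zero]
      have h3 : (((d : ℝ) / T : ℝ) : ℂ) * (2 * (Real.pi : ℂ) * Complex.I) =
          n * (2 * (Real.pi : ℂ) * Complex.I) := by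
        rw [← hn]; push_cast; ring
      have h4 := mul_right_cancel₀ hpi h3
      have h5 : ((d : ℝ) / T : ℝ) = (n : ℝ) := by exact_mod_cast h4
      rw [div_eq_iff hT0] at h5
      have h6 : (d : ℝ) = ((T * n : ℤ) : ℝ) := by push_cast; linarith
      exact_mod_cast h6

/-- discrete Parseval -/
theorem pv_parseval {ι : Type} (M : ℕ) (hM : 0 < M) (s : Finset ι) (f : ι → ℝ) (τ : ι → ℤ)
    (hτ : ∀ a ∈ s, ∀ b ∈ s, (M : ℤ) ∣ τ a - τ b → a = b) :
    ∑ j ∈ range M, ‖∑ a ∈ s, (f a : ℂ) * e (τ a * ((j : ℝ) / M))‖ ^ 2 = M * ∑ a ∈ s, f a ^ 2 := by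
  classical
  have key : ∀ j : ℕ, ((‖∑ a ∈ s, (f a : ℂ) * e (τ a * ((j : ℝ) / M))‖ ^ 2 : ℝ) : ℂ) =
      ∑ a ∈ s, ∑ b ∈ s, (f a : ℂ) * f b * e (j * (((τ a - τ b : ℤ) : ℝ) / M)) := by
    intro j
    rw [Complex.ofReal_pow, ← Complex.mul_conj', map_sum, sum_mul_sum]
    refine sum_congr rfl fun a _ => sum_congr rfl fun b _ => ?_
    rw [map_mul, Complex.conj_ofReal]
    have : (j : ℝ) * (((τ a - τ b : ℤ) : ℝ) / M) = τ a * ((j : ℝ) / M) - τ b * ((j : ℝ) / M) := by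
      push_cast; ring
    rw [this, Pool.Agent.Var35.e_sub]
    ring
  have h : ((∑ j ∈ range M, ‖∑ a ∈ s, (f a : ℂ) * e (τ a * ((j : ℝ) / M))‖ ^ 2 : ℝ) : ℂ) =
      ((M * ∑ a ∈ s, f a ^ 2 : ℝ) : ℂ) := by
    rw [Complex.ofReal_sum, sum_congr rfl fun j _ => key j, sum_comm, Complex.ofReal_mul,
      Complex.ofReal_sum, Complex.ofReal_natCast, mul_sum]
    refine sum_congr rfl fun a ha => ?_
    rw [sum_comm, sum_eq_single a]
    · rw [← mul_sum, pv_sum_roots M hM, if_pos (by simp), Complex.ofReal_pow]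
      ring
    · intro b hb hba
      rw [← mul_sum, pv_sum_roots M hM, if_neg, mul_zero]
      intro hd
      exact hba (hτ a ha b hb hd).symm
    · intro h; exact absurd ha h
  exact_mod_cast h

/-- PV : Parseval for the correlations over all shifts -/
theorem parseval_shift (N : ℕ) (F b : ℕ → ℝ) (lam : ℝ)
    (hb : ∀ α : ℝ, ‖∑ n ∈ Icc 1 N, ((b n : ℝ) : ℂ) * e (n * α)‖ ≤ lam) :
    ∑ h ∈ Icc (-(N : ℤ)) N,
      (∑ n ∈ Icc 1 N, ∑ m ∈ (Icc 1 N).filter (fun m : ℕ => (m : ℤ) = n + h), F n * b m) ^ 2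
      ≤ lam ^ 2 * ∑ n ∈ Icc 1 N, F n ^ 2 := by
  classical
  set M : ℕ := 2 * N + 1 with hM
  have hM0 : 0 < M := by omega
  have hMr : (0 : ℝ) < M := by exact_mod_cast hM0
  set c : ℤ → ℝ := fun h =>
    ∑ n ∈ Icc 1 N, ∑ m ∈ (Icc 1 N).filter (fun m : ℕ => (m : ℤ) = n + h), F n * b m with hc
  -- the two Parseval identities
  have hP1 := pv_parseval M hM0 (Icc 1 N) F (fun n : ℕ => -(n : ℤ)) (by
    intro x hx y hy hd
    rw [Finset.mem_Icc] at hx hy
    have := Int.eq_zero_of_abs_lt_dvd hd (by rw [abs_lt]; omega)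
    omega)
  have hP2 := pv_parseval M hM0 (Icc (-(N : ℤ)) N) c (fun h : ℤ => h) (by
    intro x hx y hy hd
    rw [Finset.mem_Icc] at hx hy
    have := Int.eq_zero_of_abs_lt_dvd hd (by rw [abs_lt]; omega)
    omega)
  -- the product of the two exponential sums
  have hprod : ∀ j : ℕ, ∑ h ∈ Icc (-(N : ℤ)) N, (c h : ℂ) * e ((h : ℤ) * ((j : ℝ) / M)) =
      (∑ n ∈ Icc 1 N, (F n : ℂ) * e (((-(n : ℤ) : ℤ) : ℝ) * ((j : ℝ) / M))) *
        ∑ m ∈ Icc 1 N, ((b m : ℝ) : ℂ) * e (m * ((j : ℝ) / M)) := by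
    intro j
    rw [sum_mul_sum]
    have h1 : ∀ h ∈ Icc (-(N : ℤ)) N, (c h : ℂ) * e ((h : ℤ) * ((j : ℝ) / M)) =
        ∑ n ∈ Icc 1 N, ∑ m ∈ Icc 1 N, if (m : ℤ) = n + h then
          (F n : ℂ) * b m * e ((h : ℤ) * ((j : ℝ) / M)) else 0 := by
      intro h _
      rw [hc]
      push_cast
      rw [sum_mul]
      refine sum_congr rfl fun n _ => ?_
      rw [sum_mul, sum_filter]
    rw [sum_congr rfl h1, sum_comm]
    refine sum_congr rfl fun n hn => ?_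
    rw [sum_comm]
    refine sum_congr rfl fun m hm => ?_
    rw [Finset.mem_Icc] at hn hm
    rw [sum_eq_single ((m : ℤ) - n)]
    · rw [if_pos (by ring)]
      have : (((m : ℤ) - n : ℤ) : ℝ) * ((j : ℝ) / M) =
          ((-(n : ℤ) : ℤ) : ℝ) * ((j : ℝ) / M) + m * ((j : ℝ) / M) := by
        push_cast; ring
      rw [this, Pool.Agent.Var35.e_add]
      ring
    · intro h _ hne
      rw [if_neg]
      intro h2
      exact hne (by omega)
    · intro h2
      exact absurd (by rw [Finset.mem_Icc]; omega) h2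
  -- conclusion
  have hle : ∑ j ∈ range M, ‖∑ h ∈ Icc (-(N : ℤ)) N, (c h : ℂ) * e ((h : ℤ) * ((j : ℝ) / M))‖ ^ 2 ≤
      lam ^ 2 * ∑ j ∈ range M,
        ‖∑ n ∈ Icc 1 N, (F n : ℂ) * e (((-(n : ℤ) : ℤ) : ℝ) * ((j : ℝ) / M))‖ ^ 2 := by
    rw [mul_sum]
    refine sum_le_sum fun j _ => ?_
    rw [hprod j, norm_mul, mul_pow, mul_comm]
    refine mul_le_mul_of_nonneg_right ?_ (by positivity)
    exact pow_le_pow_left₀ (norm_nonneg _) (hb _) 2
  rw [hP1, hP2] at hle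
  have : (M : ℝ) * ∑ h ∈ Icc (-(N : ℤ)) N, c h ^ 2 ≤ M * (lam ^ 2 * ∑ n ∈ Icc 1 N, F n ^ 2) := by
    linarith
  exact le_of_mul_le_mul_left this hMr

end Pool.Agent.FG61
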