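import Pool.Agent.Lib_helper61.FG.Defs
import Pool.Agent.Lib_helper61.FG.P.PV

/-!
# Variance of the off-diagonal terms (block OV)
-/

set_option autoImplicit false

namespace Pool.Agent.FG61

open Finset Filter Topology
open Pool.Agent.Var35 (e)

/-- the nonzero multiples of `Q` in `[-N, N]` -/
noncomputable def ovS (N Q : ℕ) : Finset ℤ := (Icc (-(N : ℤ)) N).filter (fun h => h ≠ 0 ∧ (Q : ℤ) ∣ h)

/-- the correlation with the shift `h` -/
noncomputable def ovC (N : ℕ) (F b : ℕ → ℝ) (h : ℤ) : ℝ :=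
  ∑ n ∈ Icc 1 N, ∑ m ∈ (Icc 1 N).filter (fun m : ℕ => (m : ℤ) = n + h), F n * b m

theorem ov_off (N Q : ℕ) (F b : ℕ → ℝ) : off N Q F b = ∑ h ∈ ovS N Q, ovC N F b h := by
  classical
  unfold off ovC
  rw [sum_comm]
  refine sum_congr rfl fun n hn => ?_
  rw [sum_filter]
  have h1 : ∀ h ∈ ovS N Q, ∑ m ∈ (Icc 1 N).filter (fun m : ℕ => (m : ℤ) = n + h), F n * b m =
      ∑ m ∈ Icc 1 N, if (m : ℤ) = n + h then F n * b m else 0 := fun h _ => sum_filter _ _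
  rw [sum_congr rfl h1, sum_comm]
  refine sum_congr rfl fun m hm => ?_
  rw [Finset.mem_Icc] at hn hm
  have hmod : (m ≠ n ∧ m % Q = n % Q) ↔ ((m : ℤ) - n ∈ ovS N Q) := by
    unfold ovS
    rw [mem_filter, Finset.mem_Icc]
    have h2 : m % Q = n % Q ↔ (Q : ℤ) ∣ (m : ℤ) - n := by
      rw [← Nat.modEq_iff_dvd]
      exact ⟨fun h => h.symm, fun h => h.symm⟩
    rw [h2]
    constructor
    · rintro ⟨h3, h4⟩
      exact ⟨by omega, by omega, h4⟩
    · rintro ⟨_, h3, h4⟩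
      exact ⟨by omega, h4⟩
  by_cases hc : m ≠ n ∧ m % Q = n % Q
  · rw [if_pos hc, sum_eq_single ((m : ℤ) - n)]
    · rw [if_pos (by ring)]
    · intro h _ hne
      rw [if_neg]
      intro h2
      exact hne (by omega)
    · intro h2
      exact absurd (hmod.mp hc) h2
  · rw [if_neg hc]
    symm
    refine sum_eq_zero fun h hh => ?_
    rw [if_neg]
    intro h2
    have : h = (m : ℤ) - n := by omega
    rw [this] at hh
    exact hc (hmod.mpr hh)

theorem ov_card (N Q : ℕ) (hQ : 1 ≤ Q) : ((ovS N Q).card : ℝ) ≤ 2 * (N / Q) := by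
  classical
  have hsub : ovS N Q ⊆ ((Icc 1 (N / Q)).image (fun k : ℕ => ((k * Q : ℕ) : ℤ))) ∪
      ((Icc 1 (N / Q)).image (fun k : ℕ => -((k * Q : ℕ) : ℤ))) := by
    intro h hh
    unfold ovS at hh
    rw [mem_filter, Finset.mem_Icc] at hh
    obtain ⟨⟨h1, h2⟩, h3, c, hc⟩ := hh
    have hQ' : (1 : ℤ) ≤ Q := by exact_mod_cast hQ
    have hc0 : c ≠ 0 := by
      rintro rfl
      exact h3 (by rw [hc, mul_zero])
    have habs : (Q : ℤ) * |c| ≤ N := by
      have : |h| = Q * |c| := by rw [hc, abs_mul, Nat.abs_cast]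
      rw [← this, abs_le]
      exact ⟨h1, h2⟩
    have hk : c.natAbs ∈ Icc 1 (N / Q) := by
      rw [Finset.mem_Icc]
      refine ⟨Int.natAbs_pos.mpr hc0, ?_⟩
      rw [Nat.le_div_iff_mul_le (by omega)]
      have : ((c.natAbs * Q : ℕ) : ℤ) ≤ N := by
        push_cast
        linarith
      exact_mod_cast this
    rw [mem_union, mem_image, mem_image]
    rcases le_total 0 c with hs | hs
    · left
      refine ⟨c.natAbs, hk, ?_⟩
      push_cast
      rw [abs_of_nonneg hs, hc]; ring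
    · right
      refine ⟨c.natAbs, hk, ?_⟩
      push_cast
      rw [abs_of_nonpos hs, hc]; ring
  have h1 : (ovS N Q).card ≤ N / Q + N / Q := by
    refine (card_le_card hsub).trans ((card_union_le _ _).trans ?_)
    refine add_le_add (card_image_le.trans ?_) (card_image_le.trans ?_) <;> simp
  have h2 : ((N / Q : ℕ) : ℝ) ≤ (N : ℝ) / Q := Nat.cast_div_le
  calc ((ovS N Q).card : ℝ) ≤ ((N / Q + N / Q : ℕ) : ℝ) := by exact_mod_cast h1
    _ = 2 * ((N / Q : ℕ) : ℝ) := by push_cast; ring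
    _ ≤ _ := by linarith

/-- OV -/
theorem off_var (N : ℕ) (F b : ℕ → ℝ) (lam T Y : ℝ) (hY : 1 ≤ Y)
    (hT : ∀ h ∈ Icc 1 N, (h.divisors.card : ℝ) ≤ T)
    (hb : ∀ α : ℝ, ‖∑ n ∈ Icc 1 N, ((b n : ℝ) : ℂ) * e (n * α)‖ ≤ lam)
    (QQ : Finset ℕ) (hQ : ∀ Q ∈ QQ, Y ≤ (Q : ℝ)) :
    ∑ Q ∈ QQ, off N Q F b ^ 2 ≤ (2 * N / Y) * T * lam ^ 2 * ∑ n ∈ Icc 1 N, F n ^ 2 := by
  classical
  rcases Nat.eq_zero_or_pos N with h0 | hN
  · subst h0
    have : ∀ Q ∈ QQ, off 0 Q F b ^ 2 = 0 := by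
      intro Q _
      simp [off]
    rw [sum_congr rfl this]
    simp
  have hT1 : 1 ≤ T := by
    have := hT 1 (by rw [Finset.mem_Icc]; omega)
    simpa using this
  have hNr : (0 : ℝ) < N := by exact_mod_cast hN
  have hYp : 0 < Y := by linarith
  have hPV := parseval_shift N F b lam hb
  have hstep : ∀ Q ∈ QQ, off N Q F b ^ 2 ≤ (2 * N / Y) * ∑ h ∈ ovS N Q, ovC N F b h ^ 2 := by
    intro Q hQQ
    have hYQ := hQ Q hQQ
    have hQ1 : 1 ≤ Q := by
      have : (1 : ℝ) ≤ Q := hY.trans hYQ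
      exact_mod_cast this
    have hQr : (0 : ℝ) < Q := by exact_mod_cast hQ1
    rw [ov_off]
    refine (sq_sum_le_card_mul_sum_sq (s := ovS N Q) (f := ovC N F b)).trans ?_
    refine mul_le_mul_of_nonneg_right ?_ (sum_nonneg fun h _ => sq_nonneg _)
    refine (ov_card N Q hQ1).trans ?_
    rw [mul_div_assoc]
    refine mul_le_mul_of_nonneg_left ?_ (by norm_num)
    exact div_le_div_of_nonneg_left hNr.le hYp hYQ
  have hswap : ∑ Q ∈ QQ, ∑ h ∈ ovS N Q, ovC N F b h ^ 2 ≤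
      T * ∑ h ∈ Icc (-(N : ℤ)) N, ovC N F b h ^ 2 := by
    have h1 : ∀ Q ∈ QQ, ∑ h ∈ ovS N Q, ovC N F b h ^ 2 =
        ∑ h ∈ Icc (-(N : ℤ)) N, if h ≠ 0 ∧ (Q : ℤ) ∣ h then ovC N F b h ^ 2 else 0 :=
      fun Q _ => sum_filter _ _
    rw [sum_congr rfl h1, sum_comm, mul_sum]
    refine sum_le_sum fun h hh => ?_
    rw [Finset.mem_Icc] at hh
    have h2 : ∀ Q ∈ QQ, (if h ≠ 0 ∧ (Q : ℤ) ∣ h then ovC N F b h ^ 2 else 0) =
        (if h ≠ 0 ∧ (Q : ℤ) ∣ h then (1 : ℝ) else 0) * ovC N F b h ^ 2 := by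
      intro Q _
      split_ifs <;> simp
    rw [sum_congr rfl h2, ← sum_mul]
    refine mul_le_mul_of_nonneg_right ?_ (sq_nonneg _)
    rw [← sum_filter, sum_const, nsmul_eq_mul, mul_one]
    by_cases h3 : h = 0
    · rw [filter_false_of_mem]
      · simp only [card_empty, CharP.cast_eq_zero]; linarith
      · intro Q _ h4
        exact h4.1 h3
    · refine le_trans ?_ (hT h.natAbs (by
        rw [Finset.mem_Icc]
        refine ⟨Int.natAbs_pos.mpr h3, ?_⟩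
        omega))
      have hsub : QQ.filter (fun Q : ℕ => h ≠ 0 ∧ (Q : ℤ) ∣ h) ⊆ h.natAbs.divisors := by
        intro Q hQ2
        rw [mem_filter] at hQ2
        rw [Nat.mem_divisors]
        exact ⟨Int.natCast_dvd.mp hQ2.2.2, Int.natAbs_ne_zero.mpr h3⟩
      exact_mod_cast card_le_card hsub
  calc ∑ Q ∈ QQ, off N Q F b ^ 2
      ≤ ∑ Q ∈ QQ, (2 * N / Y) * ∑ h ∈ ovS N Q, ovC N F b h ^ 2 := sum_le_sum hstep
    _ = (2 * N / Y) * ∑ Q ∈ QQ, ∑ h ∈ ovS N Q, ovC N F b h ^ 2 := by rw [mul_sum]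
    _ ≤ (2 * N / Y) * (T * (lam ^ 2 * ∑ n ∈ Icc 1 N, F n ^ 2)) := by
        refine mul_le_mul_of_nonneg_left ?_ (by positivity)
        refine hswap.trans (mul_le_mul_of_nonneg_left ?_ (by linarith))
        exact hPV
    _ = _ := by ring

end Pool.Agent.FG61
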