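import Pool.Agent.Lib_helper61.FG.P.GR
import Pool.Agent.Lib_helper61.FG.P.PS
import Pool.Agent.Lib_helper61.FG.P.FE
import Pool.Agent.Lib_helper61.FG.P.GB
import Pool.Agent.Lib_helper61.FG.P.IP
import Pool.Agent.Lib_helper61.FG.P.IL
import Pool.Agent.Lib_helper61.FG.P.LQ
import Pool.Agent.Lib_helper61.FG.P.OV
import Pool.Agent.Lib_helper61.FG.P.CS
import Pool.Agent.Lib_helper61.FG.P.DU
import Pool.Agent.Lib_helper61.FG.P.SU
import Pool.Agent.Lib_helper61.FG.DivB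
import Pool.Agent.Lib_helper73.Var.Pnt

set_option autoImplicit false

namespace Pool.Agent.FG61

open Finset Filter Topology
open Pool.Agent.Var35 (e)

lemma bb_eq (K R n : ℕ) (hKR : K ≤ R) (hn : 1 ≤ n) : bb K R n = ff (R : ℝ) n - gg K R n := by
  rw [ff_expand R n hn]
  unfold bb gg
  have h : Icc 1 R = Icc 1 K ∪ Ioc K R := by
    ext r; simp only [mem_union, mem_Icc, mem_Ioc]; omega
  have hd : Disjoint (Icc 1 K) (Ioc K R) := by
    rw [Finset.disjoint_left]; intro r h1 h2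
    rw [mem_Icc] at h1; rw [mem_Ioc] at h2; omega
  rw [h, Finset.sum_union hd]; ring

/-- the diagonal terms -/
theorem core_diag (δ : ℝ) (hδ : 0 < δ) (hδ1 : δ ≤ 1) : ∃ C : ℝ, 0 ≤ C ∧ ∀ᶠ N : ℕ in atTop,
    ∀ K R : ℕ, 1 ≤ K → K ≤ R → R ≤ N →
    (N : ℝ) * (Real.log R - Real.log K) - 5 * δ * (N * Real.log N) - C * N
      - C * ((N / R) ^ 2 * Real.log (N / R) ^ 2) - 9 * ((R : ℝ) * K * (1 + Real.log N) ^ 6)
      ≤ 2 * ∑ n ∈ Icc 1 N, Lam n * bb K R n - ∑ n ∈ Icc 1 N, bb K R n ^ 2 := by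
  obtain ⟨C1, hC1, hgr⟩ := graham δ hδ
  obtain ⟨C2, hC2, hph⟩ := phi_sum
  refine ⟨C1 + 4 * C2, by positivity, ?_⟩
  filter_upwards [lam_sq δ hδ, Pool.Agent.Var73.pnt_unif δ hδ, eventually_ge_atTop 1] with N hN1 hN2 hN3 K R hK hKR hRN
  have hR1 : 1 ≤ R := hK.trans hKR
  have hR1' : (1:ℝ) ≤ R := by exact_mod_cast hR1
  have hK1' : (1:ℝ) ≤ K := by exact_mod_cast hK
  have hRN' : (R:ℝ) ≤ N := by exact_mod_cast hRN
  have hKR' : (K:ℝ) ≤ R := by exact_mod_cast hKR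
  have hN0 : (0:ℝ) < N := by linarith
  have hH := hgr N R hR1' hRN'
  set ψ : ℝ := ∑ n ∈ Icc 1 N, Lam n with hψ
  have hψ0 : 0 ≤ ψ := Finset.sum_nonneg fun n _ => ArithmeticFunction.vonMangoldt_nonneg
  have hψ1 : ψ ≤ (1 + δ) * N := by
    have := hN2 N le_rfl
    rw [abs_le] at this
    have h2 := this.2
    have h3 : ∑ n ∈ Icc 1 N, ArithmeticFunction.vonMangoldt n = ψ := rfl
    rw [h3] at h2
    linarith
  set S1 : ℝ := ∑ r ∈ Icc 1 K, gam R r * mu r with hS1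
  set S2 : ℝ := ∑ r ∈ Icc 1 K, gam R r ^ 2 * phi r with hS2
  set E : ℝ := (R : ℝ) * K * (1 + Real.log N) ^ 6 with hE
  have hl6 : 0 ≤ (1 + Real.log N) ^ 6 := by positivity
  have hlN : 0 ≤ Real.log N := Real.log_natCast_nonneg N
  have h1 := ip_fg N K R hK hKR hRN
  have h2 := ip_gg N K R hK hKR hRN
  have h3 := ip_lg N K R hK hKR hRN
  rw [abs_le] at h1 h2 h3
  have hE2 : (K : ℝ) * K * (1 + Real.log N) ^ 6 ≤ E := by
    rw [hE]; gcongr
  have hE3 : 3 * (K : ℝ) * (1 + Real.log N) ^ 6 ≤ 3 * E := by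
    rw [hE]
    have : (K:ℝ) * (1 + Real.log N) ^ 6 ≤ R * K * (1 + Real.log N) ^ 6 := by
      have h5 : (1:ℝ) * (K * (1 + Real.log N) ^ 6) ≤ R * (K * (1 + Real.log N) ^ 6) :=
        mul_le_mul_of_nonneg_right hR1' (by positivity)
      linarith
    linarith
  -- completing the square
  have hsq : 2 * ψ * S1 - N * S2 ≤ (1 + 3 * δ) * N * (Real.log K + C2) := by
    have hterm : ∀ r ∈ Icc 1 K, 2 * ψ * (gam R r * mu r) - N * (gam R r ^ 2 * phi r) ≤ ψ ^ 2 / N * (mu r ^ 2 / phi r) := by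
      intro r hr
      rw [mem_Icc] at hr
      have hphi : 0 < phi r := by
        unfold phi; exact_mod_cast Nat.totient_pos.2 hr.1
      have : ψ ^ 2 / N * (mu r ^ 2 / phi r) - (2 * ψ * (gam R r * mu r) - N * (gam R r ^ 2 * phi r))
          = (N * phi r) * (gam R r - ψ * mu r / (N * phi r)) ^ 2 := by
        field_simp
        ring
      have h6 : 0 ≤ (N * phi r) * (gam R r - ψ * mu r / (N * phi r)) ^ 2 := by positivity
      linarith
    have h7 : 2 * ψ * S1 - N * S2 ≤ ψ ^ 2 / N * ∑ r ∈ Icc 1 K, mu r ^ 2 / phi r := by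
      have e1 : 2 * ψ * S1 = ∑ r ∈ Icc 1 K, 2 * ψ * (gam R r * mu r) := Finset.mul_sum _ _ _
      have e2 : (N:ℝ) * S2 = ∑ r ∈ Icc 1 K, (N:ℝ) * (gam R r ^ 2 * phi r) := Finset.mul_sum _ _ _
      have e3 : ψ ^ 2 / N * ∑ r ∈ Icc 1 K, mu r ^ 2 / phi r = ∑ r ∈ Icc 1 K, ψ ^ 2 / N * (mu r ^ 2 / phi r) :=
        Finset.mul_sum _ _ _
      rw [e1, e2, e3, ← Finset.sum_sub_distrib]
      exact Finset.sum_le_sum hterm
    have h8 : ψ ^ 2 / N ≤ (1 + 3 * δ) * N := by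
      rw [div_le_iff₀ hN0]
      have : ψ ^ 2 ≤ ((1 + δ) * N) ^ 2 := pow_le_pow_left₀ hψ0 hψ1 2
      nlinarith [mul_pos hN0 hN0, mul_nonneg (mul_pos hδ (mul_pos hN0 hN0)).le (sub_nonneg.2 hδ1)]
    have h9 := hph K hK
    have h10 : 0 ≤ Real.log K + C2 := by
      have := Real.log_nonneg hK1'; linarith
    calc 2 * ψ * S1 - N * S2 ≤ ψ ^ 2 / N * ∑ r ∈ Icc 1 K, mu r ^ 2 / phi r := h7
      _ ≤ ψ ^ 2 / N * (Real.log K + C2) := mul_le_mul_of_nonneg_left h9 (by positivity)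
      _ ≤ (1 + 3 * δ) * N * (Real.log K + C2) := mul_le_mul_of_nonneg_right h8 h10
  -- algebra
  have hid : 2 * ∑ n ∈ Icc 1 N, Lam n * bb K R n - ∑ n ∈ Icc 1 N, bb K R n ^ 2
      = ∑ n ∈ Icc 1 N, Lam n ^ 2 - ∑ n ∈ Icc 1 N, (ff (R:ℝ) n - Lam n) ^ 2
        + 2 * ∑ n ∈ Icc 1 N, ff (R:ℝ) n * gg K R n - 2 * ∑ n ∈ Icc 1 N, Lam n * gg K R n
        - ∑ n ∈ Icc 1 N, gg K R n ^ 2 := by
    rw [Finset.mul_sum, Finset.mul_sum, Finset.mul_sum, ← Finset.sum_sub_distrib, ← Finset.sum_sub_distrib,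
      ← Finset.sum_add_distrib, ← Finset.sum_sub_distrib, ← Finset.sum_sub_distrib]
    apply Finset.sum_congr rfl
    intro n hn
    rw [mem_Icc] at hn
    rw [bb_eq K R n hKR hn.1]
    ring
  rw [hid]
  have hlogNR : Real.log (N / R) = Real.log N - Real.log R := Real.log_div hN0.ne' (by positivity)
  have hlogR : 0 ≤ Real.log R := Real.log_nonneg hR1'
  have hlogRN : Real.log R ≤ Real.log N := Real.log_le_log (by linarith) hRN'
  have hlogK : 0 ≤ Real.log K := Real.log_nonneg hK1'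
  have hlogKN : Real.log K ≤ Real.log N := Real.log_le_log (by linarith) (by linarith)
  have hH' : ∑ n ∈ Icc 1 N, (ff (R:ℝ) n - Lam n) ^ 2 ≤ N * (Real.log N - Real.log R) + δ * (N * Real.log N) + C1 * N
      + C1 * ((N / R) ^ 2 * Real.log (N / R) ^ 2) := by
    have h11 : δ * (N * (Real.log N - Real.log R)) ≤ δ * (N * Real.log N) := by
      apply mul_le_mul_of_nonneg_left _ hδ.le
      apply mul_le_mul_of_nonneg_left _ hN0.le
      linarith
    have h12 : (1 + δ) * N * Real.log (N / R) = N * (Real.log N - Real.log R) + δ * (N * (Real.log N - Real.log R)) := by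
      rw [hlogNR]; ring
    linarith [hH]
  have hsq' : 2 * ψ * S1 - N * S2 ≤ N * Real.log K + 3 * δ * (N * Real.log N) + 4 * C2 * N := by
    have h13 : 3 * δ * (N * Real.log K) ≤ 3 * δ * (N * Real.log N) := by
      apply mul_le_mul_of_nonneg_left _ (by positivity)
      exact mul_le_mul_of_nonneg_left hlogKN hN0.le
    have h14 : 3 * δ * (N * C2) ≤ 3 * (N * C2) := by
      have : 0 ≤ N * C2 := by positivity
      nlinarith
    calc 2 * ψ * S1 - N * S2 ≤ (1 + 3 * δ) * N * (Real.log K + C2) := hsq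
      _ = N * Real.log K + 3 * δ * (N * Real.log K) + N * C2 + 3 * δ * (N * C2) := by ring
      _ ≤ _ := by linarith
  have hC1' : 0 ≤ C2 * ((N / R) ^ 2 * Real.log (N / R) ^ 2) := by positivity
  nlinarith [h1.1, h1.2, h2.1, h2.2, h3.1, h3.2, hN1, hH', hsq', hE2, hE3, hC1']

end Pool.Agent.FG61
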