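import Pool.Agent.Lib_helper61.FG.P.Core
import Pool.Agent.Lib_helper35.Var.Elem

set_option autoImplicit false

namespace Pool.Agent.FG61

open Finset Filter Topology
open Pool.Agent.Var35 (e)

/-- choice of the parameters -/
lemma params (X Y V v : ℝ) (hv : 1000 ≤ v) (hvX : v ^ 512 ≤ X) (hY0 : 0 < Y) (hYX : Y ≤ X) (hV : 1 ≤ V)
    (hXY : X * v ^ 512 * V ≤ 4 * Y ^ 2) :
    ∃ K R : ℕ, 1 ≤ K ∧ K ≤ R ∧ R ≤ ⌊X⌋₊ ∧ X / Y * Real.sqrt V * v ^ 32 ≤ K ∧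
      (K : ℝ) ≤ 2 * (X / Y * Real.sqrt V * v ^ 32) ∧ v ^ 448 * (K : ℝ) ^ 2 ≤ 16 * X ∧
      (R : ℝ) * K * v ^ 32 ≤ X ∧ X ≤ 2 * v ^ 32 * K * R := by
  have hv0 : 0 < v := by linarith
  have hv1 : 1 ≤ v := by linarith
  have hX0 : 0 < X := lt_of_lt_of_le hY0 hYX
  have hsV : 1 ≤ Real.sqrt V := by rw [Real.one_le_sqrt]; exact hV
  have hsV2 : Real.sqrt V ^ 2 = V := Real.sq_sqrt (by linarith)
  set Kr : ℝ := X / Y * Real.sqrt V * v ^ 32 with hKr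
  have hXY1 : 1 ≤ X / Y := by rw [le_div_iff₀ hY0]; linarith
  have hv32 : 1 ≤ v ^ 32 := one_le_pow₀ hv1
  have hKr1 : 1 ≤ Kr := by
    rw [hKr]
    exact one_le_mul_of_one_le_of_one_le (one_le_mul_of_one_le_of_one_le hXY1 hsV) hv32
  set K : ℕ := ⌈Kr⌉₊ with hK
  have hK1 : Kr ≤ K := Nat.le_ceil _
  have hK2 : (K : ℝ) ≤ 2 * Kr := by
    have := Nat.ceil_lt_add_one (by linarith : (0:ℝ) ≤ Kr)
    rw [← hK] at this; linarith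
  have hK0 : (0 : ℝ) < K := by linarith
  have hKr2 : v ^ 448 * Kr ^ 2 ≤ 4 * X := by
    have h1 : Kr ^ 2 = X ^ 2 * V * v ^ 64 / Y ^ 2 := by
      rw [hKr, mul_pow, mul_pow, hsV2, div_pow]; ring
    rw [h1, ← mul_div_assoc, div_le_iff₀ (by positivity)]
    calc v ^ 448 * (X ^ 2 * V * v ^ 64) = X * (X * v ^ 512 * V) := by ring
      _ ≤ X * (4 * Y ^ 2) := mul_le_mul_of_nonneg_left hXY hX0.le
      _ = 4 * X * Y ^ 2 := by ring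
  have hKsq : v ^ 448 * (K : ℝ) ^ 2 ≤ 16 * X := by
    have h1 : (K : ℝ) ^ 2 ≤ (2 * Kr) ^ 2 := pow_le_pow_left₀ hK0.le hK2 2
    calc v ^ 448 * (K : ℝ) ^ 2 ≤ v ^ 448 * (2 * Kr) ^ 2 := mul_le_mul_of_nonneg_left h1 (by positivity)
      _ = 4 * (v ^ 448 * Kr ^ 2) := by ring
      _ ≤ 16 * X := by linarith
  have hq0 : 0 < v ^ 32 * (K : ℝ) := by positivity
  set Rr : ℝ := X / (v ^ 32 * K) with hRr
  have hRr2 : 2 * (K : ℝ) ≤ Rr := by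
    rw [hRr, le_div_iff₀ hq0]
    have h1 : v ^ 448 = v ^ 32 * v ^ 416 := by ring
    have h2 : (1000:ℝ) ≤ v ^ 416 := le_trans hv (le_self_pow₀ hv1 (by norm_num))
    have h3 : 0 ≤ v ^ 32 * (K:ℝ) ^ 2 := by positivity
    have h4 : v ^ 32 * (K:ℝ) ^ 2 * 1000 ≤ v ^ 32 * (K:ℝ) ^ 2 * v ^ 416 := mul_le_mul_of_nonneg_left h2 h3
    have h5 : v ^ 32 * (K:ℝ) ^ 2 * v ^ 416 ≤ 16 * X := by
      calc v ^ 32 * (K:ℝ) ^ 2 * v ^ 416 = v ^ 448 * (K : ℝ) ^ 2 := by ring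
        _ ≤ 16 * X := hKsq
    have h6 : 2 * (K:ℝ) * (v ^ 32 * K) = 2 * (v ^ 32 * (K:ℝ) ^ 2) := by ring
    rw [h6]
    linarith
  have hK1' : (1:ℝ) ≤ K := le_trans hKr1 hK1
  have hRr0 : 0 ≤ Rr := by linarith
  set R : ℕ := ⌊Rr⌋₊ with hR
  have hR1 : (R : ℝ) ≤ Rr := Nat.floor_le hRr0
  have hR2 : Rr < R + 1 := Nat.lt_floor_add_one _
  have hR3 : Rr ≤ 2 * R := by linarith
  have hRX : Rr * (v ^ 32 * K) = X := by
    rw [hRr]; field_simp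
  refine ⟨K, R, ?_, ?_, ?_, hK1, hK2, hKsq, ?_, ?_⟩
  · exact_mod_cast hK1'
  · rw [hR, Nat.le_floor_iff hRr0]; linarith
  · rw [hR]
    apply Nat.floor_mono
    rw [hRr]
    apply div_le_self hX0.le
    exact one_le_mul_of_one_le_of_one_le hv32 hK1'
  · calc (R : ℝ) * K * v ^ 32 = R * (v ^ 32 * K) := by ring
      _ ≤ Rr * (v ^ 32 * K) := mul_le_mul_of_nonneg_right hR1 hq0.le
      _ = X := hRX
  · calc X = Rr * (v ^ 32 * K) := hRX.symm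
      _ ≤ 2 * R * (v ^ 32 * K) := mul_le_mul_of_nonneg_right hR3 hq0.le
      _ = 2 * v ^ 32 * K * R := by ring

/-- the number of moduli with a large off-diagonal term -/
lemma bad_card (X Y V v : ℝ) (K : ℕ) (hv : 1000 ≤ v) (hY1 : 1 ≤ Y) (hYX : Y ≤ X) (hV : 1 ≤ V)
    (hK : X / Y * Real.sqrt V * v ^ 32 ≤ K) (F b : ℕ → ℝ)
    (hT : ∀ h ∈ Icc 1 ⌊X⌋₊, (h.divisors.card : ℝ) ≤ v)
    (hb : ∀ α : ℝ, ‖∑ n ∈ Icc 1 ⌊X⌋₊, ((b n : ℝ) : ℂ) * e (n * α)‖ ≤ X * v / K)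
    (hF : ∑ n ∈ Icc 1 ⌊X⌋₊, F n ^ 2 ≤ X * v ^ 4) :
    (((Ioc ⌊Y⌋₊ ⌊2 * Y⌋₊).filter (fun Q => X / v < |off ⌊X⌋₊ Q F b|)).card : ℝ) ≤ Y / (2 * V) := by
  have hv0 : 0 < v := by linarith
  have hv1 : 1 ≤ v := by linarith
  have hY0 : 0 < Y := by linarith
  have hX0 : 0 < X := lt_of_lt_of_le hY0 hYX
  have hV0 : 0 < V := by linarith
  set N : ℕ := ⌊X⌋₊ with hN
  have hNX : (N : ℝ) ≤ X := Nat.floor_le hX0.le
  have hsV : 1 ≤ Real.sqrt V := by rw [Real.one_le_sqrt]; exact hV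
  have hsV2 : Real.sqrt V ^ 2 = V := Real.sq_sqrt (by linarith)
  have hKr0 : 0 < X / Y * Real.sqrt V * v ^ 32 := by positivity
  have hK0 : (0:ℝ) < K := lt_of_lt_of_le hKr0 hK
  set QQ := (Ioc ⌊Y⌋₊ ⌊2 * Y⌋₊).filter (fun Q => X / v < |off N Q F b|) with hQQ
  have hQY : ∀ Q ∈ QQ, Y ≤ (Q : ℝ) := by
    intro Q hQ
    rw [hQQ, mem_filter, mem_Ioc] at hQ
    have h1 : Y < ⌊Y⌋₊ + 1 := Nat.lt_floor_add_one _
    have h2 : ((⌊Y⌋₊ : ℕ) : ℝ) + 1 ≤ Q := by exact_mod_cast hQ.1.1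
    linarith
  have h1 := off_var N F b (X * v / K) v Y hY1 hT hb QQ hQY
  have h2 : (QQ.card : ℝ) * (X / v) ^ 2 ≤ ∑ Q ∈ QQ, off N Q F b ^ 2 := by
    rw [← nsmul_eq_mul]
    apply Finset.card_nsmul_le_sum
    intro Q hQ
    rw [hQQ, mem_filter] at hQ
    have h3 : 0 ≤ X / v := by positivity
    calc (X / v) ^ 2 ≤ |off N Q F b| ^ 2 := pow_le_pow_left₀ h3 hQ.2.le 2
      _ = off N Q F b ^ 2 := sq_abs _
  have h3 : (QQ.card : ℝ) * (X / v) ^ 2 ≤ 2 * X / Y * v * (X * v / K) ^ 2 * (X * v ^ 4) := by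
    refine h2.trans (h1.trans ?_)
    have hF0 : 0 ≤ ∑ n ∈ Icc 1 N, F n ^ 2 := Finset.sum_nonneg fun n _ => sq_nonneg _
    have h4 : 2 * (N:ℝ) / Y * v * (X * v / K) ^ 2 ≤ 2 * X / Y * v * (X * v / K) ^ 2 := by
      gcongr
    exact mul_le_mul h4 hF hF0 (by positivity)
  have h5 : (QQ.card : ℝ) ≤ 2 * X ^ 2 * v ^ 9 / (Y * K ^ 2) := by
    have h6 : 0 < (X / v) ^ 2 := by positivity
    have h7 : 2 * X / Y * v * (X * v / K) ^ 2 * (X * v ^ 4) = 2 * X ^ 2 * v ^ 9 / (Y * K ^ 2) * (X / v) ^ 2 := by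
      field_simp
    rw [h7] at h3
    exact le_of_mul_le_mul_right h3 h6
  refine h5.trans ?_
  have h8 : X ^ 2 * V * v ^ 64 ≤ Y ^ 2 * K ^ 2 := by
    have h9 : (X / Y * Real.sqrt V * v ^ 32) ^ 2 ≤ (K:ℝ) ^ 2 := pow_le_pow_left₀ hKr0.le hK 2
    have h10 : (X / Y * Real.sqrt V * v ^ 32) ^ 2 = X ^ 2 * V * v ^ 64 / Y ^ 2 := by
      rw [mul_pow, mul_pow, hsV2, div_pow]; ring
    rw [h10, div_le_iff₀ (by positivity)] at h9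
    linarith
  rw [div_le_div_iff₀ (by positivity) (by positivity)]
  have h11 : 4 * v ^ 9 ≤ v ^ 64 := by
    have : v ^ 64 = v ^ 9 * v ^ 55 := by ring
    rw [this]
    have h12 : (4:ℝ) ≤ v ^ 55 := le_trans (by linarith) (le_self_pow₀ hv1 (by norm_num : (55:ℕ) ≠ 0))
    nlinarith [pow_pos hv0 9]
  calc 2 * X ^ 2 * v ^ 9 * (2 * V) = X ^ 2 * V * (4 * v ^ 9) := by ring
    _ ≤ X ^ 2 * V * v ^ 64 := mul_le_mul_of_nonneg_left h11 (by positivity)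
    _ ≤ Y ^ 2 * K ^ 2 := h8
    _ = Y * (Y * K ^ 2) := by ring

end Pool.Agent.FG61
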