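import Pool.Agent.Lib_helper61.FG.P.MainA

set_option autoImplicit false

namespace Pool.Agent.FG61

open Finset Filter Topology
open Pool.Agent.Var35 (e)

/-- a modulus with small off-diagonal terms has a large variance -/
lemma good_Q (ε X Y V v C : ℝ) (K R : ℕ) (hε : 0 < ε) (hC : 0 ≤ C) (hv : 1000 ≤ v) (hvX : v ^ 512 ≤ X)
    (hY1 : 1 ≤ Y) (hYX : Y ≤ X) (hV : 1 ≤ V) (hXY : X * v ^ 512 * V ≤ 4 * Y ^ 2)
    (hK1 : 1 ≤ K) (hKR : K ≤ R) (hRN : R ≤ ⌊X⌋₊) (hK2 : X / Y * Real.sqrt V * v ^ 32 ≤ K)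
    (hK3 : (K : ℝ) ≤ 2 * (X / Y * Real.sqrt V * v ^ 32)) (hK4 : v ^ 448 * (K : ℝ) ^ 2 ≤ 16 * X)
    (hRK : (R : ℝ) * K * v ^ 32 ≤ X) (hRK2 : X ≤ 2 * v ^ 32 * K * R)
    (hL1 : 2 * (1 + Real.log (2 * X)) ^ 8 ≤ v) (hL3 : C * (1 + Real.log (2 * X)) ^ 8 ≤ v)
    (htau : ∀ n : ℕ, 1 ≤ n → (n : ℝ) ≤ 2 * X → (n.divisors.card : ℝ) ≤ v)
    (hb : ∀ α : ℝ, ‖∑ n ∈ Icc 1 ⌊X⌋₊, ((bb K R n : ℝ) : ℂ) * e (n * α)‖ ≤ X * v / K)
    (hB : ∀ n ∈ Icc 1 ⌊X⌋₊, |bb K R n| ≤ v ^ 2)
    (hcore : ((⌊X⌋₊ : ℕ) : ℝ) * (Real.log R - Real.log K)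
      - 5 * (ε / 40) * (((⌊X⌋₊ : ℕ) : ℝ) * Real.log ((⌊X⌋₊ : ℕ) : ℝ)) - C * ((⌊X⌋₊ : ℕ) : ℝ)
      - C * ((((⌊X⌋₊ : ℕ) : ℝ) / R) ^ 2 * Real.log (((⌊X⌋₊ : ℕ) : ℝ) / R) ^ 2)
      - 9 * ((R : ℝ) * K * (1 + Real.log ((⌊X⌋₊ : ℕ) : ℝ)) ^ 6)
      ≤ 2 * ∑ n ∈ Icc 1 ⌊X⌋₊, Lam n * bb K R n - ∑ n ∈ Icc 1 ⌊X⌋₊, bb K R n ^ 2)
    (hfin : C + 6 ≤ 11 / 16 * (ε * Real.log X)) (hlv : Real.log v = ε / 512 * Real.log X)
    (Q : ℕ) (hQ1 : Y < Q) (hQ2 : (Q : ℝ) ≤ 2 * Y)
    (ho1 : |off ⌊X⌋₊ Q Lam (bb K R)| ≤ X / v) (ho2 : |off ⌊X⌋₊ Q (bb K R) (bb K R)| ≤ X / v) :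
    X * (2 * Real.log Q - Real.log X - Real.log V - ε * Real.log X) ≤ GX X Q := by
  have hv0 : 0 < v := by linarith
  have hv1 : 1 ≤ v := by linarith
  have hY0 : 0 < Y := by linarith
  have hX0 : 0 < X := lt_of_lt_of_le hY0 hYX
  have hX1 : 1 ≤ X := hY1.trans hYX
  have hV0 : 0 < V := by linarith
  obtain ⟨N, hN⟩ : ∃ N, N = ⌊X⌋₊ := ⟨_, rfl⟩
  rw [← hN] at hRN hb hB hcore ho1 ho2
  have hNX : (N : ℝ) ≤ X := by rw [hN]; exact Nat.floor_le hX0.le
  have hNX2 : X < N + 1 := by rw [hN]; exact Nat.lt_floor_add_one _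
  have hR1 : 1 ≤ R := hK1.trans hKR
  have hN1 : 1 ≤ N := hR1.trans hRN
  have hQ0 : 1 ≤ Q := by
    have : (0:ℝ) < Q := by linarith
    exact_mod_cast this
  have hK1' : (1:ℝ) ≤ K := by exact_mod_cast hK1
  have hR1' : (1:ℝ) ≤ R := by exact_mod_cast hR1
  have hN1' : (1:ℝ) ≤ N := by exact_mod_cast hN1
  have hQ1' : (1:ℝ) ≤ Q := by exact_mod_cast hQ0
  have hK0 : (0:ℝ) < K := by linarith
  have hR0 : (0:ℝ) < R := by linarith
  have hN0 : (0:ℝ) < N := by linarith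
  have hQ0' : (0:ℝ) < Q := by linarith
  have hRN' : (R:ℝ) ≤ N := by exact_mod_cast hRN
  have hsV : 1 ≤ Real.sqrt V := by rw [Real.one_le_sqrt]; exact hV
  have hQX : (Q:ℝ) ≤ 2 * X := by linarith
  -- logs
  obtain ⟨L, hL⟩ : ∃ L, L = 1 + Real.log (2 * X) := ⟨_, rfl⟩
  rw [← hL] at hL1 hL3
  have hlog2X : 0 ≤ Real.log (2 * X) := Real.log_nonneg (by linarith)
  have hL0 : 1 ≤ L := by linarith
  have hLpow : ∀ k : ℕ, k ≤ 8 → L ^ k ≤ L ^ 8 := fun k hk => pow_le_pow_right₀ hL0 hk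
  have hlogN : Real.log N ≤ L := by
    have := Real.log_le_log hN0 (by linarith : (N:ℝ) ≤ 2 * X); linarith
  have hlogN1 : 1 + Real.log N ≤ L := by
    have := Real.log_le_log hN0 (by linarith : (N:ℝ) ≤ 2 * X); linarith
  have hlogN0 : 0 ≤ Real.log N := Real.log_nonneg hN1'
  have hlogNX : Real.log N ≤ Real.log X := Real.log_le_log hN0 hNX
  have hlogX0 : 0 ≤ Real.log X := Real.log_nonneg hX1
  have hlogQ : Real.log Q ≤ L := by
    have := Real.log_le_log hQ0' hQX; linarith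
  have hlogQ0 : 0 ≤ Real.log Q := Real.log_nonneg hQ1'
  have hXv : v ≤ X / v := by
    rw [le_div_iff₀ hv0]
    calc v * v = v ^ 2 := by ring
      _ ≤ v ^ 512 := pow_le_pow_right₀ hv1 (by norm_num)
      _ ≤ X := hvX
  have hXv0 : 0 ≤ X / v := by positivity
  -- the dual inequality
  have hdual := dual X N Q hN hX0.le hQ0 (bb K R) (v ^ 2) hB (by positivity)
  -- mean term
  have hmean : 2 * (X / phi Q) * |∑ m ∈ (Icc 1 N).filter (fun m => Nat.Coprime m Q), bb K R m| ≤ X / v := by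
    have h1 := cop_sum N Q hQ0 (bb K R) (X * v / K) hb
    have h2 := htau Q hQ0 hQX
    have hlam0 : 0 ≤ X * v / K := by positivity
    have h3 : |∑ m ∈ (Icc 1 N).filter (fun m => Nat.Coprime m Q), bb K R m| ≤ v * (X * v / K) :=
      h1.trans (mul_le_mul_of_nonneg_right h2 hlam0)
    have hphi0 : 0 < phi Q := by unfold phi; exact_mod_cast Nat.totient_pos.2 hQ0
    have h4 : X / phi Q ≤ X * v / Y := by
      have h5 := Pool.Agent.Var35.totient_ge Q hQ0
      have h6 : 2 * Real.log Q + 1 ≤ v := by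
        have h7 := hLpow 1 (by norm_num)
        rw [pow_one] at h7
        have h8 : Real.log Q ≤ L - 1 := by
          have := Real.log_le_log hQ0' hQX; linarith
        linarith
      rw [div_le_div_iff₀ hphi0 hY0]
      have h9 : Y ≤ v * phi Q := by
        calc Y ≤ Q := hQ1.le
          _ ≤ (2 * Real.log Q + 1) * phi Q := h5
          _ ≤ v * phi Q := mul_le_mul_of_nonneg_right h6 hphi0.le
      calc X * Y ≤ X * (v * phi Q) := mul_le_mul_of_nonneg_left h9 hX0.le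
        _ = X * v * phi Q := by ring
    have h10 : 2 * (X / phi Q) * |∑ m ∈ (Icc 1 N).filter (fun m => Nat.Coprime m Q), bb K R m|
        ≤ 2 * (X * v / Y) * (v * (X * v / K)) := by
      apply mul_le_mul _ h3 (abs_nonneg _) (by positivity)
      linarith
    refine h10.trans ?_
    have h11 : X * v ^ 32 ≤ Y * K := by
      have h12 : X / Y * v ^ 32 ≤ K := by
        refine le_trans ?_ hK2
        apply mul_le_mul_of_nonneg_right _ (by positivity)
        exact le_mul_of_one_le_right (by positivity) hsV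
      have h13 : X / Y * v ^ 32 = X * v ^ 32 / Y := by ring
      rw [h13, div_le_iff₀ hY0] at h12
      linarith
    have h14 : 2 * (X * v / Y) * (v * (X * v / K)) = 2 * X ^ 2 * v ^ 3 / (Y * K) := by
      field_simp
    rw [h14, div_le_div_iff₀ (by positivity) hv0]
    have h15 : 2 * v ^ 4 ≤ v ^ 32 := by
      have : v ^ 32 = v ^ 4 * v ^ 28 := by ring
      rw [this]
      have h12 : (4:ℝ) ≤ v ^ 28 := le_trans (by linarith) (le_self_pow₀ hv1 (by norm_num : (28:ℕ) ≠ 0))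
      nlinarith [pow_pos hv0 4]
    calc 2 * X ^ 2 * v ^ 3 * v = X * (X * (2 * v ^ 4)) := by ring
      _ ≤ X * (X * v ^ 32) := by gcongr
      _ ≤ X * (Y * K) := by gcongr
  -- noncoprime term
  have hnon : 2 * (∑ n ∈ (Icc 1 N).filter (fun n => ¬ Nat.Coprime n Q), Lam n) * (((N : ℝ) / Q + 1) * v ^ 2)
      ≤ X / v := by
    have h1 := Pool.Agent.Var35.E0_le N Q hQ0
    have h2 : ∑ n ∈ (Icc 1 N).filter (fun n => ¬ Nat.Coprime n Q), Lam n ≤ v := by
      refine le_trans h1 ?_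
      have h3 : Real.log Q * Real.log N ≤ L * L := mul_le_mul hlogQ hlogN hlogN0 (by linarith)
      have h4 := hLpow 2 (by norm_num)
      nlinarith
    have h20 : 0 ≤ ∑ n ∈ (Icc 1 N).filter (fun n => ¬ Nat.Coprime n Q), Lam n :=
      Finset.sum_nonneg fun n _ => ArithmeticFunction.vonMangoldt_nonneg
    have h5 : (N : ℝ) / Q + 1 ≤ 2 * (X / Y) := by
      have h6 : (N : ℝ) / Q ≤ X / Y := by
        gcongr
      have h7 : 1 ≤ X / Y := by rw [le_div_iff₀ hY0]; linarith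
      linarith
    have h8 : 4 * v ^ 4 ≤ Y := by
      by_contra hcon
      push Not at hcon
      have h9 : Y ^ 2 < (4 * v ^ 4) ^ 2 := pow_lt_pow_left₀ hcon hY0.le (by norm_num)
      have h10 : X * v ^ 512 * 1 ≤ X * v ^ 512 * V := mul_le_mul_of_nonneg_left hV (by positivity)
      have h11 : v ^ 512 * v ^ 512 ≤ X * v ^ 512 := mul_le_mul_of_nonneg_right hvX (by positivity)
      have h12 : v ^ 9 ≤ v ^ 1024 := pow_le_pow_right₀ hv1 (by norm_num)
      have h13 : v ^ 512 * v ^ 512 = v ^ 1024 := by ring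
      have h14 : 64 * v ^ 8 ≤ v ^ 9 := by
        have : v ^ 9 = v * v ^ 8 := by ring
        rw [this]
        exact mul_le_mul_of_nonneg_right (by linarith) (by positivity)
      have h15 : 4 * (4 * v ^ 4) ^ 2 = 64 * v ^ 8 := by ring
      linarith
    calc 2 * (∑ n ∈ (Icc 1 N).filter (fun n => ¬ Nat.Coprime n Q), Lam n) * (((N : ℝ) / Q + 1) * v ^ 2)
        ≤ 2 * v * (2 * (X / Y) * v ^ 2) := by gcongr
      _ = X * (4 * v ^ 3) / Y := by ring
      _ ≤ X / v := by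
          rw [div_le_div_iff₀ hY0 hv0]
          calc X * (4 * v ^ 3) * v = X * (4 * v ^ 4) := by ring
            _ ≤ X * Y := mul_le_mul_of_nonneg_left h8 hX0.le
  -- (N/R)^2 log^2
  have hsq : C * (((N : ℝ) / R) ^ 2 * Real.log ((N : ℝ) / R) ^ 2) ≤ X / v := by
    have h1 : (N : ℝ) / R ≤ 2 * v ^ 32 * K := by
      rw [div_le_iff₀ hR0]; linarith
    have h2 : 0 ≤ (N : ℝ) / R := by positivity
    have h3 : 0 ≤ Real.log ((N : ℝ) / R) := by
      apply Real.log_nonneg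
      rw [le_div_iff₀ hR0]; linarith
    have h4 : Real.log ((N : ℝ) / R) ≤ L := by
      have : Real.log ((N : ℝ) / R) ≤ Real.log N := by
        apply Real.log_le_log (by positivity)
        exact div_le_self hN0.le hR1'
      linarith
    have h5 : C * Real.log ((N : ℝ) / R) ^ 2 ≤ v := by
      have h6 : Real.log ((N : ℝ) / R) ^ 2 ≤ L ^ 8 :=
        (pow_le_pow_left₀ h3 h4 2).trans (hLpow 2 (by norm_num))
      exact (mul_le_mul_of_nonneg_left h6 hC).trans hL3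
    have h7 : ((N : ℝ) / R) ^ 2 ≤ (2 * v ^ 32 * K) ^ 2 := pow_le_pow_left₀ h2 h1 2
    calc C * (((N : ℝ) / R) ^ 2 * Real.log ((N : ℝ) / R) ^ 2)
        = ((N : ℝ) / R) ^ 2 * (C * Real.log ((N : ℝ) / R) ^ 2) := by ring
      _ ≤ (2 * v ^ 32 * K) ^ 2 * v := mul_le_mul h7 h5 (by positivity) (by positivity)
      _ ≤ X / v := by
          rw [le_div_iff₀ hv0]
          have h8 : 64 * v ^ 66 ≤ v ^ 448 := by
            have : v ^ 448 = v ^ 66 * v ^ 382 := by ring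
            rw [this]
            have h12 : (1000:ℝ) ≤ v ^ 382 := le_trans hv (le_self_pow₀ hv1 (by norm_num))
            nlinarith [pow_pos hv0 66]
          have h9 : 64 * v ^ 66 * (K:ℝ) ^ 2 ≤ v ^ 448 * (K:ℝ) ^ 2 := mul_le_mul_of_nonneg_right h8 (by positivity)
          calc (2 * v ^ 32 * (K:ℝ)) ^ 2 * v * v = 4 * v ^ 66 * (K:ℝ) ^ 2 := by ring
            _ ≤ X := by linarith
  -- R K log^6
  have hrk : 9 * ((R : ℝ) * K * (1 + Real.log N) ^ 6) ≤ X / v := by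
    have h1 : (1 + Real.log N) ^ 6 ≤ L ^ 8 :=
      (pow_le_pow_left₀ (by linarith) hlogN1 6).trans (hLpow 6 (by norm_num))
    have h2 : (1 + Real.log N) ^ 6 ≤ v := by
      have : 0 ≤ L ^ 8 := by positivity
      linarith
    rw [le_div_iff₀ hv0]
    have h3 : 9 * v ^ 2 ≤ v ^ 32 := by
      have : v ^ 32 = v ^ 2 * v ^ 30 := by ring
      rw [this]
      have h12 : (1000:ℝ) ≤ v ^ 30 := le_trans hv (le_self_pow₀ hv1 (by norm_num))
      nlinarith [pow_pos hv0 2]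
    calc 9 * ((R : ℝ) * K * (1 + Real.log N) ^ 6) * v ≤ 9 * ((R : ℝ) * K * v) * v := by gcongr
      _ = R * K * (9 * v ^ 2) := by ring
      _ ≤ R * K * v ^ 32 := by gcongr
      _ ≤ X := hRK
  -- the main term
  have hRlog0 : 0 ≤ Real.log R := Real.log_nonneg hR1'
  have hKlog0 : 0 ≤ Real.log K := Real.log_nonneg hK1'
  have hKRlog : Real.log K ≤ Real.log R := Real.log_le_log hK0 (by exact_mod_cast hKR)
  have hRNlog : Real.log R ≤ Real.log N := Real.log_le_log hR0 hRN'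
  have hl1 : Real.log X ≤ Real.log 2 + 32 * Real.log v + Real.log K + Real.log R := by
    have h1 := Real.log_le_log hX0 hRK2
    rw [Real.log_mul (by positivity) (by positivity), Real.log_mul (by positivity) (by positivity),
      Real.log_mul (by norm_num) (by positivity), Real.log_pow] at h1
    push_cast at h1
    linarith
  have hl2 : Real.log K ≤ Real.log 2 + (Real.log X - Real.log Y) + Real.log V / 2 + 32 * Real.log v := by
    have h1 := Real.log_le_log hK0 hK3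
    rw [Real.log_mul (by norm_num) (by positivity), Real.log_mul (by positivity) (by positivity),
      Real.log_mul (by positivity) (by positivity), Real.log_div hX0.ne' hY0.ne', Real.log_pow,
      Real.log_sqrt hV0.le] at h1
    push_cast at h1
    linarith
  have hl3 : Real.log Q ≤ Real.log 2 + Real.log Y := by
    have h1 := Real.log_le_log hQ0' hQ2
    rw [Real.log_mul (by norm_num) hY0.ne'] at h1
    exact h1
  have hlog2 : Real.log 2 ≤ 1 := by
    have := Real.log_two_lt_d9; linarith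
  obtain ⟨l, hl⟩ : ∃ l, l = Real.log R - Real.log K := ⟨_, rfl⟩
  rw [← hl] at hcore
  have hl0 : 0 ≤ l := by linarith
  have hlL : l ≤ X / v := by
    have h7 := hLpow 1 (by norm_num)
    rw [pow_one] at h7
    linarith
  have hNl : X * l - X / v ≤ N * l := by
    nlinarith
  have hll : 2 * Real.log Q - Real.log X - Real.log V - 96 * Real.log v - 5 ≤ l := by
    linarith
  have hNN : 5 * (ε / 40) * (N * Real.log N) ≤ X * (ε / 8 * Real.log X) := by
    have h1 : (N:ℝ) * Real.log N ≤ X * Real.log X := mul_le_mul hNX hlogNX hlogN0 hX0.le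
    have h2 : 5 * (ε / 40) * (N * Real.log N) = ε / 8 * (N * Real.log N) := by ring
    have h3 : X * (ε / 8 * Real.log X) = ε / 8 * (X * Real.log X) := by ring
    rw [h2, h3]
    exact mul_le_mul_of_nonneg_left h1 (by positivity)
  have hCN : C * N ≤ C * X := mul_le_mul_of_nonneg_left hNX hC
  have h8 : 8 * (X / v) ≤ X := by
    have : 8 * (X / v) = X * 8 / v := by ring
    rw [this, div_le_iff₀ hv0]
    nlinarith
  have hXl : X * (2 * Real.log Q - Real.log X - Real.log V - 96 * Real.log v - 5) ≤ X * l :=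
    mul_le_mul_of_nonneg_left hll hX0.le
  rw [hlv] at hXl
  have hfin' : X * (C + 6) ≤ X * (11 / 16 * (ε * Real.log X)) := mul_le_mul_of_nonneg_left hfin hX0.le
  linarith [hXl, hfin', hdual, hcore, hmean, hnon, hsq, hrk, hNl, hNN, hCN, h8]

end Pool.Agent.FG61
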