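import Pool.Agent.Lib_helper61.FG.P.MainB

set_option autoImplicit false

namespace Pool.Agent.FG61

open Finset Filter Topology
open Pool.Agent.Var35 (e)

lemma log8_le (C a : ℝ) (ha : 0 < a) : ∀ᶠ X : ℝ in atTop, C * (1 + Real.log (2 * X)) ^ 8 ≤ X ^ a := by
  have h1 : (fun x : ℝ => Real.log x ^ (8:ℝ)) =o[atTop] fun x : ℝ => x ^ a :=
    isLittleO_log_rpow_rpow_atTop 8 ha
  have hc : 0 < 1 / ((|C| + 1) * 3 ^ 8) := by positivity
  filter_upwards [h1.def hc, eventually_ge_atTop (Real.exp 1), eventually_ge_atTop 2] with X hX hXe hX2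
  have hX0 : 0 < X := by linarith
  have hlog1 : 1 ≤ Real.log X := by
    rw [Real.le_log_iff_exp_le hX0]; exact hXe
  have h2 : Real.log (2 * X) = Real.log 2 + Real.log X := Real.log_mul (by norm_num) hX0.ne'
  have h3 : Real.log 2 ≤ Real.log X := Real.log_le_log (by norm_num) hX2
  have h4 : 0 ≤ Real.log 2 := Real.log_nonneg (by norm_num)
  have h5 : 1 + Real.log (2 * X) ≤ 3 * Real.log X := by linarith
  have h6 : (1 + Real.log (2 * X)) ^ 8 ≤ (3 * Real.log X) ^ 8 := pow_le_pow_left₀ (by linarith) h5 8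
  rw [Real.norm_eq_abs, Real.norm_eq_abs, abs_of_nonneg (Real.rpow_nonneg (by linarith) _),
    abs_of_nonneg (Real.rpow_nonneg hX0.le _)] at hX
  have h7 : Real.log X ^ (8:ℝ) = Real.log X ^ 8 := by
    rw [← Real.rpow_natCast]; norm_num
  rw [h7] at hX
  have h8 : 0 ≤ (1 + Real.log (2 * X)) ^ 8 := by positivity
  calc C * (1 + Real.log (2 * X)) ^ 8 ≤ (|C| + 1) * (1 + Real.log (2 * X)) ^ 8 :=
        mul_le_mul_of_nonneg_right (by have := le_abs_self C; linarith) h8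
    _ ≤ (|C| + 1) * (3 * Real.log X) ^ 8 := mul_le_mul_of_nonneg_left h6 (by positivity)
    _ = (|C| + 1) * 3 ^ 8 * Real.log X ^ 8 := by ring
    _ ≤ (|C| + 1) * 3 ^ 8 * (1 / ((|C| + 1) * 3 ^ 8) * X ^ a) := mul_le_mul_of_nonneg_left hX (by positivity)
    _ = X ^ a := by field_simp

lemma tau_le (a : ℝ) (ha : 0 < a) : ∀ᶠ X : ℝ in atTop,
    ∀ n : ℕ, 1 ≤ n → (n : ℝ) ≤ 2 * X → (n.divisors.card : ℝ) ≤ X ^ a := by
  obtain ⟨C, hC, hd⟩ := divisor_bound (half_pos ha)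
  have h1 : Tendsto (fun X : ℝ => X ^ (a / 2)) atTop atTop := tendsto_rpow_atTop (half_pos ha)
  filter_upwards [h1.eventually_ge_atTop (C * 2 ^ (a / 2)), eventually_ge_atTop 1] with X hX hX1 n hn hnX
  have hX0 : 0 < X := by linarith
  calc (n.divisors.card : ℝ) ≤ C * (n : ℝ) ^ (a / 2) := hd n hn
    _ ≤ C * (2 * X) ^ (a / 2) := by
        apply mul_le_mul_of_nonneg_left _ hC.le
        exact Real.rpow_le_rpow (by positivity) hnX (by positivity)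
    _ = C * 2 ^ (a / 2) * X ^ (a / 2) := by
        rw [Real.mul_rpow (by norm_num) hX0.le]; ring
    _ ≤ X ^ (a / 2) * X ^ (a / 2) := mul_le_mul_of_nonneg_right hX (by positivity)
    _ = X ^ a := by rw [← Real.rpow_add hX0]; ring_nf

lemma GX_nonneg (X : ℝ) (Q : ℕ) : 0 ≤ GX X Q := Finset.sum_nonneg fun _ _ => sq_nonneg _

theorem main_small (ε : ℝ) (hε : 0 < ε) (hε1 : ε ≤ 1) : ∃ X₀ : ℝ, ∀ X : ℝ, X₀ ≤ X → ∀ Y V : ℝ,
    0 ≤ Y → Y ≤ X → 1 ≤ V →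
    (((Ioc ⌊Y⌋₊ ⌊2 * Y⌋₊).filter (fun Q : ℕ => GX X Q <
      X * (2 * Real.log Q - Real.log X - Real.log V - ε * Real.log X))).card : ℝ) ≤ Y / V := by
  obtain ⟨C, hC, hcore⟩ := core_diag (ε / 40) (by positivity) (by linarith)
  obtain ⟨Cs, hCs, hsup⟩ := sup_bb
  have ha : 0 < ε / 512 := by positivity
  have hfl : Tendsto (fun X : ℝ => ⌊X⌋₊) atTop atTop := tendsto_nat_floor_atTop
  have hv1 : Tendsto (fun X : ℝ => X ^ (ε / 512)) atTop atTop := tendsto_rpow_atTop ha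
  have hlog1 : Tendsto (fun X : ℝ => 11 / 16 * (ε * Real.log X)) atTop atTop :=
    (Real.tendsto_log_atTop.const_mul_atTop hε).const_mul_atTop (by norm_num)
  have hev : ∀ᶠ X : ℝ in atTop, ∀ Y V : ℝ, 0 ≤ Y → Y ≤ X → 1 ≤ V →
    (((Ioc ⌊Y⌋₊ ⌊2 * Y⌋₊).filter (fun Q : ℕ => GX X Q <
      X * (2 * Real.log Q - Real.log X - Real.log V - ε * Real.log X))).card : ℝ) ≤ Y / V := by
    filter_upwards [hfl.eventually hcore, hv1.eventually_ge_atTop 1000, hlog1.eventually_ge_atTop (C + 6),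
      log8_le 2 _ ha, log8_le C _ ha, log8_le (2 * Cs) _ ha, tau_le _ ha, eventually_ge_atTop 1]
      with X hc hv hfin hL1 hL3 hLs htau hX1 Y V hY hYX hV
    have hX0 : 0 < X := by linarith
    obtain ⟨v, hvdef⟩ : ∃ v, v = X ^ (ε / 512) := ⟨_, rfl⟩
    rw [← hvdef] at hv hL1 hL3 hLs htau
    have hv0 : 0 < v := by linarith
    have hv1 : 1 ≤ v := by linarith
    have hlv : Real.log v = ε / 512 * Real.log X := by rw [hvdef, Real.log_rpow hX0]
    have hv512 : Real.log (v ^ 512) = ε * Real.log X := by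
      rw [Real.log_pow, hlv]; push_cast; ring
    have hlogX0 : 0 ≤ Real.log X := Real.log_nonneg hX1
    have hvX : v ^ 512 ≤ X := by
      rw [← Real.log_le_log_iff (by positivity) hX0, hv512]
      nlinarith
    set S := (Ioc ⌊Y⌋₊ ⌊2 * Y⌋₊).filter (fun Q : ℕ => GX X Q <
      X * (2 * Real.log Q - Real.log X - Real.log V - ε * Real.log X)) with hS
    rcases S.eq_empty_or_nonempty with he | hne
    · rw [he]; simp only [card_empty, Nat.cast_zero]; positivity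
    obtain ⟨Q0, hQ0⟩ := hne
    have hV0 : 0 < V := by linarith
    have hXY : X * v ^ 512 * V ≤ 4 * Y ^ 2 := by
      rw [hS, mem_filter, mem_Ioc] at hQ0
      have h1 : Q0 ≤ ⌊2 * Y⌋₊ := hQ0.1.2
      have h2 : (Q0 : ℝ) ≤ 2 * Y := (Nat.le_floor_iff (by linarith)).1 h1
      have h3 : 0 < X * (2 * Real.log Q0 - Real.log X - Real.log V - ε * Real.log X) :=
        lt_of_le_of_lt (GX_nonneg X Q0) hQ0.2
      have h4 : 0 < 2 * Real.log Q0 - Real.log X - Real.log V - ε * Real.log X := by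
        by_contra hcon
        push Not at hcon
        have := mul_nonpos_of_nonneg_of_nonpos hX0.le hcon
        linarith
      have h5 : 0 < (Q0 : ℝ) := by
        have : 0 < Q0 := lt_of_le_of_lt (Nat.zero_le _) hQ0.1.1
        exact_mod_cast this
      have h6 : Real.log (X * v ^ 512 * V) < Real.log ((Q0 : ℝ) ^ 2) := by
        rw [Real.log_mul (by positivity) hV0.ne', Real.log_mul hX0.ne' (by positivity), hv512, Real.log_pow]
        push_cast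
        linarith
      have h7 : X * v ^ 512 * V < (Q0 : ℝ) ^ 2 := (Real.log_lt_log_iff (by positivity) (by positivity)).1 h6
      have h8 : (Q0 : ℝ) ^ 2 ≤ (2 * Y) ^ 2 := pow_le_pow_left₀ h5.le h2 2
      nlinarith
    have hY1 : 1 ≤ Y := by
      by_contra hcon
      push Not at hcon
      have h1 : Y ^ 2 < 1 := by nlinarith
      have h2 : (1:ℝ) * v ^ 512 * 1 ≤ X * v ^ 512 * V := by gcongr
      have h3 : v ≤ v ^ 512 := le_self_pow₀ hv1 (by norm_num)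
      linarith
    have hY0 : 0 < Y := by linarith
    obtain ⟨K, R, hK1, hKR, hRN, hK2, hK3, hK4, hRK, hRK2⟩ := params X Y V v hv hvX hY0 hYX hV hXY
    have hK1' : (1:ℝ) ≤ K := by exact_mod_cast hK1
    have hK0 : (0:ℝ) < K := by linarith
    have hR1 : 1 ≤ R := hK1.trans hKR
    have hR1' : (1:ℝ) ≤ R := by exact_mod_cast hR1
    have hN1 : 1 ≤ ⌊X⌋₊ := hR1.trans hRN
    have hN1' : (1:ℝ) ≤ ((⌊X⌋₊ : ℕ) : ℝ) := by exact_mod_cast hN1
    have hNX : ((⌊X⌋₊ : ℕ) : ℝ) ≤ X := Nat.floor_le hX0.le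
    have hRX : (R:ℝ) ≤ ((⌊X⌋₊ : ℕ) : ℝ) := by exact_mod_cast hRN
    obtain ⟨L, hL⟩ : ∃ L, L = 1 + Real.log (2 * X) := ⟨_, rfl⟩
    rw [← hL] at hL1 hLs
    have hlog2X : 0 ≤ Real.log (2 * X) := Real.log_nonneg (by linarith)
    have hL0 : 1 ≤ L := by linarith
    have hLpow : ∀ k : ℕ, k ≤ 8 → L ^ k ≤ L ^ 8 := fun k hk => pow_le_pow_right₀ hL0 hk
    have hlogN1 : 1 + Real.log ((⌊X⌋₊ : ℕ) : ℝ) ≤ L := by
      have := Real.log_le_log (by linarith) (by linarith : ((⌊X⌋₊ : ℕ) : ℝ) ≤ 2 * X); linarith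
    have hlogN0 : 0 ≤ Real.log ((⌊X⌋₊ : ℕ) : ℝ) := Real.log_nonneg hN1'
    have hlogR1 : 1 + Real.log (R:ℝ) ≤ L := by
      have := Real.log_le_log (by linarith) (by linarith : (R:ℝ) ≤ 2 * X); linarith
    have hlogR0 : 0 ≤ Real.log (R:ℝ) := Real.log_nonneg hR1'
    -- the sup bound
    have hb : ∀ α : ℝ, ‖∑ n ∈ Icc 1 ⌊X⌋₊, ((bb K R n : ℝ) : ℂ) * e (n * α)‖ ≤ X * v / K := by
      intro α
      refine (hsup ⌊X⌋₊ K R hK1 hKR hRN α).trans ?_
      have h1 : (((⌊X⌋₊ : ℕ) : ℝ)) / K + R ≤ 2 * (X / K) := by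
        have h2 : (((⌊X⌋₊ : ℕ) : ℝ)) / K ≤ X / K := by gcongr
        have h3 : (R:ℝ) ≤ X / K := by
          rw [le_div_iff₀ hK0]
          have h4 : (R:ℝ) * K * 1 ≤ R * K * v ^ 32 :=
            mul_le_mul_of_nonneg_left (one_le_pow₀ hv1) (by positivity)
          linarith
        linarith
      have h5 : 2 * Cs * (1 + Real.log ((⌊X⌋₊ : ℕ) : ℝ)) ^ 5 ≤ v := by
        refine le_trans ?_ hLs
        apply mul_le_mul_of_nonneg_left _ (by positivity)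
        exact (pow_le_pow_left₀ (by linarith) hlogN1 5).trans (hLpow 5 (by norm_num))
      have h6 : 0 ≤ (1 + Real.log ((⌊X⌋₊ : ℕ) : ℝ)) ^ 5 := by positivity
      calc Cs * ((((⌊X⌋₊ : ℕ) : ℝ)) / K + R) * (1 + Real.log ((⌊X⌋₊ : ℕ) : ℝ)) ^ 5
          ≤ Cs * (2 * (X / K)) * (1 + Real.log ((⌊X⌋₊ : ℕ) : ℝ)) ^ 5 := by gcongr
        _ = X / K * (2 * Cs * (1 + Real.log ((⌊X⌋₊ : ℕ) : ℝ)) ^ 5) := by ring
        _ ≤ X / K * v := mul_le_mul_of_nonneg_left h5 (by positivity)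
        _ = X * v / K := by ring
    -- pointwise bound of bb
    have hB : ∀ n ∈ Icc 1 ⌊X⌋₊, |bb K R n| ≤ v ^ 2 := by
      intro n hn
      rw [mem_Icc] at hn
      have hnX : (n:ℝ) ≤ 2 * X := by
        have : (n:ℝ) ≤ ((⌊X⌋₊ : ℕ) : ℝ) := by exact_mod_cast hn.2
        linarith
      refine (bb_le K R n hR1 hn.1).trans ?_
      have h1 : (1 + Real.log (R:ℝ)) ^ 3 ≤ v := by
        have h2 := (pow_le_pow_left₀ (by linarith) hlogR1 3).trans (hLpow 3 (by norm_num))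
        have : 0 ≤ L ^ 8 := by positivity
        linarith
      calc (n.divisors.card : ℝ) * (1 + Real.log (R:ℝ)) ^ 3 ≤ v * v :=
            mul_le_mul (htau n hn.1 hnX) h1 (by positivity) hv0.le
        _ = v ^ 2 := by ring
    have hF1 : ∑ n ∈ Icc 1 ⌊X⌋₊, bb K R n ^ 2 ≤ X * v ^ 4 := by
      have h1 : ∀ n ∈ Icc 1 ⌊X⌋₊, bb K R n ^ 2 ≤ v ^ 4 := by
        intro n hn
        rw [← sq_abs]
        calc |bb K R n| ^ 2 ≤ (v ^ 2) ^ 2 := pow_le_pow_left₀ (abs_nonneg _) (hB n hn) 2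
          _ = v ^ 4 := by ring
      have h2 := Finset.sum_le_card_nsmul _ _ _ h1
      rw [nsmul_eq_mul, Nat.card_Icc, Nat.add_sub_cancel] at h2
      exact h2.trans (mul_le_mul_of_nonneg_right hNX (by positivity))
    have hF2 : ∑ n ∈ Icc 1 ⌊X⌋₊, Lam n ^ 2 ≤ X * v ^ 4 := by
      have h1 : ∀ n ∈ Icc 1 ⌊X⌋₊, Lam n ^ 2 ≤ v ^ 4 := by
        intro n hn
        rw [mem_Icc] at hn
        have h3 : Lam n ≤ Real.log n := ArithmeticFunction.vonMangoldt_le_log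
        have hn1 : (1:ℝ) ≤ n := by exact_mod_cast hn.1
        have hnN : (n:ℝ) ≤ ((⌊X⌋₊ : ℕ) : ℝ) := by exact_mod_cast hn.2
        have h4 : Real.log n ≤ Real.log ((⌊X⌋₊ : ℕ) : ℝ) := Real.log_le_log (by linarith) hnN
        have h5 : Lam n ≤ v := by
          have h7 := hLpow 1 (by norm_num)
          rw [pow_one] at h7
          have : 0 ≤ L ^ 8 := by positivity
          linarith
        calc Lam n ^ 2 ≤ v ^ 2 := pow_le_pow_left₀ ArithmeticFunction.vonMangoldt_nonneg h5 2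
          _ ≤ v ^ 4 := pow_le_pow_right₀ hv1 (by norm_num)
      have h2 := Finset.sum_le_card_nsmul _ _ _ h1
      rw [nsmul_eq_mul, Nat.card_Icc, Nat.add_sub_cancel] at h2
      exact h2.trans (mul_le_mul_of_nonneg_right hNX (by positivity))
    have hT : ∀ h ∈ Icc 1 ⌊X⌋₊, (h.divisors.card : ℝ) ≤ v := by
      intro h hh
      rw [mem_Icc] at hh
      refine htau h hh.1 ?_
      have : (h:ℝ) ≤ ((⌊X⌋₊ : ℕ) : ℝ) := by exact_mod_cast hh.2
      linarith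
    have hbad1 := bad_card X Y V v K hv hY1 hYX hV hK2 Lam (bb K R) hT hb hF2
    have hbad2 := bad_card X Y V v K hv hY1 hYX hV hK2 (bb K R) (bb K R) hT hb hF1
    have hsub : S ⊆ (Ioc ⌊Y⌋₊ ⌊2 * Y⌋₊).filter (fun Q => X / v < |off ⌊X⌋₊ Q Lam (bb K R)|)
        ∪ (Ioc ⌊Y⌋₊ ⌊2 * Y⌋₊).filter (fun Q => X / v < |off ⌊X⌋₊ Q (bb K R) (bb K R)|) := by
      intro Q hQ
      rw [hS, mem_filter] at hQ
      rw [mem_union, mem_filter, mem_filter]
      by_contra hcon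
      push Not at hcon
      have hc1 := hcon.1 hQ.1
      have hc2 := hcon.2 hQ.1
      have hQI := mem_Ioc.1 hQ.1
      have hQ1 : Y < Q := by
        have h1 : Y < ⌊Y⌋₊ + 1 := Nat.lt_floor_add_one _
        have h2 : ((⌊Y⌋₊ : ℕ) : ℝ) + 1 ≤ Q := by exact_mod_cast hQI.1
        linarith
      have hQ2 : (Q : ℝ) ≤ 2 * Y := (Nat.le_floor_iff (by linarith)).1 hQI.2
      have := good_Q ε X Y V v C K R hε hC hv hvX hY1 hYX hV hXY hK1 hKR hRN hK2 hK3 hK4 hRK hRK2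
        (by rw [← hL]; exact hL1) hL3 htau hb hB (hc K R hK1 hKR hRN) hfin hlv Q hQ1 hQ2 hc1 hc2
      linarith [hQ.2]
    calc (S.card : ℝ) ≤ (((Ioc ⌊Y⌋₊ ⌊2 * Y⌋₊).filter (fun Q => X / v < |off ⌊X⌋₊ Q Lam (bb K R)|)
        ∪ (Ioc ⌊Y⌋₊ ⌊2 * Y⌋₊).filter (fun Q => X / v < |off ⌊X⌋₊ Q (bb K R) (bb K R)|)).card : ℝ) := by
          exact_mod_cast Finset.card_le_card hsub
      _ ≤ (((Ioc ⌊Y⌋₊ ⌊2 * Y⌋₊).filter (fun Q => X / v < |off ⌊X⌋₊ Q Lam (bb K R)|)).card : ℝ)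
        + (((Ioc ⌊Y⌋₊ ⌊2 * Y⌋₊).filter (fun Q => X / v < |off ⌊X⌋₊ Q (bb K R) (bb K R)|)).card : ℝ) := by
          exact_mod_cast Finset.card_union_le _ _
      _ ≤ Y / (2 * V) + Y / (2 * V) := add_le_add hbad1 hbad2
      _ = Y / V := by field_simp; ring
  obtain ⟨X₀, hX₀⟩ := eventually_atTop.1 hev
  exact ⟨X₀, hX₀⟩

theorem main_thm (ε : ℝ) (hε : 0 < ε) : ∃ X₀ : ℝ, ∀ X : ℝ, X₀ ≤ X → ∀ Y V : ℝ,
    0 ≤ Y → Y ≤ X → 1 ≤ V →
    (((Ioc ⌊Y⌋₊ ⌊2 * Y⌋₊).filter (fun Q : ℕ => GX X Q <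
      X * (2 * Real.log Q - Real.log X - Real.log V - ε * Real.log X))).card : ℝ) ≤ Y / V := by
  obtain ⟨X₀, hX₀⟩ := main_small (min ε 1) (lt_min hε one_pos) (min_le_right _ _)
  refine ⟨max X₀ 1, fun X hX Y V hY hYX hV => ?_⟩
  have hX1 : 1 ≤ X := (le_max_right _ _).trans hX
  refine le_trans ?_ (hX₀ X ((le_max_left _ _).trans hX) Y V hY hYX hV)
  have : ((Ioc ⌊Y⌋₊ ⌊2 * Y⌋₊).filter (fun Q : ℕ => GX X Q <
      X * (2 * Real.log Q - Real.log X - Real.log V - ε * Real.log X))) ⊆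
      ((Ioc ⌊Y⌋₊ ⌊2 * Y⌋₊).filter (fun Q : ℕ => GX X Q <
      X * (2 * Real.log Q - Real.log X - Real.log V - (min ε 1) * Real.log X))) := by
    intro Q hQ
    rw [mem_filter] at hQ ⊢
    refine ⟨hQ.1, lt_of_lt_of_le hQ.2 ?_⟩
    apply mul_le_mul_of_nonneg_left _ (by linarith)
    have : min ε 1 * Real.log X ≤ ε * Real.log X :=
      mul_le_mul_of_nonneg_right (min_le_left _ _) (Real.log_nonneg hX1)
    linarith
  exact_mod_cast Finset.card_le_card this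

end Pool.Agent.FG61
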