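import Pool.Agent.Lib_helper61.FG.Defs

set_option autoImplicit false

namespace Pool.Agent.FG61

open Finset Filter Topology

theorem WS_pf (n : ℕ) : (rad n).primeFactors = n.primeFactors := by
  unfold rad
  exact Nat.primeFactors_prod (fun p hp => Nat.prime_of_mem_primeFactors hp)

noncomputable def WS_h (p : ℕ) : ℝ :=
  4 * ((1 - (p : ℝ) ^ (-(3 / 4 : ℝ)))⁻¹) ^ 2 / Real.sqrt p

noncomputable def WS_f (k : ℕ) : ℝ := (∏ p ∈ k.primeFactors, WS_h p) / k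

theorem WS_wt (k : ℕ) : wt (rad k) / k = WS_f k := by
  unfold wt WS_f kap
  rw [WS_pf]
  congr 1
  have h1 : Real.sqrt (rad k : ℕ) = ∏ p ∈ k.primeFactors, Real.sqrt p := by
    unfold rad
    push_cast
    exact Real.sqrt_prod _ (fun p _ => Nat.cast_nonneg p)
  rw [h1]
  unfold WS_h
  rw [Finset.prod_div_distrib, Finset.prod_mul_distrib, Finset.prod_const, Finset.prod_pow]

theorem WS_h_nonneg (p : ℕ) : 0 ≤ WS_h p := by
  unfold WS_h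
  positivity

theorem WS_f_nonneg (k : ℕ) : 0 ≤ WS_f k := by
  unfold WS_f
  exact div_nonneg (Finset.prod_nonneg (fun p _ => WS_h_nonneg p)) (Nat.cast_nonneg k)

theorem WS_f_one : WS_f 1 = 1 := by
  unfold WS_f
  simp

theorem WS_f_mul {m n : ℕ} (h : Nat.Coprime m n) : WS_f (m * n) = WS_f m * WS_f n := by
  unfold WS_f
  rw [Nat.Coprime.primeFactors_mul h, Finset.prod_union h.disjoint_primeFactors]
  push_cast
  rw [mul_div_mul_comm]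

theorem WS_f_pow {p : ℕ} (hp : p.Prime) (n : ℕ) :
    WS_f (p ^ (n + 1)) = (WS_h p / p) * ((p : ℝ)⁻¹) ^ n := by
  unfold WS_f
  rw [Nat.primeFactors_prime_pow (Nat.succ_ne_zero n) hp, Finset.prod_singleton]
  push_cast
  have : (p : ℝ) ≠ 0 := by exact_mod_cast hp.ne_zero
  rw [inv_pow]
  field_simp
  ring

theorem WS_hasSum {p : ℕ} (hp : p.Prime) :
    HasSum (fun n : ℕ => WS_f (p ^ n)) (1 + (WS_h p / p) * (1 - (p : ℝ)⁻¹)⁻¹) := by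
  have hp1 : (1 : ℝ) < p := by exact_mod_cast hp.one_lt
  have h1 : HasSum (fun n : ℕ => ((p : ℝ)⁻¹) ^ n) (1 - (p : ℝ)⁻¹)⁻¹ :=
    hasSum_geometric_of_lt_one (by positivity) (inv_lt_one_of_one_lt₀ hp1)
  have h2 := h1.mul_left (WS_h p / p)
  have h3 : HasSum (fun n : ℕ => WS_f (p ^ (n + 1))) ((WS_h p / p) * (1 - (p : ℝ)⁻¹)⁻¹) := by
    have : (fun n : ℕ => WS_f (p ^ (n + 1))) = fun n : ℕ => (WS_h p / p) * ((p : ℝ)⁻¹) ^ n := by
      funext n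
      exact WS_f_pow hp n
    rw [this]
    exact h2
  have h4 := (hasSum_nat_add_iff (f := fun n : ℕ => WS_f (p ^ n)) 1).1 h3
  have h5 : ∑ i ∈ range 1, WS_f (p ^ i) = 1 := by
    simp [WS_f_one]
  rw [h5] at h4
  rw [add_comm]
  exact h4

noncomputable def WS_A : ℝ := (1 - (2 : ℝ) ^ (-(3 / 4 : ℝ)))⁻¹

theorem WS_h_le {p : ℕ} (hp : p.Prime) : WS_h p ≤ 4 * WS_A ^ 2 / Real.sqrt p := by
  unfold WS_h WS_A
  have hp2 : (2 : ℝ) ≤ p := by exact_mod_cast hp.two_le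
  have h1 : (p : ℝ) ^ (-(3 / 4 : ℝ)) ≤ (2 : ℝ) ^ (-(3 / 4 : ℝ)) :=
    Real.rpow_le_rpow_of_nonpos (by norm_num) hp2 (by norm_num)
  have h2 : (2 : ℝ) ^ (-(3 / 4 : ℝ)) < 1 :=
    Real.rpow_lt_one_of_one_lt_of_neg (by norm_num) (by norm_num)
  have h3 : (1 - (p : ℝ) ^ (-(3 / 4 : ℝ)))⁻¹ ≤ (1 - (2 : ℝ) ^ (-(3 / 4 : ℝ)))⁻¹ := by
    apply inv_anti₀ (by linarith) (by linarith)
  have h4 : 0 ≤ (1 - (p : ℝ) ^ (-(3 / 4 : ℝ)))⁻¹ := by
    apply inv_nonneg.2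
    linarith
  gcongr

theorem WS_tsum_le {p : ℕ} (hp : p.Prime) :
    ∑' n : ℕ, WS_f (p ^ n) ≤ Real.exp (8 * WS_A ^ 2 * (p : ℝ) ^ (-(3 / 2 : ℝ))) := by
  rw [(WS_hasSum hp).tsum_eq]
  have hp2 : (2 : ℝ) ≤ p := by exact_mod_cast hp.two_le
  have hp0 : (0 : ℝ) < p := by linarith
  have h1 : (1 - (p : ℝ)⁻¹)⁻¹ ≤ 2 := by
    have h2 : (p : ℝ)⁻¹ ≤ 1 / 2 := by
      rw [inv_eq_one_div]
      exact one_div_le_one_div_of_le (by norm_num) hp2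
    have h3 : (1 / 2 : ℝ) ≤ 1 - (p : ℝ)⁻¹ := by linarith
    calc (1 - (p : ℝ)⁻¹)⁻¹ ≤ (1 / 2 : ℝ)⁻¹ := inv_anti₀ (by norm_num) h3
      _ = 2 := by norm_num
  have h2 : WS_h p / p ≤ (4 * WS_A ^ 2 / Real.sqrt p) / p :=
    div_le_div_of_nonneg_right (WS_h_le hp) hp0.le
  have h3 : (p : ℝ) ^ (-(3 / 2 : ℝ)) = 1 / Real.sqrt p / p := by
    rw [Real.sqrt_eq_rpow, div_div, one_div, ← Real.rpow_add_one hp0.ne', Real.rpow_neg hp0.le]
    norm_num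
  have h4 : (WS_h p / p) * (1 - (p : ℝ)⁻¹)⁻¹ ≤ 8 * WS_A ^ 2 * (p : ℝ) ^ (-(3 / 2 : ℝ)) := by
    calc (WS_h p / p) * (1 - (p : ℝ)⁻¹)⁻¹ ≤ (WS_h p / p) * 2 :=
          mul_le_mul_of_nonneg_left h1 (div_nonneg (WS_h_nonneg p) hp0.le)
      _ ≤ ((4 * WS_A ^ 2 / Real.sqrt p) / p) * 2 := mul_le_mul_of_nonneg_right h2 (by norm_num)
      _ = 8 * WS_A ^ 2 * (p : ℝ) ^ (-(3 / 2 : ℝ)) := by rw [h3]; ring
  have h5 := Real.add_one_le_exp (8 * WS_A ^ 2 * (p : ℝ) ^ (-(3 / 2 : ℝ)))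
  linarith

theorem wt_sum : ∃ C : ℝ, 0 ≤ C ∧ ∀ Z : ℕ, ∑ k ∈ Icc 1 Z, wt (rad k) / k ≤ C := by
  have hsum : Summable (fun n : ℕ => (n : ℝ) ^ (-(3 / 2 : ℝ))) :=
    Real.summable_nat_rpow.2 (by norm_num)
  refine ⟨Real.exp (8 * WS_A ^ 2 * ∑' n : ℕ, (n : ℝ) ^ (-(3 / 2 : ℝ))), (Real.exp_pos _).le, ?_⟩
  intro Z
  obtain ⟨hs, hS⟩ := EulerProduct.summable_and_hasSum_smoothNumbers_prod_primesBelow_tsum
    (f := WS_f) WS_f_one (fun {m n} h => WS_f_mul h) (fun {p} hp => (WS_hasSum hp).summable.norm)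
    (Z + 1)
  -- finite sum at most the sum over smooth numbers
  have h1 : ∑ k ∈ Icc 1 Z, wt (rad k) / k
      ≤ ∏ p ∈ (Z + 1).primesBelow, ∑' n : ℕ, WS_f (p ^ n) := by
    have hmem : ∀ k ∈ Icc 1 Z, k ∈ (Z + 1).smoothNumbers := by
      intro k hk
      rw [Finset.mem_Icc] at hk
      exact Nat.mem_smoothNumbers_of_lt (by omega) (by omega)
    have h2 : ∑ k ∈ Icc 1 Z, wt (rad k) / k
        = ∑ m ∈ (Icc 1 Z).attach.image (fun k => (⟨k.1, hmem k.1 k.2⟩ : (Z + 1).smoothNumbers)),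
            WS_f m := by
      rw [Finset.sum_image]
      · rw [← Finset.sum_attach]
        exact Finset.sum_congr rfl (fun k _ => WS_wt k)
      · intro a _ b _ hab
        have := congrArg Subtype.val hab
        exact Subtype.ext this
    rw [h2]
    exact sum_le_hasSum _ (fun m _ => WS_f_nonneg m) hS
  refine h1.trans ?_
  have h3 : ∏ p ∈ (Z + 1).primesBelow, ∑' n : ℕ, WS_f (p ^ n)
      ≤ ∏ p ∈ (Z + 1).primesBelow, Real.exp (8 * WS_A ^ 2 * (p : ℝ) ^ (-(3 / 2 : ℝ))) := by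
    apply Finset.prod_le_prod
    · intro p _
      exact tsum_nonneg (fun n => WS_f_nonneg _)
    · intro p hp
      exact WS_tsum_le (Nat.prime_of_mem_primesBelow hp)
  refine h3.trans ?_
  rw [← Real.exp_sum, ← Finset.mul_sum]
  apply Real.exp_le_exp.2
  apply mul_le_mul_of_nonneg_left _ (by positivity)
  exact hsum.sum_le_tsum _ (fun n _ => Real.rpow_nonneg (Nat.cast_nonneg n) _)


end Pool.Agent.FG61
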